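import Pool.Agent.Lib.MP_66ef6b_al.PL.Defs

set_option autoImplicit false

/-!
# MP_66ef6b_al, THEOREM L (helper14). Part A: fixed point ratios of `SL_n(K)`

TARGET (THA): for every `δ > 0` there are `q₀`, `R` such that for all finite fields `K`, all `n`, all
proper subgroups `S` of `SL_n(K)` and all non-central `f ∈ SL_n(K)` which are in at least `δ |SL_n(K)|`
conjugates `y⁻¹ S y`: `|K| < q₀` and `rank (f - λ) ≤ R` for some `λ ∈ K`.

PLAN. A commutator `[f, t]`, `t` in a suitable subgroup `T`, has many fixed points (AVG, PICK) and lies in a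
subgroup `SL_2(L)` (A1: `L = K`; A2: `[L : K] = 2 k`). An element of `SL_2(L)` with many fixed points forces
many fixed points of `SL_2(L)` if `|L|` is large (SL2F: commutators, sizes of conjugacy classes, Burnside's
lemma, no subgroups of small index). The fixed points of `SL_2(L)` are climbed up to fixed points of `SL(V)`
(MAUT, STEP, CLM: a Mautner argument), a contradiction.

Module `XXX` = file `PL/XXX.lean`, `import Pool.Agent.Lib.MP_66ef6b_al.PL.SpecC` (or `SpecA`, `SpecB`),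
namespace `Pool.Agent.Lib.MP66ef6b.PL`, own lemmas in the namespace `...PL.XXXM`, theorem
`specXXX (hYYY : SpecYYY) .. : SpecXXX`; any Spec may be a hypothesis.
-/

namespace Pool.Agent.Lib.MP66ef6b.PL

/-! ## Part 1: actions -/

/-- AVG [120 lines]. Commutators with the elements of a subgroup have many fixed points on average.

Proof. Let `A = fx {f}`. If `ω ∈ A` and `t⁻¹ ω ∈ A` then `f t f⁻¹ t⁻¹` fixes `ω` (`f t f⁻¹ (t⁻¹ ω) = f t t⁻¹ ω = f ω = ω`).
So the sum is at least `∑_t #{ω ∈ A | t⁻¹ ω ∈ A} = ∑_{ω ∈ A} N ω`, where `N ω = #{t ∈ T | t ω ∈ A}` (replace `t` by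
`t⁻¹`). `N (t ω) = N ω` for `t ∈ T`, so `∑_ω (N ω)^2 = ∑_ω ∑_t [t ω ∈ A] N (t ω) = |T| ∑_{ω ∈ A} N ω`, and
`∑_ω N ω = |T| |A|`. Cauchy-Schwarz: `(|T| |A|)^2 ≤ |Ω| |T| ∑_{ω ∈ A} N ω`. Divide by `|T|`. -/
def SpecAVG : Prop := ∀ (Γ Ω : Type) [Group Γ] [MulAction Γ Ω] [Finite Ω] (T : Subgroup Γ)
  [Fintype T] (f : Γ), Fintype.card T * (fx Ω {f}).ncard ^ 2 ≤
    Nat.card Ω * ∑ t : T, (fx Ω {f * t * f⁻¹ * (t : Γ)⁻¹}).ncard

/-- PICK [100 lines] (AVG). Consequences.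

Proof. AVG gives `∑_t |fx [f, t]| ≥ δ² |T| |Ω|`. (1) The term `t = 1` is `|Ω|`, so the other `|T| - 1` terms have
a sum `≥ (δ² |T| - 1) |Ω| ≥ (δ² / 2) |T| |Ω|`. (`|T| ≥ 2` because `δ ≤ 1`.) (2) If `g` is the number of the `t` with
`|fx [f, t]| ≥ (δ² / 2) |Ω|` then the sum is at most `g |Ω| + |T| (δ² / 2) |Ω|`. -/
def SpecPICK : Prop := ∀ (Γ Ω : Type) [Group Γ] [MulAction Γ Ω] [Finite Ω] [Nonempty Ω]
  (T : Subgroup Γ) [Finite T] (f : Γ) (δ : ℝ), 0 < δ → δ ≤ 1 →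
  δ * Nat.card Ω ≤ (fx Ω {f}).ncard →
  (2 ≤ δ ^ 2 * Nat.card T → ∃ t ∈ T, t ≠ 1 ∧
    δ ^ 2 / 2 * Nat.card Ω ≤ (fx Ω {f * t * f⁻¹ * t⁻¹}).ncard) ∧
  δ ^ 2 / 2 * Nat.card T ≤
    {t | t ∈ T ∧ δ ^ 2 / 2 * Nat.card Ω ≤ (fx Ω {f * t * f⁻¹ * t⁻¹}).ncard}.ncard

/-- MAUT [120 lines]. The Mautner step.

Proof. `C = fx (M ∪ range θ)`, `A_u = θ_u • fx M` for `u : U`; `|A_u| = |fx M|`, `C ⊆ fx M`, `C ⊆ A_u`. Claim:
`A_u ∩ A_u' ⊆ C` for `u ≠ u'`. Let `ω` be in it, `S` its stabiliser: `θ_u M θ_u⁻¹ ≤ S`, `θ_u' M θ_u'⁻¹ ≤ S`. For `m ∈ M`: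
`θ_u m θ_u⁻¹ = m (m⁻¹ θ_u m) θ_u⁻¹ = m θ_(ρ m⁻¹ u - u)`, so `S` contains `(m θ_(ρ m⁻¹ u' - u'))⁻¹ (m θ_(ρ m⁻¹ u - u)) =
θ_(ρ m⁻¹ d - d)` with `d = u - u' ≠ 0`. `B = {b | θ_b ∈ S}` is an additive subgroup and contains `ρ m d - d` for all
`m ∈ M`, so `B = ⊤`, `range θ ≤ S`, and `M ≤ S` because `m = θ_u⁻¹ (θ_u m θ_u⁻¹) θ_u`. So `ω ∈ C`. The sets `A_u ∖ C` are
disjoint and have at least `|fx M| - |C|` elements. -/
def SpecMAUT : Prop := ∀ (Γ Ω U : Type) [Group Γ] [MulAction Γ Ω] [Finite Ω] [AddCommGroup U]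
  [Finite U] (θ : Multiplicative U →* Γ) (M : Subgroup Γ) (ρ : Γ → U →+ U),
  (∀ m ∈ M, ∀ u : U, m * θ (Multiplicative.ofAdd u) * m⁻¹ = θ (Multiplicative.ofAdd (ρ m u))) →
  (∀ u : U, u ≠ 0 → ∀ B : AddSubgroup U, (∀ m ∈ M, ρ m u - u ∈ B) → B = ⊤) →
  Nat.card U * (fx Ω (M : Set Γ)).ncard ≤
    Nat.card U * (fx Ω ((M : Set Γ) ∪ Set.range θ)).ncard + Nat.card Ω

/-! ## Part 2: `SL_2(L)` -/

/-- IDX [120 lines]. `SL_2(L)` has no proper subgroups of small index.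

Proof. `q = m! + 4`. Suppose `H ≠ ⊤`, `H.index ≤ m` (`H.index ≠ 0`, the group is finite). `N = H.normalCore` has
index at most `m!` (the group acts on the cosets of `H`, kernel `N`). The image of `N` in `PSL_2(L)` is normal; the
group is simple (`Matrix.ProjectiveSpecialLinearGroup.rank_two_simple`). If the image is `⊥` then `N ≤ center`,
so `|PSL_2(L)| ≤ m!`; but `PSL_2(L)` has at least `|L|` elements (the images of the `(1 a; 0 1)`). If it is `⊤` then
every element is `n z`, `z` central; a commutator of two elements is a commutator of elements of `N`; by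
`Matrix.SL2.commutator_eq_top` (there is an `a ≠ 0` with `a² ≠ 1`) `N = ⊤`, `H = ⊤`. -/
def SpecIDX : Prop := ∀ m : ℕ, ∃ q : ℕ, ∀ (L : Type) [Field L] [Finite L], q ≤ Nat.card L →
  ∀ H : Subgroup (SLn 2 L), H ≠ ⊤ → m < H.index

/-- ORB [80 lines]. Burnside's lemma.

Proof. `MulAction.sum_card_fixedBy_eq_card_orbits_mul_card_group`: the sum is `|Γ|` times the number `k` of the
orbits. Every orbit has more than `m` elements (the index of the stabiliser, which is not `⊤`); so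
`m k ≤ |Ω|`. -/
def SpecORB : Prop := ∀ (Γ Ω : Type) [Group Γ] [Fintype Γ] [MulAction Γ Ω] [Finite Ω] (m : ℕ),
  fx Ω (Set.univ : Set Γ) = ∅ → (∀ H : Subgroup Γ, H ≠ ⊤ → m < H.index) →
  m * ∑ g : Γ, (fx Ω {g}).ncard ≤ Fintype.card Γ * Nat.card Ω

/-- CEN [120 lines]. Centralisers in `SL_2(L)`.

Proof. Let `x` commute with `g = (a b; c d)`. Claim: `x = α + β g` with `α, β ∈ L`. If `b ≠ 0` let `β = x₀₁ / b`,
`y = x - β g = (p 0; r s)` commutes with `g`; the entry `(0,1)` of `y g = g y` gives `p b = b s`, the entry `(1,1)` gives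
`r b + s d = d s`; so `y = p`. If `c ≠ 0`: the same with the transposed matrices. If `b = c = 0` then `a ≠ d` (not
central), `x` is diagonal, and `x = α + β g` can be solved. `det x = α² + α β τ + β² = 1` (`τ` = trace, `det g = 1`)
has at most two solutions `α` for every `β`. -/
def SpecCEN : Prop := ∀ (L : Type) [Field L] [Finite L] (g : SLn 2 L),
  g ∉ Subgroup.center (SLn 2 L) →
  Nat.card (Subgroup.centralizer ({g} : Set (SLn 2 L))) ≤ 2 * Nat.card L

/-- TRC [120 lines]. Commutators with a root group.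

Proof. There is a vector `v` such that `v, g v` are independent (`g` is not scalar; scalar matrices are central).
With `P = (v, g v)`: `g = P C P⁻¹`, `C = (0 -1; 1 τ)`. `t a = P (1 a; 0 1) P⁻¹`. `C (1 a; 0 1) C⁻¹ = (1 0; -a 1)`, so
`[g, t a] = P (1 -a; -a 1 + a²) P⁻¹`. It is central only if it is scalar, `a = 0`. -/
def SpecTRC : Prop := ∀ (L : Type) [Field L] (g : SLn 2 L), g ∉ Subgroup.center (SLn 2 L) →
  ∃ t : Multiplicative L →* SLn 2 L, Function.Injective t ∧ ∀ a : L,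
    Matrix.trace (g * t (Multiplicative.ofAdd a) * g⁻¹ * (t (Multiplicative.ofAdd a))⁻¹ :
      SLn 2 L).1 = 2 + a ^ 2 ∧
    (a ≠ 0 → g * t (Multiplicative.ofAdd a) * g⁻¹ * (t (Multiplicative.ofAdd a))⁻¹ ∉
      Subgroup.center (SLn 2 L))

/-- CLS [150 lines] (CEN). Many elements.

Proof. For every `a ∈ Λ` the conjugacy class of `h a` has `|SL_2(L)| / |centralizer| ≥ |SL_2(L)| / (2 |L|)` elements
(CEN). Classes with different traces are disjoint; every value `2 + a²` is taken by at most two `a`. So the set has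
at least `(|Λ| / 2) * |SL_2(L)| / (2 |L|)` elements. -/
def SpecCLS : Prop := ∀ (L : Type) [Field L] [Finite L] (Λ : Set L) (h : L → SLn 2 L),
  (∀ a ∈ Λ, h a ∉ Subgroup.center (SLn 2 L) ∧ Matrix.trace (h a).1 = 2 + a ^ 2) →
  Λ.ncard * Nat.card (SLn 2 L) ≤
    4 * Nat.card L * {x : SLn 2 L | ∃ a ∈ Λ, ∃ y : SLn 2 L, x = y * h a * y⁻¹}.ncard

/-- SL2M [150 lines] (PICK, IDX, ORB, TRC, CLS). Fixed points of elements of `SL_2(L)`.

Proof. `m > 32 / ε⁴`, `q ≥` the number of IDX for `m`, `q ≥ 4 / ε²`. Suppose `|fx {g}| ≥ ε |Ω|`. `t` from TRC, `T` = its range,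
`|T| = |L|`. PICK (2): the set `Λ₀` of the `a` with `|fx [g, t a]| ≥ (ε² / 2) |Ω|` has at least `(ε² / 2) |L|`
elements; `Λ = Λ₀ ∖ {0}` has at least `(ε² / 4) |L|`. All conjugates of the `[g, t a]` have as many fixed points.
CLS: at least `(ε² / 16) |SL_2(L)|` elements `x` have `|fx {x}| ≥ (ε² / 2) |Ω|`. So
`∑ |fx {x}| ≥ (ε⁴ / 32) |SL_2(L)| |Ω|`, against ORB. -/
def SpecSL2M : Prop := ∀ ε : ℝ, 0 < ε → ε ≤ 1 → ∃ q : ℕ, ∀ (L : Type) [Field L] [Finite L],
  q ≤ Nat.card L → ∀ (Ω : Type) [MulAction (SLn 2 L) Ω] [Finite Ω] [Nonempty Ω],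
  fx Ω (Set.univ : Set (SLn 2 L)) = ∅ → ∀ g : SLn 2 L, g ∉ Subgroup.center (SLn 2 L) →
  ((fx Ω {g}).ncard : ℝ) < ε * Nat.card Ω

/-- SL2F [80 lines] (SL2M). The same with fixed points.

Proof. Apply SL2M to the set `Ω'` of the points which are not fixed by the whole group (invariant; if it is empty
there is nothing to show). -/
def SpecSL2F : Prop := ∀ ε : ℝ, 0 < ε → ε ≤ 1 → ∃ q : ℕ, ∀ (L : Type) [Field L] [Finite L],
  q ≤ Nat.card L → ∀ (Ω : Type) [MulAction (SLn 2 L) Ω] [Finite Ω],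
  ∀ g : SLn 2 L, g ∉ Subgroup.center (SLn 2 L) →
  ((fx Ω {g}).ncard : ℝ) ≤ (fx Ω (Set.univ : Set (SLn 2 L))).ncard + ε * Nat.card Ω

/-! ## Part 3: climbing -/

/-- TVE [60 lines]. Transvections exist in `SL(V)`.

Proof. `LinearEquiv.transvection`, `LinearEquiv.transvection.det_eq_one`. -/
def SpecTVE : Prop := ∀ (K V : Type) [Field K] [AddCommGroup V] [Module K V]
  [Module.Finite K V] (v : V) (φ : Module.Dual K V), φ v = 0 →
  ∃ g : SpecialLinearGroup K V, ∀ x : V, g x = x + φ x • v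

/-- IRE [150 lines] (TVE). The transvections act irreducibly.

Proof. `M = closure (TrS W W')`. `pres`, `triv`: for the generators, and closure induction. `gen`: let `w ∈ W`, not in `K u`.
There is a `φ` with `φ w = 0`, `φ = 0` on `W'`, `φ u = 1` (`u ∉ span {w} ⊔ W'`); the transvection `g = 1 + φ(·) w` is in `TrS`,
`g u - u = w ∈ B`. If `w ∈ K u`: choose `z ∈ W`, `z ∉ K u` (dimension at least two): `w = (z + w) - z`. `dual`: let `χ` vanish
on `W'`, `χ ∉ K ψ`. There is a `w ∈ W` with `χ w = 0`, `ψ w = -1` (the restrictions to `W` are independent). `g = 1 + χ(·) w`,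
`g⁻¹ = 1 - χ(·) w`, `ψ ∘ g⁻¹ - ψ = -(ψ w) χ = χ ∈ B`. If `χ ∈ K ψ` choose a functional `ζ ∉ K ψ` vanishing on `W'`:
`χ = (ζ + χ) - ζ`. -/
def SpecIRE : Prop := ∀ (K V : Type) [Field K] [AddCommGroup V] [Module K V]
  [Module.Finite K V] (W W' : Submodule K V), IsCompl W W' → 2 ≤ Module.finrank K W →
  Irr (Subgroup.closure (TrS W W')) W W'

/-- BLK [100 lines]. The block group `SL_2(L)`.

Proof. The formula defines a homomorphism to `V ≃ₗ[K] V` (through `Ψ`). `det ∘ β` is a homomorphism from `SL_2(L)` to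
the abelian group of units of `K`, so it is trivial because `SL_2(L)` is its own commutator subgroup
(`Matrix.SL2.commutator_eq_top`; there is an `a ≠ 0` with `a² ≠ 1` because `|L| ≥ 4`). -/
def SpecBLK : Prop := ∀ (K V L D : Type) [Field K] [AddCommGroup V] [Module K V]
  [Module.Finite K V] [Field L] [Finite L] [Algebra K L] [AddCommGroup D] [Module K D]
  (Ψ : V ≃ₗ[K] (L × L) × D), 4 ≤ Nat.card L →
  ∃ β : SLn 2 L →* SpecialLinearGroup K V, IsBlk Ψ β

/-- IRB [200 lines]. The block group acts irreducibly.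

Proof. `M = range β`, `W = {v | (Ψ v).2 = 0}`, `W' = {v | (Ψ v).1 = 0}`. `gen`: let `Ψ u = ((x, y), 0)` and identify `W` with `L × L`.
If `y ≠ 0`: `(1 a; 0 1) u - u = (a y, 0)`, so `B` contains all `(b, 0)`. If also `x ≠ 0` then `(1 0; a 1)` gives all `(0, b)`. If
`x = 0`: `(1 0; a 1) (1 1; 0 1) u - u = (y, a y)`, so `(0, a y) ∈ B`. The case `y = 0`, `x ≠ 0` is symmetric. `dual`: a
`K`-functional `ψ` on `L × L` is `(x, y) ↦ ψ₁ x + ψ₂ y`. For `ψ₁ ≠ 0` the map `a ↦ ψ₁ (a ·)`, `L → Dual K L`, is injective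
and `K`-linear, so it is onto (equal dimensions). `ψ ∘ (1 a; 0 1) - ψ = (0, ψ₁ (a ·))`: so `B` contains all `(0, ζ)`; if also
`ψ₂ ≠ 0` then all `(ζ, 0)` (`(1 0; a 1)`). If `ψ₂ = 0`: `ψ ∘ ((1 1; 0 1) (1 0; a 1))`: `(x, y) ↦ ψ₁ (x + y + a x)`, minus `ψ`:
`(ψ₁ (a ·), ψ₁)`; so `(ψ₁ (a ·), 0) ∈ B`. The case `ψ₁ = 0` is symmetric. -/
def SpecIRB : Prop := ∀ (K V L D : Type) [Field K] [AddCommGroup V] [Module K V]
  [Module.Finite K V] [Field L] [Finite L] [Algebra K L] [AddCommGroup D] [Module K D]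
  (Ψ : V ≃ₗ[K] (L × L) × D) (β : SLn 2 L →* SpecialLinearGroup K V), IsBlk Ψ β →
  Irr β.range (LinearMap.ker ((LinearMap.snd K (L × L) D).comp Ψ.toLinearMap))
    (LinearMap.ker ((LinearMap.fst K (L × L) D).comp Ψ.toLinearMap))

/-- GEN [150 lines] (TVE). Generation.

Proof. `xs` is the functional with `xs x = 1` and `xs = 0` on `W` and `W''`. Let `g = 1 + ψ(·) u`, `u = w + α x`, `w ∈ W`, `ψ u = 0`,
`ψ = 0` on `W''`. Put `φ = ψ - ψ x • xs`, so `φ x = 0`, `φ = 0` on `W''`.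
Case `α = 0`: `φ w = ψ w = 0`, `g = (1 + φ(·) w) (1 + (ψ x) xs(·) w)`, the second factor is in `S` (first hypothesis, with the vector
`ψ x • w`). The first one is `[θ, η]` with `θ = 1 + xs(·) w`, `η = 1 + φ(·) x`: `θ η θ⁻¹ = 1 + φ(·) (x + w)`, and
`(1 + φ(·) (x + w)) (1 - φ(·) x) = 1 + φ(·) w`.
Case `α ≠ 0`: `h = 1 - α⁻¹ xs(·) w ∈ S`, `h u = α x`, `h g h⁻¹ = 1 + (ψ ∘ h⁻¹)(·) α x`, and `ψ ∘ h⁻¹` vanishes on `W''` and at
`x` (`ψ (h⁻¹ (α x)) = ψ u = 0`), so this is in `S` (second hypothesis). -/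
def SpecGEN : Prop := ∀ (K V : Type) [Field K] [AddCommGroup V] [Module K V]
  [Module.Finite K V] (W W'' : Submodule K V) (x : V) (xs : Module.Dual K V),
  (∀ w ∈ W, xs w = 0) → (∀ w ∈ W'', xs w = 0) → xs x = 1 →
  ∀ S : Subgroup (SpecialLinearGroup K V),
  (∀ g : SpecialLinearGroup K V, (∃ w ∈ W, ∀ z : V, g z = z + xs z • w) → g ∈ S) →
  (∀ g : SpecialLinearGroup K V, (∃ φ : Module.Dual K V, φ x = 0 ∧ (∀ w ∈ W'', φ w = 0) ∧
    ∀ z : V, g z = z + φ z • x) → g ∈ S) →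
  TrS (W ⊔ Submodule.span K {x}) W'' ⊆ S

/-- STEP [200 lines] (MAUT, GEN, TVE). One step.

Proof. `xs` = the functional with `xs x = 1`, `xs = 0` on `W ⊔ W''`. `θ_w = 1 + xs(·) w` for `w ∈ W`: a homomorphism from the
additive group `W`; `m θ_w m⁻¹ = θ_(m w)` because `xs ∘ m⁻¹ = xs` (`m⁻¹` preserves `W` and fixes `x` and `W''`). MAUT with
`Irr.gen`: `|W| |fx M| ≤ |W| |fx (M ∪ range θ)| + |Ω|`. `η_φ = 1 + φ(·) x` for `φ` in the annihilator `U'` of
`span {x} ⊔ W''`, which has `|W|` elements (dimensions): `m η_φ m⁻¹ = η_(φ ∘ m⁻¹)`. MAUT with `Irr.dual`: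
`|W| |fx M| ≤ |W| |fx (M ∪ range η)| + |Ω|`. Both sets are subsets of `fx M`, so their intersection has at least
`|fx M| - 2 |Ω| / |W|` elements; by GEN (`S` = stabiliser of a point) it is contained in the fixed points of
`TrS (W ⊔ span {x}) W''`. -/
def SpecSTEP : Prop := ∀ (K V Ω : Type) [Field K] [Finite K] [AddCommGroup V] [Module K V]
  [Module.Finite K V] [MulAction (SpecialLinearGroup K V) Ω] [Finite Ω]
  (M : Subgroup (SpecialLinearGroup K V)) (W W'' : Submodule K V) (x : V), x ≠ 0 →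
  Disjoint (Submodule.span K {x}) W'' → IsCompl W (Submodule.span K {x} ⊔ W'') →
  Irr M W (Submodule.span K {x} ⊔ W'') →
  Nat.card W * (fx Ω (M : Set (SpecialLinearGroup K V))).ncard ≤
    Nat.card W * (fx Ω (TrS (W ⊔ Submodule.span K {x}) W'')).ncard + 2 * Nat.card Ω

/-- CLM [150 lines] (STEP, IRE). The climb.

Proof. Induction over the dimension of `W'`. `W' = ⊥`: `W = ⊤`. Otherwise choose `x ∈ W'`, `x ≠ 0`, and `W'' ≤ W'` with
`W' = span {x} ⊔ W''`, disjoint. STEP with `M = closure (TrS W W')` (`fx` of the closure = `fx (TrS W W')`), and the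
induction hypothesis for `W₁ = W ⊔ span {x}`, `W''`, `|W₁| ≥ 2 |W|`:
`|fx (TrS W W')| ≤ |fx (TrS ⊤ ⊥)| + 2 |Ω| / |W| + 4 |Ω| / |W₁|`. -/
def SpecCLM : Prop := ∀ (K V Ω : Type) [Field K] [Finite K] [AddCommGroup V] [Module K V]
  [Module.Finite K V] [MulAction (SpecialLinearGroup K V) Ω] [Finite Ω] (W W' : Submodule K V),
  IsCompl W W' → 2 ≤ Module.finrank K W →
  Nat.card W * (fx Ω (TrS W W')).ncard ≤
    Nat.card W * (fx Ω (TrS (⊤ : Submodule K V) ⊥)).ncard + 4 * Nat.card Ω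

/-- FUL [120 lines]. `SL(V)` is generated by transvections.

Proof. Take a basis, `Matrix.SpecialLinearGroup.toLin_equiv`. If the dimension is at most one the group is
trivial. `Matrix.SpecialLinearGroup.diagonal_transvection_induction'`: the matrix transvections correspond to
elements of `TrS ⊤ ⊥`; and `diag2n hij a = t_ij(a) t_ji(-a⁻¹) t_ij(a) t_ij(-1) t_ji(1) t_ij(-1)` (as in
`Matrix.diag2_decompose`). -/
def SpecFUL : Prop := ∀ (K V : Type) [Field K] [AddCommGroup V] [Module K V]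
  [Module.Finite K V], Subgroup.closure (TrS (⊤ : Submodule K V) ⊥) = ⊤

/-- CBK [120 lines] (SL2F, CLM, FUL). Blocks `SL_2(K)`.

Proof. SL2F with `ε / 2` for the action of `SL_2(K)` through `β`: `|fx {β g}| ≤ |fx (range β)| + (ε / 2) |Ω|`. With
`W, W'` as in IRB, every element `1 + φ(·) v` of `TrS W W'` is `β h`, `h = 1 + v φ` (`2 × 2` matrix, determinant
`1 + v₀ φ₀ + v₁ φ₁ = 1`); so `fx (range β) ⊆ fx (TrS W W')`. CLM: `|fx (TrS W W')| ≤ 4 |Ω| / |K|²` (by FUL a point fixed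
by `TrS ⊤ ⊥` is fixed by everything). Let `|K|² > 8 / ε`. -/
def SpecCBK : Prop := ∀ ε : ℝ, 0 < ε → ε ≤ 1 → ∃ q : ℕ, ∀ (K V D Ω : Type) [Field K] [Finite K]
  [AddCommGroup V] [Module K V] [Module.Finite K V] [AddCommGroup D] [Module K D]
  [MulAction (SpecialLinearGroup K V) Ω] [Finite Ω] [Nonempty Ω] (Ψ : V ≃ₗ[K] (K × K) × D)
  (β : SLn 2 K →* SpecialLinearGroup K V), IsBlk Ψ β → q ≤ Nat.card K →
  fx Ω (Set.univ : Set (SpecialLinearGroup K V)) = ∅ → ∀ g : SLn 2 K,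
  g ∉ Subgroup.center (SLn 2 K) → ((fx Ω {β g}).ncard : ℝ) < ε * Nat.card Ω

/-- CBL [150 lines] (SL2F, STEP, IRB, CLM, FUL). Blocks `SL_2(L)`.

Proof. As CBK; `W, W'` as in IRB, `W' ≠ ⊥` because `D` is not trivial; choose `x ∈ W'`, `x ≠ 0`, `W''` with `W' = span {x} ⊔ W''`.
STEP with `M = range β` (IRB) and CLM for `W ⊔ span {x}`, `W''`: `|fx (range β)| ≤ 2 |Ω| / |W| + 4 |Ω| / |W|`, `|W| = |L|²`. So
`|fx {β g}| ≤ (6 / |L|² + ε / 2) |Ω|`. -/
def SpecCBL : Prop := ∀ ε : ℝ, 0 < ε → ε ≤ 1 → ∃ q : ℕ, ∀ (K V L D Ω : Type) [Field K] [Finite K]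
  [AddCommGroup V] [Module K V] [Module.Finite K V] [Field L] [Finite L] [Algebra K L]
  [AddCommGroup D] [Module K D] [Nontrivial D] [MulAction (SpecialLinearGroup K V) Ω] [Finite Ω]
  [Nonempty Ω] (Ψ : V ≃ₗ[K] (L × L) × D) (β : SLn 2 L →* SpecialLinearGroup K V), IsBlk Ψ β →
  q ≤ Nat.card L → fx Ω (Set.univ : Set (SpecialLinearGroup K V)) = ∅ → ∀ g : SLn 2 L,
  g ∉ Subgroup.center (SLn 2 L) → ((fx Ω {β g}).ncard : ℝ) < ε * Nat.card Ω

/-! ## Part 4: large fields -/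

/-- VPH [80 lines]. A vector and a functional.

Proof. Choose `v` with `f v ∉ K v`. Then `f⁻¹ v ∉ K v`. If `f⁻¹ v = a v + b (f v)` then `b ≠ 0`; let `φ v = 0`, `φ (f v) = 1`.
Otherwise `v, f v, f⁻¹ v` are independent; let `φ v = 0`, `φ (f v) = φ (f⁻¹ v) = 1`. -/
def SpecVPH : Prop := ∀ (K V : Type) [Field K] [AddCommGroup V] [Module K V]
  (f : V ≃ₗ[K] V), (¬ ∃ a : K, ∀ v : V, f v = a • v) →
  ∃ (v : V) (φ : Module.Dual K V), φ v = 0 ∧ φ (f v) ≠ 0 ∧ φ (f.symm v) ≠ 0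

/-- A1B [150 lines]. The commutator is in a block.

Proof. `φ₁ = φ`, `φ₂ = φ ∘ f⁻¹`, `a = φ₁ (f v) ≠ 0`, `b = φ₂ v ≠ 0`, `φ₁ v = 0`, `φ₂ (f v) = 0`; `D = ker φ₁ ⊓ ker φ₂`;
`Ψ x = ((φ₂ x / b, φ₁ x / a), x - (φ₂ x / b) v - (φ₁ x / a) f v)`. `f t f⁻¹ = 1 + c φ₂(·) f v`, so for
`x = α v + β f v + d`: `[f, t] x = (α - c a β) v + (β + c b α - c² a b β) f v + d`. `g = (1, -c a; c b, 1 - c² a b)`, not
central because `c a ≠ 0`. -/
def SpecA1B : Prop := ∀ (K V : Type) [Field K] [AddCommGroup V] [Module K V]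
  [Module.Finite K V] (f t : SpecialLinearGroup K V) (v : V) (φ : Module.Dual K V) (c : K),
  φ v = 0 → φ (f v) ≠ 0 → φ ((f⁻¹ : SpecialLinearGroup K V) v) ≠ 0 → c ≠ 0 →
  (∀ x : V, t x = x + (c * φ x) • v) → ∃ (D : Submodule K V) (Ψ : V ≃ₗ[K] (K × K) × D)
  (g : SLn 2 K), g ∉ Subgroup.center (SLn 2 K) ∧
  ∀ β : SLn 2 K →* SpecialLinearGroup K V, IsBlk Ψ β → β g = f * t * f⁻¹ * t⁻¹

/-- A1 [100 lines] (PICK, VPH, TVE, A1B, BLK, CBK). Large fields.

Proof. `q` = the maximum of the number of CBK for `δ² / 2`, of `2 / δ²` and `4`. Suppose `|fx {f}| ≥ δ |Ω|`. `v, φ` from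
VPH, `T` = the transvections `1 + c φ(·) v`, `|T| = |K|` (`v, φ ≠ 0`). PICK: a `t ≠ 1` in `T` with
`|fx [f, t]| ≥ (δ² / 2) |Ω|`. A1B, BLK: `[f, t] = β g`, against CBK. -/
def SpecA1 : Prop := ∀ δ : ℝ, 0 < δ → δ ≤ 1 → ∃ q : ℕ, ∀ (K V Ω : Type) [Field K] [Finite K]
  [AddCommGroup V] [Module K V] [Module.Finite K V] [MulAction (SpecialLinearGroup K V) Ω]
  [Finite Ω] [Nonempty Ω], q ≤ Nat.card K → fx Ω (Set.univ : Set (SpecialLinearGroup K V)) = ∅ →
  ∀ f : SpecialLinearGroup K V, (¬ ∃ a : K, ∀ v : V, f v = a • v) →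
  ((fx Ω {f}).ncard : ℝ) < δ * Nat.card Ω

/-! ## Part 5: large support -/

/-- GRS [120 lines]. The greedy step.

Proof. Let `π, h : B → V ⧸ U` be the maps induced by `v ↦ v` and `v ↦ g v`. Suppose that there is no such `v`:
for all `v ∈ B` with `π v ≠ 0` there is a `c` with `h v = c π v`. The image of `π` has dimension at least
`finrank B - finrank U ≥ 2` (`rank g = n > 1 + finrank U + codim B`, take `a = 0` in the hypothesis). If `u ∈ B ∩ U` and
`π v ≠ 0` then `h (u + v)` and `h v` are multiples of `π v`, so `h u` is a multiple of `π v` for all these `v`, hence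
`h u = 0` (two independent `π v`). For `v, v'` with `π v, π v'` independent the factors `c` are the same (consider
`v + v'`), so `h = c π` for one `c` (compare two dependent ones with a third). So `(g - c) B ≤ U` and
`rank (g - c) ≤ finrank U + codim B`. -/
def SpecGRS : Prop := ∀ (K V : Type) [Field K] [AddCommGroup V] [Module K V]
  [Module.Finite K V] (g : V →ₗ[K] V) (U B : Submodule K V),
  (∀ a : K, 1 + Module.finrank K U + Module.finrank K V <
    Module.finrank K B + Module.finrank K (LinearMap.range (g - a • LinearMap.id))) →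
  ∃ v ∈ B, v ∉ U ∧ g v ∉ U ⊔ Submodule.span K {v}

/-- GRV [120 lines] (GRS). The greedy lemma.

Proof. Induction over `k`; for the vectors `v₁, .., v_j` let `U` be the span of the `v_i`, `g v_i` (dimension `2 j`). -/
def SpecGRV : Prop := ∀ (K V : Type) [Field K] [AddCommGroup V] [Module K V]
  [Module.Finite K V] (g : V →ₗ[K] V) (B : Submodule K V) (k : ℕ),
  (∀ a : K, 2 * k + Module.finrank K V <
    Module.finrank K B + Module.finrank K (LinearMap.range (g - a • LinearMap.id))) →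
  ∃ v : Fin k → V, (∀ i, v i ∈ B) ∧ LinearIndependent K (Sum.elim v (fun i => g (v i)))

/-- VFP [200 lines] (GRV). Vectors and functionals.

Proof. GRV with `B = ⊤` gives `v_i` with `v_i, f v_i` independent (`2 k` vectors). `C` = span of all `v_i, f v_i, f⁻¹ v_i`
(dimension at most `3 k`). GRV for `Dual K V`, `g = (φ ↦ φ ∘ f⁻¹)`, `B` = the annihilator of `C`, of codimension at
most `3 k`: `rank (g - a) = rank (f⁻¹ - a)` (transposed map); this is `rank (f - a⁻¹)` for `a ≠ 0`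
(`f⁻¹ - a = -a f⁻¹ (f - a⁻¹)`) and the dimension (`= rank (f - 0)`) for `a = 0`. -/
def SpecVFP : Prop := ∀ (K V : Type) [Field K] [AddCommGroup V] [Module K V]
  [Module.Finite K V] (f : V ≃ₗ[K] V) (k : ℕ),
  (∀ a : K, 5 * k < Module.finrank K (LinearMap.range (f.toLinearMap - a • LinearMap.id))) →
  ∃ (v : Fin k → V) (φ : Fin k → Module.Dual K V),
    LinearIndependent K (Sum.elim v (fun i => f (v i))) ∧
    LinearIndependent K (Sum.elim φ (fun i => (φ i).comp f.symm.toLinearMap)) ∧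
    ∀ i j, φ i (v j) = 0 ∧ φ i (f (v j)) = 0 ∧ φ i (f.symm (v j)) = 0

/-- EXT [30 lines]. Extensions of finite fields.

Proof. `FiniteField.Extension`. -/
def SpecEXT : Prop := ∀ (K : Type) [Field K] [Finite K] (k : ℕ), 1 ≤ k →
  ∃ (L : Type) (_ : Field L) (_ : Algebra K L), Finite L ∧ Module.finrank K L = k

/-- COM [250 lines] (VFP, EXT). The subgroup `T`.

Proof. Let `L₁` be an extension of degree `k`, `b_i` a basis. `ι : L₁ → V` linear with `ι b_i = v_i`; `π : V → L₁`,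
`π x = ∑ φ_i x • b_i`. `π ι = 0`, `π f ι = 0`, `π f⁻¹ ι = 0`; `ι` is injective, `π` is surjective. `t_b = 1 + ι b π` (`b ∈ L₁` acts by
multiplication) is a homomorphism from the additive group `L₁` to `V ≃ V`, injective; its determinant is `1` (a
homomorphism from a group of exponent `p` to the units of `K`, which have no element of order `p`). For `b ≠ 0`:
`[f, t_b] = (1 + f ι b π f⁻¹) (1 - ι b π) = 1 + N`, `N = f ι b π f⁻¹ - ι b π` (`π f⁻¹ ι = 0`). `N = J d P`, `J = (ι, f ι) : L₁ × L₁ → V`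
injective, `P = (π, π f⁻¹) : V → L₁ × L₁` onto, `d = diag (-b, b)` bijective, `P J = 0`: so `N N = 0` and `rank N = 2 k`. -/
def SpecCOM : Prop := ∀ (K V : Type) [Field K] [Finite K] [AddCommGroup V] [Module K V]
  [Module.Finite K V] (f : SpecialLinearGroup K V) (k : ℕ), 1 ≤ k →
  (∀ a : K, 5 * k < Module.finrank K (LinearMap.range (f.1.toLinearMap - a • LinearMap.id))) →
  ∃ T : Subgroup (SpecialLinearGroup K V), Nat.card T = Nat.card K ^ k ∧ ∀ t ∈ T, t ≠ 1 →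
    ((f * t * f⁻¹ * t⁻¹ : SpecialLinearGroup K V).1.toLinearMap - LinearMap.id) ∘ₗ
      ((f * t * f⁻¹ * t⁻¹ : SpecialLinearGroup K V).1.toLinearMap - LinearMap.id) = 0 ∧
    Module.finrank K (LinearMap.range
      ((f * t * f⁻¹ * t⁻¹ : SpecialLinearGroup K V).1.toLinearMap - LinearMap.id)) = 2 * k

/-- QUN [150 lines]. Quadratic unipotent elements are in a block.

Proof. `N = u - 1`, `range N ≤ ker N`. Let `C` be a complement of `ker N`, `D'` a complement of `range N` in `ker N`; `N` maps `C`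
isomorphically onto `range N`, of dimension `finrank K L`; `e : C ≃ₗ[K] L`. `V = C ⊕ range N ⊕ D'`,
`Ψ (c + N c' + d) = ((e c, e c'), d)`. `u (c + N c' + d) = c + N (c + c') + d`, so `β g = u` for `g = (1 0; 1 1)`, which is not
central. `finrank D' = finrank V - 2 finrank L > 0`. -/
def SpecQUN : Prop := ∀ (K V L : Type) [Field K] [AddCommGroup V] [Module K V]
  [Module.Finite K V] [Field L] [Algebra K L] [Module.Finite K L] (u : SpecialLinearGroup K V),
  (u.1.toLinearMap - LinearMap.id) ∘ₗ (u.1.toLinearMap - LinearMap.id) = 0 →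
  Module.finrank K (LinearMap.range (u.1.toLinearMap - LinearMap.id)) = Module.finrank K L →
  2 * Module.finrank K L < Module.finrank K V →
  ∃ (D : Submodule K V) (Ψ : V ≃ₗ[K] (L × L) × D) (g : SLn 2 L), Nontrivial D ∧
    g ∉ Subgroup.center (SLn 2 L) ∧
    ∀ β : SLn 2 L →* SpecialLinearGroup K V, IsBlk Ψ β → β g = u

/-- A2 [120 lines] (PICK, COM, EXT, QUN, BLK, CBL). Large support.

Proof. Choose `k ≥ 1` with `2 ^ k ≥ 2 / δ²`, and `2 ^ (2 k) ≥` the number of CBL for `δ² / 2` and `≥ 4`; `R = 5 k`. Suppose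
`|fx {f}| ≥ δ |Ω|`. `T` from COM, `|T| ≥ 2 ^ k`; PICK: `t ≠ 1` in `T` with `|fx [f, t]| ≥ (δ² / 2) |Ω|`. EXT: `L` of degree
`2 k`, `|L| = |K| ^ (2 k)`. `4 k < 5 k < finrank V` (hypothesis for `a = 0`). QUN, BLK: `[f, t] = β g`, against CBL. -/
def SpecA2 : Prop := ∀ δ : ℝ, 0 < δ → δ ≤ 1 → ∃ R : ℕ, ∀ (K V Ω : Type) [Field K] [Finite K]
  [AddCommGroup V] [Module K V] [Module.Finite K V] [MulAction (SpecialLinearGroup K V) Ω]
  [Finite Ω] [Nonempty Ω], fx Ω (Set.univ : Set (SpecialLinearGroup K V)) = ∅ →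
  ∀ f : SpecialLinearGroup K V,
  (∀ a : K, R < Module.finrank K (LinearMap.range (f.1.toLinearMap - a • LinearMap.id))) →
  ((fx Ω {f}).ncard : ℝ) < δ * Nat.card Ω

/-- THA [150 lines] (A1, A2). THEOREM A.

Proof. `V = Fin n → K`, `SL_n(K) ≃* SpecialLinearGroup K V` (`Matrix.SpecialLinearGroup.toLin'_equiv`),
`Ω = SL_n(K) ⧸ S`. There are no points fixed by everything because `S ≠ ⊤`. `y S` is fixed by `f` iff `y⁻¹ f y ∈ S`; so
`|fx {f}| / |Ω|` is the proportion of the `y` with `y f y⁻¹ ∈ S` (replace `y` by `y⁻¹`). `f` is not scalar (a scalar matrix is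
central). If `|K| ≥ q` (A1) or if all ranks are larger than `R` (A2) this is smaller than `δ`. -/
def SpecTHA : Prop := ∀ δ : ℝ, 0 < δ → δ ≤ 1 → ∃ q R : ℕ, ∀ (n : ℕ) (K : Type) [Field K] [Finite K]
  (S : Subgroup (SLn n K)), S ≠ ⊤ → ∀ f : SLn n K, f ∉ Subgroup.center (SLn n K) →
  δ * Nat.card (SLn n K) ≤ {y : SLn n K | y * f * y⁻¹ ∈ S}.ncard →
  Nat.card K < q ∧ ∃ a : K, (f.1 - a • (1 : Matrix (Fin n) (Fin n) K)).rank ≤ R

end Pool.Agent.Lib.MP66ef6b.PL
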