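import Pool.Agent.Lib.MP_66ef6b_al.PL.SpecA

set_option autoImplicit false

/-!
# MP_66ef6b_al, THEOREM L (helper14). Part B: outer automorphisms of `PSL_n(K)`

TARGET (OUL): a perfect subgroup of a finite almost simple group with socle `≅ PSL_n(K)` is
contained in the socle.

`Q = PSL_n(K)`, `R ≤ MulAut Q` perfect. The group `MulAut Q` permutes the transvections (TIN, from the centre of
a Sylow subgroup), so it permutes the groups `AA v`, `BB φ` (TMX). `R` preserves the two types, so (FRT), modulo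
inner automorphisms, it normalises `AA e_i`; a perfect group acts `K`-linearly with determinant one on it, as
an element of `Q` (SEM), so modulo inner automorphisms it is trivial on `AA e_i`; then (PFX) on its normaliser,
on `BB e_j`, on the normaliser of this, and these generate `Q` (GDD). For `n = 2`: S2A, S2B.
-/

namespace Pool.Agent.Lib.MP66ef6b.PL

universe u

/-- SYL [200 lines]. The unitriangular matrices form a Sylow subgroup of `PSL_n(K)`.

Proof. `|GL_n(K)| = ∏_(i < n) (q^n - q^i)` (`Matrix.card_GL_field`), `|SL_n(K)| = |GL_n(K)| / (q - 1)` (`n ≥ 1`), so the `p`-part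
of `|SL_n(K)|` is `q^(n (n - 1) / 2)`, the order of the group of unitriangular matrices. The centre consists of
scalar matrices `a` with `a^n = 1`, its order is prime to `p`, and it meets `UT` trivially. `Sylow.ofCard`. -/
def SpecSYL : Prop := ∀ (n : ℕ) (K : Type) [Field K] [Finite K] (p : ℕ) [Fact p.Prime] [CharP K p],
  2 ≤ n → ∃ P : Sylow p (PSLn n K),
    ((P : Subgroup (PSLn n K)) : Set (PSLn n K)) = (fun g => (QuotientGroup.mk g : PSLn n K)) '' UT n K

/-- ZCU [100 lines]. The centre of the unitriangular group (indices `0` and `n`).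

Proof. `u w = w u z` with a scalar matrix `z`; the diagonal entries of `u w` and `w u` are `1`, so `z = 1`. Let `w` be the
transvection `1 + E_ij`, `i < j`: `u E_ij = E_ij u`; the entry `(a, j)`, `a ≠ i`: `u a i = 0`; the entry `(i, b)`, `b ≠ j`:
`u j b = 0`. So an entry off the diagonal can be nonzero only in the last column and in the first row. -/
def SpecZCU : Prop := ∀ (n : ℕ) (K : Type) [Field K] (u : SLn (n + 1) K), u ∈ UT (n + 1) K →
  (∀ w ∈ UT (n + 1) K, (QuotientGroup.mk (u * w) : PSLn (n + 1) K) = QuotientGroup.mk (w * u)) →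
  ∀ i j : Fin (n + 1), i ≠ j → ¬ (i = 0 ∧ j = Fin.last n) → u.1 i j = 0

/-- TCJ [150 lines]. Conjugacy of transvections.

Proof. Choose a basis `b_k` (`k : Fin n`) with `b_i = v`, `φ · b_j = 1`, and the `b_k`, `k ≠ j`, a basis of the kernel of
`φ`. Let `h b_k = e_k`. `h v = e_i` and `φ ∘ h⁻¹ = e_j`, so `h g h⁻¹ = 1 + E_ij`. Let `δ = det h`. Multiply `h` by the diagonal
matrix with entry `δ⁻¹` at `i` (first part, `a = δ⁻¹`), or with the entries `a` at `i` and `(a δ)⁻¹` at a third index. -/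
def SpecTCJ : Prop := ∀ (n : ℕ) (K : Type) [Field K] (g : SLn n K) (v φ : Fin n → K),
  IsTv g v φ → v ≠ 0 → φ ≠ 0 → ∀ (i j : Fin n) (hij : i ≠ j),
  (∃ (h : SLn n K) (a : K), a ≠ 0 ∧ h * g * h⁻¹ = Matrix.SpecialLinearGroup.transvection hij a) ∧
  (3 ≤ n → ∀ a : K, a ≠ 0 →
    ∃ h : SLn n K, h * g * h⁻¹ = Matrix.SpecialLinearGroup.transvection hij a)

/-- TIN [150 lines] (SYL, ZCU, TCJ). Automorphisms permute the transvections.

Proof. Let `Ū` be the image of `UT`, a Sylow subgroup (SYL); `r Ū = g Ū g⁻¹` for some `g`. Let `c ∈ TT`. TCJ with `i = 0`, `j`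
the last index: `c = h z h⁻¹`, `z` the image of `1 + a E_0n`, which is central in `Ū`. `r z` is central in `g Ū g⁻¹`, so
`g⁻¹ (r z) g` is central in `Ū` and by ZCU it is the image of `1 + b E_0n`, `b ≠ 0` (`r z ≠ 1`; transvections `≠ 1` are not
scalar). `TT` is invariant under conjugation by elements of `Q`. -/
def SpecTIN : Prop := ∀ (n : ℕ) (K : Type) [Field K] [Finite K], 2 ≤ n →
  ∀ (r : MulAut (PSLn n K)) (c : PSLn n K), c ∈ TT n K → r c ∈ TT n K

/-- PRD [120 lines]. Products of two transvections.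

Proof. `g g' = z k` with `z` scalar and `k` a transvection or `1`. `g g'` has a fixed vector (`ker φ ⊓ ker ψ` has
dimension at least `n - 2 ≥ 1`), and `z k` has only the eigenvalue `z`; so `z = 1` and `g g' - 1` has rank at most 1. But
`g g' - 1 = v (φ + (φ · w) ψ) + w ψ`, of rank 2 if `v, w` are independent and `φ, ψ` are independent. -/
def SpecPRD : Prop := ∀ (n : ℕ) (K : Type) [Field K], 3 ≤ n →
  ∀ (g g' : SLn n K) (v w φ ψ : Fin n → K), IsTv g v φ → IsTv g' w ψ → v ≠ 0 → w ≠ 0 →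
  φ ≠ 0 → ψ ≠ 0 → ((QuotientGroup.mk (g * g') : PSLn n K) ∈ TT n K ∨
    (QuotientGroup.mk (g * g') : PSLn n K) = 1) →
  (∃ a : K, w = a • v) ∨ ∃ a : K, ψ = a • φ

/-- AAF [150 lines]. The groups `AA v` and `BB φ`.

Proof. `(1 + v φ) (1 + v φ') = 1 + v (φ + φ')`. `φ ↦ image of 1 + v φ` is injective on the `q^(n-1)` elements `φ` with
`φ · v = 0` (if `1 + v φ = z (1 + v φ')`, `z` scalar, then `z = 1` because `n ≥ 2`: both have a fixed vector in
`ker φ'`, or compare eigenvalues). The last statement: `n - 1 ≥ 2` independent functionals. -/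
def SpecAAF : Prop := ∀ (n : ℕ) (K : Type) [Field K] [Finite K], 2 ≤ n → ∀ v : Fin n → K, v ≠ 0 →
  (∃ A : Subgroup (PSLn n K), (A : Set (PSLn n K)) = AA v ∧ Nat.card A = Nat.card K ^ (n - 1) ∧
    ∀ a ∈ A, ∀ b ∈ A, a * b = b * a) ∧
  (∃ A : Subgroup (PSLn n K), (A : Set (PSLn n K)) = BB v ∧ Nat.card A = Nat.card K ^ (n - 1) ∧
    ∀ a ∈ A, ∀ b ∈ A, a * b = b * a) ∧
  (∀ (g h : SLn n K) (φ ψ : Fin n → K), IsTv g v φ → IsTv h v ψ →
    (QuotientGroup.mk g : PSLn n K) = QuotientGroup.mk h → φ = ψ) ∧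
  (3 ≤ n → ∀ w : Fin n → K, w ≠ 0 → AA v ≠ BB w)

/-- TMX [120 lines] (PRD). Subgroups consisting of transvections.

Proof. Let the elements `≠ 1` of `A` be images of `1 + v φ`. If all `v` are proportional: the first case. Otherwise take
`a = 1 + v φ`, `b = 1 + w ψ` with `v, w` not proportional; PRD: `ψ` is proportional to `φ`. For every other `c = 1 + z χ`: if
`χ` is not proportional to `φ` then by PRD `z` is proportional to `v` and to `w`, impossible. So all `χ` are proportional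
to `φ`. (`(1 + (a v) φ) = 1 + v (a φ)`.) -/
def SpecTMX : Prop := ∀ (n : ℕ) (K : Type) [Field K], 3 ≤ n → ∀ A : Subgroup (PSLn n K),
  (∀ c ∈ A, c ≠ 1 → c ∈ TT n K) →
  (∃ v : Fin n → K, v ≠ 0 ∧ (A : Set (PSLn n K)) ⊆ AA v) ∨
  ∃ φ : Fin n → K, φ ≠ 0 ∧ (A : Set (PSLn n K)) ⊆ BB φ

/-- FRT [200 lines] (TIN, TMX, AAF). Perfect groups preserve the types.

Proof. For `r : MulAut Q` the image `r (AA v)` is a subgroup consisting of transvections (TIN), so it is contained in
some `AA w` or `BB ψ` (TMX), and equal to it (AAF, orders). `Q` permutes the `AA v` transitively by conjugation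
(`h (1 + v φ) h⁻¹ = 1 + (h v) (φ h⁻¹)`; `SL_n(K)` is transitive on lines), and the `BB φ`. So for fixed `r` all `r (AA v)` have
the same type, all `r (BB φ)` have the same type, and these types are different (`r` is a bijection of the finite
set of all `AA v`, `BB φ`; `AA v ≠ BB w`). The elements of `R` which preserve the types form a subgroup of index at most two,
so `R` is equal to it (perfect groups have no subgroups of index two). `r (AA v) = AA w = g (AA v) g⁻¹`. -/
def SpecFRT : Prop := ∀ (n : ℕ) (K : Type) [Field K] [Finite K], 3 ≤ n →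
  ∀ R : Subgroup (MulAut (PSLn n K)), Perf R → ∀ v : Fin n → K, v ≠ 0 → ∀ r ∈ R,
  ∃ g : PSLn n K, ∀ c : PSLn n K, c ∈ AA v ↔ g⁻¹ * r c * g ∈ AA v

/-- AUT [40 lines]. Field automorphisms commute.

Proof. Every automorphism of a finite field of characteristic `p` is a power of the Frobenius automorphism:
`FiniteField.exists_forall_apply_eq_pow` (over `ZMod p`). -/
def SpecAUT : Prop := ∀ (K : Type) [Field K] [Finite K] (σ τ : K ≃+* K) (x : K),
  σ (τ x) = τ (σ x)

/-- PHM [40 lines]. Homomorphisms of perfect groups to commutative groups.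

Proof. The kernel of `κ` contains all commutators. -/
def SpecPHM : Prop := ∀ (G A : Type u) [Group G] [Group A] (R : Subgroup G), Perf R →
  ∀ κ : R →* A, (∀ x y : R, κ x * κ y = κ y * κ x) → ∀ x : R, κ x = 1

/-- SML2 [200 lines]. Linear algebra: normalisers of scalars.

`D` is a set of additive maps of the vector space `W` over the finite field `K`, commuting with the scalars
and such that every additive map which commutes with all elements of `D` is a scalar; `ρ` is a homomorphism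
from the perfect group `R` to the additive automorphisms of `W` which normalises `D`. Then all `ρ r` are
`K`-linear with determinant one.

Proof. For `a : K` the map `ρ r ∘ a ∘ (ρ r)⁻¹` commutes with `D` (`(ρ r)⁻¹ d ρ r ∈ D`, hypothesis for `r⁻¹`), so it is the
scalar `σ_r a`; `σ_r` is a ring automorphism of `K` (`W ≠ 0`) and `σ_(r s) = σ_r σ_s`. AUT, PHM (with the target `K ≃+* K`):
`σ_r = 1`. So `ρ r` is linear; the determinant is a homomorphism to the commutative group of units of `K`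
(PHM). -/
def SpecSML2 : Prop := ∀ (K W : Type) [Field K] [Finite K] [AddCommGroup W] [Module K W]
  [Module.Finite K W] [Nontrivial W] (D : Set (W →+ W)) (G : Type) [Group G] (R : Subgroup G)
  (ρ : G → W ≃+ W), Perf R →
  (∀ r ∈ R, ∀ s ∈ R, ∀ w : W, ρ (r * s) w = ρ r (ρ s w)) →
  (∀ d ∈ D, ∀ (a : K) (w : W), d (a • w) = a • d w) →
  (∀ θ : W →+ W, (∀ d ∈ D, ∀ w : W, θ (d w) = d (θ w)) → ∃ a : K, ∀ w : W, θ w = a • w) →
  (∀ r ∈ R, ∀ d ∈ D, ∃ d' ∈ D, ∀ w : W, ρ r (d w) = d' (ρ r w)) →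
  ∀ r ∈ R, ∃ T : W ≃ₗ[K] W, (∀ w : W, T w = ρ r w) ∧ LinearMap.det T.toLinearMap = 1

/-- SCM [120 lines]. Maps commuting with the transvections are scalars.

Proof. Apply the hypothesis to the transvection `φ ↦ φ + (φ · w) χ` (`g = 1 - w χ`, `χ · w = 0`, `χ i = 0`; `g e_i = e_i`):
`θ ((φ · w) χ) = (θ φ · w) χ`. If `φ · w = 1`: `θ χ = (θ φ · w) χ`. So `θ χ = c_χ χ` for all `χ`, and `c_χ = c_φ` if there is a `w`
with `χ · w = 0`, `φ · w = 1`, i.e. if `φ` is not a multiple of `χ` (`n - 1 ≥ 2`; compare `χ`, `μ χ` with a third functional).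
Here the space is `{φ : Fin n → K | φ i = 0}`. -/
def SpecSCM : Prop := ∀ (n : ℕ) (K : Type) [Field K], 3 ≤ n → ∀ (i : Fin n)
  (θ : (Fin n → K) → (Fin n → K)),
  (∀ φ ψ : Fin n → K, φ i = 0 → ψ i = 0 → θ (φ + ψ) = θ φ + θ ψ ∧ θ φ i = 0) →
  (∀ χ w : Fin n → K, χ i = 0 → χ ⬝ᵥ w = 0 → ∀ φ : Fin n → K, φ i = 0 →
    θ (φ + (φ ⬝ᵥ w) • χ) = θ φ + (θ φ ⬝ᵥ w) • χ) →
  ∃ a : K, ∀ φ : Fin n → K, φ i = 0 → θ φ = a • φ

/-- SEM [250 lines] (AAF, SML2, SCM). A perfect group acts on `AA e_i` as `Q`.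

Proof. `W = {φ | φ i = 0}`, `φ ↦ image of 1 + e_i φ` is an isomorphism of `W` with `AA e_i` (AAF), so `R` acts on `W` by additive
automorphisms `ρ r`. Let `D` be the set of the maps `φ ↦ c φ g⁻¹` where `g ∈ SL_n(K)`, `g e_i = c e_i`: this is the action of the
image of `g` by conjugation; all elements `q ∈ Q` which normalise `AA e_i` are of this form (`g (1 + e_i φ) g⁻¹ =
1 + (g e_i) (φ g⁻¹)` is a scalar times `1 + e_i φ'`, so `g e_i ∈ K e_i`), and `r` maps the normaliser of `AA e_i` to itself; so the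
hypotheses of SML2 hold (SCM). `ρ r` is linear of determinant one: choose `g` with `g e_i = e_i`, `g` preserves the span of
the other `e_k` and `φ g⁻¹ = ρ r φ` for `φ ∈ W`; `det g = 1`. -/
def SpecSEM : Prop := ∀ (n : ℕ) (K : Type) [Field K] [Finite K], 3 ≤ n → ∀ i : Fin n,
  ∀ R : Subgroup (MulAut (PSLn n K)), Perf R →
  (∀ r ∈ R, ∀ c ∈ AA (Pi.single i (1 : K)), r c ∈ AA (Pi.single i (1 : K))) → ∀ r ∈ R,
  ∃ d : PSLn n K, ∀ c ∈ AA (Pi.single i (1 : K)), r c = d * c * d⁻¹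

/-- CNT [150 lines]. Centralisers.

Proof. Let `c` be the image of `g`. `g (1 + e_i φ) g⁻¹ = 1 + (g e_i) (φ g⁻¹) = z (1 + e_i φ)`, `z` scalar; `(1 - z) 1` has rank at most
`2 < n`, so `z = 1`, and `g e_i = a e_i`, `φ g⁻¹ = a⁻¹ φ` for all `φ` with `φ i = 0`. So `g - a` maps everything to `K e_i` and `e_i`
to `0`: `g = a (1 + e_i χ)`, `χ i = 0`, `a^n = det g = 1`, so `c` is the image of `1 + e_i χ`. The second statement is the
transpose. -/
def SpecCNT : Prop := ∀ (n : ℕ) (K : Type) [Field K], 3 ≤ n → ∀ (i : Fin n) (c : PSLn n K),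
  ((∀ a ∈ AA (Pi.single i (1 : K)), c * a = a * c) → c ∈ AA (Pi.single i (1 : K))) ∧
  ((∀ a ∈ BB (Pi.single i (1 : K)), c * a = a * c) → c ∈ BB (Pi.single i (1 : K)))

/-- GDD [100 lines]. Generation by two parabolic subgroups.

Proof. `Matrix.SpecialLinearGroup.diagonal_transvection_induction'`. Diagonal matrices satisfy the first condition.
`t_kl(a) = 1 + a E_kl`: it fixes `e_i` if `l ≠ i`; the row `j` is `e_j` if `k ≠ j`. For `k = j`, `l = i` choose a third index `m`: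
`t_ji(a) = [t_jm(a), t_mi(1)]`. -/
def SpecGDD : Prop := ∀ (n : ℕ) (K : Type) [Field K], 3 ≤ n → ∀ i j : Fin n, i ≠ j →
  ∀ H : Subgroup (PSLn n K),
  (∀ (g : SLn n K) (c : K), (∀ k, g.1 k i = if k = i then c else 0) →
    (QuotientGroup.mk g : PSLn n K) ∈ H) →
  (∀ (g : SLn n K) (c : K), (∀ k, g.1 j k = if k = j then c else 0) →
    (QuotientGroup.mk g : PSLn n K) ∈ H) → H = ⊤

/-- LFT [80 lines]. Lifting perfect groups.

Proof. `Y₂ = Y₁ ⊓ (P ⊔ R)`; `P ⊔ R = P ⊔ Y₂` (if `p r = p' y` then `y ∈ Y₂`). The terms `D_k` of the derived series of `Y₂` satisfy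
`R ≤ P ⊔ D_k`: modulo `P` the image of `D_k` contains the `k`-th derived subgroup of the image of `R`, which is perfect. The
derived series becomes stationary because the group is finite; `R₁` = the last term. -/
def SpecLFT : Prop := ∀ (G : Type u) [Group G] [Finite G] (P R Y₁ : Subgroup G), P.Normal →
  Perf R → R ≤ P ⊔ Y₁ → ∃ R₁ : Subgroup G, R₁ ≤ Y₁ ∧ Perf R₁ ∧ R ≤ P ⊔ R₁

/-- PFX [80 lines] (PHM). From a subgroup to its normaliser.

Proof. Let `r ∈ R`. For `a ∈ A`: `(r d) a (r d)⁻¹ = r (d a d⁻¹) = d a d⁻¹`. So `κ r = d⁻¹ (r d)` commutes with `A`, `κ r ∈ A`, and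
`κ (r s) = d⁻¹ r (s d) = d⁻¹ r (d κ s) = κ r κ s`. PHM: `κ r = 1`. -/
def SpecPFX : Prop := ∀ (Q : Type) [Group Q] (A : Subgroup Q) (R : Subgroup (MulAut Q)),
  (∀ a ∈ A, ∀ b ∈ A, a * b = b * a) → (∀ c : Q, (∀ a ∈ A, c * a = a * c) → c ∈ A) → Perf R →
  (∀ r ∈ R, ∀ a ∈ A, r a = a) → ∀ d : Q, (∀ a ∈ A, d * a * d⁻¹ ∈ A) → ∀ r ∈ R, r d = d

/-- OU3 [150 lines] (AAF, FRT, SEM, CNT, GDD, LFT, PFX). The case `n ≥ 3`.

Proof. `P = (MulAut.conj).range`, normal. Let `i ≠ j`, `A = AA e_i`. FRT: `R ≤ P ⊔ Y₁`, `Y₁` = stabiliser of `A`. LFT: `R₁ ≤ Y₁` perfect,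
`R ≤ P ⊔ R₁`. SEM: `R₁ ≤ P ⊔ C`, `C` = pointwise stabiliser of `A`. So `R ≤ P ⊔ C`; LFT: `R₂ ≤ C` perfect, `R ≤ P ⊔ R₂`. PFX with CNT:
`R₂` fixes the images of all `g` with `g e_i ∈ K e_i`; these include `BB e_j` (`(1 + v e_j) e_i = e_i`). PFX with CNT for
`BB e_j`: `R₂` fixes the images of all `g` whose row `j` is a multiple of `e_j`. GDD: `R₂ = ⊥`, `R ≤ P`. -/
def SpecOU3 : Prop := ∀ (n : ℕ) (K : Type) [Field K] [Finite K], 3 ≤ n →
  ∀ R : Subgroup (MulAut (PSLn n K)), Perf R → R ≤ (MulAut.conj : PSLn n K →* MulAut (PSLn n K)).range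

/-- S2A [200 lines] (AAF, AUT, PHM). The case `n = 2`, first part.

Proof. Let `j ≠ i` be the other index; `AA e_i` = images of the `1 + a E_ij`, `a : K`. `r (1 + a E_ij) = 1 + ρ_r(a) E_ij`. The images
of the matrices `g` with `g e_i ∈ K e_i` (`g_ii = c`, `g_jj = c⁻¹`) normalise `AA e_i` and act as `a ↦ c² a`; conversely an element
which normalises `AA e_i` is such an image; so `ρ_r ∘ (c² ·) ∘ ρ_r⁻¹` is the multiplication by some `c'²`. The set of the `m : K` such
that `ρ_r ∘ (m ·) ∘ ρ_r⁻¹` is a multiplication is a subring which contains all squares, so it is `K` (characteristic 2: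
every element is a square; otherwise `4 x = (x + 1)² - (x - 1)²`). So `ρ_r ∘ (m ·) ∘ ρ_r⁻¹ = (σ_r m ·)` with ring automorphisms
`σ_r`; AUT, PHM: `σ_r = 1`, `ρ_r a = ρ_r 1 * a`, and `r ↦ ρ_r 1` is a homomorphism to the units of `K`; PHM. -/
def SpecS2A : Prop := ∀ (K : Type) [Field K] [Finite K] (i : Fin 2)
  (R : Subgroup (MulAut (PSLn 2 K))), Perf R →
  (∀ r ∈ R, ∀ c ∈ AA (Pi.single i (1 : K)), r c ∈ AA (Pi.single i (1 : K))) →
  ∀ r ∈ R, ∀ c ∈ AA (Pi.single i (1 : K)), r c = c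

/-- S2B [150 lines] (SYL, AAF, PHM). The case `n = 2`, second part.

Proof. `Ū = AA e_0`, `Ū' = AA e_1`; both are Sylow subgroups (SYL; conjugate by `(0 -1; 1 0)`). The conjugate of `Ū` by the image
of `g` is the group of the transvections with vector `g e_0`; so the Sylow subgroups different from `Ū` are the `u Ū' u⁻¹`,
`u ∈ Ū`, with unique `u` (`g e_0 ~ (a, 1) = (1 a; 0 1) e_1`). For `r ∈ R`: `r Ū' = u_r Ū' u_r⁻¹`; `r` fixes `Ū` pointwise, so
`u_(r s) = u_s u_r`; PHM: `u_r = 1`. -/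
def SpecS2B : Prop := ∀ (K : Type) [Field K] [Finite K] (R : Subgroup (MulAut (PSLn 2 K))), Perf R →
  (∀ r ∈ R, ∀ c ∈ AA (Pi.single (0 : Fin 2) (1 : K)), r c = c) →
  ∀ r ∈ R, ∀ c ∈ AA (Pi.single (1 : Fin 2) (1 : K)), r c ∈ AA (Pi.single (1 : Fin 2) (1 : K))

/-- OU2 [120 lines] (SYL, LFT, S2A, S2B). The case `n = 2`.

Proof. `P = (MulAut.conj).range`. `Ū = AA e_0` is a Sylow subgroup (SYL), so `r Ū = g Ū g⁻¹`: `R ≤ P ⊔ Y₁`, `Y₁` = stabiliser of `Ū`. LFT:
`R₁ ≤ Y₁` perfect. S2A, S2B, S2A: `R₁` fixes `AA e_0` and `AA e_1` pointwise, and these generate `Q`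
(`Matrix.SL2.transvection_induction`). So `R₁ = ⊥`. -/
def SpecOU2 : Prop := ∀ (K : Type) [Field K] [Finite K] (R : Subgroup (MulAut (PSLn 2 K))), Perf R →
  R ≤ (MulAut.conj : PSLn 2 K →* MulAut (PSLn 2 K)).range

/-- OUL [120 lines] (OU3, OU2). Perfect subgroups of almost simple groups.

Proof. `n ≥ 2` because `PSL_n(K)` is not trivial (`n = 0, 1`). Let `e : P ≃* PSL_n(K)`. `y ↦ (conjugation by y on P)` is a homomorphism
`Y → MulAut P ≃ MulAut (PSL_n(K))`; the image of `R` is perfect, so it is in the range of `MulAut.conj`. So for `r ∈ R` there is a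
`p ∈ P` which acts on `P` as `r`, `p⁻¹ r` centralises `P`, `r = p`. -/
def SpecOUL : Prop := ∀ (Y : Type u) [Group Y] [Finite Y] (P : Subgroup Y), IsSocle P →
  IsPSL P → ∀ R : Subgroup Y, Perf R → R ≤ P

end Pool.Agent.Lib.MP66ef6b.PL
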