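import Pool.Agent.Lib.MP_66ef6b_al.PL.SpecC
import Pool.Agent.Lib.MP_66ef6b_al.PL.SpecA
import Pool.Agent.Lib.MP_66ef6b_al.PL.SpecB

section
set_option autoImplicit false

namespace Pool.Agent.Lib.MP66ef6b.PL

universe u

namespace AFFM

theorem arith (c q n m' : ℕ) (hc : 1 ≤ c) (hn : 12 * c * q + 2 < n) (hm : m' ≤ 2 * q * n) :
    c ^ m' < 2 ^ ((n / 2) ^ 2) := by
  have h1 : c ^ m' ≤ c ^ (2 * q * n) := Nat.pow_le_pow_right hc hm
  have h2 : c ^ (2 * q * n) ≤ (2 ^ c) ^ (2 * q * n) :=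
    Nat.pow_le_pow_left (Nat.lt_two_pow_self).le _
  rw [← pow_mul] at h2
  refine (h1.trans h2).trans_lt ?_
  apply Nat.pow_lt_pow_right (by norm_num)
  have hk : 6 * c * q < n / 2 := by
    have e : 12 * c * q = 2 * (6 * c * q) := by ring
    rw [e] at hn
    generalize 6 * c * q = t at *
    omega
  have hk1 : 1 ≤ n / 2 := by omega
  have hn2 : n ≤ 2 * (n / 2) + 1 := by omega
  generalize n / 2 = k at *
  calc c * (2 * q * n) ≤ c * (2 * q * (3 * k)) := by
        apply Nat.mul_le_mul_left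
        apply Nat.mul_le_mul_left
        omega
    _ = (6 * c * q) * k := by ring
    _ < k * k := Nat.mul_lt_mul_of_pos_right hk (by omega)
    _ = k ^ 2 := by ring

/-- The displacement of a conjugate. -/
theorem range_conj {G V : Type u} [Group G] [AddCommGroup V] [DistribMulAction G V] (x f : G) :
    (Set.range fun v : V => (x * f * x⁻¹) • v - v) =
      (fun v : V => x • v) '' (Set.range fun v : V => f • v - v) := by
  ext w
  constructor
  · rintro ⟨v, rfl⟩
    refine ⟨f • (x⁻¹ • v) - x⁻¹ • v, ⟨x⁻¹ • v, rfl⟩, ?_⟩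
    simp [smul_sub, mul_smul]
  · rintro ⟨_, ⟨v, rfl⟩, rfl⟩
    refine ⟨x • v, ?_⟩
    simp [smul_sub, mul_smul]

end AFFM

theorem specAFF (hBGF : SpecBGF.{u}) (hSPR : SpecSPR.{u}) : SpecAFF.{u} := by
  intro G _ _ _ F hF q₀ R f hD hRep
  obtain ⟨p, V, _, _, hp, hpv, hfin, hcard, v₀, hv₀⟩ := hRep
  obtain ⟨N, hN⟩ := hBGF q₀ R
  obtain ⟨X, n, K, _, π, x, A, hK, hX, hFX, hπ, -, hq, hn, hxf, hx1, hA, hAR⟩ :=
    hD (max N (12 * q₀ ^ R * q₀ + 2)) F hF le_rfl
  have hq1 : 1 ≤ q₀ := by omega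
  have hc1 : 1 ≤ q₀ ^ R := Nat.one_le_pow _ _ hq1
  obtain ⟨m', y, hm', hH⟩ := hN X n K π x A hπ hq ((le_max_left _ _).trans_lt hn) hx1 hA hAR
  have hn2 : 12 * q₀ ^ R * q₀ + 2 < n := (le_max_right _ _).trans_lt hn
  let g : Fin m' → G := fun i => ((y i * x * (y i)⁻¹ : X) : G)
  have hcl : Subgroup.closure (Set.range g) =
      (Subgroup.closure (Set.range fun i => y i * x * (y i)⁻¹)).map X.subtype := by
    rw [MonoidHom.map_closure, ← Set.range_comp]
    rfl
  have hfinH : Finite (Subgroup.closure (Set.range g)) := by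
    rw [hcl]
    exact Set.Finite.to_subtype (Set.Finite.image _ (Set.toFinite _))
  have hcardH : Nat.card (Subgroup.closure (Set.range g)) =
      Nat.card (Subgroup.closure (Set.range fun i => y i * x * (y i)⁻¹)) := by
    rw [hcl]
    exact Nat.card_congr ((Subgroup.equivMapOfInjective _ _ X.subtype_injective).toEquiv).symm
  have hdisp : ∀ i, (Set.range fun v : V => g i • v - v).Finite ∧
      (Set.range fun v : V => g i • v - v).ncard ≤ q₀ ^ R := by
    intro i
    have e : g i = (y i : G) * f * (y i : G)⁻¹ := by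
      simp [g, hxf]
    rw [e, AFFM.range_conj]
    exact ⟨(hfin f).image _, (Set.ncard_image_le (hfin f)).trans hcard⟩
  have hlt : (q₀ ^ R) ^ m' < Nat.card (Subgroup.closure (Set.range g)) := by
    rw [hcardH]
    exact (AFFM.arith _ _ _ _ hc1 hn2 hm').trans_le hH
  refine ⟨p, V, inferInstance, inferInstance, Subgroup.closure (Set.range g), hp, hpv, ?_, hfin,
    ⟨f, v₀, hv₀⟩, hfinH, hSPR G V m' (q₀ ^ R) g hfinH hdisp hlt⟩
  intro k
  refine ⟨DistribSMul.toAddMonoidHom V k, fun v w => ?_⟩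
  rw [smul_add]
  rfl

end Pool.Agent.Lib.MP66ef6b.PL
end

section
/-!
# MP_66ef6b_al, PL: module PRF (helper89)
-/
set_option autoImplicit false

namespace Pool.Agent.Lib.MP66ef6b.PL

universe u

open scoped commutatorElement

namespace PRFM

/-- An infinite locally finite simple group is not commutative. -/
theorem noncomm (G : Type u) [Group G] [IsSimpleGroup G] [Infinite G] (hLF : LocFin G) :
    ∃ x y : G, x * y ≠ y * x := by
  by_contra hcon
  push Not at hcon
  obtain ⟨a, ha⟩ := exists_ne (1 : G)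
  have hn : (Subgroup.closure ({a} : Set G)).Normal := by
    refine ⟨fun n hn g => ?_⟩
    have : g * n * g⁻¹ = n := by rw [hcon g n, mul_inv_cancel_right]
    rw [this]
    exact hn
  have hfin := hLF {a}
  rw [Finset.coe_singleton] at hfin
  rcases hn.eq_bot_or_eq_top with h | h
  · have : a ∈ Subgroup.closure ({a} : Set G) := Subgroup.subset_closure rfl
    rw [h] at this
    exact ha (Subgroup.mem_bot.mp this)
  · rw [h] at hfin
    haveI : Finite G := Finite.of_equiv _ (Subgroup.topEquiv (G := G)).toEquiv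
    exact not_finite G

end PRFM

open PRFM in
theorem specPRF : SpecPRF.{u} := by
  intro G _ _ _ hLF
  obtain ⟨x, y, hxy⟩ := noncomm G hLF
  have hEfin : Finite (Subgroup.closure ({x, y} : Set G)) := by
    classical
    have := hLF {x, y}
    rwa [Finset.coe_insert, Finset.coe_singleton] at this
  obtain ⟨E', hE'f, hEE', hT⟩ := specTOWER G hLF (Subgroup.closure ({x, y} : Set G)) hEfin
  have hx : x ∈ Subgroup.closure ({x, y} : Set G) := Subgroup.subset_closure (by simp)
  have hy : y ∈ Subgroup.closure ({x, y} : Set G) := Subgroup.subset_closure (by simp)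
  set z : G := ⁅x, y⁆ with hz
  have hz1 : z ≠ 1 := by
    intro h
    rw [hz, commutatorElement_eq_one_iff_mul_comm] at h
    exact hxy h
  have hzE : z ∈ Subgroup.closure ({x, y} : Set G) := by
    rw [hz, commutatorElement_def]
    exact mul_mem (mul_mem (mul_mem hx hy) (inv_mem hx)) (inv_mem hy)
  set N : Subgroup G := Subgroup.closure {w | ∃ g ∈ E', w = g * z * g⁻¹} with hN
  have hEN : Subgroup.closure ({x, y} : Set G) ≤ N := hT z hzE hz1
  have hNE' : N ≤ E' := by
    rw [hN, Subgroup.closure_le]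
    rintro w ⟨g, hg, rfl⟩
    exact mul_mem (mul_mem hg (hEE' hzE)) (inv_mem hg)
  -- conjugation by `E'` preserves `N`
  have hconj : ∀ g ∈ E', ∀ n ∈ N, g * n * g⁻¹ ∈ N := by
    intro g hg n hn
    have : N ≤ N.comap (MulAut.conj g).toMonoidHom := by
      conv_lhs => rw [hN]
      rw [Subgroup.closure_le]
      rintro w ⟨g', hg', rfl⟩
      change g * (g' * z * g'⁻¹) * g⁻¹ ∈ N
      refine Subgroup.subset_closure ⟨g * g', mul_mem hg hg', ?_⟩
      group
    exact this hn
  have hconj2 : ∀ g ∈ E', ∀ n ∈ ⁅N, N⁆, g * n * g⁻¹ ∈ ⁅N, N⁆ := by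
    intro g hg n hn
    have : ⁅N, N⁆ ≤ (⁅N, N⁆).comap (MulAut.conj g).toMonoidHom := by
      rw [Subgroup.commutator_le]
      intro a ha b hb
      change g * ⁅a, b⁆ * g⁻¹ ∈ ⁅N, N⁆
      have : g * ⁅a, b⁆ * g⁻¹ = ⁅g * a * g⁻¹, g * b * g⁻¹⁆ := by
        simp only [commutatorElement_def]
        group
      rw [this]
      exact Subgroup.commutator_mem_commutator (hconj g hg a ha) (hconj g hg b hb)
    exact this hn
  refine ⟨N, ?_, ?_, ?_⟩
  · exact Finite.Set.subset (E' : Set G) hNE'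
  · intro h
    have := hEN hzE
    rw [h] at this
    exact hz1 (Subgroup.mem_bot.mp this)
  · refine le_antisymm ?_ ?_
    · rw [Subgroup.commutator_le]
      intro a ha b hb
      rw [commutatorElement_def]
      exact mul_mem (mul_mem (mul_mem ha hb) (inv_mem ha)) (inv_mem hb)
    · conv_lhs => rw [hN]
      rw [Subgroup.closure_le]
      rintro w ⟨g, hg, rfl⟩
      exact hconj2 g hg z (Subgroup.commutator_mem_commutator (hEN hx) (hEN hy))

end Pool.Agent.Lib.MP66ef6b.PL
end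

section
set_option autoImplicit false

/-! # Module FUL: `SL(V)` is generated by transvections. -/

namespace Pool.Agent.Lib.MP66ef6b.PL

namespace FULM

open Matrix

theorem tv_mulVec {ι F : Type} [Fintype ι] [DecidableEq ι] [Field F] {i j : ι} (hij : i ≠ j)
    (c : F) (x : ι → F) :
    (SpecialLinearGroup.transvection hij c : SpecialLinearGroup ι F).1.mulVec x =
      fun k => if k = i then x i + c * x j else x k := by
  rw [SpecialLinearGroup.transvection_coe, Matrix.add_mulVec, Matrix.one_mulVec,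
    Matrix.single_mulVec]
  funext k
  by_cases hk : k = i
  · subst hk
    simp
  · simp [hk]

theorem sl_ext {ι F : Type} [Fintype ι] [DecidableEq ι] [Field F] (A B : SpecialLinearGroup ι F)
    (h : ∀ x : ι → F, A.1.mulVec x = B.1.mulVec x) : A = B := by
  apply Subtype.ext
  apply Matrix.toLin'.injective
  apply LinearMap.ext
  intro x
  rw [Matrix.toLin'_apply, Matrix.toLin'_apply]
  exact h x

theorem mul_mulVec {ι F : Type} [Fintype ι] [DecidableEq ι] [Field F]
    (A B : SpecialLinearGroup ι F) (x : ι → F) :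
    (A * B).1.mulVec x = A.1.mulVec (B.1.mulVec x) := by
  rw [show (A * B).1 = A.1 * B.1 from rfl, Matrix.mulVec_mulVec]

theorem diag_mulVec {ι F : Type} [Fintype ι] [DecidableEq ι] [Field F] {i j : ι} (hij : i ≠ j)
    (a : F) (ha : a ≠ 0) (x : ι → F) :
    (SpecialLinearGroup.diag2n hij a ha : SpecialLinearGroup ι F).1.mulVec x =
      fun k => if k = i then a * x i else if k = j then a⁻¹ * x j else x k := by
  rw [SpecialLinearGroup.diag2n_coe]
  funext k
  rw [Matrix.mulVec_diagonal]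
  split_ifs with h1 h2
  · rw [h1]
  · rw [h2]
  · rw [one_mul]

theorem diag_dec {ι F : Type} [Fintype ι] [DecidableEq ι] [Field F] {i j : ι} (hij : i ≠ j)
    (a : F) (ha : a ≠ 0) :
    (SpecialLinearGroup.diag2n hij a ha : SpecialLinearGroup ι F) =
      SpecialLinearGroup.transvection hij a *
      (SpecialLinearGroup.transvection hij.symm (-a⁻¹) *
      (SpecialLinearGroup.transvection hij a *
      (SpecialLinearGroup.transvection hij (-1) *
      (SpecialLinearGroup.transvection hij.symm 1 *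
      SpecialLinearGroup.transvection hij (-1))))) := by
  apply sl_ext
  intro x
  rw [diag_mulVec]
  simp only [mul_mulVec, tv_mulVec]
  funext k
  by_cases hk : k = i
  · subst hk
    simp [hij, hij.symm]
    field_simp
    ring
  · by_cases hk' : k = j
    · subst hk'
      simp [hij, hij.symm]
      field_simp
      ring
    · simp [hk, hk']

theorem tv_mem {K V : Type} [Field K] [AddCommGroup V] [Module K V] {n : ℕ}
    (b : Module.Basis (Fin n) K V) {i j : Fin n} (hij : i ≠ j) (c : K) :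
    SpecialLinearGroup.toLin_equiv b (SpecialLinearGroup.transvection hij c) ∈
      TrS (⊤ : Submodule K V) ⊥ := by
  refine ⟨c • b i, trivial, b.coord j, ?_, ?_, ?_⟩
  · rw [map_smul, Module.Basis.coord_apply, Module.Basis.repr_self,
      Finsupp.single_eq_of_ne hij.symm, smul_zero]
  · intro w hw
    rw [(Submodule.mem_bot K).1 hw, map_zero]
  · intro x
    have h1 : (SpecialLinearGroup.toLin_equiv b (SpecialLinearGroup.transvection hij c)) x =
        Matrix.toLin b b (SpecialLinearGroup.transvection hij c).1 x := rfl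
    rw [h1, Matrix.toLin_apply, tv_mulVec]
    have h2 : ∀ k, (if k = i then b.repr x i + c * b.repr x j else b.repr x k) • b k =
        b.repr x k • b k + (if k = i then (c * b.repr x j) • b k else 0) := by
      intro k
      split_ifs with hk
      · rw [hk, add_smul]
      · rw [add_zero]
    rw [Finset.sum_congr rfl fun k _ => h2 k, Finset.sum_add_distrib, b.sum_repr,
      Finset.sum_ite_eq' Finset.univ i, if_pos (Finset.mem_univ _), Module.Basis.coord_apply,
      smul_smul, mul_comm]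

end FULM

open FULM in
theorem specFUL : SpecFUL := by
  intro K V _ _ _ _
  rw [eq_top_iff]
  intro g _
  let b := Module.finBasis K V
  have key : ∀ A : SLn (Module.finrank K V) K,
      Matrix.SpecialLinearGroup.toLin_equiv b A ∈ Subgroup.closure (TrS (⊤ : Submodule K V) ⊥) := by
    intro A
    rcases Nat.lt_or_ge 1 (Module.finrank K V) with h | h
    · haveI : Nontrivial (Fin (Module.finrank K V)) := Fin.nontrivial_iff_two_le.2 h
      refine Matrix.SpecialLinearGroup.diagonal_transvection_induction'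
        (fun A => Matrix.SpecialLinearGroup.toLin_equiv b A ∈
          Subgroup.closure (TrS (⊤ : Submodule K V) ⊥)) A ?_ ?_ ?_
      · intro i j hij c hc
        rw [diag_dec hij c hc, map_mul, map_mul, map_mul, map_mul, map_mul]
        have hm : ∀ (i j : Fin (Module.finrank K V)) (hij : i ≠ j) (c : K),
            Matrix.SpecialLinearGroup.toLin_equiv b
              (Matrix.SpecialLinearGroup.transvection hij c) ∈
              Subgroup.closure (TrS (⊤ : Submodule K V) ⊥) :=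
          fun i j hij c => Subgroup.subset_closure (tv_mem b hij c)
        exact mul_mem (hm _ _ _ _) (mul_mem (hm _ _ _ _) (mul_mem (hm _ _ _ _)
          (mul_mem (hm _ _ _ _) (mul_mem (hm _ _ _ _) (hm _ _ _ _)))))
      · intro i j hij c
        exact Subgroup.subset_closure (tv_mem b hij c)
      · intro A B hA hB
        rw [map_mul]
        exact mul_mem hA hB
    · haveI : Subsingleton (Fin (Module.finrank K V)) := Fin.subsingleton_iff_le_one.2 h
      have h1 : A = 1 := by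
        apply Subtype.ext
        ext i j
        have hij : i = j := Subsingleton.elim _ _
        subst hij
        have hd := A.2
        rw [Matrix.det_eq_elem_of_subsingleton A.1 i] at hd
        rw [hd]
        simp
      rw [h1, map_one]
      exact one_mem _
  have := key ((Matrix.SpecialLinearGroup.toLin_equiv b).symm g)
  rwa [MulEquiv.apply_symm_apply] at this

end Pool.Agent.Lib.MP66ef6b.PL
end

section
/-!
# MP_66ef6b_al, THEOREM L, module CST (helper12): one element for all finite subgroups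
-/
set_option autoImplicit false

namespace Pool.Agent.Lib.MP66ef6b.PL

universe u

namespace CSTM

theorem mono {G : Type u} [Group G] {q₀ R m m' : ℕ} {f : G} {E E' : Subgroup G} (hm : m' ≤ m)
    (hE : E' ≤ E) (h : FData q₀ R m f E) : FData q₀ R m' f E' := by
  obtain ⟨X, n, K, hK, π, x, A, h1, h2, h3, h4, h5, h6, h7, h8, h9, h10, h11⟩ := h
  exact ⟨X, n, K, hK, π, x, A, h1, h2, hE.trans h3, h4, fun y hy => h5 y (hE hy), h6,
    lt_of_le_of_lt hm h7, h8, h9, h10, h11⟩

/-- finite subgroups of a locally finite group: finite unions generate finite subgroups -/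
theorem exists_fin {G : Type u} [Group G] (hG : LocFin G) (T : Set G) (hT : T.Finite) :
    ∃ E : Subgroup G, Finite E ∧ T ⊆ E := by
  refine ⟨Subgroup.closure ((hT.toFinset : Finset G) : Set G), hG _, fun t ht => ?_⟩
  refine Subgroup.subset_closure ?_
  simpa using ht

theorem exists_large {G : Type u} [Group G] [Infinite G] (hG : LocFin G) (E : Subgroup G)
    (hE : Finite E) (B : ℕ) : ∃ E' : Subgroup G, Finite E' ∧ E ≤ E' ∧ B < Nat.card E' := by
  obtain ⟨s, hs⟩ := Infinite.exists_subset_card_eq G (B + 1)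
  obtain ⟨E', hE', h1⟩ := exists_fin hG ((E : Set G) ∪ (s : Set G))
    ((Set.toFinite (E : Set G)).union s.finite_toSet)
  refine ⟨E', hE', fun e he => h1 (Or.inl he), ?_⟩
  have h2 : (s : Set G) ⊆ (E' : Set G) := fun t ht => h1 (Or.inr ht)
  have h3 : (s : Set G).ncard ≤ (E' : Set G).ncard := Set.ncard_le_ncard h2 (Set.toFinite _)
  rw [Set.ncard_coe_finset, hs] at h3
  have h4 : (E' : Set G).ncard = Nat.card E' := (Nat.card_coe_set_eq _).symm
  omega

end CSTM

open CSTM in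
/-- **CST.** -/
theorem specCST : SpecCST.{u} := by
  classical
  intro G _ _ hG F hF q₀ R h
  by_contra hcon
  push Not at hcon
  -- for every `f` a bad pair
  have h1 : ∀ f : F, ∃ (m : ℕ) (E : Subgroup G), Finite E ∧ F ≤ E ∧
      ((f : G) ≠ 1 → ¬ FData q₀ R m (f : G) E) := by
    intro f
    by_cases hf : (f : G) = 1
    · exact ⟨0, F, hF, le_rfl, fun h => absurd hf h⟩
    · obtain ⟨m, E, hE, hFE, hn⟩ := hcon f f.2 hf
      exact ⟨m, E, hE, hFE, fun _ => hn⟩
  choose m E hE hFE hn using h1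
  have := Fintype.ofFinite F
  obtain ⟨B, hB⟩ := h (Finset.univ.sup m)
  obtain ⟨E₁, hE₁, h2⟩ := exists_fin hG (⋃ f : F, (E f : Set G))
    (Set.finite_iUnion fun f => Set.toFinite _)
  obtain ⟨E₂, hE₂, h3, h4⟩ := exists_large hG E₁ hE₁ B
  have h5 : ∀ f : F, E f ≤ E₂ := fun f e he => h3 (h2 (Set.mem_iUnion.2 ⟨f, he⟩))
  obtain ⟨f, hfF, hf1, hfd⟩ := hB E₂ hE₂ ((hFE 1).trans (h5 1)) h4
  refine hn ⟨f, hfF⟩ hf1 (mono ?_ (h5 _) hfd)
  exact Finset.le_sup (Finset.mem_univ _)

end Pool.Agent.Lib.MP66ef6b.PL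
end

section
/-!
# MP_66ef6b_al, THEOREM L, module SUP (helper12): small support
-/
set_option autoImplicit false

namespace Pool.Agent.Lib.MP66ef6b.PL

universe u

namespace SUPM

/-- pigeonhole -/
theorem pigeon {α β : Type*} [Finite α] [Finite β] [Nonempty β] (c : α → β) :
    ∃ b : β, Nat.card α ≤ Nat.card β * {a : α | c a = b}.ncard := by
  classical
  have := Fintype.ofFinite α
  have := Fintype.ofFinite β
  have h1 : ∑ _b : β, Fintype.card α ≤
      ∑ b : β, Fintype.card β * (Finset.univ.filter fun a => c a = b).card := by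
    rw [Finset.sum_const, smul_eq_mul, Finset.card_univ, ← Finset.mul_sum]
    refine Nat.mul_le_mul_left _ ?_
    rw [← Finset.card_univ, Finset.card_eq_sum_card_fiberwise (f := c) (t := Finset.univ)
      (fun _ _ => Finset.mem_univ _)]
  obtain ⟨b, -, hb⟩ := Finset.exists_le_of_sum_le Finset.univ_nonempty h1
  refine ⟨b, ?_⟩
  rw [Nat.card_eq_fintype_card, Nat.card_eq_fintype_card]
  have h2 : {a : α | c a = b}.ncard = (Finset.univ.filter fun a => c a = b).card := by
    rw [← Set.ncard_coe_finset]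
    congr 1
    ext a
    simp
  rw [h2]
  exact hb

theorem card_PSL_le (n : ℕ) (K : Type) [Field K] [Finite K] :
    Nat.card (PSLn n K) ≤ Nat.card K ^ (n * n) := by
  have h1 : Nat.card (PSLn n K) ≤ Nat.card (SLn n K) := by
    have : Finite (SLn n K) := inferInstance
    exact Nat.card_le_card_of_surjective (QuotientGroup.mk : SLn n K → PSLn n K)
      QuotientGroup.mk_surjective
  have h2 : Nat.card (SLn n K) ≤ Nat.card (Matrix (Fin n) (Fin n) K) :=
    Nat.card_le_card_of_injective (fun g : SLn n K => g.1) Subtype.val_injective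
  have h3 : Nat.card (Matrix (Fin n) (Fin n) K) = Nat.card K ^ (n * n) := by
    have h4 : Nat.card (Fin n → Fin n → K) = Nat.card K ^ (n * n) := by
      rw [Nat.card_fun, Nat.card_fun, Nat.card_eq_fintype_card (α := Fin n), Fintype.card_fin,
        ← pow_mul]
    exact h4
  rw [← h3]
  exact h1.trans h2

end SUPM

open SUPM in
/-- **SUP.** -/
theorem specSUP (hTHA : SpecTHA) : SpecSUP.{u} := by
  classical
  intro G _ F hF
  have hF1 : 0 < Nat.card F := Nat.card_pos
  have hδ0 : (0 : ℝ) < 1 / Nat.card F := by positivity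
  have hδ1 : (1 : ℝ) / Nat.card F ≤ 1 := by
    rw [div_le_one (by exact_mod_cast hF1)]
    exact_mod_cast hF1
  obtain ⟨q, R, hq⟩ := hTHA _ hδ0 hδ1
  refine ⟨q, R, fun m => ⟨q ^ (max m R * max m R), ?_⟩⟩
  rintro E hE hFE hB ⟨X, n, K, hK, π, S, hfK, hfX, hEX, hsur, hinj, hS, hy⟩
  -- the preimage in `SL`
  let mk : SLn n K →* PSLn n K := QuotientGroup.mk' (Subgroup.center (SLn n K))
  have hmk : Function.Surjective mk := QuotientGroup.mk'_surjective _
  let S' : Subgroup (SLn n K) := S.comap mk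
  have hS' : S' ≠ ⊤ := by
    intro h
    refine hS (top_unique fun z _ => ?_)
    obtain ⟨w, rfl⟩ := hmk z
    have : w ∈ S' := by
      rw [h]
      trivial
    exact this
  choose lift hlift using hmk
  choose x hxF hx1 hxS using fun y : SLn n K => hy (mk y)
  obtain ⟨b, hb⟩ := pigeon (fun y : SLn n K => (⟨(x y : G), hxF y⟩ : F))
  have hpos : 0 < Nat.card (SLn n K) := Nat.card_pos
  have hne : {y : SLn n K | (⟨(x y : G), hxF y⟩ : F) = b}.Nonempty := by
    by_contra hcon
    rw [Set.not_nonempty_iff_eq_empty] at hcon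
    rw [hcon, Set.ncard_empty, mul_zero] at hb
    omega
  obtain ⟨y₀, hy₀⟩ := hne
  have hval : ∀ y : SLn n K, (⟨(x y : G), hxF y⟩ : F) = b → x y = x y₀ := by
    intro y hyb
    have h1 : (⟨(x y : G), hxF y⟩ : F) = ⟨(x y₀ : G), hxF y₀⟩ := hyb.trans hy₀.symm
    exact Subtype.ext (Subtype.mk.inj h1)
  set f' : SLn n K := lift (π (x y₀)) with hf'
  have hmkf : mk f' = π (x y₀) := hlift _
  have hπ1 : π (x y₀) ≠ 1 := by
    intro h
    exact hx1 y₀ (hinj _ (hFE (hxF y₀)) h)
  have hcen : f' ∉ Subgroup.center (SLn n K) := by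
    intro h
    apply hπ1
    rw [← hmkf]
    exact (QuotientGroup.eq_one_iff f').2 h
  have hsub : {y : SLn n K | (⟨(x y : G), hxF y⟩ : F) = b} ⊆ {y : SLn n K | y * f' * y⁻¹ ∈ S'} := by
    intro y hyb
    have h1 := hxS y
    rw [hval y hyb, ← hmkf] at h1
    show mk (y * f' * y⁻¹) ∈ S
    rw [map_mul, map_mul, map_inv]
    exact h1
  have hcount : (1 : ℝ) / Nat.card F * Nat.card (SLn n K) ≤
      ({y : SLn n K | y * f' * y⁻¹ ∈ S'}.ncard : ℝ) := by
    have h1 : Nat.card (SLn n K) ≤ Nat.card F * {y : SLn n K | y * f' * y⁻¹ ∈ S'}.ncard :=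
      hb.trans (Nat.mul_le_mul_left _ (Set.ncard_le_ncard hsub (Set.toFinite _)))
    have h2 : (Nat.card (SLn n K) : ℝ) ≤
        Nat.card F * ({y : SLn n K | y * f' * y⁻¹ ∈ S'}.ncard : ℝ) := by exact_mod_cast h1
    have h3 : (0 : ℝ) < Nat.card F := by exact_mod_cast hF1
    rw [one_div, inv_mul_le_iff₀ h3]
    exact h2
  obtain ⟨hKq, a, ha⟩ := hq n K S' hS' f' hcen hcount
  -- the dimension is large
  have hn : max m R < n := by
    by_contra hcon
    have hcon' : n ≤ max m R := not_lt.1 hcon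
    have h1 : Nat.card E ≤ Nat.card (PSLn n K) := by
      refine Nat.card_le_card_of_injective (fun e : E => π ⟨(e : G), hEX e.2⟩) ?_
      intro e₁ e₂ h
      have h2 : π (⟨(e₁ : G), hEX e₁.2⟩ * (⟨(e₂ : G), hEX e₂.2⟩ : X)⁻¹) = 1 := by
        rw [map_mul, map_inv]
        exact mul_inv_eq_one.2 h
      have h3 := hinj (⟨(e₁ : G), hEX e₁.2⟩ * (⟨(e₂ : G), hEX e₂.2⟩ : X)⁻¹)
        (E.mul_mem e₁.2 (E.inv_mem e₂.2)) h2
      have h4 := mul_inv_eq_one.1 h3
      exact Subtype.ext (Subtype.mk.inj h4)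
    have h2 := card_PSL_le n K
    have h3 : Nat.card K ^ (n * n) ≤ q ^ (n * n) := Nat.pow_le_pow_left hKq.le _
    have hq1 : 1 ≤ q := by omega
    have h4 : q ^ (n * n) ≤ q ^ (max m R * max m R) :=
      Nat.pow_le_pow_right hq1 (Nat.mul_le_mul hcon' hcon')
    omega
  have ha0 : a ≠ 0 := by
    intro h
    rw [h, zero_smul, sub_zero] at ha
    have h1 : f'.1.rank = n := by
      have h2 : IsUnit f'.1 := by
        rw [Matrix.isUnit_iff_isUnit_det, f'.2]
        exact isUnit_one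
      rw [Matrix.rank_of_isUnit _ h2, Fintype.card_fin]
    rw [h1] at ha
    have := le_max_right m R
    omega
  refine ⟨(x y₀ : G), hxF y₀, ?_, X, n, K, hK, π, x y₀, a⁻¹ • f'.1, hfK, hfX, hEX, hsur, hinj,
    hKq, lt_of_le_of_lt (le_max_left m R) hn, rfl, hπ1, ⟨a⁻¹, f', inv_ne_zero ha0, hmkf, rfl⟩, ?_⟩
  · intro h
    exact hx1 y₀ (Subtype.ext h)
  · have h1 : a⁻¹ • f'.1 - 1 = (f'.1 - a • (1 : Matrix (Fin n) (Fin n) K)) *
        (a⁻¹ • (1 : Matrix (Fin n) (Fin n) K)) := by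
      rw [Matrix.mul_smul, mul_one, smul_sub, smul_smul, inv_mul_cancel₀ ha0, one_smul]
    rw [h1]
    exact (Matrix.rank_mul_le_left _ _).trans ha

end Pool.Agent.Lib.MP66ef6b.PL
end

section
set_option autoImplicit false

/-!
# MP_66ef6b_al, THEOREM L: module GNU (the order of a group generated by transvections)
-/

namespace Pool.Agent.Lib.MP66ef6b.PL

namespace GNUM

open Matrix Matrix.SpecialLinearGroup

variable {n : ℕ} {K : Type} [Field K]

/-- the commutator of `1 + a E_ik` and `1 + E_kj` -/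
theorem comm_tv {i j k : Fin n} (hik : i ≠ k) (hkj : k ≠ j) (hij : i ≠ j) (a : K) :
    SpecialLinearGroup.transvection hik a * SpecialLinearGroup.transvection hkj (1 : K) *
      (SpecialLinearGroup.transvection hik a)⁻¹ *
      (SpecialLinearGroup.transvection hkj (1 : K))⁻¹ =
      SpecialLinearGroup.transvection hij a := by
  rw [transvection_inv, transvection_inv]
  apply Subtype.ext
  change ((1 : Matrix (Fin n) (Fin n) K) + single i k a) * (1 + single k j 1) *
    (1 + single i k (-a)) * (1 + single k j (-1)) = 1 + single i j a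
  have e1 : single i k (-a) = -single i k a := (single_neg i k a).symm ▸ rfl
  have e2 : single k j (-1 : K) = -single k j 1 := (single_neg k j (1 : K)).symm ▸ rfl
  have hAA : single i k a * single i k a = 0 := single_mul_single_of_ne _ _ _ _ hik.symm _
  have hBB : single k j (1 : K) * single k j (1 : K) = 0 :=
    single_mul_single_of_ne _ _ _ _ hkj.symm _
  have hBA : single k j (1 : K) * single i k a = 0 := single_mul_single_of_ne _ _ _ _ hij.symm _
  have hAB : single i k a * single k j (1 : K) = single i j a := by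
    rw [single_mul_single_same, mul_one]
  rw [e1, e2, ← hAB]
  generalize single i k a = A at *
  generalize single k j (1 : K) = B at *
  have h1 : (1 + A) * (1 + B) * (1 + -A) = 1 + B + A * B := by
    have : (1 + A) * (1 + B) * (1 + -A) = 1 + B + A * B - A * A - B * A - A * (B * A) := by
      noncomm_ring
    rw [this, hAA, hBA]
    simp
  rw [h1]
  have h2 : (1 + B + A * B) * (1 + -B) = 1 + A * B - B * B - A * (B * B) := by noncomm_ring
  rw [h2, hBB]
  simp

theorem tv_mem (H : Subgroup (PSLn n K))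
    (h : ∀ (i j : Fin n) (hij : i ≠ j) (a : K), j.val = i.val + 1 →
      (QuotientGroup.mk (SpecialLinearGroup.transvection hij a) : PSLn n K) ∈ H) :
    ∀ (d : ℕ) (i j : Fin n) (hij : i ≠ j) (a : K), j.val = i.val + d + 1 →
      (QuotientGroup.mk (SpecialLinearGroup.transvection hij a) : PSLn n K) ∈ H := by
  intro d
  induction d with
  | zero => intro i j hij a hd; exact h i j hij a hd
  | succ d ih =>
    intro i j hij a hd
    have hk : i.val + d + 1 < n := by have := j.isLt; omega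
    have hik : i ≠ ⟨i.val + d + 1, hk⟩ := by
      intro h1
      have := congrArg Fin.val h1
      simp only at this
      omega
    have hkj : (⟨i.val + d + 1, hk⟩ : Fin n) ≠ j := by
      intro h1
      have := congrArg Fin.val h1
      simp only at this
      omega
    have h1 := ih i ⟨i.val + d + 1, hk⟩ hik a rfl
    have h2 := h ⟨i.val + d + 1, hk⟩ j hkj 1 (by simp only; omega)
    rw [← comm_tv hik hkj hij a]
    exact H.mul_mem (H.mul_mem (H.mul_mem h1 h2) (H.inv_mem h1)) (H.inv_mem h2)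

/-- supported in the block -/
def Bl (k : ℕ) (b : Matrix (Fin n) (Fin n) K) : Prop :=
  ∀ i j, b i j ≠ 0 → i.val < k ∧ k ≤ j.val

theorem bl_mul {k : ℕ} {b c : Matrix (Fin n) (Fin n) K} (hb : Bl k b) (hc : Bl k c) :
    b * c = 0 := by
  ext i j
  rw [Matrix.mul_apply, Matrix.zero_apply]
  refine Finset.sum_eq_zero fun l _ => ?_
  by_contra h
  have h1 := hb i l (left_ne_zero_of_mul h)
  have h2 := hc l j (right_ne_zero_of_mul h)
  omega

theorem bl_det {k : ℕ} {b : Matrix (Fin n) (Fin n) K} (hb : Bl k b) : (1 + b).det = 1 := by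
  have h1 : (1 + b).BlockTriangular id := by
    intro i j hij
    have hij' : j < i := hij
    have h2 : b i j = 0 := by
      by_contra h
      have h3 := hb i j h
      have h4 : j.val < i.val := hij'
      omega
    rw [Matrix.add_apply, Matrix.one_apply_ne hij'.ne', h2, add_zero]
  rw [Matrix.det_of_isUpperTriangular h1]
  refine Finset.prod_eq_one fun i _ => ?_
  have h2 : b i i = 0 := by
    by_contra h
    have h3 := hb i i h
    omega
  rw [Matrix.add_apply, Matrix.one_apply_eq, h2, add_zero]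

theorem bl_add {k : ℕ} {b c : Matrix (Fin n) (Fin n) K} (hb : Bl k b) (hc : Bl k c) :
    Bl k (b + c) := by
  intro i j h
  by_cases h1 : b i j = 0
  · apply hc
    intro h2
    apply h
    rw [Matrix.add_apply, h1, h2, add_zero]
  · exact hb i j h1

/-- the matrices supported in the block whose image is in `H` -/
def SB (k : ℕ) (H : Subgroup (PSLn n K)) : AddSubmonoid (Matrix (Fin n) (Fin n) K) where
  carrier := {b | Bl k b ∧ ∀ g : SLn n K, g.1 = 1 + b → (QuotientGroup.mk g : PSLn n K) ∈ H}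
  zero_mem' := by
    refine ⟨fun i j h => absurd rfl h, fun g hg => ?_⟩
    have h1 : g = 1 := Subtype.ext (by rw [hg, add_zero]; rfl)
    rw [h1]
    exact H.one_mem
  add_mem' := by
    rintro b c ⟨hb, hb'⟩ ⟨hc, hc'⟩
    refine ⟨bl_add hb hc, fun g hg => ?_⟩
    obtain ⟨g1, hg1⟩ : ∃ g1 : SLn n K, g1.1 = 1 + b := ⟨⟨_, bl_det hb⟩, rfl⟩
    obtain ⟨g2, hg2⟩ : ∃ g2 : SLn n K, g2.1 = 1 + c := ⟨⟨_, bl_det hc⟩, rfl⟩
    have h1 : g = g1 * g2 := by
      apply Subtype.ext
      change g.1 = g1.1 * g2.1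
      have h2 : (1 + b) * (1 + c) = 1 + (b + c) + b * c := by noncomm_ring
      rw [hg, hg1, hg2, h2, bl_mul hb hc, add_zero]
    rw [h1]
    exact H.mul_mem (hb' _ hg1) (hc' _ hg2)

theorem bl_mem (k : ℕ) (H : Subgroup (PSLn n K))
    (h : ∀ (i j : Fin n) (hij : i ≠ j) (a : K), j.val = i.val + 1 →
      (QuotientGroup.mk (SpecialLinearGroup.transvection hij a) : PSLn n K) ∈ H)
    (b : Matrix (Fin n) (Fin n) K) (hb : Bl k b) : b ∈ SB k H := by
  rw [matrix_eq_sum_single b]
  refine sum_mem fun i _ => sum_mem fun j _ => ?_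
  by_cases h0 : b i j = 0
  · rw [h0, single_zero]
    exact zero_mem _
  · have h1 := hb i j h0
    have hij : i ≠ j := by
      intro h2
      rw [h2] at h1
      omega
    refine ⟨fun i' j' h2 => ?_, fun g hg => ?_⟩
    · have h3 : i = i' ∧ j = j' := by
        by_contra h4
        apply h2
        rw [single_apply, if_neg h4]
      rw [← h3.1, ← h3.2]
      exact h1
    · have h2 : g = SpecialLinearGroup.transvection hij (b i j) := Subtype.ext hg
      rw [h2]
      exact tv_mem H h (j.val - i.val - 1) i j hij _ (by omega)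

/-- the matrix of a function on the block -/
def bm (K : Type) [Field K] (n k : ℕ) (f : Fin k → Fin k → Bool) : Matrix (Fin n) (Fin n) K :=
  fun i j => if h : i.val < k ∧ k ≤ j.val ∧ j.val - k < k then
    (if f ⟨i.val, h.1⟩ ⟨j.val - k, h.2.2⟩ then 1 else 0) else 0

theorem bl_bm (k : ℕ) (f : Fin k → Fin k → Bool) : Bl k (bm K n k f) := by
  intro i j h
  unfold bm at h
  by_cases h1 : i.val < k ∧ k ≤ j.val ∧ j.val - k < k
  · exact ⟨h1.1, h1.2.1⟩
  · rw [dif_neg h1] at h
    exact absurd rfl h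

theorem bm_inj {k : ℕ} (hk : 2 * k ≤ n) (f g : Fin k → Fin k → Bool)
    (h : bm K n k f = bm K n k g) : f = g := by
  funext i j
  have hi := i.isLt
  have hj := j.isLt
  have h1 := congrFun (congrFun h ⟨i.val, by omega⟩) ⟨k + j.val, by omega⟩
  unfold bm at h1
  have h2 : i.val < k ∧ k ≤ k + j.val ∧ k + j.val - k < k := ⟨hi, by omega, by omega⟩
  rw [dif_pos h2, dif_pos h2] at h1
  have h3 : (⟨k + j.val - k, h2.2.2⟩ : Fin k) = j := Fin.ext (by simp)
  simp only [h3, Fin.eta] at h1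
  cases hf : f i j <;> cases hg : g i j
  · rfl
  · rw [hf, hg] at h1
    simp at h1
  · rw [hf, hg] at h1
    simp at h1
  · rfl

end GNUM

open GNUM Matrix in
theorem specGNU : SpecGNU := by
  intro n K _ _ H h
  rcases Nat.eq_zero_or_pos (n / 2) with hk | hk
  · rw [hk, zero_pow two_ne_zero, pow_zero]
    exact Nat.card_pos
  have hkn : 2 * (n / 2) ≤ n := Nat.mul_div_le n 2
  generalize n / 2 = k at *
  let g : (Fin k → Fin k → Bool) → SLn n K := fun f => ⟨1 + bm K n k f, bl_det (bl_bm k f)⟩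
  have hg : ∀ f, (QuotientGroup.mk (g f) : PSLn n K) ∈ H := fun f =>
    (bl_mem k H h _ (bl_bm k f)).2 (g f) rfl
  let F : (Fin k → Fin k → Bool) → H := fun f => ⟨QuotientGroup.mk (g f), hg f⟩
  have hF : Function.Injective F := by
    intro f f' hff
    have h1 : (QuotientGroup.mk (g f) : PSLn n K) = QuotientGroup.mk (g f') :=
      congrArg Subtype.val hff
    rw [QuotientGroup.eq] at h1
    obtain ⟨r, -, hr⟩ := Matrix.SpecialLinearGroup.mem_center_iff.1 h1
    have h2 : (g f').1 = (g f).1 * scalar (Fin n) r := by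
      rw [hr]
      change (g f').1 = (g f * ((g f)⁻¹ * g f')).1
      rw [mul_inv_cancel_left]
    have h3 : ∀ i j, (1 + bm K n k f') i j = (1 + bm K n k f) i j * r := by
      intro i j
      have h4 := congrFun (congrFun h2 i) j
      change (1 + bm K n k f') i j = ((1 + bm K n k f) * scalar (Fin n) r) i j at h4
      rw [h4, scalar_apply, mul_diagonal]
    have hr1 : r = 1 := by
      have h4 := h3 ⟨0, by omega⟩ ⟨0, by omega⟩
      have h5 : ∀ f, bm K n k f ⟨0, by omega⟩ ⟨0, by omega⟩ = 0 := by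
        intro f
        by_contra h6
        have h7 := bl_bm k f _ _ h6
        simp only at h7
        omega
      rw [Matrix.add_apply, Matrix.add_apply, h5, h5, Matrix.one_apply_eq, add_zero, one_mul] at h4
      exact h4.symm
    refine bm_inj (K := K) hkn f f' ?_
    ext i j
    have h4 := h3 i j
    rw [hr1, mul_one, Matrix.add_apply, Matrix.add_apply] at h4
    exact (add_left_cancel h4).symm
  have hcard := Nat.card_le_card_of_injective F hF
  have h5 : Nat.card (Fin k → Fin k → Bool) = 2 ^ (k ^ 2) := by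
    simp only [Nat.card_eq_fintype_card, Fintype.card_fun, Fintype.card_fin, Fintype.card_bool]
    rw [← pow_mul, sq]
  rw [← h5]
  exact hcard

end Pool.Agent.Lib.MP66ef6b.PL
end

section
set_option autoImplicit false

/-!
# MP_66ef6b_al, THEOREM L, module TRV (helper73)

A commutator which is a transvection.
-/

namespace Pool.Agent.Lib.MP66ef6b.PL

namespace TRVM

open Matrix

/-- A fixed vector `v` of `M + 1` such that `u` is not a multiple of `v`. -/
lemma exists_fix {n : ℕ} {K : Type} [Field K] (M : Matrix (Fin n) (Fin n) K) (R : ℕ)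
    (hR : R + 2 ≤ n) (hM : M.rank ≤ R) (u : Fin n → K) (hu : u ≠ 0) :
    ∃ v : Fin n → K, v ≠ 0 ∧ M *ᵥ v = 0 ∧ u ∉ Submodule.span K {v} := by
  have h1 := LinearMap.finrank_range_add_finrank_ker M.mulVecLin
  have h2 : Module.finrank K (LinearMap.range M.mulVecLin) ≤ R := hM
  rw [Module.finrank_fin_fun] at h1
  have h3 : ¬ (LinearMap.ker M.mulVecLin ≤ Submodule.span K {u}) := by
    intro h
    have h5 := Submodule.finrank_mono h
    have h4 : Module.finrank K (Submodule.span K {u}) ≤ 1 := (finrank_span_singleton hu).le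
    omega
  obtain ⟨v, hv, hvu⟩ := SetLike.not_le_iff_exists.mp h3
  refine ⟨v, ?_, ?_, ?_⟩
  · rintro rfl
    exact hvu (Submodule.zero_mem _)
  · simpa using hv
  · intro h
    obtain ⟨c, hc⟩ := Submodule.mem_span_singleton.mp h
    apply hvu
    rw [Submodule.mem_span_singleton]
    have hc0 : c ≠ 0 := by
      rintro rfl
      exact hu (by rw [← hc, zero_smul])
    exact ⟨c⁻¹, by rw [← hc, smul_smul, inv_mul_cancel₀ hc0, one_smul]⟩

lemma exists_psi {n : ℕ} {K : Type} [Field K] (u v : Fin n → K)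
    (h : u ∉ Submodule.span K {v}) :
    ∃ ψ : Fin n → K, ψ ⬝ᵥ v = 0 ∧ ψ ⬝ᵥ u ≠ 0 := by
  obtain ⟨f, hf, hk⟩ := Submodule.exists_le_ker_of_notMem h
  have key : ∀ x : Fin n → K, (fun i => f (Pi.single i 1)) ⬝ᵥ x = f x := by
    intro x
    have hx : x = ∑ i, x i • (Pi.single i (1 : K) : Fin n → K) := by
      funext j
      simp [Finset.sum_apply, Pi.single_apply]
    conv_rhs => rw [hx]
    rw [map_sum]
    simp only [dotProduct, map_smul, smul_eq_mul]
    exact Finset.sum_congr rfl fun i _ => mul_comm _ _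
  refine ⟨fun i => f (Pi.single i 1), ?_, ?_⟩
  · rw [key]
    exact hk (Submodule.mem_span_singleton_self v)
  · rw [key]
    exact hf

lemma det_tv {n : ℕ} {K : Type} [Field K] (v φ : Fin n → K) (h : φ ⬝ᵥ v = 0) :
    (1 + vecMulVec v φ).det = 1 := by
  rw [vecMulVec_eq Unit, det_one_add_replicateCol_mul_replicateRow, h, add_zero]

end TRVM

open Matrix in
theorem specTRV : SpecTRV := by
  intro n K _ B μ R hμ hR hrank hne
  -- a nonzero vector in the range
  have hM : μ • B.1 - 1 ≠ 0 := fun h => hne (sub_eq_zero.mp h)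
  obtain ⟨w, hw⟩ : ∃ w : Fin n → K, (μ • B.1 - 1) *ᵥ w ≠ 0 := by
    by_contra hcon
    push Not at hcon
    apply hM
    apply Matrix.ext_of_mulVec_single
    intro i
    rw [hcon, zero_mulVec]
  obtain ⟨v, hv0, hv, hspan⟩ := TRVM.exists_fix _ R hR hrank _ hw
  obtain ⟨ψ, hψv, hψu⟩ := TRVM.exists_psi _ v hspan
  have hBv : B.1 *ᵥ v = μ⁻¹ • v := by
    have h : μ • (B.1 *ᵥ v) = v := by
      rw [sub_mulVec, one_mulVec, smul_mulVec, sub_eq_zero] at hv
      exact hv
    calc B.1 *ᵥ v = μ⁻¹ • (μ • (B.1 *ᵥ v)) := by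
          rw [smul_smul, inv_mul_cancel₀ hμ, one_smul]
      _ = μ⁻¹ • v := by rw [h]
  have hBinv : (B⁻¹).1 * B.1 = 1 := by
    have h : (B⁻¹ * B).1 = (1 : SLn n K).1 := congrArg Subtype.val (inv_mul_cancel B)
    exact h
  have hBv' : (B⁻¹).1 *ᵥ v = μ • v := by
    have h : (B⁻¹).1 *ᵥ (B.1 *ᵥ v) = (B⁻¹).1 *ᵥ (μ⁻¹ • v) := by rw [hBv]
    rw [mulVec_mulVec, hBinv, one_mulVec, mulVec_smul] at h
    calc (B⁻¹).1 *ᵥ v = μ • (μ⁻¹ • ((B⁻¹).1 *ᵥ v)) := by
          rw [smul_smul, mul_inv_cancel₀ hμ, one_smul]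
      _ = μ • v := by rw [← h]
  obtain ⟨φ', hφ'⟩ : ∃ φ' : Fin n → K, φ' = μ⁻¹ • (ψ ᵥ* (B⁻¹).1) := ⟨_, rfl⟩
  obtain ⟨φ, hφ⟩ : ∃ φ : Fin n → K, φ = φ' - ψ := ⟨_, rfl⟩
  have hφ'v : φ' ⬝ᵥ v = 0 := by
    rw [hφ', smul_dotProduct, ← dotProduct_mulVec, hBv', dotProduct_smul, hψv, smul_zero,
      smul_zero]
  have hφv : φ ⬝ᵥ v = 0 := by
    rw [hφ, sub_dotProduct, hφ'v, hψv, sub_zero]
  have hφ'B : φ' ᵥ* B.1 = μ⁻¹ • ψ := by
    rw [hφ', smul_vecMul, vecMul_vecMul, hBinv, vecMul_one]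
  have hφ0 : φ ≠ 0 := by
    intro h0
    have h1 : φ' = ψ := by
      rw [hφ, sub_eq_zero] at h0
      exact h0
    rw [h1] at hφ'B
    have h2 : ψ ᵥ* (μ • B.1 - 1) = 0 := by
      rw [vecMul_sub, vecMul_one, vecMul_smul, hφ'B, smul_smul, mul_inv_cancel₀ hμ, one_smul,
        sub_self]
    apply hψu
    rw [dotProduct_mulVec, h2, zero_dotProduct]
  have hms : (1 + vecMulVec v φ) * (1 + vecMulVec v ψ) = 1 + vecMulVec v φ' := by
    rw [mul_add, mul_one, add_mul, one_mul, vecMulVec_mul_vecMulVec, hφv, zero_smul,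
      vecMulVec_zero, add_zero, add_assoc, ← vecMulVec_add, hφ, sub_add_cancel]
  have hkey : (1 + vecMulVec v φ) * ((1 + vecMulVec v ψ) * B.1) = B.1 * (1 + vecMulVec v ψ) := by
    rw [← mul_assoc, hms, add_mul, one_mul, vecMulVec_mul, hφ'B, mul_add, mul_one, mul_vecMulVec,
      hBv, smul_vecMulVec, vecMulVec_smul]
  let s : SLn n K := ⟨1 + vecMulVec v ψ, TRVM.det_tv v ψ hψv⟩
  let m : SLn n K := ⟨1 + vecMulVec v φ, TRVM.det_tv v φ hφv⟩
  have hgrp : m * (s * B) = B * s := Subtype.ext hkey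
  have hm : B * s * B⁻¹ * s⁻¹ = m := by
    rw [← hgrp]
    group
  exact ⟨s, v, φ, hv0, hφ0, hφv, by rw [hm]⟩

end Pool.Agent.Lib.MP66ef6b.PL
end

section
set_option autoImplicit false

/-! # MP_66ef6b_al, THEOREM L: module MNL -/

namespace Pool.Agent.Lib.MP66ef6b.PL

universe u

namespace MNLM

theorem isPSL_of_equiv {P Q : Type u} [Group P] [Group Q] (e : P ≃* Q) (h : IsPSL P) : IsPSL Q := by
  obtain ⟨n, K, iK, hK, ⟨f⟩⟩ := h
  exact ⟨n, K, iK, hK, ⟨e.symm.trans f⟩⟩

theorem key {G : Type u} [Group G] [IsSimpleGroup G] [Infinite G] (hG : LocFin G) (b : ℕ)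
    (F : Subgroup G)
    (h : ∀ E : Subgroup G, Finite E → F ≤ E →
      ∃ (K : Subgroup G) (Y : Type u) (_ : Group Y) (T : Subgroup Y),
        ALFactors b K ∧ Visible F E Y T ∧ CompFactor K T)
    (E : Subgroup G) (hE : Finite E) (hFE : F ≤ E) :
    ∃ (Y : Type u) (_ : Group Y) (T : Subgroup Y), Visible F E Y T ∧
      ((∃ n : ℕ, Nonempty (T ≃* alternatingGroup (Fin n))) ∨ IsPSL T) := by
  obtain ⟨E', hE'f, hEE', hbig⟩ := exists_big hG E b.factorial
  obtain ⟨K, Y, _, T, hK, hV, A, B, _, hA, ⟨e⟩⟩ := h E' hE'f (hFE.trans hEE')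
  have hV' := hV
  obtain ⟨X, ρ, S, hXf, hEX, hρs, hρi, hT, -⟩ := hV'
  have hTn : T.Normal := hT.normal
  have hYf : Finite Y := Finite.of_surjective ρ hρs
  have hs : IsSimpleGroup T := hT.simple
  have hs' : IsSimpleGroup (A ⧸ B) := e.isSimpleGroup
  have hnc : ∃ a b : A ⧸ B, a * b ≠ b * a := by
    obtain ⟨a, ha, b, hb, hab⟩ := hT.noncomm
    refine ⟨e.symm ⟨a, ha⟩, e.symm ⟨b, hb⟩, fun h => hab ?_⟩
    rw [← map_mul, ← map_mul] at h
    exact congrArg Subtype.val (e.symm.injective h)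
  have hcard : b < Nat.card (A ⧸ B) := by
    rw [Nat.card_congr e.toEquiv]
    by_contra hle
    have h1 : Nat.card E' ≤ Nat.card ((E'.subgroupOf X).map ρ) := by
      refine Nat.card_le_card_of_injective
        (fun x : E' => (⟨ρ ⟨x, hEX x.2⟩, ⟨x, hEX x.2⟩, Subgroup.mem_subgroupOf.mpr x.2, rfl⟩ :
          (E'.subgroupOf X).map ρ)) ?_
      intro x y hxy
      have h2 : ρ ⟨x, hEX x.2⟩ = ρ ⟨y, hEX y.2⟩ := congrArg Subtype.val hxy
      have h3 := hρi (⟨x, hEX x.2⟩ * (⟨y, hEX y.2⟩ : X)⁻¹)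
        (E'.mul_mem x.2 (E'.inv_mem y.2)) (by rw [map_mul, map_inv, h2, mul_inv_cancel])
      rw [mul_inv_eq_one] at h3
      exact Subtype.ext (congrArg (fun x : X => (x : G)) h3)
    have h2 := AltM.card_le_factorial hT.cent ((E'.subgroupOf X).map ρ)
    have h3 : (Nat.card T).factorial ≤ b.factorial := Nat.factorial_le (not_lt.mp hle)
    omega
  refine ⟨Y, _, T, hV.mono hEE', ?_⟩
  rcases hK A B hA hs' hnc hcard with ⟨n, ⟨e'⟩⟩ | hP
  · exact Or.inl ⟨n, ⟨e.symm.trans e'⟩⟩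
  · exact Or.inr (isPSL_of_equiv e hP)

end MNLM

theorem specMNL (hLIN : SpecLIN.{u}) : SpecMNL.{u} := by
  intro G _ _ _ hG hL
  have hFG : SpecFG.{u} := specFG specMIN specDICH specPART specPOSA specPOSC
    (specPOS2 specCOUNT specLARGE) specCASE1
  have hLOCAL : SpecLOCAL.{u} := specLOCAL hFG specQUOT specTRA1 specTRA2 specTOWER
  have hALT : SpecALT.{u} := specALT (specAUTY specAUTN) specCYC specTOWER
  have hback := (specBACK specULIM : SpecBACK.{u}) G hG
  refine ⟨fun h => ?_, fun h => h.elim (fun h => h.finiteType) hback.2⟩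
  obtain ⟨b, hL⟩ := hL
  rcases alternative hG hLOCAL specULTA h (fun K => ALFactors b K) hL with h | ⟨F, hF, h⟩
  · exact Or.inl h
  · by_cases hA : ∀ E : Subgroup G, Finite E → F ≤ E → ∃ (n : ℕ) (Y : Type u) (_ : Group Y)
        (P : Subgroup Y), Visible F E Y P ∧ Nonempty (P ≃* alternatingGroup (Fin n))
    · exact Or.inr (hALT G hG F hF hA)
    · push Not at hA
      obtain ⟨E₀, hE₀, hFE₀, hA⟩ := hA
      refine Or.inl (hLIN G hG F hF fun E hE hFE => ?_)
      have hfin : Finite (E ⊔ E₀ : Subgroup G) := UltaM.finite_sup hG E E₀ hE hE₀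
      obtain ⟨Y, _, T, hV, hT⟩ := MNLM.key hG b F h (E ⊔ E₀) hfin (hFE.trans le_sup_left)
      rcases hT with ⟨n, ⟨e⟩⟩ | hT
      · exact absurd ⟨e⟩ (not_nonempty_iff.mpr (hA n Y _ T (hV.mono le_sup_right)))
      · exact ⟨Y, _, T, hV.mono le_sup_left, hT⟩

end Pool.Agent.Lib.MP66ef6b.PL
end

section
set_option autoImplicit false

/-!
# MP_66ef6b_al, THEOREM L, module AVG (helper10): commutators have many fixed points on average
-/

namespace Pool.Agent.Lib.MP66ef6b.PL

namespace AVGM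

open Finset

variable {Γ Ω : Type} [Group Γ] [MulAction Γ Ω] [Fintype Ω] [DecidableEq Ω]

theorem ncard_fx (g : Γ) :
    (fx Ω ({g} : Set Γ)).ncard = (univ.filter fun ω : Ω => g • ω = ω).card := by
  rw [← Set.ncard_coe_finset]
  congr 1
  ext ω
  simp [fx]

end AVGM

open Finset in
theorem specAVG : SpecAVG := by
  intro Γ Ω _ _ _ T _ f
  classical
  haveI : Fintype Ω := Fintype.ofFinite Ω
  simp only [AVGM.ncard_fx]
  rw [Nat.card_eq_fintype_card]
  set A : Finset Ω := univ.filter fun ω : Ω => f • ω = ω with hA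
  set N : Ω → ℕ := fun ω => (univ.filter fun t : T => (t : Γ) • ω ∈ A).card with hN
  have hNsum : ∀ ω, N ω = ∑ t : T, if (t : Γ) • ω ∈ A then 1 else 0 := by
    intro ω
    exact Finset.card_filter _ _
  have hinv : ∀ (s : T) (ω : Ω), N ((s : Γ) • ω) = N ω := by
    intro s ω
    rw [hNsum, hNsum]
    refine Fintype.sum_equiv (Equiv.mulRight s) _ _ fun t => ?_
    simp [mul_smul]
  have hshift : ∀ (t : T) (F : Ω → ℕ), ∑ ω, F ((t : Γ) • ω) = ∑ ω, F ω := by
    intro t F
    exact Fintype.sum_equiv (MulAction.toPerm (t : Γ)) _ _ fun ω => rfl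
  -- step 2
  have h2 : ∑ ω, N ω = Fintype.card T * A.card := by
    simp only [hNsum]
    rw [Finset.sum_comm]
    have : ∀ t : T, (∑ ω : Ω, if (t : Γ) • ω ∈ A then 1 else 0) = A.card := by
      intro t
      rw [hshift t fun ω => if ω ∈ A then 1 else 0]
      simp
    rw [Finset.sum_congr rfl fun t _ => this t]
    simp
  -- step 3
  have h3 : ∑ ω, N ω ^ 2 = Fintype.card T * ∑ ω ∈ A, N ω := by
    have e1 : ∀ ω, N ω ^ 2 = ∑ t : T, if (t : Γ) • ω ∈ A then N ((t : Γ) • ω) else 0 := by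
      intro ω
      rw [sq]
      conv_lhs => rw [hNsum ω]
      rw [Finset.sum_mul]
      rw [← hNsum ω]
      refine Finset.sum_congr rfl fun t _ => ?_
      rw [hinv t ω]
      split_ifs <;> simp
    rw [Finset.sum_congr rfl fun ω _ => e1 ω, Finset.sum_comm]
    have e2 : ∀ t : T, (∑ ω : Ω, if (t : Γ) • ω ∈ A then N ((t : Γ) • ω) else 0) =
        ∑ ω ∈ A, N ω := by
      intro t
      rw [hshift t fun ω => if ω ∈ A then N ω else 0]
      simp [Finset.sum_ite_mem]
    rw [Finset.sum_congr rfl fun t _ => e2 t]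
    simp
  -- step 1
  have h1 : ∑ ω ∈ A, N ω ≤ ∑ t : T, (univ.filter fun ω : Ω =>
      (f * (t : Γ) * f⁻¹ * (t : Γ)⁻¹) • ω = ω).card := by
    have e1 : ∑ ω ∈ A, N ω = ∑ t : T, (A.filter fun ω => (t : Γ)⁻¹ • ω ∈ A).card := by
      simp only [hNsum, Finset.card_filter]
      rw [Finset.sum_comm]
      refine Fintype.sum_equiv (Equiv.inv T) _ _ fun t => ?_
      simp
    rw [e1]
    refine Finset.sum_le_sum fun t _ => Finset.card_le_card ?_
    intro ω hω
    simp only [hA, Finset.mem_filter, Finset.mem_univ, true_and] at hω ⊢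
    obtain ⟨a, b⟩ := hω
    have b' : f⁻¹ • ((t : Γ)⁻¹ • ω) = (t : Γ)⁻¹ • ω := by
      rw [inv_smul_eq_iff, b]
    rw [mul_smul, mul_smul, mul_smul, b', smul_inv_smul, a]
  have hcs : (∑ ω, N ω) ^ 2 ≤ Fintype.card Ω * ∑ ω, N ω ^ 2 := by
    have := sq_sum_le_card_mul_sum_sq (s := (univ : Finset Ω)) (f := fun ω => (N ω : ℤ))
    have h' : ((∑ ω, N ω : ℕ) : ℤ) ^ 2 ≤ ((Fintype.card Ω * ∑ ω, N ω ^ 2 : ℕ) : ℤ) := by
      push_cast
      simpa using this
    exact_mod_cast h'
  rw [h2, h3] at hcs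
  have hpos : 0 < Fintype.card T := Fintype.card_pos
  have : Fintype.card T * (Fintype.card T * A.card ^ 2) ≤
      Fintype.card T * (Fintype.card Ω * ∑ ω ∈ A, N ω) := by
    calc Fintype.card T * (Fintype.card T * A.card ^ 2) = (Fintype.card T * A.card) ^ 2 := by ring
      _ ≤ Fintype.card Ω * (Fintype.card T * ∑ ω ∈ A, N ω) := hcs
      _ = Fintype.card T * (Fintype.card Ω * ∑ ω ∈ A, N ω) := by ring
  have h4 := Nat.le_of_mul_le_mul_left this hpos
  exact h4.trans (Nat.mul_le_mul_left _ h1)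

end Pool.Agent.Lib.MP66ef6b.PL
end

section
set_option autoImplicit false

/-!
# MP_66ef6b_al, THEOREM L, module PICK (helper10): consequences of AVG
-/

namespace Pool.Agent.Lib.MP66ef6b.PL

open Finset in
theorem specPICK (hAVG : SpecAVG) : SpecPICK := by
  intro Γ Ω _ _ _ _ T _ f δ hδ hδ1 hf
  classical
  haveI : Fintype Ω := Fintype.ofFinite Ω
  haveI : Fintype T := Fintype.ofFinite T
  set n : ℝ := (Nat.card Ω : ℝ) with hn
  have hnpos : 0 < n := by
    rw [hn]; exact_mod_cast Nat.card_pos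
  have hT : (Nat.card T : ℝ) = (Fintype.card T : ℝ) := by rw [Nat.card_eq_fintype_card]
  set τ : ℝ := (Fintype.card T : ℝ) with hτ
  have hτpos : 0 < τ := by rw [hτ]; exact_mod_cast Fintype.card_pos
  set F : T → ℕ := fun t => (fx Ω {f * (t : Γ) * f⁻¹ * (t : Γ)⁻¹}).ncard with hF
  have hFle : ∀ t, (F t : ℝ) ≤ n := by
    intro t
    rw [hn]
    exact_mod_cast (Set.ncard_le_card _)
  have havg := hAVG Γ Ω T f
  have havg' : τ * ((fx Ω {f}).ncard : ℝ) ^ 2 ≤ n * ∑ t : T, (F t : ℝ) := by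
    rw [hτ, hn]; exact_mod_cast havg
  have hsum : δ ^ 2 * τ * n ≤ ∑ t : T, (F t : ℝ) := by
    have h1 : (δ * n) ^ 2 ≤ ((fx Ω {f}).ncard : ℝ) ^ 2 :=
      pow_le_pow_left₀ (by positivity) hf 2
    have h2 : n * (δ ^ 2 * τ * n) ≤ n * ∑ t : T, (F t : ℝ) := by
      refine le_trans ?_ havg'
      calc n * (δ ^ 2 * τ * n) = τ * (δ * n) ^ 2 := by ring
        _ ≤ _ := mul_le_mul_of_nonneg_left h1 hτpos.le
    exact le_of_mul_le_mul_left h2 hnpos
  refine ⟨fun h2 => ?_, ?_⟩
  · by_contra hcon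
    push Not at hcon
    rw [hT] at h2
    have hb : ∀ t : T, t ≠ 1 → (F t : ℝ) ≤ δ ^ 2 / 2 * n := by
      intro t ht
      have := hcon (t : Γ) t.2 (by simpa using ht)
      exact this.le
    have hb' : ∀ t : T, t ≠ 1 → (F t : ℝ) < δ ^ 2 / 2 * n := by
      intro t ht
      exact hcon (t : Γ) t.2 (by simpa using ht)
    have hsplit : ∑ t : T, (F t : ℝ) = (F 1 : ℝ) + ∑ t ∈ univ.erase (1 : T), (F t : ℝ) :=
      (Finset.add_sum_erase _ _ (mem_univ _)).symm
    have hcard : (univ.erase (1 : T)).card + 1 = Fintype.card T :=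
      Finset.card_erase_add_one (mem_univ _)
    have hne : (univ.erase (1 : T)).Nonempty := by
      rw [← Finset.card_pos]
      have h3 : (2 : ℝ) ≤ τ := by
        have : δ ^ 2 ≤ 1 := by nlinarith
        nlinarith
      have h4 : 2 ≤ Fintype.card T := by rw [hτ] at h3; exact_mod_cast h3
      omega
    have hlt : ∑ t ∈ univ.erase (1 : T), (F t : ℝ) <
        ∑ t ∈ univ.erase (1 : T), (δ ^ 2 / 2 * n) :=
      Finset.sum_lt_sum_of_nonempty hne fun t ht => hb' t (Finset.ne_of_mem_erase ht)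
    rw [Finset.sum_const, nsmul_eq_mul] at hlt
    have hc : ((univ.erase (1 : T)).card : ℝ) = τ - 1 := by
      rw [hτ, ← hcard]; push_cast; ring
    rw [hc] at hlt
    have hF1 := hFle 1
    have : δ ^ 2 * τ * n < n + (τ - 1) * (δ ^ 2 / 2 * n) := by linarith
    have h5 : (δ ^ 2 * τ) * n < (1 + (τ - 1) * (δ ^ 2 / 2)) * n := by nlinarith
    have h6 := lt_of_mul_lt_mul_right h5 hnpos.le
    nlinarith [sq_nonneg δ]
  · rw [hT]
    set G : Set Γ := {t | t ∈ T ∧ δ ^ 2 / 2 * n ≤ ((fx Ω {f * t * f⁻¹ * t⁻¹}).ncard : ℝ)} with hG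
    set G' : Finset T := univ.filter fun t => δ ^ 2 / 2 * n ≤ (F t : ℝ) with hG'
    have hGG : G.ncard = G'.card := by
      have : G = (fun t : T => (t : Γ)) '' (G' : Set T) := by
        ext x
        simp only [hG, hG', Set.mem_setOf_eq, Set.mem_image, Finset.coe_filter, mem_univ, true_and,
          hF]
        constructor
        · rintro ⟨a, b⟩
          exact ⟨⟨x, a⟩, b, rfl⟩
        · rintro ⟨y, hy, rfl⟩
          exact ⟨y.2, hy⟩
      rw [this, Set.ncard_image_of_injective _ Subtype.val_injective, Set.ncard_coe_finset]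
    rw [hGG]
    have hup : ∑ t : T, (F t : ℝ) ≤ ∑ t : T, ((if t ∈ G' then n else 0) + δ ^ 2 / 2 * n) := by
      refine Finset.sum_le_sum fun t _ => ?_
      by_cases ht : t ∈ G'
      · rw [if_pos ht]
        have := hFle t
        have : 0 ≤ δ ^ 2 / 2 * n := by positivity
        linarith [hFle t]
      · rw [if_neg ht]
        have : ¬ (δ ^ 2 / 2 * n ≤ (F t : ℝ)) := by
          intro h
          exact ht (by simp [hG', h])
        push Not at this
        linarith
    rw [Finset.sum_add_distrib, Finset.sum_const, nsmul_eq_mul, Finset.sum_ite_mem,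
      Finset.sum_const, nsmul_eq_mul, Finset.card_univ] at hup
    have hi : (univ ∩ G').card = G'.card := by simp
    rw [hi] at hup
    have h7 : (δ ^ 2 / 2 * τ) * n ≤ (G'.card : ℝ) * n := by
      have : (Fintype.card T : ℝ) = τ := rfl
      rw [this] at hup
      nlinarith
    exact le_of_mul_le_mul_right h7 hnpos

end Pool.Agent.Lib.MP66ef6b.PL
end

section
set_option autoImplicit false

/-!
# MP_66ef6b_al, THEOREM L: module FRT (helper20), perfect groups preserve the types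
-/

namespace Pool.Agent.Lib.MP66ef6b.PL

open scoped Matrix

namespace FRTM

variable {n : ℕ} {K : Type} [Field K]

theorem isTv_conj {h : SLn n K} {v φ : Fin n → K} (H : IsTv h v φ) (g : SLn n K) :
    IsTv (g * h * g⁻¹) (g.1 *ᵥ v) (φ ᵥ* (g⁻¹).1) := by
  have hg : (g⁻¹).1 * g.1 = 1 := congrArg Subtype.val (inv_mul_cancel g)
  have hg' : g.1 * (g⁻¹).1 = 1 := congrArg Subtype.val (mul_inv_cancel g)
  refine ⟨?_, ?_⟩
  · rw [← Matrix.dotProduct_mulVec, Matrix.mulVec_mulVec, hg, Matrix.one_mulVec]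
    exact H.1
  · have h1 : (g * h * g⁻¹).1 = g.1 * h.1 * (g⁻¹).1 := by
      rfl
    rw [h1, H.2, mul_add, mul_one, add_mul, hg', Matrix.mul_vecMulVec, Matrix.vecMulVec_mul]

theorem detv (u ψ : Fin n → K) : (1 + Matrix.vecMulVec u ψ).det = 1 + ψ ⬝ᵥ u := by
  rw [Matrix.vecMulVec_eq Unit, Matrix.det_one_add_replicateCol_mul_replicateRow]

/-- move `v` to `e_i` by an invertible matrix -/
theorem step1 (v : Fin n → K) (hv : v ≠ 0) (i : Fin n) :
    ∃ H : Matrix (Fin n) (Fin n) K, H.det ≠ 0 ∧ H *ᵥ v = Pi.single i 1 := by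
  obtain ⟨ψ, hψ1, hψi⟩ : ∃ ψ : Fin n → K, ψ ⬝ᵥ v = 1 ∧ ψ i ≠ 0 := by
    by_cases hvi : v i = 0
    · obtain ⟨k, hk⟩ : ∃ k, v k ≠ 0 := by
        by_contra h
        push Not at h
        exact hv (funext h)
      have hki : k ≠ i := fun h => hk (h ▸ hvi)
      refine ⟨Pi.single i 1 + Pi.single k (v k)⁻¹, ?_, ?_⟩
      · rw [add_dotProduct, single_dotProduct, single_dotProduct, hvi, mul_zero, zero_add,
          inv_mul_cancel₀ hk]
      · simp [hki.symm]
    · refine ⟨Pi.single i (v i)⁻¹, ?_, ?_⟩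
      · rw [single_dotProduct, inv_mul_cancel₀ hvi]
      · simpa using hvi
  refine ⟨1 + Matrix.vecMulVec (Pi.single i 1 - v) ψ, ?_, ?_⟩
  · rw [detv, dotProduct_sub, hψ1, dotProduct_single]
    simpa using hψi
  · rw [Matrix.add_mulVec, Matrix.one_mulVec, Matrix.vecMulVec_mulVec, hψ1]
    simp

/-- transitivity on vectors -/
theorem trA (hn : 2 ≤ n) (v : Fin n → K) (hv : v ≠ 0) (i : Fin n) :
    ∃ h : SLn n K, h.1 *ᵥ v = Pi.single i 1 := by
  obtain ⟨H, hd, hH⟩ := step1 v hv i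
  obtain ⟨j, hj⟩ : ∃ j : Fin n, j ≠ i := by
    have : Nontrivial (Fin n) := Fin.nontrivial_iff_two_le.2 hn
    exact exists_ne i
  refine ⟨⟨Matrix.diagonal (fun k => if k = j then H.det⁻¹ else 1) * H, ?_⟩, ?_⟩
  · rw [Matrix.det_mul, Matrix.det_diagonal,
      Finset.prod_ite_eq' Finset.univ j (fun _ => H.det⁻¹)]
    simp [hd]
  · show (Matrix.diagonal (fun k => if k = j then H.det⁻¹ else 1) * H) *ᵥ v = _
    rw [← Matrix.mulVec_mulVec, hH]
    ext k
    rw [Matrix.mulVec_diagonal]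
    by_cases hk : k = i
    · subst hk
      rw [if_neg (fun h => hj h.symm)]
      simp
    · rw [Pi.single_eq_of_ne hk, mul_zero]

/-- transitivity on functionals -/
theorem trB (hn : 2 ≤ n) (φ : Fin n → K) (hφ : φ ≠ 0) (i : Fin n) :
    ∃ h : SLn n K, φ ᵥ* (h⁻¹).1 = Pi.single i 1 := by
  obtain ⟨h0, hh⟩ := trA hn φ hφ i
  refine ⟨(⟨h0.1ᵀ, by rw [Matrix.det_transpose]; exact h0.2⟩ : SLn n K)⁻¹, ?_⟩
  rw [inv_inv]
  show φ ᵥ* h0.1ᵀ = _
  rw [Matrix.vecMul_transpose, hh]

/-- conjugate of a set -/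
def cj (q : PSLn n K) (X : Set (PSLn n K)) : Set (PSLn n K) := {c | q⁻¹ * c * q ∈ X}

/-- image of a set under an automorphism -/
def im (r : MulAut (PSLn n K)) (X : Set (PSLn n K)) : Set (PSLn n K) := {c | r⁻¹ c ∈ X}

theorem cj_AA (h : SLn n K) (v : Fin n → K) :
    AA (h.1 *ᵥ v) = cj (QuotientGroup.mk h : PSLn n K) (AA v) := by
  ext c
  constructor
  · rintro ⟨g, φ, H, rfl⟩
    have h1 := isTv_conj H h⁻¹
    have hg : (h⁻¹).1 * h.1 = 1 := congrArg Subtype.val (inv_mul_cancel h)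
    rw [Matrix.mulVec_mulVec, hg, Matrix.one_mulVec, inv_inv] at h1
    exact ⟨h⁻¹ * g * h, _, h1, rfl⟩
  · rintro ⟨g, φ, H, hg⟩
    refine ⟨h * g * h⁻¹, φ ᵥ* (h⁻¹).1, isTv_conj H h, ?_⟩
    rw [QuotientGroup.mk_mul, QuotientGroup.mk_mul, hg, QuotientGroup.mk_inv]
    group

theorem cj_BB (h : SLn n K) (φ : Fin n → K) :
    BB (φ ᵥ* (h⁻¹).1) = cj (QuotientGroup.mk h : PSLn n K) (BB φ) := by
  ext c
  constructor
  · rintro ⟨g, v, H, rfl⟩
    have h1 := isTv_conj H h⁻¹
    have hg : (h⁻¹).1 * h.1 = 1 := congrArg Subtype.val (inv_mul_cancel h)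
    rw [inv_inv, Matrix.vecMul_vecMul, hg, Matrix.vecMul_one] at h1
    exact ⟨h⁻¹ * g * h, _, h1, rfl⟩
  · rintro ⟨g, v, H, hg⟩
    refine ⟨h * g * h⁻¹, h.1 *ᵥ v, isTv_conj H h, ?_⟩
    rw [QuotientGroup.mk_mul, QuotientGroup.mk_mul, hg, QuotientGroup.mk_inv]
    group

theorem mulVec_ne (h : SLn n K) (v : Fin n → K) (hv : v ≠ 0) : h.1 *ᵥ v ≠ 0 := by
  intro h0
  apply hv
  have hg : (h⁻¹).1 * h.1 = 1 := congrArg Subtype.val (inv_mul_cancel h)
  have h3 : (h⁻¹).1 *ᵥ (h.1 *ᵥ v) = (h⁻¹).1 *ᵥ 0 := by rw [h0]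
  rwa [Matrix.mulVec_mulVec, hg, Matrix.one_mulVec, Matrix.mulVec_zero] at h3

theorem vecMul_ne (h : SLn n K) (v : Fin n → K) (hv : v ≠ 0) : v ᵥ* (h⁻¹).1 ≠ 0 := by
  intro h0
  apply hv
  have hg : (h⁻¹).1 * h.1 = 1 := congrArg Subtype.val (inv_mul_cancel h)
  have h3 : (v ᵥ* (h⁻¹).1) ᵥ* h.1 = 0 ᵥ* h.1 := by rw [h0]
  rwa [Matrix.vecMul_vecMul, hg, Matrix.vecMul_one, Matrix.zero_vecMul] at h3

/-- one of the sets `AA v` -/
def IsA (X : Set (PSLn n K)) : Prop := ∃ v : Fin n → K, v ≠ 0 ∧ X = AA v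

/-- one of the sets `BB φ` -/
def IsB (X : Set (PSLn n K)) : Prop := ∃ φ : Fin n → K, φ ≠ 0 ∧ X = BB φ

theorem cj_cj (q q' : PSLn n K) (X : Set (PSLn n K)) : cj q (cj q' X) = cj (q * q') X := by
  ext c
  show q'⁻¹ * (q⁻¹ * c * q) * q' ∈ X ↔ (q * q')⁻¹ * c * (q * q') ∈ X
  rw [show (q * q')⁻¹ * c * (q * q') = q'⁻¹ * (q⁻¹ * c * q) * q' by group]

theorem cj_inv (q : PSLn n K) (X : Set (PSLn n K)) : cj q⁻¹ (cj q X) = X := by
  rw [cj_cj, inv_mul_cancel]
  ext c
  show (1 : PSLn n K)⁻¹ * c * 1 ∈ X ↔ c ∈ X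
  rw [inv_one, one_mul, mul_one]

theorem IsA.cj {X : Set (PSLn n K)} (hX : IsA X) (q : PSLn n K) : IsA (FRTM.cj q X) := by
  obtain ⟨v, hv, rfl⟩ := hX
  obtain ⟨h, rfl⟩ := QuotientGroup.mk_surjective q
  exact ⟨h.1 *ᵥ v, mulVec_ne h v hv, (cj_AA h v).symm⟩

theorem conjA (hn : 2 ≤ n) {X Y : Set (PSLn n K)} (hX : IsA X) (hY : IsA Y) :
    ∃ q : PSLn n K, Y = FRTM.cj q X := by
  obtain ⟨v, hv, rfl⟩ := hX
  obtain ⟨w, hw, rfl⟩ := hY
  obtain ⟨h, hh⟩ := trA hn v hv ⟨0, by omega⟩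
  obtain ⟨k, hk⟩ := trA hn w hw ⟨0, by omega⟩
  have h1 := cj_AA h v
  have h2 := cj_AA k w
  rw [hh] at h1
  rw [hk, h1] at h2
  refine ⟨(QuotientGroup.mk k : PSLn n K)⁻¹ * QuotientGroup.mk h, ?_⟩
  rw [← cj_cj, h2, cj_inv]

theorem conjB (hn : 2 ≤ n) {X Y : Set (PSLn n K)} (hX : IsB X) (hY : IsB Y) :
    ∃ q : PSLn n K, Y = FRTM.cj q X := by
  obtain ⟨v, hv, rfl⟩ := hX
  obtain ⟨w, hw, rfl⟩ := hY
  obtain ⟨h, hh⟩ := trB hn v hv ⟨0, by omega⟩
  obtain ⟨k, hk⟩ := trB hn w hw ⟨0, by omega⟩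
  have h1 := cj_BB h v
  have h2 := cj_BB k w
  rw [hh] at h1
  rw [hk, h1] at h2
  refine ⟨(QuotientGroup.mk k : PSLn n K)⁻¹ * QuotientGroup.mk h, ?_⟩
  rw [← cj_cj, h2, cj_inv]

theorem im_cj (r : MulAut (PSLn n K)) (q : PSLn n K) (X : Set (PSLn n K)) :
    im r (cj q X) = cj (r q) (im r X) := by
  ext c
  show q⁻¹ * (r⁻¹ c) * q ∈ X ↔ r⁻¹ ((r q)⁻¹ * c * (r q)) ∈ X
  rw [map_mul, map_mul, map_inv, MulAut.inv_apply_self]

theorem im_mul (r s : MulAut (PSLn n K)) (X : Set (PSLn n K)) : im (r * s) X = im r (im s X) := by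
  ext c
  show (r * s)⁻¹ c ∈ X ↔ s⁻¹ (r⁻¹ c) ∈ X
  rw [mul_inv_rev, MulAut.mul_apply]

theorem im_inj (r : MulAut (PSLn n K)) {X Y : Set (PSLn n K)} (h : im r X = im r Y) : X = Y := by
  ext c
  have h1 : r c ∈ im r X ↔ r c ∈ im r Y := by rw [h]
  have h2 : ∀ Z : Set (PSLn n K), r c ∈ im r Z ↔ c ∈ Z := by
    intro Z
    show r⁻¹ (r c) ∈ Z ↔ c ∈ Z
    rw [MulAut.inv_apply_self]
  rwa [h2, h2] at h1

theorem cj_eq_im (r : MulAut (PSLn n K)) (q : PSLn n K) (X : Set (PSLn n K)) :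
    cj q (im r X) = im r (cj (r⁻¹ q) X) := by
  rw [im_cj, MulAut.apply_inv_self]

theorem par (A B : Prop) : (((A ↔ B) ↔ A) ↔ B) := by
  by_cases hA : A <;> by_cases hB : B <;> simp [hA, hB]

/-- a nonzero vector -/
theorem exists_A (hn : 2 ≤ n) : ∃ X : Set (PSLn n K), IsA X :=
  ⟨_, Pi.single (⟨0, by omega⟩ : Fin n) (1 : K), by simp, rfl⟩

end FRTM

open FRTM in
theorem specFRT (hTIN : SpecTIN) (hTMX : SpecTMX) (hAAF : SpecAAF) : SpecFRT := by
  classical
  intro n K _ _ hn R hR v hv r hr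
  have hn2 : 2 ≤ n := by omega
  have : Finite (PSLn n K) := Quotient.finite _
  -- the two types are different
  have hAB : ∀ X : Set (PSLn n K), IsA X → IsB X → False := by
    rintro X ⟨w, hw, rfl⟩ ⟨ψ, hψ, h⟩
    exact (hAAF n K hn2 w hw).2.2.2 hn ψ hψ h
  -- cardinalities
  have hcA : ∀ w : Fin n → K, w ≠ 0 → (AA w : Set (PSLn n K)).ncard = Nat.card K ^ (n - 1) := by
    intro w hw
    obtain ⟨A, hA, hc, _⟩ := (hAAF n K hn2 w hw).1
    rw [← hA, ← hc]
    rfl
  have hcB : ∀ w : Fin n → K, w ≠ 0 → (BB w : Set (PSLn n K)).ncard = Nat.card K ^ (n - 1) := by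
    intro w hw
    obtain ⟨A, hA, hc, _⟩ := (hAAF n K hn2 w hw).2.1
    rw [← hA, ← hc]
    rfl
  -- images of subgroups of transvections
  have himg : ∀ (s : MulAut (PSLn n K)) (A : Subgroup (PSLn n K)),
      (∀ c ∈ A, c ≠ 1 → c ∈ TT n K) → Nat.card A = Nat.card K ^ (n - 1) →
      IsA (im s (A : Set (PSLn n K))) ∨ IsB (im s (A : Set (PSLn n K))) := by
    intro s A hA hc
    have hset : im s (A : Set (PSLn n K)) = ((A.map (s : PSLn n K →* PSLn n K) :
        Subgroup (PSLn n K)) : Set (PSLn n K)) := by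
      ext c
      rw [SetLike.mem_coe, Subgroup.mem_map]
      constructor
      · intro h
        exact ⟨s⁻¹ c, h, MulAut.apply_inv_self _ s c⟩
      · rintro ⟨d, hd, rfl⟩
        show s⁻¹ (s d) ∈ A
        rw [MulAut.inv_apply_self]
        exact hd
    have hcard : ((A.map (s : PSLn n K →* PSLn n K) : Subgroup (PSLn n K)) :
        Set (PSLn n K)).ncard = Nat.card K ^ (n - 1) := by
      rw [← hc, ← hset]
      have : im s (A : Set (PSLn n K)) = (s : PSLn n K → PSLn n K) '' (A : Set (PSLn n K)) := by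
        rw [hset]
        rfl
      rw [this, Set.ncard_image_of_injective _ s.injective]
      rfl
    have hT : ∀ c ∈ A.map (s : PSLn n K →* PSLn n K), c ≠ 1 → c ∈ TT n K := by
      rintro c hc' hc1
      obtain ⟨d, hd, rfl⟩ := Subgroup.mem_map.1 hc'
      refine hTIN n K hn2 s d (hA d hd fun h => hc1 ?_)
      rw [h, map_one]
    rcases hTMX n K hn _ hT with ⟨w, hw, hsub⟩ | ⟨ψ, hψ, hsub⟩
    · left
      refine ⟨w, hw, ?_⟩
      rw [hset]
      exact Set.eq_of_subset_of_ncard_le hsub (by rw [hcA w hw, hcard]) (Set.toFinite _)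
    · right
      refine ⟨ψ, hψ, ?_⟩
      rw [hset]
      exact Set.eq_of_subset_of_ncard_le hsub (by rw [hcB ψ hψ, hcard]) (Set.toFinite _)
  have hmkone : ∀ (g : SLn n K) (w φ : Fin n → K), IsTv g w φ → (w = 0 ∨ φ = 0) →
      (QuotientGroup.mk g : PSLn n K) = 1 := by
    intro g w φ h h0
    have hg : g = 1 := by
      apply Subtype.ext
      rw [h.2]
      rcases h0 with rfl | rfl
      · simp
      · simp
    rw [hg]
    rfl
  have hD : ∀ (s : MulAut (PSLn n K)) (X : Set (PSLn n K)), IsA X ∨ IsB X →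
      IsA (im s X) ∨ IsB (im s X) := by
    rintro s X (⟨w, hw, rfl⟩ | ⟨w, hw, rfl⟩)
    · obtain ⟨A, hA, hc, _⟩ := (hAAF n K hn2 w hw).1
      rw [← hA]
      refine himg s A (fun c hc' hc1 => ?_) hc
      have h1 : c ∈ (A : Set (PSLn n K)) := hc'
      rw [hA] at h1
      obtain ⟨g, φ, H, rfl⟩ := h1
      exact ⟨g, w, φ, H, hw, fun h => hc1 (hmkone g w φ H (Or.inr h)), rfl⟩
    · obtain ⟨A, hA, hc, _⟩ := (hAAF n K hn2 w hw).2.1
      rw [← hA]
      refine himg s A (fun c hc' hc1 => ?_) hc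
      have h1 : c ∈ (A : Set (PSLn n K)) := hc'
      rw [hA] at h1
      obtain ⟨g, u, H, rfl⟩ := h1
      exact ⟨g, u, w, H, fun h => hc1 (hmkone g u w H (Or.inl h)), hw, rfl⟩
  -- types
  let P : MulAut (PSLn n K) → Prop := fun s => ∀ X : Set (PSLn n K), IsA X → IsA (im s X)
  obtain ⟨X0, hX0⟩ := exists_A (K := K) hn2
  have hP1 : ∀ s X, IsA X → IsA (im s X) → P s := by
    intro s X hX hsX Y hY
    obtain ⟨q, rfl⟩ := conjA hn2 hX hY
    rw [im_cj]
    exact hsX.cj _
  have hN1 : ∀ s, ¬ P s → ∀ X, IsA X → IsB (im s X) := by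
    intro s hs X hX
    rcases hD s X (Or.inl hX) with h | h
    · exact absurd (hP1 s X hX h) hs
    · exact h
  have hP2 : ∀ s, P s → ∀ Y, IsB Y → IsB (im s Y) := by
    intro s hs Y hY
    rcases hD s Y (Or.inr hY) with h | h
    · exfalso
      obtain ⟨q, hq⟩ := conjA hn2 (hs X0 hX0) h
      rw [cj_eq_im] at hq
      have h1 := im_inj s hq
      exact hAB Y (by rw [h1]; exact hX0.cj _) hY
    · exact h
  have hN2 : ∀ s, ¬ P s → ∀ Y, IsB Y → IsA (im s Y) := by
    intro s hs Y hY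
    rcases hD s Y (Or.inr hY) with h | h
    · exact h
    · exfalso
      obtain ⟨q, hq⟩ := conjB hn2 (hN1 s hs X0 hX0) h
      rw [cj_eq_im] at hq
      have h1 := im_inj s hq
      exact hAB Y (by rw [h1]; exact hX0.cj _) hY
  have hmul : ∀ s t, P (s * t) ↔ (P s ↔ P t) := by
    intro s t
    by_cases hs : P s <;> by_cases ht : P t
    · refine ⟨fun _ => ⟨fun _ => ht, fun _ => hs⟩, fun _ X hX => ?_⟩
      rw [im_mul]
      exact hs _ (ht X hX)
    · refine ⟨fun h => ?_, fun h => absurd (h.1 hs) ht⟩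
      have h1 := h X0 hX0
      rw [im_mul] at h1
      exact (hAB _ h1 (hP2 s hs _ (hN1 t ht X0 hX0))).elim
    · refine ⟨fun h => ?_, fun h => absurd (h.2 ht) hs⟩
      have h1 := h X0 hX0
      rw [im_mul] at h1
      exact (hAB _ h1 (hN1 s hs _ (ht X0 hX0))).elim
    · refine ⟨fun _ => ⟨fun h => absurd h hs, fun h => absurd h ht⟩, fun _ X hX => ?_⟩
      rw [im_mul]
      exact hN2 s hs _ (hN1 t ht X hX)
  have hone : P 1 := by
    intro X hX
    have : im (1 : MulAut (PSLn n K)) X = X := by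
      ext c
      show (1 : MulAut (PSLn n K))⁻¹ c ∈ X ↔ c ∈ X
      rw [inv_one, MulAut.one_apply]
    rwa [this]
  have hinv : ∀ s, P s⁻¹ ↔ P s := by
    intro s
    have h1 := hmul s s⁻¹
    rw [mul_inv_cancel] at h1
    exact (h1.1 hone).symm
  let S : Subgroup (MulAut (PSLn n K)) :=
    { carrier := {s | P s}
      mul_mem' := fun {a b} ha hb => (hmul a b).2 ⟨fun _ => hb, fun _ => ha⟩
      one_mem' := hone
      inv_mem' := fun {a} ha => (hinv a).2 ha }
  have hRS : R ≤ S := by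
    have h1 : ⁅R, R⁆ ≤ S := by
      rw [Subgroup.commutator_le]
      intro a _ b _
      show P (a * b * a⁻¹ * b⁻¹)
      have h3 : P (a * b * a⁻¹) ↔ ((P a ↔ P b) ↔ P a) :=
        (hmul (a * b) a⁻¹).trans (iff_congr (hmul a b) (hinv a))
      exact ((hmul (a * b * a⁻¹) b⁻¹).trans (iff_congr h3 (hinv b))).2 (par (P a) (P b))
    unfold Perf at hR
    rwa [hR] at h1
  obtain ⟨w, hw, hw'⟩ := hRS hr (AA v) ⟨v, hv, rfl⟩
  obtain ⟨q, hq⟩ := conjA hn2 (X := AA v) (Y := AA w) ⟨v, hv, rfl⟩ ⟨w, hw, rfl⟩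
  refine ⟨q, fun c => ?_⟩
  have h1 : r c ∈ im r (AA v) ↔ c ∈ AA v := by
    show r⁻¹ (r c) ∈ AA v ↔ c ∈ AA v
    rw [MulAut.inv_apply_self]
  rw [← h1, hw', hq]
  rfl

end Pool.Agent.Lib.MP66ef6b.PL
end

section
set_option autoImplicit false

/-!
# MP_66ef6b_al, THEOREM L, module A1: large fields
-/

namespace Pool.Agent.Lib.MP66ef6b.PL

namespace A1M

variable {K V : Type} [Field K] [AddCommGroup V] [Module K V]

/-- the transvections `1 + c φ(·) v`. -/
def Tg (v : V) (φ : Module.Dual K V) (hφ : φ v = 0) : Subgroup (SpecialLinearGroup K V) where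
  carrier := {g | ∃ c : K, ∀ x : V, g x = x + (c * φ x) • v}
  mul_mem' := by
    rintro g h ⟨c, hc⟩ ⟨d, hd⟩
    refine ⟨c + d, fun x => ?_⟩
    have : (g * h : SpecialLinearGroup K V) x = g (h x) := rfl
    rw [this, hc, hd]
    simp only [map_add, map_smul, smul_eq_mul, hφ, mul_zero, add_zero]
    module
  one_mem' := ⟨0, fun x => by
    have : (1 : SpecialLinearGroup K V) x = x := rfl
    rw [this]; simp⟩
  inv_mem' := by
    rintro g ⟨c, hc⟩
    refine ⟨-c, fun x => ?_⟩
    have h1 : g (x + (-c * φ x) • v) = x := by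
      rw [hc]
      simp only [map_add, map_smul, smul_eq_mul, hφ, mul_zero, add_zero]
      module
    have h2 : (g⁻¹ : SpecialLinearGroup K V) (g (x + (-c * φ x) • v)) = x + (-c * φ x) • v := by
      have : (g⁻¹ * g : SpecialLinearGroup K V) (x + (-c * φ x) • v) = x + (-c * φ x) • v := by
        rw [inv_mul_cancel]; rfl
      exact this
    rw [h1] at h2
    exact h2

lemma mem_Tg {v : V} {φ : Module.Dual K V} {hφ : φ v = 0} {g : SpecialLinearGroup K V} :
    g ∈ Tg v φ hφ ↔ ∃ c : K, ∀ x : V, g x = x + (c * φ x) • v := Iff.rfl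

lemma card_Tg (hTVE : SpecTVE) [Finite K] [Module.Finite K V] (v : V) (φ : Module.Dual K V)
    (hφ : φ v = 0) (w : V) (hw : φ w ≠ 0) (hv : v ≠ 0) :
    Finite (Tg v φ hφ) ∧ Nat.card (Tg v φ hφ) = Nat.card K := by
  have hex : ∀ c : K, ∃ g : Tg v φ hφ, ∀ x : V, (g : SpecialLinearGroup K V) x
      = x + (c * φ x) • v := by
    intro c
    obtain ⟨g, hg⟩ := hTVE K V v (c • φ) (by simp [hφ])
    have hg' : ∀ x : V, g x = x + (c * φ x) • v := by
      intro x
      have := hg x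
      simpa using this
    exact ⟨⟨g, mem_Tg.2 ⟨c, hg'⟩⟩, hg'⟩
  choose e he using hex
  have hinj : Function.Injective e := by
    intro c d hcd
    have h1 := he c w
    have h2 := he d w
    rw [hcd] at h1
    have h3 : w + (c * φ w) • v = w + (d * φ w) • v := by rw [← h1, ← h2]
    have h4 : (c * φ w) • v = (d * φ w) • v := add_left_cancel h3
    have h5 : (c * φ w - d * φ w) • v = 0 := by rw [sub_smul, h4, sub_self]
    rcases smul_eq_zero.1 h5 with h6 | h6
    · have h7 : (c - d) * φ w = 0 := by rw [sub_mul]; exact h6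
      rcases mul_eq_zero.1 h7 with h8 | h8
      · exact sub_eq_zero.1 h8
      · exact absurd h8 hw
    · exact absurd h6 hv
  have hsurj : Function.Surjective e := by
    rintro ⟨g, hg⟩
    obtain ⟨c, hc⟩ := mem_Tg.1 hg
    refine ⟨c, Subtype.ext ?_⟩
    apply SpecialLinearGroup.ext
    intro x
    rw [he c x]
    exact (hc x).symm
  exact ⟨Finite.of_surjective e hsurj, (Nat.card_congr (Equiv.ofBijective e ⟨hinj, hsurj⟩)).symm⟩

end A1M

open A1M in
theorem specA1 (hPICK : SpecPICK) (hVPH : SpecVPH) (hTVE : SpecTVE) (hA1B : SpecA1B)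
    (hBLK : SpecBLK) (hCBK : SpecCBK) : SpecA1 := by
  intro δ hδ hδ1
  obtain ⟨q, hq⟩ := hCBK (δ ^ 2 / 2) (by positivity) (by nlinarith)
  refine ⟨max q (max ⌈2 / δ ^ 2⌉₊ 4), ?_⟩
  intro K V Ω _ _ _ _ _ _ _ _ hqK hfx f hf
  by_contra hcon
  have hge : δ * Nat.card Ω ≤ (fx Ω {f}).ncard := not_lt.1 hcon
  obtain ⟨v, φ, hφv, hφf, hφs⟩ := hVPH K V f.1 hf
  have hv : v ≠ 0 := by
    rintro rfl
    apply hφf
    simp
  obtain ⟨hfin, hcard⟩ := card_Tg hTVE v φ hφv (f.1 v) hφf hv
  have h1 : ⌈2 / δ ^ 2⌉₊ ≤ Nat.card K := le_trans (le_trans (le_max_left _ _) (le_max_right _ _)) hqK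
  have h4 : 4 ≤ Nat.card K := le_trans (le_trans (le_max_right _ _) (le_max_right _ _)) hqK
  have hqq : q ≤ Nat.card K := le_trans (le_max_left _ _) hqK
  have h2 : 2 / δ ^ 2 ≤ (Nat.card K : ℝ) := le_trans (Nat.le_ceil _) (by exact_mod_cast h1)
  have h3 : 2 ≤ δ ^ 2 * Nat.card (Tg v φ hφv) := by
    rw [hcard]
    have hpos : 0 < δ ^ 2 := by positivity
    rw [div_le_iff₀ hpos] at h2
    linarith
  obtain ⟨t, htT, ht1, hfxt⟩ :=
    (hPICK (SpecialLinearGroup K V) Ω (Tg v φ hφv) f δ hδ hδ1 hge).1 h3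
  obtain ⟨c, hc⟩ := mem_Tg.1 htT
  have hc0 : c ≠ 0 := by
    rintro rfl
    apply ht1
    apply SpecialLinearGroup.ext
    intro x
    rw [hc x]
    have : (1 : SpecialLinearGroup K V) x = x := rfl
    rw [this]; simp
  obtain ⟨D, Ψ, g, hg, hβ⟩ := hA1B K V f t v φ c hφv hφf hφs hc0 hc
  obtain ⟨β, hβblk⟩ := hBLK K V K D Ψ h4
  have h5 := hq K V D Ω Ψ β hβblk hqq hfx g hg
  rw [hβ β hβblk] at h5
  exact absurd hfxt (not_le.2 h5)

end Pool.Agent.Lib.MP66ef6b.PL
end

section
set_option autoImplicit false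

/-!
# MP_66ef6b_al, THEOREM L: A1B (helper2). The commutator of `f` with a transvection is in a block.
-/

namespace Pool.Agent.Lib.MP66ef6b.PL

namespace A1BM

variable {K V : Type} [Field K] [AddCommGroup V] [Module K V]

/-- The decomposition of `V`. -/
noncomputable def blkEquiv (φ₁ φ₂ : Module.Dual K V) (v w : V) (a b : K) (ha : a ≠ 0) (hb : b ≠ 0)
    (h1v : φ₁ v = 0) (h1w : φ₁ w = a) (h2v : φ₂ v = b) (h2w : φ₂ w = 0) :
    V ≃ₗ[K] (K × K) × (LinearMap.ker φ₁ ⊓ LinearMap.ker φ₂ : Submodule K V) where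
  toFun x := ((φ₂ x / b, φ₁ x / a), ⟨x - (φ₂ x / b) • v - (φ₁ x / a) • w, by
    refine ⟨?_, ?_⟩
    · simp only [SetLike.mem_coe, LinearMap.mem_ker, map_sub, map_smul, h1v, h1w, smul_eq_mul, mul_zero, sub_zero]
      field_simp
      ring
    · simp only [SetLike.mem_coe, LinearMap.mem_ker, map_sub, map_smul, h2v, h2w, smul_eq_mul, mul_zero, sub_zero]
      field_simp
      ring⟩)
  map_add' x y := by
    refine Prod.ext (Prod.ext ?_ ?_) (Subtype.ext ?_)
    · simp only [map_add, Prod.fst_add]; ring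
    · simp only [map_add, Prod.fst_add, Prod.snd_add]; ring
    · simp only [map_add, Prod.snd_add, Submodule.coe_add]
      module
  map_smul' r x := by
    refine Prod.ext (Prod.ext ?_ ?_) (Subtype.ext ?_)
    · simp only [map_smul, smul_eq_mul, RingHom.id_apply, Prod.smul_fst]; ring
    · simp only [map_smul, smul_eq_mul, RingHom.id_apply, Prod.smul_fst, Prod.smul_snd]; ring
    · simp only [map_smul, smul_eq_mul, RingHom.id_apply, Prod.smul_snd, Submodule.coe_smul]
      module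
  invFun p := p.1.1 • v + p.1.2 • w + (p.2 : V)
  left_inv x := by
    simp only
    module
  right_inv p := by
    obtain ⟨⟨α, β⟩, ⟨d, hd⟩⟩ := p
    have hd1 : φ₁ d = 0 := hd.1
    have hd2 : φ₂ d = 0 := hd.2
    have e1 : φ₁ (α • v + β • w + d) / a = β := by
      simp only [map_add, map_smul, h1v, h1w, hd1, smul_eq_mul, mul_zero, zero_add, add_zero]
      field_simp
    have e2 : φ₂ (α • v + β • w + d) / b = α := by
      simp only [map_add, map_smul, h2v, h2w, hd2, smul_eq_mul, mul_zero, add_zero]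
      field_simp
    refine Prod.ext (Prod.ext ?_ ?_) (Subtype.ext ?_)
    · exact e2
    · exact e1
    · simp only [e1, e2]
      module

end A1BM

open A1BM in
theorem specA1B : SpecA1B := by
  intro K V _ _ _ _ f t v φ c hv ha hb hc ht
  set φ₂ : Module.Dual K V := φ.comp (f⁻¹ : SpecialLinearGroup K V).1.toLinearMap with hφ₂
  have h2 : ∀ x : V, φ₂ x = φ ((f⁻¹ : SpecialLinearGroup K V) x) := fun x => rfl
  have hfi : ∀ x : V, (f⁻¹ : SpecialLinearGroup K V) (f x) = x := by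
    intro x
    have : ((f⁻¹ * f : SpecialLinearGroup K V)) x = x := by
      rw [inv_mul_cancel]; rfl
    exact this
  have hif : ∀ x : V, f ((f⁻¹ : SpecialLinearGroup K V) x) = x := by
    intro x
    have : ((f * f⁻¹ : SpecialLinearGroup K V)) x = x := by
      rw [mul_inv_cancel]; rfl
    exact this
  have h2w : φ₂ (f v) = 0 := by rw [h2, hfi, hv]
  have h2v : φ₂ v = φ ((f⁻¹ : SpecialLinearGroup K V) v) := h2 v
  set a : K := φ (f v) with hadef
  set b : K := φ ((f⁻¹ : SpecialLinearGroup K V) v) with hbdef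
  have hti : ∀ x : V, (t⁻¹ : SpecialLinearGroup K V) x = x - (c * φ x) • v := by
    intro x
    have e : t (x - (c * φ x) • v) = x := by
      rw [ht]
      simp only [map_sub, map_smul, hv, smul_eq_mul, mul_zero, sub_zero]
      module
    have : (t⁻¹ : SpecialLinearGroup K V) (t (x - (c * φ x) • v)) = x - (c * φ x) • v := by
      have : ((t⁻¹ * t : SpecialLinearGroup K V)) (x - (c * φ x) • v) = x - (c * φ x) • v := by
        rw [inv_mul_cancel]; rfl
      exact this
    rw [e] at this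
    exact this
  have hcomm : ∀ x : V, (f * t * f⁻¹ * t⁻¹ : SpecialLinearGroup K V) x =
      x - (c * φ x) • v + (c * (φ₂ x - c * φ x * b)) • f v := by
    intro x
    have e1 : (f * t * f⁻¹ * t⁻¹ : SpecialLinearGroup K V) x =
      f (t ((f⁻¹ : SpecialLinearGroup K V) ((t⁻¹ : SpecialLinearGroup K V) x))) := rfl
    rw [e1, hti, ht]
    have hadd : ∀ x y : V, f (x + y) = f x + f y := fun x y => map_add f.1 x y
    have hsmul : ∀ (r : K) (y : V), f (r • y) = r • f y := fun r y => map_smul f.1 r y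
    rw [hadd, hif, hsmul, ← h2]
    simp only [map_sub, map_smul, h2v, smul_eq_mul]
  let g : SLn 2 K := ⟨!![1, -(c * a); c * b, 1 - c ^ 2 * a * b], by
    rw [Matrix.det_fin_two_of]; ring⟩
  refine ⟨_, blkEquiv φ φ₂ v (f v) a b ha hb hv rfl h2v h2w, g, ?_, ?_⟩
  · intro hg
    rw [Matrix.SpecialLinearGroup.mem_center_iff] at hg
    obtain ⟨r, -, hr⟩ := hg
    have h01 := congrFun (congrFun hr 0) 1
    simp [g, Matrix.scalar_apply] at h01
    rcases h01 with h | h
    · exact hc h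
    · exact ha h
  · intro β hβ
    apply SpecialLinearGroup.ext
    intro x
    have hinj := (blkEquiv φ φ₂ v (f v) a b ha hb hv rfl h2v h2w).injective
    apply hinj
    rw [hβ, hcomm]
    have g00 : g.1 0 0 = 1 := rfl
    have g01 : g.1 0 1 = -(c * a) := rfl
    have g10 : g.1 1 0 = c * b := rfl
    have g11 : g.1 1 1 = 1 - c ^ 2 * a * b := rfl
    rw [g00, g01, g10, g11]
    have f1 : φ (x - (c * φ x) • v + (c * (φ₂ x - c * φ x * b)) • f v) =
        φ x + c * (φ₂ x - c * φ x * b) * a := by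
      simp only [map_add, map_sub, map_smul, hv, smul_eq_mul, mul_zero, sub_zero]
      rfl
    have f2 : φ₂ (x - (c * φ x) • v + (c * (φ₂ x - c * φ x * b)) • f v) =
        φ₂ x - c * φ x * b := by
      simp only [map_add, map_sub, map_smul, h2v, h2w, smul_eq_mul, mul_zero, add_zero]
    refine Prod.ext (Prod.ext ?_ ?_) (Subtype.ext ?_)
    · change 1 * (φ₂ x / b) + -(c * a) * (φ x / a) = φ₂ (x - (c * φ x) • v + (c * (φ₂ x - c * φ x * b)) • f v) / b
      rw [f2]
      field_simp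
      ring
    · change c * b * (φ₂ x / b) + (1 - c ^ 2 * a * b) * (φ x / a) = φ (x - (c * φ x) • v + (c * (φ₂ x - c * φ x * b)) • f v) / a
      rw [f1]
      field_simp
      ring
    · change x - (φ₂ x / b) • v - (φ x / a) • f v = (x - (c * φ x) • v + (c * (φ₂ x - c * φ x * b)) • f v)
        - (φ₂ (x - (c * φ x) • v + (c * (φ₂ x - c * φ x * b)) • f v) / b) • v
        - (φ (x - (c * φ x) • v + (c * (φ₂ x - c * φ x * b)) • f v) / a) • f v
      rw [f1, f2]
      have e1 : (φ₂ x - c * φ x * b) / b = φ₂ x / b - c * φ x := by field_simp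
      have e2 : (φ x + c * (φ₂ x - c * φ x * b) * a) / a = φ x / a + c * (φ₂ x - c * φ x * b) := by
        field_simp
      rw [e1, e2]
      module

end Pool.Agent.Lib.MP66ef6b.PL
end

section
set_option autoImplicit false

/-!
# MP_66ef6b_al, THEOREM L, module A2 (helper35): large support
-/

namespace Pool.Agent.Lib.MP66ef6b.PL

namespace A2M

theorem exists_k (δ : ℝ) (hδ : 0 < δ) (q : ℕ) :
    ∃ k : ℕ, 1 ≤ k ∧ 2 ≤ δ ^ 2 * (2 : ℝ) ^ k ∧ q ≤ 2 ^ (2 * k) ∧ 4 ≤ 2 ^ (2 * k) := by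
  obtain ⟨n, hn⟩ := exists_nat_ge (2 / δ ^ 2)
  refine ⟨n + q + 1, by omega, ?_, ?_, ?_⟩
  · have h1 : (n : ℝ) ≤ (2 : ℝ) ^ n := by
      have := Nat.lt_two_pow_self (n := n)
      exact_mod_cast this.le
    have h2 : (2 : ℝ) ^ n ≤ (2 : ℝ) ^ (n + q + 1) :=
      pow_le_pow_right₀ (by norm_num) (by omega)
    have h3 : 2 / δ ^ 2 ≤ (2 : ℝ) ^ (n + q + 1) := hn.trans (h1.trans h2)
    rw [div_le_iff₀ (by positivity)] at h3
    linarith
  · have h1 : q < 2 ^ q := Nat.lt_two_pow_self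
    have h2 : 2 ^ q ≤ 2 ^ (2 * (n + q + 1)) := Nat.pow_le_pow_right (by norm_num) (by omega)
    omega
  · have h2 : 2 ^ 2 ≤ 2 ^ (2 * (n + q + 1)) := Nat.pow_le_pow_right (by norm_num) (by omega)
    simpa using h2

end A2M

theorem specA2 (hPICK : SpecPICK) (hCOM : SpecCOM) (hEXT : SpecEXT) (hQUN : SpecQUN)
    (hBLK : SpecBLK) (hCBL : SpecCBL) : SpecA2 := by
  intro δ hδ hδ1
  have hδ2 : 0 < δ ^ 2 / 2 := by positivity
  have hδ2' : δ ^ 2 / 2 ≤ 1 := by nlinarith
  obtain ⟨q, hq⟩ := hCBL (δ ^ 2 / 2) hδ2 hδ2'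
  obtain ⟨k, hk1, hk2, hk3, hk4⟩ := A2M.exists_k δ hδ q
  refine ⟨5 * k, ?_⟩
  intro K V Ω _ _ _ _ _ _ _ _ hfx f hf
  by_contra hcon
  rw [not_lt] at hcon
  obtain ⟨T, hTc, hT⟩ := hCOM K V f k hk1 hf
  have hKcard : 2 ≤ Nat.card K := Finite.one_lt_card
  have hKpos : 0 < Nat.card K := by omega
  haveI hTfin : Finite T := Nat.finite_of_card_ne_zero (by rw [hTc]; positivity)
  have hT2 : 2 ≤ δ ^ 2 * (Nat.card T : ℝ) := by
    have h1 : (2 : ℝ) ^ k ≤ (Nat.card K : ℝ) ^ k :=
      pow_le_pow_left₀ (by norm_num) (by exact_mod_cast hKcard) k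
    rw [hTc]
    push_cast
    nlinarith [sq_nonneg δ]
  obtain ⟨t, htT, ht1, ht⟩ := (hPICK (SpecialLinearGroup K V) Ω T f δ hδ hδ1 hcon).1 hT2
  obtain ⟨h1, h2⟩ := hT t htT ht1
  obtain ⟨L, _, _, hLfin, hLrank⟩ := hEXT K (2 * k) (by omega)
  haveI : Module.Finite K L := Module.finite_of_finrank_pos (by omega)
  have hV : 5 * k < Module.finrank K V := by
    refine lt_of_lt_of_le (hf 0) ?_
    exact Submodule.finrank_le _
  obtain ⟨D, Ψ, g, hD, hg, hβ⟩ := hQUN K V L (f * t * f⁻¹ * t⁻¹) h1 (h2.trans hLrank.symm)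
    (by omega)
  have hLcard : Nat.card L = Nat.card K ^ (2 * k) := by
    rw [Module.natCard_eq_pow_finrank (K := K) (V := L), hLrank]
  have hpow : 2 ^ (2 * k) ≤ Nat.card L := by
    rw [hLcard]
    exact Nat.pow_le_pow_left hKcard _
  obtain ⟨β, hblk⟩ := hBLK K V L D Ψ (by omega)
  have hlt := hq K V L D Ω Ψ β hblk (by omega) hfx g hg
  rw [hβ β hblk] at hlt
  linarith

end Pool.Agent.Lib.MP66ef6b.PL
end

section
set_option autoImplicit false

/-!
# MP_66ef6b_al, THEOREM L, module AAF (helper81): the groups `AA v` and `BB φ`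
-/

namespace Pool.Agent.Lib.MP66ef6b.PL

namespace AAFM

open Matrix

variable {n : ℕ} {K : Type} [Field K]

/-- the transvection `1 + v φ`. -/
def tv (v φ : Fin n → K) (h : φ ⬝ᵥ v = 0) : SLn n K :=
  ⟨1 + Matrix.vecMulVec v φ, by
    have := Matrix.det_one_add_replicateCol_mul_replicateRow (ι := Unit) v φ
    rw [← Matrix.vecMulVec_eq] at this
    rw [this, h, add_zero]⟩

theorem tv_isTv (v φ : Fin n → K) (h : φ ⬝ᵥ v = 0) : IsTv (tv v φ h) v φ := ⟨h, rfl⟩

theorem eq_tv {g : SLn n K} {v φ : Fin n → K} (h : IsTv g v φ) : g = tv v φ h.1 :=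
  Subtype.ext h.2

theorem vmul (v φ w ψ : Fin n → K) :
    (1 + Matrix.vecMulVec v φ) * (1 + Matrix.vecMulVec w ψ) =
      1 + Matrix.vecMulVec v φ + Matrix.vecMulVec w ψ + (φ ⬝ᵥ w) • Matrix.vecMulVec v ψ := by
  rw [mul_add, add_mul, add_mul, Matrix.vecMulVec_mul_vecMulVec]
  simp only [one_mul, mul_one]
  rw [Matrix.vecMulVec_smul]
  abel

/-- the functional `φ ↦ φ · v`. -/
def L (v : Fin n → K) : (Fin n → K) →ₗ[K] K where
  toFun φ := φ ⬝ᵥ v
  map_add' a b := add_dotProduct a b v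
  map_smul' c a := by simp [smul_dotProduct]

theorem L_apply (v φ : Fin n → K) : L v φ = φ ⬝ᵥ v := rfl

theorem L_ne (v : Fin n → K) (hv : v ≠ 0) : L v ≠ 0 := by
  intro h
  apply hv
  funext i
  have := congrArg (fun f => f (Pi.single i 1)) h
  simpa [L_apply] using this

theorem finrank_ker (v : Fin n → K) (hv : v ≠ 0) :
    Module.finrank K (LinearMap.ker (L v)) = n - 1 := by
  have h := LinearMap.finrank_range_add_finrank_ker (L v)
  have hs : LinearMap.range (L v) = ⊤ := LinearMap.range_eq_top.2 (LinearMap.surjective (L_ne v hv))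
  rw [hs, finrank_top, Module.finrank_self, Module.finrank_fin_fun] at h
  omega

theorem card_ker [Finite K] (v : Fin n → K) (hv : v ≠ 0) :
    Nat.card (LinearMap.ker (L v)) = Nat.card K ^ (n - 1) := by
  rw [Module.natCard_eq_pow_finrank (K := K), finrank_ker v hv]

/-- a central element of the form `1 + v φ`. -/
theorem central {g : SLn n K} {v φ : Fin n → K} (hn : 2 ≤ n) (h : IsTv g v φ)
    (hc : g ∈ Subgroup.center (SLn n K)) : ∀ i j, v i * φ j = 0 := by
  obtain ⟨r, _, hr⟩ := Matrix.SpecialLinearGroup.mem_center_iff.1 hc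
  rw [h.2] at hr
  have e : ∀ i j, (if i = j then r else 0) = (if i = j then (1 : K) else 0) + v i * φ j := by
    intro i j
    have := congrFun (congrFun hr i) j
    simpa [Matrix.scalar_apply, Matrix.diagonal_apply, Matrix.one_apply,
      Matrix.vecMulVec_apply] using this
  have off : ∀ i j, i ≠ j → v i * φ j = 0 := by
    intro i j hij
    have := e i j
    simp only [if_neg hij, zero_add] at this
    exact this.symm
  have dg : ∀ i, v i * φ i = r - 1 := by
    intro i
    have := e i i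
    simp only [if_true] at this
    rw [this]; ring
  have hr1 : r - 1 = 0 := by
    let i : Fin n := ⟨0, by omega⟩
    let j : Fin n := ⟨1, by omega⟩
    have hij : i ≠ j := by simp [i, j, Fin.ext_iff]
    have h1 := off i j hij
    have h2 := off j i hij.symm
    have h3 := dg i
    have h4 := dg j
    have : (r - 1) * (r - 1) = 0 := by
      calc (r - 1) * (r - 1) = (v i * φ i) * (v j * φ j) := by rw [h3, h4]
        _ = (v i * φ j) * (v j * φ i) := by ring
        _ = 0 := by rw [h1, zero_mul]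
    exact mul_self_eq_zero.1 this
  intro i j
  by_cases hij : i = j
  · subst hij; rw [dg i, hr1]
  · exact off i j hij

theorem mk_eq_iff (g h : SLn n K) :
    (QuotientGroup.mk g : PSLn n K) = QuotientGroup.mk h ↔
      g⁻¹ * h ∈ Subgroup.center (SLn n K) := QuotientGroup.eq

/-- the homomorphism `φ ↦ 1 + v φ`. -/
def homA (v : Fin n → K) : Multiplicative (LinearMap.ker (L v)) →* SLn n K where
  toFun φ := tv v (Multiplicative.toAdd φ).1 (Multiplicative.toAdd φ).2
  map_one' := by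
    apply Subtype.ext
    simp [tv]
  map_mul' a b := by
    apply Subtype.ext
    change 1 + Matrix.vecMulVec v _ = (1 + Matrix.vecMulVec v _) * (1 + Matrix.vecMulVec v _)
    rw [vmul]
    have : (Multiplicative.toAdd a).1 ⬝ᵥ v = 0 := (Multiplicative.toAdd a).2
    rw [this, zero_smul, add_zero, add_assoc, ← Matrix.vecMulVec_add]
    rfl

theorem homA_apply (v : Fin n → K) (φ : Fin n → K) (h : φ ⬝ᵥ v = 0) :
    homA v (Multiplicative.ofAdd ⟨φ, h⟩) = tv v φ h := rfl

theorem LB_mem (φ w : Fin n → K) : w ∈ LinearMap.ker (L φ) ↔ φ ⬝ᵥ w = 0 := by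
  rw [LinearMap.mem_ker, L_apply, dotProduct_comm]

/-- the homomorphism `v ↦ 1 + v φ`. -/
def homB (φ : Fin n → K) : Multiplicative (LinearMap.ker (L φ)) →* SLn n K where
  toFun v := tv (Multiplicative.toAdd v).1 φ ((LB_mem φ _).1 (Multiplicative.toAdd v).2)
  map_one' := by
    apply Subtype.ext
    simp [tv]
  map_mul' a b := by
    apply Subtype.ext
    change 1 + Matrix.vecMulVec _ φ = (1 + Matrix.vecMulVec _ φ) * (1 + Matrix.vecMulVec _ φ)
    rw [vmul]
    have : φ ⬝ᵥ (Multiplicative.toAdd b).1 = 0 := (LB_mem φ _).1 (Multiplicative.toAdd b).2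
    rw [this, zero_smul, add_zero, add_assoc, ← Matrix.add_vecMulVec]
    rfl

/-- the homomorphism to `PSL_n(K)`. -/
def pr : SLn n K →* PSLn n K := QuotientGroup.mk' _

theorem range_props {H : Type} [AddCommGroup H] (f : Multiplicative H →* PSLn n K)
    (hf : Function.Injective f) (m : ℕ) (hm : Nat.card H = m) (S : Set (PSLn n K))
    (hS : Set.range f = S) :
    ∃ A : Subgroup (PSLn n K), (A : Set (PSLn n K)) = S ∧ Nat.card A = m ∧
      ∀ a ∈ A, ∀ b ∈ A, a * b = b * a := by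
  refine ⟨f.range, ?_, ?_, ?_⟩
  · rw [MonoidHom.coe_range, hS]
  · rw [← hm]
    exact (Nat.card_congr (MonoidHom.ofInjective hf).toEquiv).symm
  · rintro _ ⟨a, rfl⟩ _ ⟨b, rfl⟩
    rw [← map_mul, ← map_mul, mul_comm]

theorem injA {v φ ψ : Fin n → K} (hn : 2 ≤ n) (hv : v ≠ 0) {g h : SLn n K} (hg : IsTv g v φ)
    (hh : IsTv h v ψ) (e : (QuotientGroup.mk g : PSLn n K) = QuotientGroup.mk h) : φ = ψ := by
  rw [mk_eq_iff] at e
  have hd : (ψ - φ) ⬝ᵥ v = 0 := by rw [sub_dotProduct, hg.1, hh.1, sub_zero]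
  have he : g⁻¹ * h = tv v (ψ - φ) hd := by
    rw [inv_mul_eq_iff_eq_mul, eq_tv hg, eq_tv hh]
    have := (homA v).map_mul (Multiplicative.ofAdd ⟨φ, hg.1⟩) (Multiplicative.ofAdd ⟨ψ - φ, hd⟩)
    rw [homA_apply, homA_apply] at this
    rw [← this]
    apply Subtype.ext
    change 1 + Matrix.vecMulVec v _ = 1 + Matrix.vecMulVec v (φ + (ψ - φ))
    rw [add_sub_cancel]
  rw [he] at e
  have hz := central hn (tv_isTv v (ψ - φ) hd) e
  obtain ⟨i, hi⟩ := Function.ne_iff.1 hv
  funext j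
  have := (mul_eq_zero.1 (hz i j)).resolve_left hi
  rw [Pi.sub_apply, sub_eq_zero] at this
  exact this.symm

theorem injB {v w φ : Fin n → K} (hn : 2 ≤ n) (hφ : φ ≠ 0) {g h : SLn n K} (hg : IsTv g v φ)
    (hh : IsTv h w φ) (e : (QuotientGroup.mk g : PSLn n K) = QuotientGroup.mk h) : v = w := by
  rw [mk_eq_iff] at e
  have hd : φ ⬝ᵥ (w - v) = 0 := by rw [dotProduct_sub, hg.1, hh.1, sub_zero]
  have he : g⁻¹ * h = tv (w - v) φ hd := by
    rw [inv_mul_eq_iff_eq_mul, eq_tv hg, eq_tv hh]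
    apply Subtype.ext
    change 1 + Matrix.vecMulVec w φ = (1 + Matrix.vecMulVec v φ) * (1 + Matrix.vecMulVec (w - v) φ)
    rw [vmul, hd, zero_smul, add_zero, add_assoc, ← Matrix.add_vecMulVec, add_sub_cancel]
  rw [he] at e
  have hz := central hn (tv_isTv (w - v) φ hd) e
  obtain ⟨i, hi⟩ := Function.ne_iff.1 hφ
  funext j
  have := (mul_eq_zero.1 (hz j i)).resolve_right hi
  rw [Pi.sub_apply, sub_eq_zero] at this
  exact this.symm

/-- a nonzero vector killed by two functionals. -/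
theorem exists_common (hn : 3 ≤ n) (φ w : Fin n → K) :
    ∃ x : Fin n → K, x ≠ 0 ∧ φ ⬝ᵥ x = 0 ∧ w ⬝ᵥ x = 0 := by
  have h : LinearMap.ker ((L φ).prod (L w)) ≠ ⊥ := by
    apply LinearMap.ker_ne_bot_of_finrank_lt
    rw [Module.finrank_prod, Module.finrank_self, Module.finrank_fin_fun]
    omega
  obtain ⟨x, hx, hx0⟩ := Submodule.exists_mem_ne_zero_of_ne_bot h
  refine ⟨x, hx0, ?_, ?_⟩
  · have := (LinearMap.mem_ker.1 hx)
    rw [LinearMap.prod_apply, Prod.mk_eq_zero] at this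
    rw [dotProduct_comm]; exact this.1
  · have := (LinearMap.mem_ker.1 hx)
    rw [LinearMap.prod_apply, Prod.mk_eq_zero] at this
    rw [dotProduct_comm]; exact this.2

theorem prop_of_eq (hn : 3 ≤ n) {v φ u w : Fin n → K} (hv : v ≠ 0) {g h : SLn n K}
    (hg : IsTv g v φ) (hh : IsTv h u w)
    (e : (QuotientGroup.mk h : PSLn n K) = QuotientGroup.mk g) :
    ∃ a : K, φ = a • w := by
  rw [mk_eq_iff] at e
  obtain ⟨r, _, hr⟩ := Matrix.SpecialLinearGroup.mem_center_iff.1 e
  have hgh : g.1 = h.1 * Matrix.scalar (Fin n) r := by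
    rw [hr, ← Matrix.SpecialLinearGroup.coe_mul, mul_inv_cancel_left]
  obtain ⟨x, hx, h1, h2⟩ := exists_common hn φ w
  have hr1 : r = 1 := by
    have hm := congrArg (fun M => M *ᵥ x) hgh
    simp only [hg.2, hh.2, ← Matrix.mulVec_mulVec, Matrix.add_mulVec, Matrix.one_mulVec] at hm
    have hsc : (Matrix.scalar (Fin n) r) *ᵥ x = r • x := by
      rw [Matrix.scalar_apply]
      funext i
      simp [Matrix.mulVec_diagonal]
    rw [hsc, Matrix.vecMulVec_mulVec, Matrix.vecMulVec_mulVec, h1, dotProduct_smul, h2] at hm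
    simp only [smul_zero, MulOpposite.op_zero, zero_smul, add_zero] at hm
    obtain ⟨i, hi⟩ := Function.ne_iff.1 hx
    have := congrFun hm i
    rw [Pi.smul_apply, smul_eq_mul] at this
    have h3 : (1 - r) * x i = 0 := by linear_combination this
    rcases mul_eq_zero.1 h3 with h4 | h4
    · exact (sub_eq_zero.1 h4).symm
    · exact absurd h4 hi
  rw [hr1, map_one, mul_one, hg.2, hh.2] at hgh
  have hm : Matrix.vecMulVec v φ = Matrix.vecMulVec u w := add_left_cancel hgh
  obtain ⟨i, hi⟩ := Function.ne_iff.1 hv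
  have hi' : v i ≠ 0 := hi
  refine ⟨u i / v i, ?_⟩
  funext j
  have := congrFun (congrFun hm i) j
  rw [Matrix.vecMulVec_apply, Matrix.vecMulVec_apply] at this
  rw [Pi.smul_apply, smul_eq_mul, div_mul_eq_mul_div, eq_div_iff hi', ← this]
  ring

end AAFM

open AAFM Matrix in
theorem specAAF : SpecAAF := by
  intro n K _ _ hn v hv
  refine ⟨?_, ?_, ?_, ?_⟩
  · refine range_props ((pr (n := n) (K := K)).comp (homA v)) ?_ _ (card_ker v hv) _ ?_
    · intro a b hab
      have := injA hn hv (tv_isTv v (Multiplicative.toAdd a).1 (Multiplicative.toAdd a).2)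
        (tv_isTv v (Multiplicative.toAdd b).1 (Multiplicative.toAdd b).2) hab
      exact Multiplicative.toAdd.injective (Subtype.ext this)
    · ext c
      constructor
      · rintro ⟨a, rfl⟩
        exact ⟨_, _, tv_isTv v (Multiplicative.toAdd a).1 (Multiplicative.toAdd a).2, rfl⟩
      · rintro ⟨g, φ, hg, rfl⟩
        exact ⟨Multiplicative.ofAdd ⟨φ, hg.1⟩,
          congrArg (fun x : SLn n K => (QuotientGroup.mk x : PSLn n K)) (eq_tv hg).symm⟩
  · refine range_props ((pr (n := n) (K := K)).comp (homB v)) ?_ _ (card_ker v hv) _ ?_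
    · intro a b hab
      have := injB hn hv (tv_isTv (Multiplicative.toAdd a).1 v
        ((LB_mem v _).1 (Multiplicative.toAdd a).2))
        (tv_isTv (Multiplicative.toAdd b).1 v
        ((LB_mem v _).1 (Multiplicative.toAdd b).2)) hab
      exact Multiplicative.toAdd.injective (Subtype.ext this)
    · ext c
      constructor
      · rintro ⟨a, rfl⟩
        exact ⟨_, _, tv_isTv (Multiplicative.toAdd a).1 v
          ((LB_mem v _).1 (Multiplicative.toAdd a).2), rfl⟩
      · rintro ⟨g, w, hg, rfl⟩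
        exact ⟨Multiplicative.ofAdd ⟨w, (LB_mem v _).2 hg.1⟩,
          congrArg (fun x : SLn n K => (QuotientGroup.mk x : PSLn n K)) (eq_tv hg).symm⟩
  · intro g h φ ψ hg hh e
    exact injA hn hv hg hh e
  · intro hn3 w hw hAB
    have hlt : ¬ LinearMap.ker (L v) ≤ Submodule.span K {w} := by
      intro hle
      have h1 := Submodule.finrank_mono hle
      rw [finrank_ker v hv] at h1
      have h2 := finrank_span_singleton (K := K) hw
      omega
    obtain ⟨φ, hφ, hφw⟩ := Set.not_subset.1 hlt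
    have hφ' : φ ⬝ᵥ v = 0 := hφ
    have hm : (QuotientGroup.mk (tv v φ hφ') : PSLn n K) ∈ AA v := ⟨_, _, tv_isTv v φ hφ', rfl⟩
    rw [hAB] at hm
    obtain ⟨h, u, hh, e⟩ := hm
    obtain ⟨a, ha⟩ := prop_of_eq hn3 hv (tv_isTv v φ hφ') hh e
    apply hφw
    rw [ha]
    exact Submodule.smul_mem _ _ (Submodule.mem_span_singleton_self w)

end Pool.Agent.Lib.MP66ef6b.PL
end

section
set_option autoImplicit false

/-!
# MP_66ef6b_al, THEOREM L: module AUT (helper15). Field automorphisms of finite fields commute.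
-/

namespace Pool.Agent.Lib.MP66ef6b.PL

namespace AUTM

/-- Every ring automorphism of a finite field of characteristic `p` is a power map. -/
theorem exists_pow (K : Type) [Field K] [Finite K] (p : ℕ) [Fact p.Prime] [CharP K p]
    (σ : K ≃+* K) : ∃ i : ℕ, ∀ x : K, σ x = x ^ i := by
  letI : Algebra (ZMod p) K := ZMod.algebra K p
  have h : ∀ r : ZMod p, σ (algebraMap (ZMod p) K r) = algebraMap (ZMod p) K r := by
    intro r
    have h1 : (σ.toRingHom.comp (algebraMap (ZMod p) K)) = algebraMap (ZMod p) K :=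
      Subsingleton.elim _ _
    exact congrArg (fun f : ZMod p →+* K => f r) h1
  obtain ⟨i, hi⟩ := FiniteField.exists_forall_apply_eq_pow (ZMod p) p K
    (AlgEquiv.ofRingEquiv (f := σ) h)
  exact ⟨_, fun x => hi x⟩

end AUTM

/-- AUT. -/
theorem specAUT : SpecAUT := by
  intro K _ _ σ τ x
  obtain ⟨p, hp⟩ := CharP.exists K
  haveI : Fact p.Prime := ⟨CharP.char_is_prime K p⟩
  obtain ⟨i, hi⟩ := AUTM.exists_pow K p σ
  obtain ⟨j, hj⟩ := AUTM.exists_pow K p τ
  rw [hj x, hi, hi x, hj, ← pow_mul, ← pow_mul, mul_comm]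

end Pool.Agent.Lib.MP66ef6b.PL
end

section
set_option autoImplicit false

namespace Pool.Agent.Lib.MP66ef6b.PL

universe u

namespace BGFM

/-- A scalar matrix of determinant one is trivial in the projective group. -/
theorem mk_one_of_smul {n : ℕ} {K : Type} [Field K] (B : SLn n K) (μ : K) (hμ : μ ≠ 0)
    (h : μ • B.1 = 1) : (QuotientGroup.mk B : PSLn n K) = 1 := by
  rw [QuotientGroup.eq_one_iff]
  rw [Subgroup.mem_center_iff]
  intro g
  apply Subtype.ext
  have hB : B.1 = μ⁻¹ • (1 : Matrix (Fin n) (Fin n) K) := by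
    rw [← h, smul_smul, inv_mul_cancel₀ hμ, one_smul]
  change g.1 * B.1 = B.1 * g.1
  rw [hB]
  simp

end BGFM

theorem specBGF (hTRV : SpecTRV) (hTCJ : SpecTCJ) (hGNU : SpecGNU) : SpecBGF.{u} := by
  intro q₀ R
  refine ⟨R + 3, ?_⟩
  intro X _ _ n K _ _ π f A hπ hq hn hf hA hR
  obtain ⟨μ, B, hμ, hB, rfl⟩ := hA
  have hne : μ • B.1 ≠ 1 := by
    intro h
    exact hf (by rw [← hB]; exact BGFM.mk_one_of_smul B μ hμ h)
  obtain ⟨s, v, φ, hv, hφ, hT⟩ := hTRV n K B μ R hμ (by omega) hR hne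
  -- the conjugating elements
  have key : ∀ (i : Fin n) (a : K), ∃ h : SLn n K, ∀ (j : Fin n) (hij : i ≠ j), a ≠ 0 →
      j.val = i.val + 1 → h * (B * s * B⁻¹ * s⁻¹) * h⁻¹ =
        Matrix.SpecialLinearGroup.transvection hij a := by
    intro i a
    by_cases hc : a ≠ 0 ∧ i.val + 1 < n
    · obtain ⟨ha, hi⟩ := hc
      have hij : i ≠ (⟨i.val + 1, hi⟩ : Fin n) := by
        intro h
        have := congrArg Fin.val h
        simp at this
      obtain ⟨h, hh⟩ := (hTCJ n K _ v φ hT hv hφ i ⟨i.val + 1, hi⟩ hij).2 (by omega) a ha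
      refine ⟨h, ?_⟩
      intro j hij' _ hj
      have : j = ⟨i.val + 1, hi⟩ := Fin.ext hj
      subst this
      exact hh
    · refine ⟨1, ?_⟩
      intro j hij ha hj
      exact absurd ⟨ha, by have := j.2; omega⟩ hc
  choose hh hhs using key
  have surj := fun c : PSLn n K => hπ c
  choose pre hpre using surj
  let T := Fin n × K × Bool
  let y : T → X := fun t => pre (QuotientGroup.mk (hh t.1 t.2.1 * (if t.2.2 then s else 1)))
  have hfin : Finite T := inferInstance
  let e : T ≃ Fin (Nat.card T) := Finite.equivFin T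
  refine ⟨Nat.card T, fun i => y (e.symm i), ?_, ?_⟩
  · have : Nat.card T = n * (Nat.card K * 2) := by
      simp [T, Nat.card_prod]
    rw [this]
    calc n * (Nat.card K * 2) ≤ n * (q₀ * 2) :=
          Nat.mul_le_mul_left _ (Nat.mul_le_mul_right _ hq.le)
      _ = 2 * q₀ * n := by ring
  · set H : Subgroup X := Subgroup.closure
      (Set.range fun i : Fin (Nat.card T) => y (e.symm i) * f * (y (e.symm i))⁻¹) with hH
    have hmem : ∀ t : T, y t * f * (y t)⁻¹ ∈ H := by
      intro t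
      apply Subgroup.subset_closure
      exact ⟨e t, by simp⟩
    have h1 : 2 ^ ((n / 2) ^ 2) ≤ Nat.card (H.map π) := by
      apply hGNU n K (H.map π)
      intro i j hij a hj
      by_cases ha : a = 0
      · subst ha
        have : Matrix.SpecialLinearGroup.transvection hij (0 : K) = 1 := by
          apply Subtype.ext
          simp [Matrix.SpecialLinearGroup.transvection]
        rw [this]
        exact Subgroup.one_mem _
      · rw [← hhs i a j hij ha hj]
        have e1 := hmem (i, a, false)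
        have e2 := hmem (i, a, true)
        refine ⟨(y (i, a, false) * f * (y (i, a, false))⁻¹) *
          (y (i, a, true) * f * (y (i, a, true))⁻¹)⁻¹, H.mul_mem e1 (H.inv_mem e2), ?_⟩
        have p1 : π (y (i, a, false)) = QuotientGroup.mk (hh i a) := by
          change π (pre _) = _
          rw [hpre]
          simp
        have p2 : π (y (i, a, true)) = QuotientGroup.mk (hh i a * s) := by
          change π (pre _) = _
          rw [hpre]
          simp
        rw [map_mul, map_inv, map_mul, map_mul, map_mul, map_mul, map_inv, map_inv, p1, p2, ← hB]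
        simp only [← QuotientGroup.mk_mul, ← QuotientGroup.mk_inv]
        congr 1
        group
    refine h1.trans ?_
    have : Finite H := inferInstance
    refine Nat.card_le_card_of_surjective
      (fun x : H => (⟨π x, ⟨x, x.2, rfl⟩⟩ : H.map π)) ?_
    rintro ⟨z, x, hx, rfl⟩
    exact ⟨⟨x, hx⟩, rfl⟩

end Pool.Agent.Lib.MP66ef6b.PL
end

section
set_option autoImplicit false

/-!
# MP_66ef6b_al, THEOREM L, module BLK: the block group `SL_2(L)`
-/

namespace Pool.Agent.Lib.MP66ef6b.PL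

namespace BLKM

variable {K L D : Type} [Field K] [Field L] [Algebra K L] [AddCommGroup D] [Module K D]

/-- the action of a matrix on the first summand of `(L × L) × D`. -/
def lin (M : Matrix (Fin 2) (Fin 2) L) : (L × L) × D →ₗ[K] (L × L) × D where
  toFun p := ((M 0 0 * p.1.1 + M 0 1 * p.1.2, M 1 0 * p.1.1 + M 1 1 * p.1.2), p.2)
  map_add' p q := by
    ext <;> simp <;> ring
  map_smul' c p := by
    ext <;> simp

theorem lin_one : (lin (1 : Matrix (Fin 2) (Fin 2) L) : (L × L) × D →ₗ[K] (L × L) × D) = LinearMap.id := by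
  apply LinearMap.ext
  intro p
  simp [lin]

theorem lin_mul (M N : Matrix (Fin 2) (Fin 2) L) :
    (lin (M * N) : (L × L) × D →ₗ[K] (L × L) × D) = (lin M).comp (lin N) := by
  apply LinearMap.ext
  intro p
  simp only [lin, LinearMap.coe_mk, AddHom.coe_mk, LinearMap.comp_apply, Matrix.mul_apply,
    Fin.sum_univ_two, Prod.mk.injEq, and_true]
  constructor <;> ring

variable {V : Type} [AddCommGroup V] [Module K V]

theorem comp_inv (Ψ : V ≃ₗ[K] (L × L) × D) (g h : SLn 2 L) (hgh : g * h = 1) :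
    ((Ψ.symm.toLinearMap.comp ((lin g.1).comp Ψ.toLinearMap)).comp
      (Ψ.symm.toLinearMap.comp ((lin h.1).comp Ψ.toLinearMap)) : V →ₗ[K] V) = LinearMap.id := by
  have h1 : (lin (g.1 * h.1) : (L × L) × D →ₗ[K] (L × L) × D) = LinearMap.id := by
    have h2 : g.1 * h.1 = 1 := by
      have := congrArg (fun t : SLn 2 L => t.1) hgh
      simpa using this
    rw [h2, lin_one]
  rw [lin_mul] at h1
  apply LinearMap.ext
  intro v
  have h3 := LinearMap.congr_fun h1 (Ψ v)
  simp only [LinearMap.comp_apply, LinearMap.id_apply] at h3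
  simp only [LinearMap.comp_apply, LinearMap.id_apply, LinearEquiv.coe_coe,
    LinearEquiv.apply_symm_apply, h3, LinearEquiv.symm_apply_apply]

/-- the linear automorphism of `V` -/
def eqv (Ψ : V ≃ₗ[K] (L × L) × D) (g : SLn 2 L) : V ≃ₗ[K] V :=
  LinearEquiv.ofLinearMap (Ψ.symm.toLinearMap.comp ((lin g.1).comp Ψ.toLinearMap))
    (Ψ.symm.toLinearMap.comp ((lin (g⁻¹).1).comp Ψ.toLinearMap))
    (comp_inv Ψ g g⁻¹ (mul_inv_cancel g)) (comp_inv Ψ g⁻¹ g (inv_mul_cancel g))

theorem eqv_apply (Ψ : V ≃ₗ[K] (L × L) × D) (g : SLn 2 L) (v : V) :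
    Ψ (eqv Ψ g v) = (lin g.1 : (L × L) × D →ₗ[K] (L × L) × D) (Ψ v) := by
  change Ψ (Ψ.symm ((lin g.1 : (L × L) × D →ₗ[K] (L × L) × D) (Ψ v))) = _
  rw [LinearEquiv.apply_symm_apply]

/-- the homomorphism to the linear automorphisms -/
def hom (Ψ : V ≃ₗ[K] (L × L) × D) : SLn 2 L →* (V ≃ₗ[K] V) where
  toFun := eqv Ψ
  map_one' := by
    apply LinearEquiv.ext
    intro v
    apply Ψ.injective
    rw [eqv_apply]
    have : ((1 : SLn 2 L).1) = (1 : Matrix (Fin 2) (Fin 2) L) := rfl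
    rw [this, lin_one]
    rfl
  map_mul' g h := by
    apply LinearEquiv.ext
    intro v
    apply Ψ.injective
    rw [eqv_apply]
    have : ((g * h : SLn 2 L).1) = g.1 * h.1 := rfl
    rw [this, lin_mul]
    change _ = Ψ (eqv Ψ g (eqv Ψ h v))
    rw [eqv_apply, eqv_apply]
    rfl

theorem exists_sq (F : Type) [Field F] (hF : 4 ≤ Nat.card F) : ∃ a : F, a ≠ 0 ∧ a ^ 2 ≠ 1 := by
  have : Finite F := (Nat.card_pos_iff.1 (by omega)).2
  obtain ⟨x, hx⟩ : IsCyclic Fˣ := by infer_instance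
  refine ⟨x, Units.ne_zero x, fun h ↦ ?_⟩
  have h1 := Nat.card_eq_card_units_add_one F
  have h2 := orderOf_eq_card_of_forall_mem_zpowers hx
  have h3 : orderOf x ≤ 2 := orderOf_le_of_pow_eq_one zero_lt_two (Units.ext <| by simpa using h)
  omega

end BLKM

open BLKM in
theorem specBLK : SpecBLK := by
  intro K V L D _ _ _ _ _ _ _ _ _ Ψ hL
  obtain ⟨a, ha, ha2⟩ := exists_sq L hL
  have hcomm : commutator (SLn 2 L) = ⊤ := Matrix.SL2.commutator_eq_top ha ha2
  have hdet : ∀ g : SLn 2 L, LinearEquiv.det (hom Ψ g) = 1 := by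
    intro g
    have h1 : commutator (SLn 2 L) ≤ ((LinearEquiv.det (R := K) (M := V)).comp (hom Ψ)).ker :=
      Abelianization.commutator_subset_ker _
    have h2 : g ∈ commutator (SLn 2 L) := by
      rw [hcomm]
      trivial
    exact h1 h2
  refine ⟨{ toFun := fun g => ⟨hom Ψ g, hdet g⟩, map_one' := ?_, map_mul' := ?_ }, ?_⟩
  · apply Subtype.ext
    exact map_one (hom Ψ)
  · intro g h
    apply Subtype.ext
    exact map_mul (hom Ψ) g h
  · intro g v
    exact eqv_apply Ψ g v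

end Pool.Agent.Lib.MP66ef6b.PL
end

section
set_option autoImplicit false

/-!
# MP_66ef6b_al, THEOREM L, module CBK (helper41): blocks `SL_2(K)`
-/

namespace Pool.Agent.Lib.MP66ef6b.PL

namespace CBKM

section

variable {K V L D : Type} [Field K] [AddCommGroup V] [Module K V] [Field L] [Algebra K L]
  [AddCommGroup D] [Module K D]

/-- the block. -/
abbrev WB (Ψ : V ≃ₗ[K] (L × L) × D) : Submodule K V :=
  LinearMap.ker ((LinearMap.snd K (L × L) D).comp Ψ.toLinearMap)

/-- its complement. -/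
abbrev WC (Ψ : V ≃ₗ[K] (L × L) × D) : Submodule K V :=
  LinearMap.ker ((LinearMap.fst K (L × L) D).comp Ψ.toLinearMap)

theorem mem_WB (Ψ : V ≃ₗ[K] (L × L) × D) (x : V) : x ∈ WB Ψ ↔ (Ψ x).2 = 0 := by
  simp [WB, LinearMap.mem_ker]

theorem mem_WC (Ψ : V ≃ₗ[K] (L × L) × D) (x : V) : x ∈ WC Ψ ↔ (Ψ x).1 = 0 := by
  simp [WC, LinearMap.mem_ker]

theorem isCompl (Ψ : V ≃ₗ[K] (L × L) × D) : IsCompl (WB Ψ) (WC Ψ) := by
  constructor
  · rw [Submodule.disjoint_def]
    intro x hx hy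
    rw [mem_WB] at hx
    rw [mem_WC] at hy
    have h : Ψ x = 0 := Prod.ext hy hx
    exact (LinearEquiv.map_eq_zero_iff Ψ).mp h
  · rw [codisjoint_iff, eq_top_iff]
    intro x _
    rw [Submodule.mem_sup]
    refine ⟨Ψ.symm ((Ψ x).1, 0), ?_, Ψ.symm (0, (Ψ x).2), ?_, ?_⟩
    · rw [mem_WB]; simp
    · rw [mem_WC]; simp
    · rw [← map_add]
      simp

/-- the block is `L × L`. -/
def eqv (Ψ : V ≃ₗ[K] (L × L) × D) : WB Ψ ≃ₗ[K] (L × L) where
  toFun w := (Ψ w.1).1
  map_add' x y := by simp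
  map_smul' a x := by simp
  invFun p := ⟨Ψ.symm (p, 0), by rw [mem_WB]; simp⟩
  left_inv w := by
    apply Subtype.ext
    have h : (Ψ w.1).2 = 0 := (mem_WB Ψ w.1).1 w.2
    have h2 : (((Ψ w.1).1, (0 : D)) : (L × L) × D) = Ψ w.1 := Prod.ext rfl h.symm
    show Ψ.symm ((Ψ w.1).1, 0) = w.1
    rw [h2]
    simp
  right_inv p := by simp

theorem card_WB (Ψ : V ≃ₗ[K] (L × L) × D) : Nat.card (WB Ψ) = Nat.card L ^ 2 := by
  rw [Nat.card_congr (eqv Ψ).toEquiv, Nat.card_prod, sq]

theorem finrank_WB [Finite L] (Ψ : V ≃ₗ[K] (L × L) × D) : 2 ≤ Module.finrank K (WB Ψ) := by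
  haveI : Module.Finite K L := Module.Finite.of_finite
  rw [(eqv Ψ).finrank_eq, Module.finrank_prod]
  have : 0 < Module.finrank K L := Module.finrank_pos
  omega

/-- points fixed by generators of everything. -/
theorem fx_top (hFUL : SpecFUL) [Module.Finite K V] (Ω : Type)
    [MulAction (SpecialLinearGroup K V) Ω]
    (h0 : fx Ω (Set.univ : Set (SpecialLinearGroup K V)) = ∅) :
    fx Ω (TrS (⊤ : Submodule K V) ⊥) = ∅ := by
  rw [Set.eq_empty_iff_forall_notMem]
  intro ω hω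
  have h1 : Subgroup.closure (TrS (⊤ : Submodule K V) ⊥) ≤
      MulAction.stabilizer (SpecialLinearGroup K V) ω := by
    rw [Subgroup.closure_le]
    intro g hg
    exact MulAction.mem_stabilizer_iff.mpr (hω g hg)
  rw [hFUL K V] at h1
  have h2 : ω ∈ fx Ω (Set.univ : Set (SpecialLinearGroup K V)) := by
    intro g _
    exact MulAction.mem_stabilizer_iff.mp (h1 (Subgroup.mem_top g))
  rw [h0] at h2
  exact h2

/-- SL2F for the action through `β`. -/
theorem viaBeta {ε : ℝ} {q : ℕ} (hq : ∀ (L : Type) [Field L] [Finite L],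
    q ≤ Nat.card L → ∀ (Ω : Type) [MulAction (SLn 2 L) Ω] [Finite Ω],
    ∀ g : SLn 2 L, g ∉ Subgroup.center (SLn 2 L) →
    ((fx Ω {g}).ncard : ℝ) ≤ (fx Ω (Set.univ : Set (SLn 2 L))).ncard + ε * Nat.card Ω)
    (L : Type) [Field L] [Finite L] (hL : q ≤ Nat.card L) (Ω : Type) [Finite Ω]
    [MulAction (SpecialLinearGroup K V) Ω] (β : SLn 2 L →* SpecialLinearGroup K V)
    (g : SLn 2 L) (hg : g ∉ Subgroup.center (SLn 2 L)) :
    ((fx Ω {β g}).ncard : ℝ) ≤ (fx Ω (β.range : Set (SpecialLinearGroup K V))).ncard +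
      ε * Nat.card Ω := by
  letI : MulAction (SLn 2 L) Ω := MulAction.compHom Ω β
  have h := hq L hL Ω g hg
  have e1 : fx Ω {g} = fx Ω {β g} := by
    ext ω
    simp only [fx, Set.mem_singleton_iff, forall_eq, Set.mem_setOf_eq]
    exact Iff.rfl
  have e2 : fx Ω (Set.univ : Set (SLn 2 L)) =
      fx Ω (β.range : Set (SpecialLinearGroup K V)) := by
    ext ω
    constructor
    · intro h a ha
      obtain ⟨b, rfl⟩ := ha
      exact h b (Set.mem_univ b)
    · intro h a _
      exact h (β a) ⟨a, rfl⟩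
  rw [e1, e2] at h
  exact h

theorem fx_mono {Γ : Type} (Ω : Type) [Group Γ] [MulAction Γ Ω] {A B : Set Γ} (h : A ⊆ B) :
    fx Ω B ⊆ fx Ω A := fun _ hω a ha => hω a (h ha)

end

section

variable {K V D : Type} [Field K] [AddCommGroup V] [Module K V] [AddCommGroup D] [Module K D]

theorem trS_subset (Ψ : V ≃ₗ[K] (K × K) × D) (β : SLn 2 K →* SpecialLinearGroup K V)
    (hβ : IsBlk Ψ β) : TrS (WB Ψ) (WC Ψ) ⊆ (β.range : Set (SpecialLinearGroup K V)) := by
  rintro g ⟨v, hv, φ, hφv, hφ, hg⟩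
  rw [mem_WB] at hv
  set e0 : V := Ψ.symm ((1, 0), 0) with he0
  set e1 : V := Ψ.symm ((0, 1), 0) with he1
  have hdec : ∀ x : V, φ x = (Ψ x).1.1 * φ e0 + (Ψ x).1.2 * φ e1 := by
    intro x
    have hx : x = ((Ψ x).1.1 • e0 + (Ψ x).1.2 • e1) + Ψ.symm (0, (Ψ x).2) := by
      apply Ψ.injective
      simp only [map_add, map_smul, he0, he1, LinearEquiv.apply_symm_apply]
      ext <;> simp
    have h0 : φ (Ψ.symm (0, (Ψ x).2)) = 0 := hφ _ (by rw [mem_WC]; simp)
    conv_lhs => rw [hx]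
    rw [map_add, map_add, map_smul, map_smul, h0, smul_eq_mul, smul_eq_mul, add_zero]
  have hdet : (1 + φ e0 * (Ψ v).1.1) * (1 + φ e1 * (Ψ v).1.2) -
      (φ e1 * (Ψ v).1.1) * (φ e0 * (Ψ v).1.2) = 1 := by
    have h := hdec v
    rw [hφv] at h
    linear_combination -h
  let h : SLn 2 K := ⟨!![1 + φ e0 * (Ψ v).1.1, φ e1 * (Ψ v).1.1;
    φ e0 * (Ψ v).1.2, 1 + φ e1 * (Ψ v).1.2], by
      rw [Matrix.det_fin_two_of]; exact hdet⟩
  refine ⟨h, ?_⟩
  apply SpecialLinearGroup.ext
  intro x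
  apply Ψ.injective
  rw [hβ h x, hg x, map_add, map_smul]
  have h00 : h.1 0 0 = 1 + φ e0 * (Ψ v).1.1 := rfl
  have h01 : h.1 0 1 = φ e1 * (Ψ v).1.1 := rfl
  have h10 : h.1 1 0 = φ e0 * (Ψ v).1.2 := rfl
  have h11 : h.1 1 1 = 1 + φ e1 * (Ψ v).1.2 := rfl
  rw [h00, h01, h10, h11, hdec x]
  refine Prod.ext (Prod.ext ?_ ?_) ?_
  · simp only [Prod.fst_add, Prod.smul_fst, smul_eq_mul]
    ring
  · simp only [Prod.fst_add, Prod.smul_fst, Prod.snd_add, Prod.smul_snd, smul_eq_mul]
    ring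
  · simp only [Prod.snd_add, Prod.smul_snd, hv, smul_zero, add_zero]

end

end CBKM

open CBKM in
theorem specCBK (hSL2F : SpecSL2F) (hCLM : SpecCLM) (hFUL : SpecFUL) : SpecCBK := by
  intro ε hε hε1
  obtain ⟨q, hq⟩ := hSL2F (ε / 2) (by linarith) (by linarith)
  refine ⟨max q (⌊8 / ε⌋₊ + 1), ?_⟩
  intro K V D Ω _ _ _ _ _ _ _ _ _ _ Ψ β hβ hK h0 g hg
  have hq1 : q ≤ Nat.card K := le_trans (le_max_left _ _) hK
  have hq2 : ⌊8 / ε⌋₊ + 1 ≤ Nat.card K := le_trans (le_max_right _ _) hK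
  have h1 := viaBeta hq K hq1 Ω β g hg
  have h2 : (fx Ω (β.range : Set (SpecialLinearGroup K V))).ncard ≤
      (fx Ω (TrS (WB Ψ) (WC Ψ))).ncard :=
    Set.ncard_le_ncard (fx_mono Ω (trS_subset Ψ β hβ)) (Set.toFinite _)
  have h3 := hCLM K V Ω (WB Ψ) (WC Ψ) (isCompl Ψ) (finrank_WB Ψ)
  rw [fx_top hFUL Ω h0, Set.ncard_empty, mul_zero, zero_add, card_WB] at h3
  have hΩ : 0 < Nat.card Ω := Nat.card_pos
  have hΩ' : (0 : ℝ) < Nat.card Ω := by exact_mod_cast hΩ
  have h3' : (Nat.card K : ℝ) ^ 2 * ((fx Ω (TrS (WB Ψ) (WC Ψ))).ncard : ℝ) ≤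
      4 * Nat.card Ω := by exact_mod_cast h3
  have h2' : ((fx Ω (β.range : Set (SpecialLinearGroup K V))).ncard : ℝ) ≤
      (fx Ω (TrS (WB Ψ) (WC Ψ))).ncard := by exact_mod_cast h2
  have hKr : 8 / ε < (Nat.card K : ℝ) := by
    have := Nat.lt_floor_add_one (8 / ε)
    have h4 : ((⌊8 / ε⌋₊ + 1 : ℕ) : ℝ) ≤ Nat.card K := by exact_mod_cast hq2
    push_cast at h4
    linarith
  have hK1 : (1 : ℝ) ≤ Nat.card K := by
    have : 1 ≤ Nat.card K := le_trans (by omega) hq2
    exact_mod_cast this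
  have hK8 : 8 < ε * (Nat.card K : ℝ) := by
    rw [div_lt_iff₀ hε] at hKr
    linarith
  have hK8' : 8 < ε * (Nat.card K : ℝ) ^ 2 := by nlinarith
  set X : ℝ := ((fx Ω (TrS (WB Ψ) (WC Ψ))).ncard : ℝ) with hX
  have hX0 : X < ε / 2 * Nat.card Ω := by
    by_contra hcon
    push Not at hcon
    have hK2 : (0 : ℝ) < (Nat.card K : ℝ) ^ 2 := by positivity
    have := mul_le_mul_of_nonneg_left hcon hK2.le
    nlinarith
  linarith

end Pool.Agent.Lib.MP66ef6b.PL
end
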