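import Pool.Agent.Lib.MP_66ef6b_al.Final

set_option autoImplicit false

/-!
# MP_66ef6b_al, THEOREM L: simple locally finite groups with alternating and `PSL_n(q)` factors
(helper14): definitions
-/

namespace Pool.Agent.Lib.MP66ef6b.PL

universe u

/-- `PSL_n(K)`. -/
abbrev PSLn (n : ℕ) (K : Type) [Field K] : Type := Matrix.ProjectiveSpecialLinearGroup (Fin n) K

/-- `SL_n(K)`. -/
abbrev SLn (n : ℕ) (K : Type) [Field K] : Type := Matrix.SpecialLinearGroup (Fin n) K

/-- `P` is isomorphic to `PSL_n(K)` for a finite field `K`. -/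
def IsPSL (P : Type u) [Group P] : Prop :=
  ∃ (n : ℕ) (K : Type) (_ : Field K), Finite K ∧ Nonempty (P ≃* PSLn n K)

/-- All non-abelian composition factors of `K` of order larger than `b` are alternating groups or
groups `PSL_n(q)`. -/
def ALFactors (b : ℕ) (K : Type u) [Group K] : Prop :=
  ∀ (A : Subgroup K) (B : Subgroup A) [B.Normal], A.IsSubnormal → IsSimpleGroup (A ⧸ B) →
    (∃ x y : A ⧸ B, x * y ≠ y * x) → b < Nat.card (A ⧸ B) →
    (∃ n : ℕ, Nonempty ((A ⧸ B) ≃* alternatingGroup (Fin n))) ∨ IsPSL (A ⧸ B)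

/-- For some `b`, every finite subgroup of `G` is contained in a finite subgroup whose non-abelian
composition factors of order larger than `b` are alternating groups or groups `PSL_n(q)`. -/
def LocAL (G : Type u) [Group G] : Prop :=
  ∃ b : ℕ, ∀ E : Subgroup G, Finite E → ∃ K : Subgroup G, Finite K ∧ E ≤ K ∧ ALFactors b K

/-! ## Actions -/

/-- the points fixed by all elements of `A`. -/
def fx {Γ : Type} (Ω : Type) [Group Γ] [MulAction Γ Ω] (A : Set Γ) : Set Ω :=
  {ω | ∀ a ∈ A, a • ω = ω}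

/-! ## Linear algebra -/

section

variable {K V : Type} [Field K] [AddCommGroup V] [Module K V]

/-- The transvections `x ↦ x + φ x • v` of `V` with `v ∈ W` and `φ` vanishing on `W'`. -/
def TrS (W W' : Submodule K V) : Set (SpecialLinearGroup K V) :=
  {g | ∃ v ∈ W, ∃ φ : Module.Dual K V, φ v = 0 ∧ (∀ w ∈ W', φ w = 0) ∧
    ∀ x : V, g x = x + φ x • v}

/-- `β : SL_2(L) → SL_K(V)` is the action on the first summand of `V ≃ (L × L) × D`. -/
def IsBlk {L D : Type} [Field L] [Algebra K L] [AddCommGroup D] [Module K D]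
    (Ψ : V ≃ₗ[K] (L × L) × D) (β : SLn 2 L →* SpecialLinearGroup K V) : Prop :=
  ∀ (g : SLn 2 L) (v : V), Ψ (β g v) =
    ((g.1 0 0 * (Ψ v).1.1 + g.1 0 1 * (Ψ v).1.2, g.1 1 0 * (Ψ v).1.1 + g.1 1 1 * (Ψ v).1.2),
      (Ψ v).2)

/-- `M` acts on `W`, trivially on the complement `W'`, and every nonzero element of `W` and every
nonzero functional on `W` generates everything additively through the differences `m u - u`. -/
structure Irr (M : Subgroup (SpecialLinearGroup K V)) (W W' : Submodule K V) : Prop where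
  pres : ∀ m ∈ M, ∀ w ∈ W, m w ∈ W
  triv : ∀ m ∈ M, ∀ w ∈ W', m w = w
  gen : ∀ u ∈ W, u ≠ 0 → ∀ B : AddSubgroup V, (∀ m ∈ M, m u - u ∈ B) → ∀ w ∈ W, w ∈ B
  dual : ∀ ψ : Module.Dual K V, ψ ≠ 0 → (∀ w ∈ W', ψ w = 0) → ∀ B : AddSubgroup (Module.Dual K V),
    (∀ m ∈ M, ψ.comp (m⁻¹ : SpecialLinearGroup K V).1.toLinearMap - ψ ∈ B) →
    ∀ χ : Module.Dual K V, (∀ w ∈ W', χ w = 0) → χ ∈ B

end

/-! ## Lifts of elements of `PSL_n(K)` -/

/-- the matrix `A` is a scalar multiple of a matrix of determinant one with image `c`. -/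
def PLift {n : ℕ} {K : Type} [Field K] (c : PSLn n K) (A : Matrix (Fin n) (Fin n) K) : Prop :=
  ∃ (μ : K) (B : SLn n K), μ ≠ 0 ∧ (QuotientGroup.mk B : PSLn n K) = c ∧ A = μ • B.1

/-- the data from a confined subgroup in a quotient `PSL_n(K)`. -/
def PData {G : Type u} [Group G] (F E : Subgroup G) : Prop :=
  ∃ (X : Subgroup G) (n : ℕ) (K : Type) (_ : Field K) (π : X →* PSLn n K)
    (S : Subgroup (PSLn n K)), Finite K ∧ Finite X ∧ E ≤ X ∧ Function.Surjective π ∧
    (∀ x : X, (x : G) ∈ E → π x = 1 → x = 1) ∧ S ≠ ⊤ ∧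
    ∀ y : PSLn n K, ∃ x : X, (x : G) ∈ F ∧ x ≠ 1 ∧ y * π x * y⁻¹ ∈ S

/-- `f` is in `X` and has a lift of small support in `PSL_n(K)`, a quotient of `X` with
`m < n`. -/
def FData {G : Type u} [Group G] (q₀ R m : ℕ) (f : G) (E : Subgroup G) : Prop :=
  ∃ (X : Subgroup G) (n : ℕ) (K : Type) (_ : Field K) (π : X →* PSLn n K) (x : X)
    (A : Matrix (Fin n) (Fin n) K), Finite K ∧ Finite X ∧ E ≤ X ∧ Function.Surjective π ∧
    (∀ x : X, (x : G) ∈ E → π x = 1 → x = 1) ∧ Nat.card K < q₀ ∧ m < n ∧ (x : G) = f ∧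
    π x ≠ 1 ∧ PLift (π x) A ∧ (A - 1).rank ≤ R

/-- A representation of `G` on an elementary abelian group with small displacement. -/
def RepData (G : Type u) [Group G] (f : G) (c : ℕ) : Prop :=
  ∃ (p : ℕ) (V : Type u) (_ : AddCommGroup V) (_ : DistribMulAction G V), p.Prime ∧
    (∀ v : V, p • v = 0) ∧ (∀ g : G, (Set.range fun v : V => g • v - v).Finite) ∧
    (Set.range fun v : V => f • v - v).ncard ≤ c ∧ ∃ v : V, f • v ≠ v

/-! ## Automorphisms -/

/-- the matrix `1 + v φ` in `SL_n(K)`: `g` is the transvection with `g x = x + (φ · x) v`. -/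
def IsTv {n : ℕ} {K : Type} [Field K] (g : SLn n K) (v φ : Fin n → K) : Prop :=
  φ ⬝ᵥ v = 0 ∧ g.1 = 1 + Matrix.vecMulVec v φ

/-- the images in `PSL_n(K)` of the transvections different from one. -/
def TT (n : ℕ) (K : Type) [Field K] : Set (PSLn n K) :=
  {c | ∃ (g : SLn n K) (v φ : Fin n → K), IsTv g v φ ∧ v ≠ 0 ∧ φ ≠ 0 ∧
    (QuotientGroup.mk g : PSLn n K) = c}

/-- the images of the transvections `1 + v φ` (`v` fixed). -/
def AA {n : ℕ} {K : Type} [Field K] (v : Fin n → K) : Set (PSLn n K) :=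
  {c | ∃ (g : SLn n K) (φ : Fin n → K), IsTv g v φ ∧ (QuotientGroup.mk g : PSLn n K) = c}

/-- the images of the transvections `1 + v φ` (`φ` fixed). -/
def BB {n : ℕ} {K : Type} [Field K] (φ : Fin n → K) : Set (PSLn n K) :=
  {c | ∃ (g : SLn n K) (v : Fin n → K), IsTv g v φ ∧ (QuotientGroup.mk g : PSLn n K) = c}

/-- `R` is perfect. -/
def Perf {G : Type u} [Group G] (R : Subgroup G) : Prop := ⁅R, R⁆ = R

/-- upper unitriangular matrices. -/
def UT (n : ℕ) (K : Type) [Field K] : Set (SLn n K) :=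
  {g | (∀ i, g.1 i i = 1) ∧ ∀ i j, j < i → g.1 i j = 0}

end Pool.Agent.Lib.MP66ef6b.PL
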