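import Pool.Agent.Lib.MP_66ef6b_al.PL.SpecC

set_option autoImplicit false

/-!
# MP_66ef6b_al, THEOREM L: module LFT (helper15). Lifting perfect groups.
-/

namespace Pool.Agent.Lib.MP66ef6b.PL

universe u

namespace LFTM

variable {G : Type u} [Group G]

/-- the iterated derived subgroups, as subgroups of `G`. -/
def D (Y : Subgroup G) : ℕ → Subgroup G
  | 0 => Y
  | n + 1 => ⁅D Y n, D Y n⁆

theorem D_succ_le (Y : Subgroup G) (n : ℕ) : D Y (n + 1) ≤ D Y n := by
  show ⁅D Y n, D Y n⁆ ≤ D Y n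
  exact Subgroup.commutator_le_self _

theorem D_anti (Y : Subgroup G) : Antitone (D Y) := antitone_nat_of_succ_le (D_succ_le Y)

/-- In a finite group the sequence becomes stationary. -/
theorem exists_stat [Finite G] (Y : Subgroup G) : ∃ n, D Y (n + 1) = D Y n := by
  by_contra h
  push Not at h
  have hlt : ∀ n, D Y (n + 1) < D Y n := fun n => lt_of_le_of_ne (D_succ_le Y n) (h n)
  have hsa : StrictAnti (D Y) := strictAnti_nat_of_succ_lt hlt
  exact not_injective_infinite_finite (D Y) hsa.injective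

theorem le_sup_D (P R Y : Subgroup G) (hP : P.Normal) (hR : Perf R) (hRY : R ≤ P ⊔ Y) (n : ℕ) :
    R ≤ P ⊔ D Y n := by
  induction n with
  | zero => exact hRY
  | succ n ih =>
    have h1 : R.map (QuotientGroup.mk' P) ≤ (D Y n).map (QuotientGroup.mk' P) := by
      rw [Subgroup.map_le_iff_le_comap]
      have h2 : (D Y n).map (QuotientGroup.mk' P) = (P ⊔ D Y n).map (QuotientGroup.mk' P) := by
        rw [Subgroup.map_sup, QuotientGroup.map_mk'_self, bot_sup_eq]
      rw [h2]
      exact le_trans ih (Subgroup.le_comap_map _ _)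
    have h3 : R.map (QuotientGroup.mk' P) ≤ (D Y (n + 1)).map (QuotientGroup.mk' P) := by
      have h4 : R.map (QuotientGroup.mk' P) =
          ⁅R.map (QuotientGroup.mk' P), R.map (QuotientGroup.mk' P)⁆ := by
        rw [← Subgroup.map_commutator, hR]
      rw [h4]
      show _ ≤ (⁅D Y n, D Y n⁆).map (QuotientGroup.mk' P)
      rw [Subgroup.map_commutator]
      exact Subgroup.commutator_mono h1 h1
    rw [Subgroup.map_le_iff_le_comap, Subgroup.comap_map_eq, QuotientGroup.ker_mk'] at h3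
    rwa [sup_comm]

end LFTM

/-- LFT. -/
theorem specLFT : SpecLFT.{u} := by
  intro G _ _ P R Y₁ hP hR hRY
  obtain ⟨n, hn⟩ := LFTM.exists_stat Y₁
  refine ⟨LFTM.D Y₁ n, LFTM.D_anti Y₁ (Nat.zero_le n), hn, LFTM.le_sup_D P R Y₁ hP hR hRY n⟩

end Pool.Agent.Lib.MP66ef6b.PL
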