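import Pool.Agent.Lib.MP_66ef6b_al.PL.SpecB

set_option autoImplicit false

/-!
# MP_66ef6b_al, THEOREM L (helper14). Part C: the group `G`

TARGET (MNL): if `G` is locally a group with alternating and `PSL_n(q)` composition factors (or of bounded
order) then `G` is of finite type iff `AffineType G ∨ AltType G`.

Known from the library (`Final.lean`): `main`, and all Specs of `MP_66ef6b_al/Spec.lean` are proved:
`specLOCAL`, `specULTA`, `specTOWER`, `specALT`, .. (their hypotheses are filled in `Final.lean`).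
-/

namespace Pool.Agent.Lib.MP66ef6b.PL

universe u

/-- PRF [100 lines]. A perfect finite subgroup (uses `SpecTOWER`, proved in the library).

Proof. `G` is not commutative (otherwise `G` is generated by one element of finite order). Let `z = [x, y] ≠ 1`,
`E = closure {x, y}`, finite; TOWER: a finite `E' ≥ E` with `E ≤ N := closure {g z g⁻¹ | g ∈ E'}`. `N ≤ E'` is normalised by `E'`, so
`⁅N, N⁆` is normalised by `E'` and contains `z`, hence `N ≤ ⁅N, N⁆`. -/
def SpecPRF : Prop := ∀ (G : Type u) [Group G] [IsSimpleGroup G] [Infinite G], LocFin G →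
  ∃ N : Subgroup G, Finite N ∧ N ≠ ⊥ ∧ Perf N

/-- SMP [200 lines] (PRF, OUL). From almost simple to simple quotients.

Proof. As `Out.lean` (`OutM.restrict`). Let `N` be from PRF; `E₁ = E ⊔ N`; TOWER: `E' ≥ E₁` finite with
`E₁ ≤ closure {g x g⁻¹ | g ∈ E'}` for all `x ∈ E₁`, `x ≠ 1`. `Visible F E' Y Q` with `X, ρ, S`. The image of `N` in `Y` is perfect,
so it is contained in `Q` (OUL); so for `x ∈ N`, `x ≠ 1`, `ρ x ∈ Q`, and `ρ E₁ ≤ Q`. `X₁ = ρ⁻¹ Q`, `π` = the restriction of `ρ` followed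
by `Q ≃* PSL_n(K)`, and `S ⊓ Q` (`¬ Q ≤ S`). -/
def SpecSMP : Prop := ∀ (G : Type u) [Group G] [IsSimpleGroup G] [Infinite G], LocFin G →
  ∀ F : Subgroup G, Finite F → (∀ E : Subgroup G, Finite E → F ≤ E →
    ∃ (Y : Type u) (_ : Group Y) (Q : Subgroup Y), Visible F E Y Q ∧ IsPSL Q) →
  ∀ E : Subgroup G, Finite E → F ≤ E → PData F E

/-- SUP [200 lines] (THA). Small support.

Proof. THA for `δ = 1 / |F|`: `q₀, R`. Given `m` let `B = q₀ ^ ((max m R + 1)^2)`. PData with `|E| > B`. For every `y` there is an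
`x ∈ F`, `x ≠ 1`, with `y (π x) y⁻¹ ∈ S`; so one `x` has at least `|PSL| / |F|` such `y`. Let `S'` be the preimage of `S` in
`SL_n(K)`, `f'` a lift of `π x` (`π x ≠ 1`, so `f'` is not central): `y f' y⁻¹ ∈ S'` for at least `|SL_n(K)| / |F|` elements `y`.
THA: `|K| < q₀`, `rank (f' - a) ≤ R`. `|E| ≤ |PSL_n(K)| ≤ q₀ ^ (n²)`, so `n > max m R`; so `a ≠ 0`. `A = a⁻¹ f'`. -/
def SpecSUP : Prop := ∀ (G : Type u) [Group G] (F : Subgroup G), Finite F →
  ∃ q₀ R : ℕ, ∀ m : ℕ, ∃ B : ℕ, ∀ E : Subgroup G, Finite E → F ≤ E → B < Nat.card E → PData F E →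
  ∃ f ∈ F, f ≠ 1 ∧ FData q₀ R m f E

/-- CST [100 lines]. One element `f` for all `E`.

Proof. `FData q₀ R m f E` is inherited by smaller `m` and smaller `E`. Suppose that for every `f ∈ F`, `f ≠ 1`, there are `m_f, E_f`
with `¬ FData q₀ R m_f f E_f`. Let `m` be the maximum, `E ≥ F` a finite subgroup which contains all `E_f` and has more than
`B m` elements (`G` is infinite and locally finite). Contradiction. -/
def SpecCST : Prop := ∀ (G : Type u) [Group G] [Infinite G], LocFin G → ∀ F : Subgroup G, Finite F →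
  ∀ q₀ R : ℕ, (∀ m : ℕ, ∃ B : ℕ, ∀ E : Subgroup G, Finite E → F ≤ E → B < Nat.card E →
    ∃ f ∈ F, f ≠ 1 ∧ FData q₀ R m f E) →
  ∃ f ∈ F, f ≠ 1 ∧ ∀ (m : ℕ) (E : Subgroup G), Finite E → F ≤ E → FData q₀ R m f E

/-- LFU [150 lines]. Lifts.

Proof. (1) `A' = μ A` for a scalar `μ` (the two determinant one matrices differ by a central element, which is
scalar); `ker (A - 1) ⊓ ker (A' - 1)` contains a vector `v ≠ 0` (dimensions); `v = A' v = μ A v = μ v`, so `μ = 1`.
(2) `A C - 1 = (A - 1) C + (C - 1)`. (3) `A⁻¹ - 1 = -A⁻¹ (A - 1)`. (4) `C A C⁻¹ - 1 = C (A - 1) C⁻¹`, `C` any lift of `d`. (5) `A = 1`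
gives `B = μ⁻¹ 1`, central. -/
def SpecLFU : Prop := ∀ (n : ℕ) (K : Type) [Field K] (c d : PSLn n K)
  (A A' C : Matrix (Fin n) (Fin n) K), PLift c A →
  (PLift c A' → (A - 1).rank + (A' - 1).rank < n → A = A') ∧
  (PLift d C → PLift (c * d) (A * C) ∧ (A * C - 1).rank ≤ (A - 1).rank + (C - 1).rank) ∧
  (PLift c⁻¹ A⁻¹ ∧ A * A⁻¹ = 1 ∧ (A⁻¹ - 1).rank = (A - 1).rank) ∧
  (∃ A₁ : Matrix (Fin n) (Fin n) K, PLift (d * c * d⁻¹) A₁ ∧ (A₁ - 1).rank = (A - 1).rank) ∧
  (c ≠ 1 → A ≠ 1)

/-- NRM [80 lines]. A normal subgroup.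

Proof. The `g` with `∃ r, ∀ᶠ i, D i g r` form a normal subgroup of the simple group `G` which contains `f ≠ 1`. -/
def SpecNRM : Prop := ∀ (G : Type u) [Group G] [IsSimpleGroup G] (I : Type u) (U : Filter I)
  (D : I → G → ℕ → Prop) (f : G) (R : ℕ), f ≠ 1 → (∀ᶠ i in U, D i 1 0) → (∀ᶠ i in U, D i f R) →
  (∀ (g h : G) (r s : ℕ), ∀ᶠ i in U, D i g r → D i h s → D i (g * h) (r + s)) →
  (∀ (g : G) (r : ℕ), ∀ᶠ i in U, D i g r → D i g⁻¹ r) →
  (∀ (g k : G) (r : ℕ), ∀ᶠ i in U, D i g r → D i (k * g * k⁻¹) r) →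
  ∀ g : G, ∃ r : ℕ, ∀ᶠ i in U, D i g r

/-- ULF [120 lines]. Small displacement in an ultraproduct.

Proof. As in `ULTA` (`Final.lean`): label the elements of `range (φ_i - 1)` by `Fin c`; two elements of the ultraproduct
with the same labels eventually are equal; an ultrafilter chooses one label for every element of the range. -/
def SpecULF : Prop := ∀ (I : Type u) (U : Ultrafilter I) (V : I → Type u) [∀ i, AddCommGroup (V i)]
  (φ : ∀ i, V i → V i) (c : ℕ),
  (∀ᶠ i in (U : Filter I), (Set.range fun v : V i => φ i v - v).Finite ∧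
    (Set.range fun v : V i => φ i v - v).ncard ≤ c) →
  (Set.range fun v : UltaM.UV U V => UltaM.lift φ v - v).Finite ∧
    (Set.range fun v : UltaM.UV U V => UltaM.lift φ v - v).ncard ≤ c

/-- REP [300 lines] (LFU, NRM, ULF). The representation.

Proof. `I = UltaM.Idx F`, `U` from `UltaM.exists_ultra`. For `E : I` choose the data of `FData q₀ R (Nat.card E) f E`:
`X, n, K, π, A`; so `Nat.card E < n`, and `n → ∞` along `U` (`G` is infinite: for every `m` eventually `|E| > m`).
`D E g r` = (`g ∈ X` and `π g` has a lift `A'` with `rank (A' - 1) ≤ r`). NRM (with LFU): for every `g` there is an `r g` with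
`D E g (r g)` eventually. `φ g E : V_E → V_E`, `V_E = ULift (Fin n → K)`: the action of the lift with rank at most `r g`
(chosen; unique if `2 r g < n`), the identity if there is none. By LFU eventually `φ (g h) = φ g φ h`, `φ 1 = 1`. The
ultraproduct of the `V_E` is a module for `G` (`UltaM.lift`), as in `ULTA`. The characteristic `p` of `K` is smaller than `q₀`, so
it is constant along `U`. ULF: the displacement of `g` is at most `q₀ ^ (r g)` (`|range (A' - 1)| = |K| ^ rank`), and for `f` it is at most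
`q₀ ^ R` (eventually the lift chosen for `f` is `A`). `f` acts non-trivially: `A ≠ 1` (LFU (5)), choose `v_E` with `A v_E ≠ v_E`. -/
def SpecREP : Prop := ∀ (G : Type u) [Group G] [IsSimpleGroup G] [Infinite G], LocFin G →
  ∀ F : Subgroup G, Finite F → ∀ (q₀ R : ℕ) (f : G), f ∈ F → f ≠ 1 →
  (∀ (m : ℕ) (E : Subgroup G), Finite E → F ≤ E → FData q₀ R m f E) → RepData G f (q₀ ^ R)

/-- TRV [150 lines]. A commutator which is a transvection.

Proof. `A = μ B`, `I = range (A - 1) ≠ 0`, `dim ker (A - 1) ≥ n - R ≥ 2`. Choose `v ≠ 0` with `A v = v` and `I` not contained in `K v` (if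
`I` is a line choose `v ∉ I`). Choose `ψ` with `ψ · v = 0` and `ψ` not zero on `I`. `s = 1 + v ψ`. `B s B⁻¹ = 1 + (A v) (ψ A⁻¹) = 1 + v (ψ A⁻¹)`,
`[B, s] = 1 + v (ψ A⁻¹ - ψ)`; `ψ A⁻¹ ≠ ψ` because `ψ (A - 1) ≠ 0`; `(ψ A⁻¹ - ψ) · v = 0`. -/
def SpecTRV : Prop := ∀ (n : ℕ) (K : Type) [Field K] (B : SLn n K) (μ : K) (R : ℕ), μ ≠ 0 →
  R + 2 ≤ n → (μ • B.1 - 1).rank ≤ R → μ • B.1 ≠ 1 →
  ∃ (s : SLn n K) (v φ : Fin n → K), v ≠ 0 ∧ φ ≠ 0 ∧ IsTv (B * s * B⁻¹ * s⁻¹) v φ

/-- GNU [150 lines]. The order of a group generated by transvections.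

Proof. `[1 + a E_ik, 1 + E_kj] = 1 + a E_ij`, so by induction over `j - i` the images of all `1 + a E_ij`, `i < j`, are in `H`. Products
of these for `i < n / 2 ≤ j` are all matrices `1 + b` with `b` supported in this block; there are
`|K| ^ (k (n - k)) ≥ 2 ^ (k²)` of them, `k = n / 2`, and their images in `PSL_n(K)` are different (unipotent; the diagonal
entries show that the scalar is `1`). -/
def SpecGNU : Prop := ∀ (n : ℕ) (K : Type) [Field K] [Finite K] (H : Subgroup (PSLn n K)),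
  (∀ (i j : Fin n) (hij : i ≠ j) (a : K), j.val = i.val + 1 →
    (QuotientGroup.mk (Matrix.SpecialLinearGroup.transvection hij a) : PSLn n K) ∈ H) →
  2 ^ ((n / 2) ^ 2) ≤ Nat.card H

/-- BGF [150 lines] (TRV, TCJ, GNU). Few conjugates of `f` generate a large group.

Proof. `N = R + 3`. `A = μ B`, `B` a lift of `π f`. TRV: `g₀ = [B, s]` is a transvection. For every `i`, `a ≠ 0`: TCJ gives `h` with
`1 + a E_(i, i+1) = h g₀ h⁻¹ = (h B h⁻¹) ((h s) B (h s)⁻¹)⁻¹`. So the `2 (n - 1) (|K| - 1) ≤ 2 q₀ n` conjugates of `f` by preimages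
of the images of these `h`, `h s` generate a group `H` whose image in `PSL_n(K)` satisfies the hypothesis of GNU (index the
conjugates by a list; repetitions allowed). -/
def SpecBGF : Prop := ∀ q₀ R : ℕ, ∃ N : ℕ, ∀ (X : Type u) [Group X] [Finite X] (n : ℕ) (K : Type)
  [Field K] [Finite K] (π : X →* PSLn n K) (f : X) (A : Matrix (Fin n) (Fin n) K),
  Function.Surjective π → Nat.card K < q₀ → N < n → π f ≠ 1 → PLift (π f) A → (A - 1).rank ≤ R →
  ∃ (m : ℕ) (x : Fin m → X), m ≤ 2 * q₀ * n ∧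
    2 ^ ((n / 2) ^ 2) ≤ Nat.card (Subgroup.closure (Set.range fun i => x i * f * (x i)⁻¹))

/-- SPR [120 lines]. No regular orbits.

Proof. `B_i = range (g_i - 1)` is a finite subgroup with at most `c` elements (the action is additive); `B = ∑ B_i` has at most
`c ^ m` elements. The `h` with `h v - v ∈ B` for all `v` form a subgroup (`g h v - v = (g - 1) h v + (h v - v)`), so they include `H`.
So `|H v| ≤ c ^ m < |H|` and the stabiliser of `v` is not trivial. -/
def SpecSPR : Prop := ∀ (G V : Type u) [Group G] [AddCommGroup V] [DistribMulAction G V] (m c : ℕ)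
  (g : Fin m → G), Finite (Subgroup.closure (Set.range g)) →
  (∀ i, (Set.range fun v : V => g i • v - v).Finite ∧
    (Set.range fun v : V => g i • v - v).ncard ≤ c) →
  c ^ m < Nat.card (Subgroup.closure (Set.range g)) →
  ∀ v : V, ∃ h ∈ Subgroup.closure (Set.range g), h ≠ 1 ∧ h • v = v

/-- AFF [150 lines] (BGF, SPR). Affine type.

Proof. For large `n`: `2 ^ ((n / 2)²) > (q₀ ^ R) ^ (2 q₀ n)` (and `c = q₀ ^ R ≥ 1`). Take `m` larger than `N` of BGF and than this bound; `FData
q₀ R m f F`: `X, n, π, x = f, A`. BGF: `H` = the subgroup of `G` generated by the `g_i = x_i f x_i⁻¹`, finite (contained in `X`);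
`range (g_i - 1) = x_i range (f - 1)` has at most `q₀ ^ R` elements. SPR. `AffineType` with `H`; `g • (v + w) = g • v + g • w`. -/
def SpecAFF : Prop := ∀ (G : Type u) [Group G] [Infinite G], LocFin G →
  ∀ F : Subgroup G, Finite F → ∀ (q₀ R : ℕ) (f : G),
  (∀ (m : ℕ) (E : Subgroup G), Finite E → F ≤ E → FData q₀ R m f E) → RepData G f (q₀ ^ R) →
  AffineType G

/-- LIN [60 lines] (THA, SMP, SUP, CST, REP, AFF). The linear case. -/
def SpecLIN : Prop := ∀ (G : Type u) [Group G] [IsSimpleGroup G] [Infinite G], LocFin G →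
  ∀ F : Subgroup G, Finite F → (∀ E : Subgroup G, Finite E → F ≤ E →
    ∃ (Y : Type u) (_ : Group Y) (Q : Subgroup Y), Visible F E Y Q ∧ IsPSL Q) → AffineType G

/-- MNL [150 lines] (LIN). THEOREM L.

Proof. As `specMAIN` in `Main.lean` (use `alternative` with `P K = ALFactors b K`): `AffineType G`, or there is an `F` such that for all
finite `E ≥ F` there are `K, Y, T` with `ALFactors b K`, `Visible F E Y T`, `CompFactor K T`. If `|E| > b!` then `|T| > b`, so `T` is
alternating or `IsPSL T`. Visible is inherited by smaller `E` (`Visible.mono`). If for every `E` the first case occurs for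
some `T` then `specALT`; otherwise the second case occurs for all `E`: LIN. The converse: `main` (`AffineType`) and
`specBACK`. -/
def SpecMNL : Prop := ∀ (G : Type u) [Group G] [IsSimpleGroup G] [Infinite G], LocFin G →
  LocAL G → (FiniteType G ↔ AffineType G ∨ AltType G)

end Pool.Agent.Lib.MP66ef6b.PL
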