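import Pool.Agent.Lib.MP_66ef6b_al.PL.CBK
import Pool.Agent.Lib.MP_66ef6b_al.PL.SpecA
import Pool.Agent.Lib.MP_66ef6b_al.PL.SpecB
import Mathlib.FieldTheory.Finite.Extension
import Pool.Agent.Lib.MP_66ef6b_al.PL.SpecC

section
set_option autoImplicit false

/-!
# MP_66ef6b_al, THEOREM L, module CBL (helper41): blocks `SL_2(L)`
-/

namespace Pool.Agent.Lib.MP66ef6b.PL

open CBKM in
theorem specCBL (hSL2F : SpecSL2F) (hSTEP : SpecSTEP) (hIRB : SpecIRB) (hCLM : SpecCLM)
    (hFUL : SpecFUL) : SpecCBL := by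
  intro ε hε hε1
  obtain ⟨q, hq⟩ := hSL2F (ε / 2) (by linarith) (by linarith)
  refine ⟨max q (⌊12 / ε⌋₊ + 1), ?_⟩
  intro K V L D Ω _ _ _ _ _ _ _ _ _ _ _ _ _ _ Ψ β hβ hL h0 g hg
  have hq1 : q ≤ Nat.card L := le_trans (le_max_left _ _) hL
  have hq2 : ⌊12 / ε⌋₊ + 1 ≤ Nat.card L := le_trans (le_max_right _ _) hL
  have h1 := viaBeta hq L hq1 Ω β g hg
  -- the vector `x`
  obtain ⟨d, hd⟩ := exists_ne (0 : D)
  have hxC : Ψ.symm (0, d) ∈ WC Ψ := by rw [mem_WC]; simp
  have hx0 : Ψ.symm (0, d) ≠ 0 := by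
    intro h
    have h2 : Ψ (Ψ.symm (0, d)) = 0 := by rw [h, map_zero]
    rw [LinearEquiv.apply_symm_apply] at h2
    exact hd (congrArg Prod.snd h2)
  set x : V := Ψ.symm (0, d) with hx
  obtain ⟨C, hC⟩ := Submodule.exists_isCompl (Submodule.span K {x})
  have hspan : Submodule.span K {x} ≤ WC Ψ := by
    rw [Submodule.span_singleton_le_iff_mem]
    exact hxC
  set W'' : Submodule K V := C ⊓ WC Ψ with hW''
  have hsup : Submodule.span K {x} ⊔ W'' = WC Ψ := by
    rw [hW'', ← sup_inf_assoc_of_le C hspan, hC.sup_eq_top, top_inf_eq]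
  have hdis : Disjoint (Submodule.span K {x}) W'' := hC.disjoint.mono_right inf_le_left
  have hc0 : IsCompl (WB Ψ) (Submodule.span K {x} ⊔ W'') := by
    rw [hsup]; exact isCompl Ψ
  have hIrr : Irr β.range (WB Ψ) (Submodule.span K {x} ⊔ W'') := by
    rw [hsup]; exact hIRB K V L D Ψ β hβ
  have h2 := hSTEP K V Ω β.range (WB Ψ) W'' x hx0 hdis hc0 hIrr
  have hc1 : IsCompl (WB Ψ ⊔ Submodule.span K {x}) W'' := by
    constructor
    · exact Disjoint.disjoint_sup_left_of_disjoint_sup_right hdis hc0.disjoint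
    · rw [codisjoint_iff, sup_assoc]
      exact hc0.sup_eq_top
  have hf1 : 2 ≤ Module.finrank K (WB Ψ ⊔ Submodule.span K {x} : Submodule K V) :=
    le_trans (finrank_WB Ψ) (Submodule.finrank_mono le_sup_left)
  have h3 := hCLM K V Ω (WB Ψ ⊔ Submodule.span K {x}) W'' hc1 hf1
  rw [fx_top hFUL Ω h0, Set.ncard_empty, mul_zero, zero_add] at h3
  haveI : Finite V := Module.finite_of_finite K
  have hcard : Nat.card (WB Ψ) ≤ Nat.card (WB Ψ ⊔ Submodule.span K {x} : Submodule K V) :=
    Nat.card_le_card_of_injective _ (Submodule.inclusion_injective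
      (le_sup_left : WB Ψ ≤ WB Ψ ⊔ Submodule.span K {x}))
  have h4 : Nat.card (WB Ψ) * (fx Ω (TrS (WB Ψ ⊔ Submodule.span K {x}) W'')).ncard ≤
      4 * Nat.card Ω := le_trans (Nat.mul_le_mul_right _ hcard) h3
  have h5 : Nat.card L ^ 2 * (fx Ω (β.range : Set (SpecialLinearGroup K V))).ncard ≤
      6 * Nat.card Ω := by
    rw [← card_WB Ψ]
    omega
  have hΩ : 0 < Nat.card Ω := Nat.card_pos
  have hΩ' : (0 : ℝ) < Nat.card Ω := by exact_mod_cast hΩ
  have h5' : (Nat.card L : ℝ) ^ 2 *
      ((fx Ω (β.range : Set (SpecialLinearGroup K V))).ncard : ℝ) ≤ 6 * Nat.card Ω := by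
    exact_mod_cast h5
  have hLr : 12 / ε < (Nat.card L : ℝ) := by
    have := Nat.lt_floor_add_one (12 / ε)
    have h4 : ((⌊12 / ε⌋₊ + 1 : ℕ) : ℝ) ≤ Nat.card L := by exact_mod_cast hq2
    push_cast at h4
    linarith
  have hL1 : (1 : ℝ) ≤ Nat.card L := by
    have : 1 ≤ Nat.card L := le_trans (by omega) hq2
    exact_mod_cast this
  have hL8 : 12 < ε * (Nat.card L : ℝ) := by
    rw [div_lt_iff₀ hε] at hLr
    linarith
  have hL8' : 12 < ε * (Nat.card L : ℝ) ^ 2 := by nlinarith
  set X : ℝ := ((fx Ω (β.range : Set (SpecialLinearGroup K V))).ncard : ℝ) with hX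
  have hX0 : X < ε / 2 * Nat.card Ω := by
    by_contra hcon
    push Not at hcon
    have hL2 : (0 : ℝ) < (Nat.card L : ℝ) ^ 2 := by positivity
    have := mul_le_mul_of_nonneg_left hcon hL2.le
    nlinarith
  linarith

end Pool.Agent.Lib.MP66ef6b.PL
end

section
set_option autoImplicit false

/-!
# MP_66ef6b_al, THEOREM L: module CEN (helper20), centralisers in `SL_2(L)`
-/

namespace Pool.Agent.Lib.MP66ef6b.PL

namespace CENM

variable {L : Type} [Field L]

/-- a vector which is not an eigenvector -/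
theorem exists_vec (g : SLn 2 L) (hg : g ∉ Subgroup.center (SLn 2 L)) :
    ∃ x y : L, g.1 1 0 * x ^ 2 + (g.1 1 1 - g.1 0 0) * x * y - g.1 0 1 * y ^ 2 ≠ 0 := by
  by_contra hcon
  push Not at hcon
  apply hg
  rw [Matrix.SpecialLinearGroup.mem_center_iff]
  have h1 : g.1 1 0 = 0 := by simpa using hcon 1 0
  have h2 : g.1 0 1 = 0 := by simpa using hcon 0 1
  have h3 : g.1 1 1 = g.1 0 0 := by
    have := hcon 1 1
    rw [h1, h2] at this
    linear_combination this
  have hd : g.1 0 0 * g.1 1 1 - g.1 0 1 * g.1 1 0 = 1 := by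
    have := g.2
    rwa [Matrix.det_fin_two] at this
  refine ⟨g.1 0 0, ?_, ?_⟩
  · rw [Fintype.card_fin]
    rw [h3, h2] at hd
    linear_combination hd
  · ext i j
    fin_cases i <;> fin_cases j
    · simp
    · simpa using h2.symm
    · simpa using h1.symm
    · simpa using h3.symm

end CENM

theorem specCEN : SpecCEN := by
  classical
  intro L _ _ g hg
  obtain ⟨X, Y, hD⟩ := CENM.exists_vec g hg
  have hd : g.1 0 0 * g.1 1 1 - g.1 0 1 * g.1 1 0 = 1 := by
    have := g.2
    rwa [Matrix.det_fin_two] at this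
  set D := g.1 1 0 * X ^ 2 + (g.1 1 1 - g.1 0 0) * X * Y - g.1 0 1 * Y ^ 2 with hDdef
  set u := D⁻¹ with hu
  have hDu : D * u = 1 := mul_inv_cancel₀ hD
  haveI : Fintype L := Fintype.ofFinite L
  haveI : Fintype (SLn 2 L) := Fintype.ofFinite _
  set C := Subgroup.centralizer ({g} : Set (SLn 2 L)) with hC
  haveI : Fintype C := Fintype.ofFinite _
  rw [Nat.card_eq_fintype_card, Nat.card_eq_fintype_card]
  -- the coordinates
  let β : SLn 2 L → L := fun z => u * (z.1 1 0 * X ^ 2 + (z.1 1 1 - z.1 0 0) * X * Y - z.1 0 1 * Y ^ 2)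
  let α : SLn 2 L → L := fun z => z.1 0 0 - β z * g.1 0 0
  have hco : ∀ z ∈ C, z.1 0 1 = β z * g.1 0 1 ∧ z.1 1 0 = β z * g.1 1 0 ∧
      z.1 1 1 - z.1 0 0 = β z * (g.1 1 1 - g.1 0 0) := by
    intro z hz
    rw [hC, Subgroup.mem_centralizer_singleton_iff] at hz
    have hz' : z.1 * g.1 = g.1 * z.1 := congrArg (fun w : SLn 2 L => w.1) hz
    have e1 : z.1 0 1 * g.1 1 0 = g.1 0 1 * z.1 1 0 := by
      have := congrFun (congrFun hz' 0) 0
      simp only [Matrix.mul_apply, Fin.sum_univ_two] at this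
      linear_combination this
    have e2 : z.1 0 1 * (g.1 1 1 - g.1 0 0) = g.1 0 1 * (z.1 1 1 - z.1 0 0) := by
      have := congrFun (congrFun hz' 0) 1
      simp only [Matrix.mul_apply, Fin.sum_univ_two] at this
      linear_combination this
    have e3 : g.1 1 0 * (z.1 1 1 - z.1 0 0) = z.1 1 0 * (g.1 1 1 - g.1 0 0) := by
      have := congrFun (congrFun hz' 1) 0
      simp only [Matrix.mul_apply, Fin.sum_univ_two] at this
      linear_combination this
    refine ⟨?_, ?_, ?_⟩
    · show z.1 0 1 = u * (z.1 1 0 * X ^ 2 + (z.1 1 1 - z.1 0 0) * X * Y - z.1 0 1 * Y ^ 2) * g.1 0 1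
      have : z.1 0 1 * (D * u) = u * (z.1 1 0 * X ^ 2 + (z.1 1 1 - z.1 0 0) * X * Y -
          z.1 0 1 * Y ^ 2) * g.1 0 1 := by
        rw [hDdef]
        linear_combination u * X ^ 2 * e1 + u * X * Y * e2
      rw [← this, hDu, mul_one]
    · show z.1 1 0 = u * (z.1 1 0 * X ^ 2 + (z.1 1 1 - z.1 0 0) * X * Y - z.1 0 1 * Y ^ 2) * g.1 1 0
      have : z.1 1 0 * (D * u) = u * (z.1 1 0 * X ^ 2 + (z.1 1 1 - z.1 0 0) * X * Y -
          z.1 0 1 * Y ^ 2) * g.1 1 0 := by
        rw [hDdef]
        linear_combination - u * X * Y * e3 + u * Y ^ 2 * e1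
      rw [← this, hDu, mul_one]
    · show z.1 1 1 - z.1 0 0 = u * (z.1 1 0 * X ^ 2 + (z.1 1 1 - z.1 0 0) * X * Y -
        z.1 0 1 * Y ^ 2) * (g.1 1 1 - g.1 0 0)
      have : (z.1 1 1 - z.1 0 0) * (D * u) = u * (z.1 1 0 * X ^ 2 + (z.1 1 1 - z.1 0 0) * X * Y -
          z.1 0 1 * Y ^ 2) * (g.1 1 1 - g.1 0 0) := by
        rw [hDdef]
        linear_combination u * X ^ 2 * e3 + u * Y ^ 2 * e2
      rw [← this, hDu, mul_one]
  have hquad : ∀ z ∈ C, α z ^ 2 + α z * β z * (g.1 0 0 + g.1 1 1) + β z ^ 2 = 1 := by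
    intro z hz
    obtain ⟨h1, h2, h3⟩ := hco z hz
    have hz1 : z.1 0 0 * z.1 1 1 - z.1 0 1 * z.1 1 0 = 1 := by
      have := z.2
      rwa [Matrix.det_fin_two] at this
    have h00 : z.1 0 0 = α z + β z * g.1 0 0 := by
      show z.1 0 0 = (z.1 0 0 - β z * g.1 0 0) + β z * g.1 0 0
      ring
    have h11 : z.1 1 1 = α z + β z * g.1 1 1 := by
      linear_combination h3 + h00
    rw [h00, h11, h1, h2] at hz1
    linear_combination hz1 - β z ^ 2 * hd
  -- injectivity of the coordinates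
  have hinj : ∀ z ∈ C, ∀ w ∈ C, β z = β w → α z = α w → z = w := by
    intro z hz w hw hb ha
    obtain ⟨h1, h2, h3⟩ := hco z hz
    obtain ⟨k1, k2, k3⟩ := hco w hw
    have h00 : z.1 0 0 = α z + β z * g.1 0 0 := by
      show z.1 0 0 = (z.1 0 0 - β z * g.1 0 0) + β z * g.1 0 0
      ring
    have k00 : w.1 0 0 = α w + β w * g.1 0 0 := by
      show w.1 0 0 = (w.1 0 0 - β w * g.1 0 0) + β w * g.1 0 0
      ring
    have e00 : z.1 0 0 = w.1 0 0 := by rw [h00, k00, ha, hb]
    have e11 : z.1 1 1 = w.1 1 1 := by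
      linear_combination h3 - k3 + e00 + (g.1 1 1 - g.1 0 0) * hb
    apply Subtype.ext
    ext i j
    fin_cases i <;> fin_cases j
    · exact e00
    · show z.1 0 1 = w.1 0 1
      rw [h1, k1, hb]
    · show z.1 1 0 = w.1 1 0
      rw [h2, k2, hb]
    · exact e11
  have hfib := Finset.card_le_mul_card_image (f := fun z : C => β z.1) (Finset.univ : Finset C) 2
    (by
      intro b hb
      obtain ⟨z0, _, hz0⟩ := Finset.mem_image.1 hb
      refine (Finset.card_le_card_of_injOn (fun z : C => α z.1)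
        (t := {α z0.1, -(α z0.1) - b * (g.1 0 0 + g.1 1 1)}) ?_ ?_).trans Finset.card_le_two
      · intro z hz
        have hzb : β z.1 = b := (Finset.mem_filter.1 hz).2
        have q0 := hquad z0.1 z0.2
        have q1 := hquad z.1 z.2
        rw [hzb] at q1
        rw [show β z0.1 = b from hz0] at q0
        have h1 : (α z.1 - α z0.1) * (α z.1 - (-(α z0.1) - b * (g.1 0 0 + g.1 1 1))) = 0 := by
          linear_combination q1 - q0
        rcases mul_eq_zero.1 h1 with h2 | h2
        · have h3 : α z.1 = α z0.1 := sub_eq_zero.1 h2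
          simp [h3]
        · have h3 : α z.1 = -(α z0.1) - b * (g.1 0 0 + g.1 1 1) := sub_eq_zero.1 h2
          simp [h3]
      · intro z hz w hw hzw
        have hzb : β z.1 = b := (Finset.mem_filter.1 hz).2
        have hwb : β w.1 = b := (Finset.mem_filter.1 hw).2
        exact Subtype.ext (hinj z.1 z.2 w.1 w.2 (hzb.trans hwb.symm) hzw))
  calc Fintype.card C = (Finset.univ : Finset C).card := rfl
    _ ≤ 2 * ((Finset.univ : Finset C).image fun z : C => β z.1).card := hfib
    _ ≤ 2 * Fintype.card L := Nat.mul_le_mul_left _ (Finset.card_le_univ _)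

end Pool.Agent.Lib.MP66ef6b.PL
end

section
set_option autoImplicit false

/-! # Module CLM: the climb. -/

namespace Pool.Agent.Lib.MP66ef6b.PL

namespace CLMM

theorem fx_closure {Γ Ω : Type} [Group Γ] [MulAction Γ Ω] (S : Set Γ) :
    fx Ω (Subgroup.closure S : Set Γ) = fx Ω S := by
  ext ω
  constructor
  · intro h a ha
    exact h a (Subgroup.subset_closure ha)
  · intro h a ha
    have h1 : Subgroup.closure S ≤ MulAction.stabilizer Γ ω :=
      (Subgroup.closure_le _).2 fun s hs => h s hs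
    exact h1 ha

theorem compl_in {K V : Type} [Field K] [AddCommGroup V] [Module K V] (W' : Submodule K V)
    (x : V) (hx : x ∈ W') : ∃ W'' : Submodule K V, Disjoint (Submodule.span K {x}) W'' ∧
      W' = Submodule.span K {x} ⊔ W'' := by
  obtain ⟨C, hC⟩ := Submodule.exists_isCompl (Submodule.span K {x})
  refine ⟨C ⊓ W', ?_, ?_⟩
  · exact hC.disjoint.mono_right inf_le_left
  · have h1 : Submodule.span K {x} ≤ W' := (Submodule.span_singleton_le_iff_mem x W').2 hx
    rw [← sup_inf_assoc_of_le C h1, hC.sup_eq_top, top_inf_eq]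

theorem arith (w w₁ F₀ F₁ F o : ℕ) (h1 : w * F₀ ≤ w * F₁ + 2 * o) (h2 : w₁ * F₁ ≤ w₁ * F + 4 * o)
    (h3 : 2 * w ≤ w₁) : w * F₀ ≤ w * F + 4 * o := by
  rcases Nat.le_total F₁ F with h | h
  · have := Nat.mul_le_mul_left w h
    omega
  · obtain ⟨d, rfl⟩ := Nat.exists_eq_add_of_le h
    have h4 : w₁ * d ≤ 4 * o := by
      have : w₁ * (F + d) = w₁ * F + w₁ * d := by ring
      omega
    have h5 : 2 * w * d ≤ 4 * o := (Nat.mul_le_mul_right d h3).trans h4
    have h6 : w * (F + d) = w * F + w * d := by ring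
    have h7 : 2 * w * d = 2 * (w * d) := by ring
    omega

end CLMM

open CLMM in
theorem specCLM (hSTEP : SpecSTEP) (hIRE : SpecIRE) : SpecCLM := by
  intro K V Ω _ _ _ _ _ _ _ W W' hc hW
  haveI : Finite V := Module.finite_of_finite K
  induction hn : Module.finrank K W' using Nat.strong_induction_on generalizing W W' with
  | _ n ih =>
  by_cases hb : W' = ⊥
  · subst hb
    have hWt : W = ⊤ := by
      have := hc.sup_eq_top
      rwa [sup_bot_eq] at this
    subst hWt
    exact Nat.le_add_right _ _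
  · obtain ⟨x, hx, hx0⟩ := Submodule.exists_mem_ne_zero_of_ne_bot hb
    obtain ⟨W'', hd, hW'⟩ := compl_in W' x hx
    have hc' : IsCompl W (Submodule.span K {x} ⊔ W'') := hW' ▸ hc
    have hI : Irr (Subgroup.closure (TrS W W')) W (Submodule.span K {x} ⊔ W'') := by
      have := hIRE K V W W' hc hW
      rwa [← hW']
    have h1 := hSTEP K V Ω (Subgroup.closure (TrS W W')) W W'' x hx0 hd hc' hI
    rw [fx_closure] at h1
    have hc1 : IsCompl (W ⊔ Submodule.span K {x}) W'' := by
      constructor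
      · exact hd.disjoint_sup_left_of_disjoint_sup_right hc'.disjoint
      · rw [codisjoint_iff, sup_assoc]
        exact hc'.sup_eq_top
    have hxW : x ∉ W := by
      intro h
      have : x ∈ W ⊓ W' := ⟨h, hx⟩
      rw [hc.inf_eq_bot] at this
      exact hx0 ((Submodule.mem_bot K).1 this)
    have hlt : W < W ⊔ Submodule.span K {x} := by
      refine lt_of_le_of_ne le_sup_left fun h => hxW ?_
      rw [h]
      exact (le_sup_right : Submodule.span K {x} ≤ W ⊔ Submodule.span K {x})
        (Submodule.mem_span_singleton_self x)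
    have hfr := Submodule.finrank_lt_finrank_of_lt hlt
    have hlt' : W'' < W' := by
      rw [hW']
      refine lt_of_le_of_ne le_sup_right fun h => hx0 ?_
      have hx2 : x ∈ W'' := by
        rw [h]
        exact (le_sup_left : Submodule.span K {x} ≤ Submodule.span K {x} ⊔ W'')
          (Submodule.mem_span_singleton_self x)
      have := hd.le_bot ⟨Submodule.mem_span_singleton_self x, hx2⟩
      exact (Submodule.mem_bot K).1 this
    have hfr' := Submodule.finrank_lt_finrank_of_lt hlt'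
    have h2 := ih (Module.finrank K W'') (hn ▸ hfr') (W ⊔ Submodule.span K {x}) W'' hc1
      (by omega) rfl
    have h3 : 2 * Nat.card W ≤ Nat.card (W ⊔ Submodule.span K {x} : Submodule K V) := by
      rw [Module.natCard_eq_pow_finrank (K := K) (V := W),
        Module.natCard_eq_pow_finrank (K := K) (V := (W ⊔ Submodule.span K {x} : Submodule K V))]
      have hK : 2 ≤ Nat.card K := Finite.one_lt_card
      calc 2 * Nat.card K ^ Module.finrank K W ≤ Nat.card K * Nat.card K ^ Module.finrank K W :=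
            Nat.mul_le_mul_right _ hK
        _ = Nat.card K ^ (Module.finrank K W + 1) := by rw [pow_succ, mul_comm]
        _ ≤ _ := Nat.pow_le_pow_right (by omega) hfr
    exact arith _ _ _ _ _ _ h1 h2 h3

end Pool.Agent.Lib.MP66ef6b.PL
end

section
set_option autoImplicit false

/-!
# MP_66ef6b_al, THEOREM L, module CLS (helper50): many elements
-/

namespace Pool.Agent.Lib.MP66ef6b.PL

namespace CLSM

variable {L : Type} [Field L]

lemma trace_conj (y g : SLn 2 L) : Matrix.trace (y * g * y⁻¹).1 = Matrix.trace g.1 := by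
  have h1 : (y * g * y⁻¹).1 = (y * g).1 * (y⁻¹).1 := Matrix.SpecialLinearGroup.coe_mul _ _
  rw [h1, Matrix.trace_mul_comm, ← Matrix.SpecialLinearGroup.coe_mul]
  congr 2
  group

/-- the number of the `y` with `y g y⁻¹ = x`. -/
lemma card_conj [Finite L] (g x : SLn 2 L) (s : Finset (L × SLn 2 L)) (a : L)
    (hs : ∀ p ∈ s, p.1 = a ∧ p.2 * g * p.2⁻¹ = x) (n : ℕ)
    (hn : Nat.card (Subgroup.centralizer ({g} : Set (SLn 2 L))) ≤ n) : s.card ≤ n := by
  classical
  rcases s.eq_empty_or_nonempty with h | ⟨p₀, hp₀⟩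
  · rw [h, Finset.card_empty]
    exact Nat.zero_le _
  refine le_trans ?_ hn
  have hmem : ∀ p ∈ s, p₀.2⁻¹ * p.2 ∈ Subgroup.centralizer ({g} : Set (SLn 2 L)) := by
    intro p hp
    rw [Subgroup.mem_centralizer_iff]
    intro k hk
    rw [Set.mem_singleton_iff] at hk
    rw [hk]
    have e1 := (hs p hp).2
    have e2 := (hs p₀ hp₀).2
    rw [mul_inv_eq_iff_eq_mul] at e1 e2
    calc g * (p₀.2⁻¹ * p.2) = p₀.2⁻¹ * (p₀.2 * g) * p₀.2⁻¹ * p.2 := by group
      _ = p₀.2⁻¹ * (x * p₀.2) * p₀.2⁻¹ * p.2 := by rw [e2]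
      _ = p₀.2⁻¹ * (x * p.2) := by group
      _ = p₀.2⁻¹ * (p.2 * g) := by rw [e1]
      _ = p₀.2⁻¹ * p.2 * g := by group
  let F : s → Subgroup.centralizer ({g} : Set (SLn 2 L)) := fun p => ⟨p₀.2⁻¹ * p.1.2, hmem p.1 p.2⟩
  have hF : Function.Injective F := by
    intro p q hpq
    have h1 : p₀.2⁻¹ * p.1.2 = p₀.2⁻¹ * q.1.2 := congrArg Subtype.val hpq
    have h2 : p.1.2 = q.1.2 := mul_left_cancel h1
    apply Subtype.ext
    exact Prod.ext ((hs p.1 p.2).1.trans (hs q.1 q.2).1.symm) h2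
  have := Nat.card_le_card_of_injective F hF
  simpa using this

lemma card_sq (s : Finset L) (c : L) (hs : ∀ a ∈ s, a ^ 2 = c) : s.card ≤ 2 := by
  classical
  rcases s.eq_empty_or_nonempty with h | ⟨a₀, ha₀⟩
  · rw [h, Finset.card_empty]
    exact Nat.zero_le _
  have hsub : s ⊆ {a₀, -a₀} := by
    intro a ha
    have h1 : a ^ 2 = a₀ ^ 2 := (hs a ha).trans (hs a₀ ha₀).symm
    rw [Finset.mem_insert, Finset.mem_singleton]
    exact sq_eq_sq_iff_eq_or_eq_neg.1 h1
  exact (Finset.card_le_card hsub).trans Finset.card_le_two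

end CLSM

open CLSM in
theorem specCLS (hCEN : SpecCEN) : SpecCLS := by
  intro L _ _ Λ h hΛ
  classical
  haveI : Fintype L := Fintype.ofFinite L
  haveI : Fintype (SLn 2 L) := Fintype.ofFinite _
  set X : Set (SLn 2 L) := {x : SLn 2 L | ∃ a ∈ Λ, ∃ y : SLn 2 L, x = y * h a * y⁻¹} with hX
  rw [Set.ncard_eq_toFinset_card' Λ, Set.ncard_eq_toFinset_card' X,
    Nat.card_eq_fintype_card (α := SLn 2 L), ← Finset.card_univ (α := SLn 2 L),
    ← Finset.card_product]
  refine Finset.card_le_mul_card_image_of_maps_to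
    (f := fun p : L × SLn 2 L => p.2 * h p.1 * p.2⁻¹) ?_ _ ?_
  · rintro ⟨a, y⟩ hp
    rw [Finset.mem_product, Set.mem_toFinset] at hp
    rw [Set.mem_toFinset]
    exact ⟨a, hp.1, y, rfl⟩
  · intro x _
    set F : Finset (L × SLn 2 L) :=
      {p ∈ Λ.toFinset ×ˢ (Finset.univ : Finset (SLn 2 L)) | p.2 * h p.1 * p.2⁻¹ = x} with hF
    have hFm : ∀ p ∈ F, p.1 ∈ Λ ∧ p.2 * h p.1 * p.2⁻¹ = x := by
      intro p hp
      rw [hF, Finset.mem_filter, Finset.mem_product, Set.mem_toFinset] at hp
      exact ⟨hp.1.1, hp.2⟩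
    have h1 : F.card ≤ (2 * Nat.card L) *
        (Finset.univ.filter fun a : L => a ^ 2 = Matrix.trace x.1 - 2).card := by
      refine Finset.card_le_mul_card_image_of_maps_to (f := Prod.fst) ?_ _ ?_
      · intro p hp
        obtain ⟨hp1, hp2⟩ := hFm p hp
        rw [Finset.mem_filter]
        refine ⟨Finset.mem_univ _, ?_⟩
        have h2 := (hΛ p.1 hp1).2
        rw [← hp2, trace_conj, h2]
        ring
      · intro a _
        rcases (F.filter fun p => p.1 = a).eq_empty_or_nonempty with h0 | ⟨p₀, hp₀⟩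
        · rw [h0, Finset.card_empty]
          exact Nat.zero_le _
        · have ha : a ∈ Λ := by
            rw [Finset.mem_filter] at hp₀
            rw [← hp₀.2]
            exact (hFm p₀ hp₀.1).1
          refine card_conj (h a) x _ a ?_ _ (hCEN L (h a) (hΛ a ha).1)
          intro p hp
          rw [Finset.mem_filter] at hp
          obtain ⟨hp1, hp2⟩ := hp
          refine ⟨hp2, ?_⟩
          have h3 := (hFm p hp1).2
          rw [hp2] at h3
          exact h3
    have h2 : (Finset.univ.filter fun a : L => a ^ 2 = Matrix.trace x.1 - 2).card ≤ 2 := by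
      refine card_sq _ (Matrix.trace x.1 - 2) ?_
      intro a ha
      rw [Finset.mem_filter] at ha
      exact ha.2
    calc F.card ≤ (2 * Nat.card L) * _ := h1
      _ ≤ (2 * Nat.card L) * 2 := Nat.mul_le_mul_left _ h2
      _ = 4 * Nat.card L := by ring

end Pool.Agent.Lib.MP66ef6b.PL
end

section
set_option autoImplicit false

/-!
# MP_66ef6b_al, THEOREM L, module CNT (helper24): centralisers of the groups `AA e_i`, `BB e_i`
-/

namespace Pool.Agent.Lib.MP66ef6b.PL

namespace CNTM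

open Matrix

variable {n : ℕ} {K : Type} [Field K]

/-- the transvection `1 + v φ`. -/
def tv (v φ : Fin n → K) (h : φ ⬝ᵥ v = 0) : SLn n K :=
  ⟨1 + Matrix.vecMulVec v φ, by
    have := Matrix.det_one_add_replicateCol_mul_replicateRow (ι := Unit) v φ
    rw [← Matrix.vecMulVec_eq] at this
    rw [this, h, add_zero]⟩

theorem tv_isTv (v φ : Fin n → K) (h : φ ⬝ᵥ v = 0) : IsTv (tv v φ h) v φ := ⟨h, rfl⟩

theorem exists_ker (hn : 3 ≤ n) (φ ψ : Fin n → K) :
    ∃ x : Fin n → K, x ≠ 0 ∧ φ ⬝ᵥ x = 0 ∧ ψ ⬝ᵥ x = 0 := by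
  let f : (Fin n → K) →ₗ[K] (Fin 2 → K) := (Matrix.of ![φ, ψ]).mulVecLin
  have h : LinearMap.ker f ≠ ⊥ := LinearMap.ker_ne_bot_of_finrank_lt (by simp; omega)
  obtain ⟨x, hx, hx0⟩ := (Submodule.ne_bot_iff _).mp h
  refine ⟨x, hx0, ?_, ?_⟩
  · have := congrFun (LinearMap.mem_ker.mp hx) 0
    simpa [f, Matrix.mulVec] using this
  · have := congrFun (LinearMap.mem_ker.mp hx) 1
    simpa [f, Matrix.mulVec] using this

theorem lift (a b : SLn n K) (h : (QuotientGroup.mk a : PSLn n K) = QuotientGroup.mk b) :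
    ∃ c : K, b.1 = c • a.1 := by
  rw [QuotientGroup.eq] at h
  obtain ⟨r, hr, hs⟩ := Matrix.SpecialLinearGroup.mem_center_iff.mp h
  refine ⟨r, ?_⟩
  have hb : b = a * (a⁻¹ * b) := by group
  have hb' : b.1 = a.1 * (a⁻¹ * b).1 := by
    conv_lhs => rw [hb]
    rfl
  rw [hb', ← hs]
  ext i j
  simp [Matrix.mul_apply, Matrix.scalar_apply, Matrix.diagonal_apply, mul_comm]

/-- the image of `g` is the image of `t` if `g = a t`. -/
theorem mk_eq (g t : SLn n K) (a : K) (h : g.1 = a • t.1) :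
    (QuotientGroup.mk t : PSLn n K) = QuotientGroup.mk g := by
  rw [QuotientGroup.eq]
  have hd : a ^ n = 1 := by
    have h1 := g.2
    rw [h, Matrix.det_smul, t.2, mul_one, Fintype.card_fin] at h1
    exact h1
  refine Matrix.SpecialLinearGroup.mem_center_iff.mpr ⟨a, by rw [Fintype.card_fin]; exact hd, ?_⟩
  let s : SLn n K := ⟨Matrix.scalar (Fin n) a, by simp [hd]⟩
  have hg : g = t * s := by
    apply Subtype.ext
    rw [h]
    change a • t.1 = t.1 * Matrix.scalar (Fin n) a
    ext i j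
    simp [Matrix.mul_apply, Matrix.scalar_apply, Matrix.diagonal_apply, mul_comm]
  have hs : t⁻¹ * g = s := by rw [hg]; group
  rw [hs]

theorem vm_mulVec (u θ x : Fin n → K) : Matrix.vecMulVec u θ *ᵥ x = (θ ⬝ᵥ x) • u := by
  ext i
  simp only [Matrix.mulVec, dotProduct, Matrix.vecMulVec_apply, Pi.smul_apply, smul_eq_mul,
    Finset.sum_mul]
  exact Finset.sum_congr rfl fun j _ => by ring

theorem comm_of (hn : 3 ≤ n) (g : SLn n K) (v φ : Fin n → K) (h : φ ⬝ᵥ v = 0)
    (hc : (QuotientGroup.mk g : PSLn n K) * QuotientGroup.mk (tv v φ h) =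
      QuotientGroup.mk (tv v φ h) * QuotientGroup.mk g) :
    Matrix.vecMulVec v φ * g.1 = g.1 * Matrix.vecMulVec v φ := by
  have h1 : (QuotientGroup.mk (g * tv v φ h) : PSLn n K) = QuotientGroup.mk (tv v φ h * g) := hc
  obtain ⟨r, hr⟩ := lift _ _ h1
  have hr' : (1 + Matrix.vecMulVec v φ) * g.1 = r • (g.1 * (1 + Matrix.vecMulVec v φ)) := hr
  obtain ⟨x, hx0, hx1, hx2⟩ := exists_ker hn φ (φ ᵥ* g.1)
  have hgx : g.1 *ᵥ x ≠ 0 := by
    intro h0
    apply hx0
    have : (g⁻¹).1 *ᵥ (g.1 *ᵥ x) = x := by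
      rw [Matrix.mulVec_mulVec]
      have : (g⁻¹).1 * g.1 = 1 := by
        have := inv_mul_cancel g
        exact congrArg Subtype.val this
      rw [this, Matrix.one_mulVec]
    rw [← this, h0, Matrix.mulVec_zero]
  have h2 := congrArg (fun M : Matrix (Fin n) (Fin n) K => M *ᵥ x) hr'
  simp only [Matrix.smul_mulVec, ← Matrix.mulVec_mulVec, Matrix.add_mulVec, Matrix.one_mulVec,
    vm_mulVec, hx1, zero_smul, add_zero] at h2
  rw [Matrix.dotProduct_mulVec, hx2, zero_smul, add_zero] at h2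
  have hr1 : r = 1 := by
    obtain ⟨i, hi⟩ : ∃ i, (g.1 *ᵥ x) i ≠ 0 := by
      by_contra hcon
      push Not at hcon
      exact hgx (funext hcon)
    have h3 := congrFun h2 i
    simp only [Pi.smul_apply, smul_eq_mul] at h3
    exact mul_right_cancel₀ hi (by rw [← h3, one_mul])
  rw [hr1, one_smul, add_mul, mul_add, one_mul, mul_one] at hr'
  exact add_left_cancel hr'

theorem entries (G : Matrix (Fin n) (Fin n) K) (i j : Fin n)
    (h : Matrix.vecMulVec (Pi.single i (1 : K)) (Pi.single j (1 : K)) * G =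
      G * Matrix.vecMulVec (Pi.single i (1 : K)) (Pi.single j (1 : K))) (k l : Fin n) :
    (if k = i then G j l else 0) = if l = j then G k i else 0 := by
  have h1 := congrFun (congrFun h k) l
  have e1 : (Matrix.vecMulVec (Pi.single i (1 : K)) (Pi.single j (1 : K)) * G) k l =
      if k = i then G j l else 0 := by
    rw [Matrix.mul_apply, Finset.sum_eq_single j]
    · simp only [Matrix.vecMulVec_apply, Pi.single_eq_same, mul_one, Pi.single_apply]
      split_ifs <;> simp
    · intro b _ hb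
      simp [Matrix.vecMulVec_apply, Pi.single_apply, hb]
    · intro hb
      exact absurd (Finset.mem_univ _) hb
  have e2 : (G * Matrix.vecMulVec (Pi.single i (1 : K)) (Pi.single j (1 : K))) k l =
      if l = j then G k i else 0 := by
    rw [Matrix.mul_apply, Finset.sum_eq_single i]
    · simp only [Matrix.vecMulVec_apply, Pi.single_eq_same, one_mul, Pi.single_apply]
      split_ifs <;> simp
    · intro b _ hb
      simp [Matrix.vecMulVec_apply, Pi.single_apply, hb]
    · intro hb
      exact absurd (Finset.mem_univ _) hb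
  rw [e1, e2] at h1
  exact h1

end CNTM

open CNTM in
theorem specCNT : SpecCNT := by
  intro n K _ hn i c
  induction c using QuotientGroup.induction_on with
  | H g =>
  obtain ⟨j₀, hj₀⟩ : ∃ j : Fin n, j ≠ i := by
    haveI : Nontrivial (Fin n) := Fin.nontrivial_iff_two_le.mpr (by omega)
    exact exists_ne i
  have hrow0 : ∀ j : Fin n, g.1 j ≠ 0 := by
    intro j h0
    have h1 := g.2
    rw [Matrix.det_eq_zero_of_row_eq_zero j (fun k => congrFun h0 k)] at h1
    exact zero_ne_one h1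
  have hcol0 : ∀ j : Fin n, ¬ ∀ k, g.1 k j = 0 := by
    intro j h0
    have h1 := g.2
    rw [Matrix.det_eq_zero_of_column_eq_zero j h0] at h1
    exact zero_ne_one h1
  have hcom : ∀ a b : Fin n, (h : a ≠ b) →
      ((QuotientGroup.mk g : PSLn n K) * QuotientGroup.mk
        (tv (Pi.single a (1 : K)) (Pi.single b (1 : K)) (by simp [h])) =
      QuotientGroup.mk (tv (Pi.single a (1 : K)) (Pi.single b (1 : K)) (by simp [h])) *
        QuotientGroup.mk g) → ∀ k l, (if k = a then g.1 b l else 0) =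
          if l = b then g.1 k a else 0 := by
    intro a b h hc
    exact entries g.1 a b (comm_of hn g _ _ _ hc)
  constructor
  · intro hc
    have hE : ∀ j, j ≠ i → ∀ k l, (if k = i then g.1 j l else 0) =
        if l = j then g.1 k i else 0 := by
      intro j hj
      refine hcom i j hj.symm (hc _ ⟨_, _, tv_isTv _ _ _, rfl⟩)
    have hrow : ∀ j, j ≠ i → ∀ l, g.1 j l = if l = j then g.1 i i else 0 := by
      intro j hj l
      have := hE j hj i l
      rw [if_pos rfl] at this
      exact this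
    have ha : g.1 i i ≠ 0 := by
      intro h0
      apply hrow0 j₀
      funext l
      rw [hrow j₀ hj₀ l, h0]
      simp
    set a := g.1 i i with had
    have hχ : (fun l => if l = i then 0 else a⁻¹ * g.1 i l) ⬝ᵥ (Pi.single i (1 : K)) = 0 := by
      rw [dotProduct_single]; simp
    refine ⟨tv _ _ hχ, _, tv_isTv _ _ hχ, mk_eq g _ a ?_⟩
    ext k l
    change g.1 k l = a * ((1 : Matrix (Fin n) (Fin n) K) k l +
      Matrix.vecMulVec (Pi.single i (1 : K)) (fun l => if l = i then 0 else a⁻¹ * g.1 i l) k l)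
    rw [Matrix.vecMulVec_apply]
    by_cases hk : k = i
    · subst hk
      by_cases hl : l = k
      · subst hl
        simp [had]
      · simp only [Pi.single_eq_same, one_mul, if_neg hl, Matrix.one_apply_ne (Ne.symm hl),
          zero_add]
        rw [mul_inv_cancel_left₀ ha]
    · rw [hrow k hk l, Pi.single_eq_of_ne hk, zero_mul, add_zero]
      by_cases hl : l = k
      · subst hl
        simp
      · rw [if_neg hl, Matrix.one_apply_ne (Ne.symm hl), mul_zero]
  · intro hc
    have hE : ∀ j, j ≠ i → ∀ k l, (if k = j then g.1 i l else 0) =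
        if l = i then g.1 k j else 0 := by
      intro j hj
      refine hcom j i hj (hc _ ⟨_, _, tv_isTv _ _ _, rfl⟩)
    have hcol : ∀ j, j ≠ i → ∀ k, g.1 k j = if k = j then g.1 i i else 0 := by
      intro j hj k
      have := hE j hj k i
      rw [if_pos rfl] at this
      exact this.symm
    have ha : g.1 i i ≠ 0 := by
      intro h0
      apply hcol0 j₀
      intro l
      rw [hcol j₀ hj₀ l, h0]
      simp
    set a := g.1 i i with had
    have hχ : (Pi.single i (1 : K)) ⬝ᵥ (fun l => if l = i then 0 else a⁻¹ * g.1 l i) = 0 := by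
      rw [single_dotProduct]; simp
    refine ⟨tv _ _ hχ, _, tv_isTv _ _ hχ, mk_eq g _ a ?_⟩
    ext k l
    change g.1 k l = a * ((1 : Matrix (Fin n) (Fin n) K) k l +
      Matrix.vecMulVec (fun l => if l = i then 0 else a⁻¹ * g.1 l i) (Pi.single i (1 : K)) k l)
    rw [Matrix.vecMulVec_apply]
    by_cases hl : l = i
    · subst hl
      by_cases hk : k = l
      · subst hk
        simp [had]
      · simp only [Pi.single_eq_same, mul_one, if_neg hk, Matrix.one_apply_ne hk, zero_add]
        rw [mul_inv_cancel_left₀ ha]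
    · rw [hcol l hl k, Pi.single_eq_of_ne hl, mul_zero, add_zero]
      by_cases hk : k = l
      · subst hk
        simp
      · rw [if_neg hk, Matrix.one_apply_ne hk, mul_zero]

end Pool.Agent.Lib.MP66ef6b.PL
end

section
set_option autoImplicit false

/-!
# MP_66ef6b_al, THEOREM L: module COM (helper21): the subgroup `T`
-/

namespace Pool.Agent.Lib.MP66ef6b.PL

namespace COMM

/-- Independent functionals are jointly surjective. -/
theorem pi_surj {K V J : Type} [Field K] [AddCommGroup V] [Module K V] [Fintype J]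
    [DecidableEq J] (φ : J → Module.Dual K V) (h : LinearIndependent K φ) :
    Function.Surjective (LinearMap.pi φ : V →ₗ[K] (J → K)) := by
  rw [← LinearMap.range_eq_top]
  by_contra hne
  obtain ⟨ψ, hψ, hker⟩ := Submodule.exists_le_ker_of_lt_top
    (LinearMap.range (LinearMap.pi φ : V →ₗ[K] (J → K))) (lt_top_iff_ne_top.2 hne)
  apply hψ
  have h0 : ∑ j, ψ (Pi.single j 1) • φ j = 0 := by
    ext x
    have h1 : ψ ((LinearMap.pi φ : V →ₗ[K] (J → K)) x) = 0 := hker ⟨x, rfl⟩
    have h2 : (LinearMap.pi φ : V →ₗ[K] (J → K)) x = ∑ j, φ j x • Pi.single j (1 : K) := by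
      ext i
      simp [Finset.sum_apply, Pi.single_apply]
    rw [h2, map_sum] at h1
    simp only [map_smul, smul_eq_mul] at h1
    simp only [LinearMap.coe_sum, Finset.sum_apply, LinearMap.smul_apply, smul_eq_mul,
      LinearMap.zero_apply]
    rw [← h1]
    exact Finset.sum_congr rfl fun j _ => mul_comm _ _
  have h3 := Fintype.linearIndependent_iff.1 h _ h0
  refine LinearMap.pi_ext' fun j => ?_
  ext
  simpa using h3 j

section

variable {K V L : Type} [Field K] [AddCommGroup V] [Module K V] [Field L] [Algebra K L]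

/-- `ι c π`. -/
noncomputable def nn (ι : L →ₗ[K] V) (π : V →ₗ[K] L) (c : L) : V →ₗ[K] V :=
  ι ∘ₗ LinearMap.mulLeft K c ∘ₗ π

theorem nn_apply (ι : L →ₗ[K] V) (π : V →ₗ[K] L) (c : L) (x : V) :
    nn ι π c x = ι (c * π x) := rfl

/-- `1 + ι c π`. -/
noncomputable def tt (ι : L →ₗ[K] V) (π : V →ₗ[K] L) (h : ∀ y, π (ι y) = 0) (c : L) :
    V ≃ₗ[K] V :=
  LinearEquiv.ofLinear (LinearMap.id + nn ι π c) (LinearMap.id + nn ι π (-c))
    (by
      ext x
      simp only [LinearMap.comp_apply, LinearMap.add_apply, LinearMap.id_apply, nn_apply,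
        map_add, h, mul_zero, map_zero, add_zero, neg_mul, map_neg]
      abel)
    (by
      ext x
      simp only [LinearMap.comp_apply, LinearMap.add_apply, LinearMap.id_apply, nn_apply,
        map_add, h, mul_zero, map_zero, add_zero, neg_mul, map_neg]
      abel)

theorem tt_apply (ι : L →ₗ[K] V) (π : V →ₗ[K] L) (h : ∀ y, π (ι y) = 0) (c : L) (x : V) :
    tt ι π h c x = x + ι (c * π x) := rfl

theorem tt_symm_apply (ι : L →ₗ[K] V) (π : V →ₗ[K] L) (h : ∀ y, π (ι y) = 0) (c : L) (x : V) :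
    (tt ι π h c).symm x = x + ι (-c * π x) := rfl

/-- the homomorphism `c ↦ 1 + ι c π`. -/
noncomputable def hom (ι : L →ₗ[K] V) (π : V →ₗ[K] L) (h : ∀ y, π (ι y) = 0) :
    Multiplicative L →* (V ≃ₗ[K] V) where
  toFun c := tt ι π h c.toAdd
  map_one' := by
    ext x
    simp [tt_apply]
  map_mul' a b := by
    ext x
    simp only [toAdd_mul, LinearEquiv.mul_apply, tt_apply, map_add, h, mul_zero, map_zero, add_zero,
      add_mul]
    abel

theorem hom_det [Finite K] (ι : L →ₗ[K] V) (π : V →ₗ[K] L) (h : ∀ y, π (ι y) = 0)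
    (c : Multiplicative L) : LinearEquiv.det (hom ι π h c) = 1 := by
  obtain ⟨p, hp⟩ := CharP.exists K
  haveI : Fact p.Prime := ⟨CharP.char_is_prime K p⟩
  have h1 : c ^ p = 1 := by
    have h2 : p • c.toAdd = 0 := by
      have h3 : ((p : ℕ) : K) = 0 := CharP.cast_eq_zero K p
      have h4 : ((p : ℕ) : L) = 0 := by
        rw [← map_natCast (algebraMap K L) p, h3, map_zero]
      rw [nsmul_eq_mul, h4, zero_mul]
    exact h2
  have h2 : (LinearEquiv.det (hom ι π h c)) ^ p = 1 := by
    rw [← map_pow, ← map_pow, h1, map_one, map_one]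
  have h3 : ((LinearEquiv.det (hom ι π h c) : Kˣ) : K) ^ p = 1 := by
    rw [← Units.val_pow_eq_pow_val, h2, Units.val_one]
  have h4 : (((LinearEquiv.det (hom ι π h c) : Kˣ) : K) - 1) ^ p = 0 := by
    rw [sub_pow_char, h3, one_pow, sub_self]
  have h5 : ((LinearEquiv.det (hom ι π h c) : Kˣ) : K) - 1 = 0 := pow_eq_zero_iff (Nat.Prime.ne_zero Fact.out) |>.1 h4
  exact Units.ext (by rw [Units.val_one]; exact sub_eq_zero.1 h5)

/-- the homomorphism to `SL(V)`. -/
noncomputable def homS [Finite K] (ι : L →ₗ[K] V) (π : V →ₗ[K] L) (h : ∀ y, π (ι y) = 0) :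
    Multiplicative L →* SpecialLinearGroup K V where
  toFun c := ⟨hom ι π h c, hom_det ι π h c⟩
  map_one' := Subtype.ext (map_one (hom ι π h))
  map_mul' a b := Subtype.ext (map_mul (hom ι π h) a b)

theorem homS_apply [Finite K] (ι : L →ₗ[K] V) (π : V →ₗ[K] L) (h : ∀ y, π (ι y) = 0)
    (c : Multiplicative L) (x : V) : (homS ι π h c).1 x = x + ι (c.toAdd * π x) := rfl

theorem homS_inv_apply [Finite K] (ι : L →ₗ[K] V) (π : V →ₗ[K] L) (h : ∀ y, π (ι y) = 0)
    (c : Multiplicative L) (x : V) :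
    ((homS ι π h c)⁻¹ : SpecialLinearGroup K V).1 x = x + ι (-c.toAdd * π x) := rfl

end

end COMM

open COMM

/-- COM -/
theorem specCOM (hVFP : SpecVFP) (hEXT : SpecEXT) : SpecCOM := by
  intro K V _ _ _ _ _ f k hk hrank
  obtain ⟨v, φ, hv, hφ, hz⟩ := hVFP K V f.1 k hrank
  obtain ⟨L, _, _, hLfin, hLk⟩ := hEXT K k hk
  haveI : Finite L := hLfin
  haveI : Module.Finite K L := Module.finite_of_finrank_pos (by omega)
  let b : Module.Basis (Fin k) K L := Module.finBasisOfFinrankEq K L hLk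
  let ι : L →ₗ[K] V := b.constr K v
  let π : V →ₗ[K] L := b.equivFun.symm.toLinearMap ∘ₗ LinearMap.pi φ
  have hιb : ∀ i, ι (b i) = v i := fun i => b.constr_basis K v i
  have hπ : ∀ x, π x = ∑ i, φ i x • b i := by
    intro x
    change b.equivFun.symm (fun i => φ i x) = _
    rw [Module.Basis.equivFun_symm_apply]
  have hιx : ∀ y : L, ι y = ∑ i, b.repr y i • v i := by
    intro y
    conv_lhs => rw [← b.sum_repr y]
    rw [map_sum]
    exact Finset.sum_congr rfl fun i _ => by rw [map_smul, hιb]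
  have z1 : ∀ y, π (ι y) = 0 := by
    intro y
    rw [hπ]
    refine Finset.sum_eq_zero fun i _ => ?_
    rw [hιx, map_sum, Finset.sum_eq_zero, zero_smul]
    intro j _
    rw [map_smul, (hz i j).1, smul_zero]
  have z2 : ∀ y, π (f.1 (ι y)) = 0 := by
    intro y
    rw [hπ]
    refine Finset.sum_eq_zero fun i _ => ?_
    rw [hιx, map_sum, map_sum, Finset.sum_eq_zero, zero_smul]
    intro j _
    rw [map_smul, map_smul, (hz i j).2.1, smul_zero]
  have z3 : ∀ y, π (f.1.symm (ι y)) = 0 := by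
    intro y
    rw [hπ]
    refine Finset.sum_eq_zero fun i _ => ?_
    rw [hιx, map_sum, map_sum, Finset.sum_eq_zero, zero_smul]
    intro j _
    rw [map_smul, map_smul, (hz i j).2.2, smul_zero]
  -- the map J
  let J : L × L →ₗ[K] V := LinearMap.coprod ι (f.1.toLinearMap ∘ₗ ι)
  have hJ : Function.Injective J := by
    have h1 := (b.prod b).injective_constr_of_linearIndependent (R := K) (R₂ := K) hv
    have h2 : (b.prod b).constr K (Sum.elim v (fun i => f.1 (v i))) = J := by
      refine (b.prod b).ext fun i => ?_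
      rw [Module.Basis.constr_basis]
      rcases i with i | i
      · simp [J, hιb]
      · simp [J, hιb]
    rw [← h2]
    exact h1
  -- the map P
  let P : V →ₗ[K] L × L := LinearMap.prod π (π ∘ₗ f.1.symm.toLinearMap)
  have hP : Function.Surjective P := by
    have h1 := pi_surj _ hφ
    have h2 : P = (b.prod b).equivFun.symm.toLinearMap ∘ₗ
        LinearMap.pi (Sum.elim φ (fun i => (φ i).comp f.1.symm.toLinearMap)) := by
      refine LinearMap.ext fun x => ?_
      change (π x, π (f.1.symm x)) = (b.prod b).equivFun.symm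
        (fun i => Sum.elim φ (fun i => (φ i).comp f.1.symm.toLinearMap) i x)
      rw [Module.Basis.equivFun_symm_apply, Fintype.sum_sum_type, hπ, hπ]
      simp only [Sum.elim_inl, Sum.elim_inr, Module.Basis.prod_apply, LinearMap.coe_inl,
        LinearMap.coe_inr, Function.comp_apply, LinearMap.comp_apply, LinearEquiv.coe_coe]
      ext
      · simp [Prod.fst_sum]
      · simp [Prod.snd_sum]
    rw [h2]
    exact (b.prod b).equivFun.symm.surjective.comp h1
  have hιinj : ∀ y : L, ι y = 0 → y = 0 := by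
    intro y hy
    have h1 : J (y, 0) = J 0 := by
      simp [J, hy]
    have h2 := hJ h1
    exact congrArg Prod.fst h2
  have hπsurj : ∀ y : L, ∃ x, π x = y := by
    intro y
    obtain ⟨x, hx⟩ := hP (y, 0)
    exact ⟨x, congrArg Prod.fst hx⟩
  have hinj : Function.Injective (homS ι π z1) := by
    rw [injective_iff_map_eq_one]
    intro c hc
    obtain ⟨x, hx⟩ := hπsurj 1
    have h1 : (homS ι π z1 c).1 x = x := by
      rw [hc]; rfl
    rw [homS_apply, hx, mul_one] at h1
    exact hιinj c.toAdd (by simpa using h1)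
  refine ⟨(homS ι π z1).range, ?_, ?_⟩
  · rw [← Nat.card_congr (MonoidHom.ofInjective hinj).toEquiv, ← hLk,
      ← Module.natCard_eq_pow_finrank]
    rfl
  · rintro t ⟨c, rfl⟩ hc
    have hc0 : c.toAdd ≠ 0 := by
      intro h0
      apply hc
      have : c = 1 := h0
      rw [this, map_one]
    have hN : ∀ x : V, (f * homS ι π z1 c * f⁻¹ * (homS ι π z1 c)⁻¹ :
        SpecialLinearGroup K V).1 x = x + f.1 (ι (c.toAdd * π (f.1.symm x)))
          - ι (c.toAdd * π x) := by
      intro x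
      change f.1 ((homS ι π z1 c).1 (f.1.symm (((homS ι π z1 c)⁻¹ :
        SpecialLinearGroup K V).1 x))) = _
      rw [homS_inv_apply, homS_apply]
      simp only [map_add, z3, mul_zero, map_zero, add_zero, LinearEquiv.apply_symm_apply, neg_mul,
        map_neg]
      abel
    have hNl : ((f * homS ι π z1 c * f⁻¹ * (homS ι π z1 c)⁻¹ :
        SpecialLinearGroup K V).1.toLinearMap - LinearMap.id) =
        J ∘ₗ (LinearMap.prodMap (LinearMap.mulLeft K (-c.toAdd)) (LinearMap.mulLeft K c.toAdd)) ∘ₗ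
          P := by
      refine LinearMap.ext fun x => ?_
      rw [LinearMap.sub_apply]
      change (f * homS ι π z1 c * f⁻¹ * (homS ι π z1 c)⁻¹ :
        SpecialLinearGroup K V).1 x - x = ι (-c.toAdd * π x) +
          f.1 (ι (c.toAdd * π (f.1.symm x)))
      rw [hN, neg_mul, map_neg]
      abel
    have hd : Function.Bijective (LinearMap.prodMap (LinearMap.mulLeft K (-c.toAdd))
        (LinearMap.mulLeft K c.toAdd) : L × L →ₗ[K] L × L) := by
      constructor
      · rintro ⟨x, y⟩ ⟨x', y'⟩ h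
        have h1 : -c.toAdd * x = -c.toAdd * x' := congrArg Prod.fst h
        have h2 : c.toAdd * y = c.toAdd * y' := congrArg Prod.snd h
        rw [mul_left_cancel₀ (neg_ne_zero.2 hc0) h1, mul_left_cancel₀ hc0 h2]
      · rintro ⟨x, y⟩
        refine ⟨((-c.toAdd)⁻¹ * x, c.toAdd⁻¹ * y), ?_⟩
        change (-c.toAdd * ((-c.toAdd)⁻¹ * x), c.toAdd * (c.toAdd⁻¹ * y)) = (x, y)
        rw [mul_inv_cancel_left₀ (neg_ne_zero.2 hc0), mul_inv_cancel_left₀ hc0]
    have hPJ : ∀ y : L × L, P (J y) = 0 := by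
      rintro ⟨x, y⟩
      change (π (ι x + f.1 (ι y)), π (f.1.symm (ι x + f.1 (ι y)))) = 0
      rw [map_add, map_add, map_add, z1, z2, z3, LinearEquiv.symm_apply_apply, z1]
      simp
    rw [hNl]
    constructor
    · refine LinearMap.ext fun x => ?_
      simp only [LinearMap.comp_apply, hPJ, map_zero, LinearMap.zero_apply]
    · have hs : Function.Surjective ((LinearMap.prodMap (LinearMap.mulLeft K (-c.toAdd))
          (LinearMap.mulLeft K c.toAdd) : L × L →ₗ[K] L × L) ∘ₗ P) := hd.2.comp hP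
      rw [LinearMap.range_comp, LinearMap.range_eq_top.2 hs, ← LinearMap.range_eq_map,
        LinearMap.finrank_range_of_inj hJ, Module.finrank_prod, hLk]
      ring

end Pool.Agent.Lib.MP66ef6b.PL
end

section
/-!
# MP_66ef6b_al, PL: module EXT (helper89)
-/
set_option autoImplicit false

namespace Pool.Agent.Lib.MP66ef6b.PL

theorem specEXT : SpecEXT := by
  intro K _ _ k hk
  obtain ⟨p, hp⟩ := CharP.exists K
  have hpp : p.Prime := CharP.char_prime_of_ne_zero K (by
    intro h0
    subst h0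
    haveI : CharZero K := CharP.charP_to_charZero K
    exact not_finite K)
  haveI : Fact p.Prime := ⟨hpp⟩
  haveI : NeZero k := ⟨by omega⟩
  exact ⟨FiniteField.Extension K p k, inferInstance, inferInstance, inferInstance,
    FiniteField.finrank_extension K p k⟩

end Pool.Agent.Lib.MP66ef6b.PL
end

section
set_option autoImplicit false

/-!
# MP_66ef6b_al, PL, module GDD: generation by two parabolic subgroups
-/

namespace Pool.Agent.Lib.MP66ef6b.PL

namespace GDDM

open Matrix

variable {n : ℕ} {K : Type} [Field K]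

theorem comm_tv {i j m : Fin n} (hji : j ≠ i) (hjm : j ≠ m) (hmi : m ≠ i) (a : K) :
    SpecialLinearGroup.transvection hjm a * SpecialLinearGroup.transvection hmi (1 : K) =
      SpecialLinearGroup.transvection hji a * (SpecialLinearGroup.transvection hmi (1 : K) *
        SpecialLinearGroup.transvection hjm a) := by
  apply Subtype.ext
  simp only [Matrix.SpecialLinearGroup.coe_mul, Matrix.SpecialLinearGroup.transvection_coe,
    mul_add, add_mul, one_mul, mul_one]
  simp only [Matrix.single_mul_single_same, Matrix.single_mul_single_of_ne _ _ _ _ hji.symm,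
    Matrix.single_mul_single_of_ne _ _ _ _ hmi.symm, mul_zero, add_zero, mul_one]
  abel

end GDDM

open Matrix GDDM in
theorem specGDD : SpecGDD := by
  intro n K _ hn i j hij H h1 h2
  have hnt : Nontrivial (Fin n) := ⟨i, j, hij⟩
  rw [eq_top_iff]
  intro x _
  obtain ⟨g, rfl⟩ := QuotientGroup.mk_surjective x
  have hT : ∀ (k l : Fin n) (hkl : k ≠ l) (a : K), l ≠ i ∨ k ≠ j →
      (QuotientGroup.mk (SpecialLinearGroup.transvection hkl a) : PSLn n K) ∈ H := by
    intro k l hkl a hor
    rcases hor with hl | hk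
    · refine h1 _ 1 fun r => ?_
      rw [Matrix.SpecialLinearGroup.transvection_coe, Matrix.add_apply, Matrix.one_apply,
        Matrix.single_apply]
      simp [hl]
    · refine h2 _ 1 fun r => ?_
      rw [Matrix.SpecialLinearGroup.transvection_coe, Matrix.add_apply, Matrix.one_apply,
        Matrix.single_apply]
      simp [hk, eq_comm]
  refine SpecialLinearGroup.diagonal_transvection_induction'
    (fun g => (QuotientGroup.mk g : PSLn n K) ∈ H) g ?_ ?_ ?_
  · intro k l hkl c hc
    refine h1 _ ((SpecialLinearGroup.diag2n hkl c hc).1 i i) fun r => ?_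
    rcases eq_or_ne r i with rfl | hr
    · simp
    · rw [if_neg hr, Matrix.SpecialLinearGroup.diag2n_coe, Matrix.diagonal_apply_ne _ hr]
  · intro k l hkl a
    by_cases hor : l ≠ i ∨ k ≠ j
    · exact hT k l hkl a hor
    · push Not at hor
      obtain ⟨rfl, rfl⟩ := hor
      obtain ⟨m, hm⟩ : ∃ m : Fin n, m ≠ l ∧ m ≠ k := by
        have hc : ({l, k} : Finset (Fin n)).card < Fintype.card (Fin n) := by
          rw [Fintype.card_fin]
          exact lt_of_le_of_lt Finset.card_le_two (by omega)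
        obtain ⟨m, hm⟩ : ∃ m, m ∉ ({l, k} : Finset (Fin n)) := by
          by_contra hcon
          push Not at hcon
          rw [Finset.eq_univ_of_forall hcon, Finset.card_univ] at hc
          omega
        simp only [Finset.mem_insert, Finset.mem_singleton, not_or] at hm
        exact ⟨m, hm.1, hm.2⟩
      have e := comm_tv hkl (Ne.symm hm.2) hm.1 a
      have ha := hT k m (Ne.symm hm.2) a (Or.inl hm.1)
      have hb := hT m l hm.1 (1 : K) (Or.inr hm.2)
      have e2 := congrArg (QuotientGroup.mk : SLn n K → PSLn n K) e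
      have hab : (QuotientGroup.mk (SpecialLinearGroup.transvection (Ne.symm hm.2) a *
          SpecialLinearGroup.transvection hm.1 (1 : K)) : PSLn n K) ∈ H := H.mul_mem ha hb
      rw [e2] at hab
      exact (H.mul_mem_cancel_right (H.mul_mem hb ha)).1 hab
  · intro A B hA hB
    exact H.mul_mem hA hB

end Pool.Agent.Lib.MP66ef6b.PL
end

section
set_option autoImplicit false

/-!
# MP_66ef6b_al, THEOREM L, module GEN: generation of transvections
-/

namespace Pool.Agent.Lib.MP66ef6b.PL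

namespace GENM

variable {K V : Type} [Field K] [AddCommGroup V] [Module K V]

theorem mul_ap (g h : SpecialLinearGroup K V) (z : V) : (g * h).1 z = g.1 (h.1 z) := rfl

theorem one_ap (z : V) : (1 : SpecialLinearGroup K V).1 z = z := rfl

theorem ap_ext {g h : SpecialLinearGroup K V} (H : ∀ z, g.1 z = h.1 z) : g = h :=
  SpecialLinearGroup.ext g h H

/-- TVE in a convenient form -/
theorem tv (hTVE : SpecTVE) [Module.Finite K V] (v : V) (φ : Module.Dual K V) (h : φ v = 0) :
    ∃ g : SpecialLinearGroup K V, ∀ x : V, g.1 x = x + φ x • v :=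
  hTVE K V v φ h

end GENM

open GENM

theorem specGEN (hTVE : SpecTVE) : SpecGEN := by
  intro K V _ _ _ _ W W'' x xs hW hW'' hx S hS1 hS2 g hg
  obtain ⟨u, hu, ψ, hψu, hψW, hg⟩ := hg
  obtain ⟨w, hw, y, hy, rfl⟩ := Submodule.mem_sup.1 hu
  obtain ⟨α, rfl⟩ := Submodule.mem_span_singleton.1 hy
  have hxw : xs w = 0 := hW w hw
  replace hg : ∀ z : V, g.1 z = z + ψ z • (w + α • x) := hg
  rcases eq_or_ne α 0 with rfl | hα
  · simp only [zero_smul, add_zero] at hψu hg
    -- `φ`
    set φ : Module.Dual K V := ψ - ψ x • xs with hφ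
    have hφx : φ x = 0 := by simp [hφ, hx]
    have hφw : φ w = 0 := by simp [hφ, hxw, hψu]
    have hφW : ∀ w ∈ W'', φ w = 0 := fun v hv => by simp [hφ, hW'' v hv, hψW v hv]
    obtain ⟨A, hA⟩ := tv hTVE w φ hφw
    obtain ⟨B, hB⟩ := tv hTVE (ψ x • w) xs (by simp [hxw])
    obtain ⟨θ, hθ⟩ := tv hTVE w xs hxw
    obtain ⟨η, hη⟩ := tv hTVE x φ hφx
    have hBS : B ∈ S := hS1 B ⟨ψ x • w, W.smul_mem _ hw, hB⟩
    have hθS : θ ∈ S := hS1 θ ⟨w, hw, hθ⟩
    have hηS : η ∈ S := hS2 η ⟨φ, hφx, hφW, hη⟩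
    have hgAB : g = A * B := by
      refine ap_ext fun z => ?_
      have hφz : φ z = ψ z - ψ x * xs z := by simp [hφ]
      have h0 : φ (xs z • ψ x • w) = 0 := by
        rw [map_smul, map_smul, hφw, smul_zero, smul_zero]
      rw [mul_ap, hA, hB, hg, map_add, h0, add_zero, hφz, sub_smul, smul_smul,
        mul_comm (ψ x) (xs z)]
      abel
    have hAθ : A * (η * θ) = θ * η := by
      refine ap_ext fun z => ?_
      rw [mul_ap, mul_ap, mul_ap, hA, hη, hθ, hθ, hη]
      simp only [map_add, map_smul, smul_eq_mul, hφw, hφx, hx, mul_zero, mul_one, add_zero,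
        add_smul]
      abel
    have hAS : A ∈ S := by
      have h1 : A = θ * η * (η * θ)⁻¹ := eq_mul_inv_of_mul_eq hAθ
      rw [h1]
      exact S.mul_mem (S.mul_mem hθS hηS) (S.inv_mem (S.mul_mem hηS hθS))
    rw [hgAB]
    exact S.mul_mem hAS hBS
  · obtain ⟨h, hh⟩ := tv hTVE (-(α⁻¹ • w)) xs (by simp [hxw])
    obtain ⟨h', hh'⟩ := tv hTVE (α⁻¹ • w) xs (by simp [hxw])
    have hhS : h ∈ S := hS1 h ⟨-(α⁻¹ • w), W.neg_mem (W.smul_mem _ hw), hh⟩
    have hhS' : h' ∈ S := hS1 h' ⟨α⁻¹ • w, W.smul_mem _ hw, hh'⟩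
    have hinv : h * h' = 1 := by
      refine ap_ext fun z => ?_
      rw [mul_ap, one_ap, hh, hh']
      simp only [map_add, map_smul, smul_eq_mul, hxw, mul_zero, add_zero, smul_neg]
      abel
    have hinv' : h' * h = 1 := by
      rw [← inv_eq_iff_mul_eq_one.2 hinv, mul_eq_one_iff_eq_inv.1 hinv]
      simp
    have hhu : h.1 (w + α • x) = α • x := by
      rw [hh]
      simp only [map_add, map_smul, smul_eq_mul, hxw, hx, mul_one, zero_add, smul_neg, smul_smul,
        mul_inv_cancel₀ hα, one_smul]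
      abel
    set φ : Module.Dual K V := α • ψ + ψ w • xs with hφ
    have hφx : φ x = 0 := by
      have h1 : ψ w + α * ψ x = 0 := by simpa using hψu
      simp only [hφ, LinearMap.add_apply, LinearMap.smul_apply, smul_eq_mul, hx, mul_one]
      rw [add_comm]
      exact h1
    have hφW : ∀ w ∈ W'', φ w = 0 := fun v hv => by simp [hφ, hW'' v hv, hψW v hv]
    have hc : h * g * h' ∈ S := by
      refine hS2 _ ⟨φ, hφx, hφW, fun z => ?_⟩
      change (h * g * h').1 z = z + φ z • x
      rw [mul_ap, mul_ap, hg, map_add, map_smul, hhu]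
      have h1 : h.1 (h'.1 z) = z := by rw [← mul_ap, hinv, one_ap]
      rw [h1, hh']
      simp only [map_add, map_smul, smul_eq_mul, hφ, LinearMap.add_apply, LinearMap.smul_apply,
        smul_smul]
      congr 2
      field_simp
    have h2 : g = h' * (h * g * h') * h := by
      calc g = (h' * h) * g * (h' * h) := by rw [hinv', one_mul, mul_one]
        _ = h' * (h * g * h') * h := by group
    rw [h2]
    exact S.mul_mem (S.mul_mem hhS' hc) hhS

end Pool.Agent.Lib.MP66ef6b.PL
end

section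
set_option autoImplicit false

/-!
# MP_66ef6b_al, THEOREM L: GRS (helper2). The greedy step.
-/

namespace Pool.Agent.Lib.MP66ef6b.PL

namespace GRSM

variable {K V : Type} [Field K] [AddCommGroup V] [Module K V]

lemma mem_sup_span {U : Submodule K V} {x v : V} (h : x ∈ U ⊔ Submodule.span K {v}) :
    ∃ c : K, x - c • v ∈ U := by
  rw [Submodule.mem_sup] at h
  obtain ⟨u, hu, z, hz, rfl⟩ := h
  rw [Submodule.mem_span_singleton] at hz
  obtain ⟨c, rfl⟩ := hz
  exact ⟨c, by simpa using hu⟩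

lemma mem_sup_span' {U : Submodule K V} {x v : V} (c : K) (h : x - c • v ∈ U) :
    x ∈ U ⊔ Submodule.span K {v} := by
  have : x = (x - c • v) + c • v := by module
  rw [this]
  exact Submodule.add_mem_sup h (Submodule.smul_mem _ _ (Submodule.mem_span_singleton_self v))

/-- one factor. -/
lemma factor (g : V →ₗ[K] V) (U B : Submodule K V)
    (hno : ∀ v ∈ B, v ∉ U → g v ∈ U ⊔ Submodule.span K {v}) (v₁ : V) (hv1 : v₁ ∈ B) (hv1U : v₁ ∉ U)
    (c : K) (hc : g v₁ - c • v₁ ∈ U) (w : V) (hw : w ∈ B) (hwU : w ∉ U ⊔ Submodule.span K {v₁}) :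
    g w - c • w ∈ U := by
  have hw' : w ∉ U := fun h => hwU (Submodule.mem_sup_left h)
  obtain ⟨c2, hc2⟩ := mem_sup_span (hno w hw hw')
  have hs : v₁ + w ∉ U := by
    intro h
    apply hwU
    apply mem_sup_span' (-1)
    have : w - (-1 : K) • v₁ = v₁ + w := by module
    rw [this]; exact h
  obtain ⟨c3, hc3⟩ := mem_sup_span (hno (v₁ + w) (B.add_mem hv1 hw) hs)
  have hcomb : (c - c3) • v₁ + (c2 - c3) • w ∈ U := by
    have e : (c - c3) • v₁ + (c2 - c3) • w =
        (g (v₁ + w) - c3 • (v₁ + w)) - (g v₁ - c • v₁) - (g w - c2 • w) := by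
      rw [map_add]; module
    rw [e]
    exact U.sub_mem (U.sub_mem hc3 hc) hc2
  have h23 : c2 = c3 := by
    by_contra hne
    have hne' : c2 - c3 ≠ 0 := sub_ne_zero.mpr hne
    apply hwU
    apply mem_sup_span' (-((c2 - c3)⁻¹ * (c - c3)))
    have e : w - (-((c2 - c3)⁻¹ * (c - c3))) • v₁ =
        (c2 - c3)⁻¹ • ((c - c3) • v₁ + (c2 - c3) • w) := by
      rw [smul_add, smul_smul, smul_smul, inv_mul_cancel₀ hne']
      module
    rw [e]
    exact U.smul_mem _ hcomb
  have h13 : c = c3 := by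
    by_contra hne
    have hne' : c - c3 ≠ 0 := sub_ne_zero.mpr hne
    apply hv1U
    rw [h23, sub_self, zero_smul, add_zero] at hcomb
    have := U.smul_mem (c - c3)⁻¹ hcomb
    rwa [smul_smul, inv_mul_cancel₀ hne', one_smul] at this
  rw [h13, ← h23]
  exact hc2

end GRSM

open GRSM in
theorem specGRS : SpecGRS := by
  intro K V _ _ _ _ g U B hrank
  by_contra hcon
  have hno : ∀ v ∈ B, v ∉ U → g v ∈ U ⊔ Submodule.span K {v} := by
    intro v hv hvU
    by_contra h
    exact hcon ⟨v, hv, hvU, h⟩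
  have h0 := hrank 0
  have hle : Module.finrank K (LinearMap.range (g - (0 : K) • LinearMap.id)) ≤ Module.finrank K V :=
    Submodule.finrank_le _
  have hBU : 1 + Module.finrank K U < Module.finrank K B := by omega
  have ex1 : ∃ v ∈ B, v ∉ U := by
    by_contra h
    have hle : B ≤ U := by
      intro v hv
      by_contra h'
      exact h ⟨v, hv, h'⟩
    have := Submodule.finrank_mono hle
    omega
  obtain ⟨v₁, hv1, hv1U⟩ := ex1
  obtain ⟨c, hc⟩ := mem_sup_span (hno v₁ hv1 hv1U)
  have ex2 : ∃ v ∈ B, v ∉ U ⊔ Submodule.span K {v₁} := by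
    by_contra h
    have hle : B ≤ U ⊔ Submodule.span K {v₁} := by
      intro v hv
      by_contra h'
      exact h ⟨v, hv, h'⟩
    have h1 := Submodule.finrank_mono hle
    have h2 := Submodule.finrank_add_le_finrank_add_finrank U (Submodule.span K {v₁})
    have h3 : Module.finrank K (Submodule.span K {v₁}) ≤ 1 := by
      have := finrank_span_le_card (R := K) ({v₁} : Set V)
      simpa using this
    omega
  obtain ⟨v₂, hv2, hv2U⟩ := ex2
  have key := factor g U B hno v₁ hv1 hv1U c hc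
  have hall : ∀ v ∈ B, g v - c • v ∈ U := by
    intro v hv
    by_cases hvm : v ∈ U ⊔ Submodule.span K {v₁}
    · have hs : v + v₂ ∉ U ⊔ Submodule.span K {v₁} := by
        intro h
        apply hv2U
        have := Submodule.sub_mem _ h hvm
        simpa using this
      have h1 := key (v + v₂) (B.add_mem hv hv2) hs
      have h2 := key v₂ hv2 hv2U
      have e : g v - c • v = (g (v + v₂) - c • (v + v₂)) - (g v₂ - c • v₂) := by
        rw [map_add]; module
      rw [e]
      exact U.sub_mem h1 h2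
    · exact key v hv hvm
  -- the rank of `g - c`
  obtain ⟨B', hB'⟩ := Submodule.exists_isCompl B
  have hfin : Module.finrank K B + Module.finrank K B' = Module.finrank K V :=
    Submodule.finrank_add_eq_of_isCompl hB'
  have hrange : LinearMap.range (g - c • LinearMap.id) ≤
      U ⊔ B'.map (g - c • LinearMap.id) := by
    rintro _ ⟨x, rfl⟩
    have hx : x ∈ B ⊔ B' := by rw [hB'.sup_eq_top]; trivial
    rw [Submodule.mem_sup] at hx
    obtain ⟨y, hy, z, hz, rfl⟩ := hx
    rw [map_add]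
    refine Submodule.add_mem_sup ?_ (Submodule.mem_map_of_mem hz)
    exact hall y hy
  have h1 := Submodule.finrank_mono hrange
  have h2 := Submodule.finrank_add_le_finrank_add_finrank U (B'.map (g - c • LinearMap.id))
  have h3 : Module.finrank K (B'.map (g - c • LinearMap.id)) ≤ Module.finrank K B' :=
    Submodule.finrank_map_le _ _
  have h4 := hrank c
  omega

end Pool.Agent.Lib.MP66ef6b.PL
end

section
set_option autoImplicit false

/-!
# MP_66ef6b_al, THEOREM L, module GRV (helper50): the greedy lemma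
-/

namespace Pool.Agent.Lib.MP66ef6b.PL

namespace GRVM

variable {K V : Type} [Field K] [AddCommGroup V] [Module K V] [Module.Finite K V]

lemma succ_lt {A : Submodule K V} {x : V} (hx : x ∉ A) :
    Module.finrank K A + 1 ≤ Module.finrank K (A ⊔ Submodule.span K {x} : Submodule K V) := by
  have h1 : A < A ⊔ Submodule.span K {x} := by
    refine lt_of_le_of_ne le_sup_left fun h => hx ?_
    rw [h]
    exact (le_sup_right : Submodule.span K {x} ≤ _) (Submodule.mem_span_singleton_self x)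
  exact Submodule.finrank_lt_finrank_of_lt h1

end GRVM

open GRVM in
theorem specGRV (hGRS : SpecGRS) : SpecGRV := by
  intro K V _ _ _ _ g B k
  induction k with
  | zero =>
    intro _
    exact ⟨fun i => i.elim0, fun i => i.elim0, linearIndependent_empty_type⟩
  | succ k ih =>
    intro h
    obtain ⟨v, hv, hind⟩ := ih fun a => by have := h a; omega
    set U : Submodule K V :=
      Submodule.span K (Set.range (Sum.elim v (fun i => g (v i)))) with hU
    have hUr : Module.finrank K U = 2 * k := by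
      rw [hU, finrank_span_eq_card hind]
      simp [two_mul]
    obtain ⟨x, hxB, hxU, hgx⟩ := hGRS K V g U B fun a => by have := h a; omega
    refine ⟨Fin.snoc v x, ?_, ?_⟩
    · intro i
      refine Fin.lastCases ?_ (fun i => ?_) i
      · simpa using hxB
      · simpa using hv i
    · rw [linearIndependent_iff_card_le_finrank_span]
      set w : Fin (k + 1) → V := Fin.snoc v x with hw
      have hwc : ∀ i : Fin k, w i.castSucc = v i := fun i => by rw [hw]; simp
      have hwl : w (Fin.last k) = x := by rw [hw]; simp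
      have h1 : U ⊔ Submodule.span K {x} ⊔ Submodule.span K {g x} ≤
          Submodule.span K (Set.range (Sum.elim w (fun i => g (w i)))) := by
        refine sup_le (sup_le ?_ ?_) ?_
        · rw [hU, Submodule.span_le]
          rintro _ ⟨i | i, rfl⟩
          · exact Submodule.subset_span ⟨Sum.inl i.castSucc, hwc i⟩
          · refine Submodule.subset_span ⟨Sum.inr i.castSucc, ?_⟩
            change g (w i.castSucc) = g (v i)
            rw [hwc]
        · rw [Submodule.span_le, Set.singleton_subset_iff]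
          exact Submodule.subset_span ⟨Sum.inl (Fin.last k), hwl⟩
        · rw [Submodule.span_le, Set.singleton_subset_iff]
          refine Submodule.subset_span ⟨Sum.inr (Fin.last k), ?_⟩
          change g (w (Fin.last k)) = g x
          rw [hwl]
      have h2 := Submodule.finrank_mono h1
      have h3 := succ_lt hxU
      have h4 := succ_lt hgx
      have h5 : Fintype.card (Fin (k + 1) ⊕ Fin (k + 1)) = 2 * (k + 1) := by
        simp [two_mul]
      rw [h5]
      unfold Set.finrank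
      omega

end Pool.Agent.Lib.MP66ef6b.PL
end

section
set_option autoImplicit false

/-!
# MP_66ef6b_al, PL, module IDX: `SL_2(L)` has no proper subgroups of small index
-/

namespace Pool.Agent.Lib.MP66ef6b.PL

namespace IDXM

open Matrix

theorem normalCore_index_le {G : Type} [Group G] [Finite G] (H : Subgroup G) :
    H.normalCore.index ≤ H.index.factorial := by
  have h : H.normalCore.index ∣ H.index.factorial := by
    rw [Subgroup.normalCore_eq_ker, Subgroup.index_ker, Subgroup.index_eq_card, ← Nat.card_perm]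
    exact Subgroup.card_subgroup_dvd_card (MulAction.toPermHom G (G ⧸ H)).range
  exact Nat.le_of_dvd (Nat.factorial_pos _) h

theorem exists_sq (F : Type) [Field F] [Finite F] (hF : 4 ≤ Nat.card F) :
    ∃ a : F, a ≠ 0 ∧ a ^ 2 ≠ 1 := by
  obtain ⟨x, hx⟩ : IsCyclic Fˣ := by infer_instance
  refine ⟨x, Units.ne_zero x, fun h ↦ ?_⟩
  grw [Nat.card_eq_card_units_add_one F, ← orderOf_eq_card_of_forall_mem_zpowers hx,
    orderOf_le_of_pow_eq_one zero_lt_two (Units.ext <| by simpa using h)] at hF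
  omega

theorem card_le_index_center (L : Type) [Field L] [Finite L] :
    Nat.card L ≤ (Subgroup.center (SLn 2 L)).index := by
  rw [Subgroup.index_eq_card]
  have h01 : (0 : Fin 2) ≠ 1 := by decide
  refine Nat.card_le_card_of_injective
    (fun a : L => (QuotientGroup.mk (SpecialLinearGroup.transvection h01 a) :
      SLn 2 L ⧸ Subgroup.center (SLn 2 L))) ?_
  intro a b hab
  have h1 := QuotientGroup.eq.1 hab
  rw [SpecialLinearGroup.transvection_inv, ← SpecialLinearGroup.transvection_add,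
    SpecialLinearGroup.transvection_mem_center_iff] at h1
  linear_combination -h1

end IDXM

open IDXM in
theorem specIDX : SpecIDX := by
  intro m
  refine ⟨m.factorial + 4, fun L _ _ hL H hH => ?_⟩
  by_contra hm
  push Not at hm
  have h4 : 4 ≤ Nat.card L := by omega
  have hsimple : IsSimpleGroup (PSLn 2 L) :=
    Matrix.ProjectiveSpecialLinearGroup.rank_two_simple h4
  have hidx : H.normalCore.index ≤ m.factorial :=
    (normalCore_index_le H).trans (Nat.factorial_le hm)
  have hN : H.normalCore.Normal := H.normalCore_normal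
  let π : SLn 2 L →* PSLn 2 L := QuotientGroup.mk' (Subgroup.center (SLn 2 L))
  have hmap : (H.normalCore.map π).Normal :=
    hN.map π (QuotientGroup.mk'_surjective _)
  rcases hmap.eq_bot_or_eq_top with h | h
  · rw [Subgroup.map_eq_bot_iff, QuotientGroup.ker_mk'] at h
    have h1 : (Subgroup.center (SLn 2 L)).index ≤ H.normalCore.index :=
      Nat.le_of_dvd (Nat.pos_of_ne_zero Subgroup.index_ne_zero_of_finite)
        (Subgroup.index_dvd_of_le h)
    have h2 := card_le_index_center L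
    omega
  · have hsup : H.normalCore ⊔ Subgroup.center (SLn 2 L) = ⊤ := by
      have h1 : (H.normalCore.map π).comap π = ⊤ := by rw [h]; rfl
      rwa [Subgroup.comap_map_eq, QuotientGroup.ker_mk'] at h1
    have hcom := hN.commutator_le_of_self_sup_commutative_eq_top hsup inferInstance
    obtain ⟨a, ha, ha2⟩ := exists_sq L h4
    have hperf : commutator (SLn 2 L) = ⊤ := Matrix.SL2.commutator_eq_top ha ha2
    rw [hperf] at hcom
    exact hH (top_le_iff.1 (hcom.trans H.normalCore_le))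

end Pool.Agent.Lib.MP66ef6b.PL
end

section
set_option autoImplicit false

/-!
# MP_66ef6b_al, THEOREM L, module IRB (helper51): the block group acts irreducibly
-/

namespace Pool.Agent.Lib.MP66ef6b.PL

namespace IRBM

section core

variable {L M : Type} [Field L] [AddCommGroup M]

/-- The common core of `gen` and `dual`. -/
theorem core (s : L → M → M) (s0 : ∀ x, s 0 x = 0) (s1 : ∀ x, s 1 x = x) (sz : ∀ a, s a 0 = 0)
    (sa : ∀ a x, s (1 + a) x = x + s a x) (h : ∀ x : M, x ≠ 0 → ∀ z, ∃ a : L, s a x = z)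
    (B : AddSubgroup (M × M)) (x y : M) (hne : ¬ (x = 0 ∧ y = 0))
    (hB : ∀ a b c d : L, a * d - b * c = 1 → (s a x + s b y - x, s c x + s d y - y) ∈ B) :
    ∀ z w, (z, w) ∈ B := by
  have hU : ∀ a, (s a y, (0 : M)) ∈ B := by
    intro a
    have h1 := hB 1 a 0 1 (by ring)
    rw [s1 x, s1 y, s0 x] at h1
    have e : (x + s a y - x, 0 + y - y) = (s a y, (0 : M)) := by
      ext <;> simp
    rwa [e] at h1
  have hL : ∀ a, ((0 : M), s a x) ∈ B := by
    intro a
    have h1 := hB 1 0 a 1 (by ring)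
    rw [s1 x, s1 y, s0 y] at h1
    have e : (x + 0 - x, s a x + y - y) = ((0 : M), s a x) := by
      ext <;> simp
    rwa [e] at h1
  have key : (∀ z, (z, (0 : M)) ∈ B) ∧ (∀ w, ((0 : M), w) ∈ B) := by
    by_cases hy : y = 0
    · have hx : x ≠ 0 := fun hx => hne ⟨hx, hy⟩
      have hB0 : ∀ w, ((0 : M), w) ∈ B := by
        intro w
        obtain ⟨a, ha⟩ := h x hx w
        have := hL a
        rwa [ha] at this
      refine ⟨?_, hB0⟩
      intro z
      obtain ⟨a, ha⟩ := h x hx z
      have h1 := hB (1 + a) a 1 1 (by ring)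
      rw [sa, s1 x, s1 y, hy, sz, ha] at h1
      have h2 := B.sub_mem h1 (hB0 x)
      have e : (x + z + 0 - x, x + 0 - 0) - ((0 : M), x) = (z, (0 : M)) := by
        ext <;> simp
      rwa [e] at h2
    · have hA0 : ∀ z, (z, (0 : M)) ∈ B := by
        intro z
        obtain ⟨a, ha⟩ := h y hy z
        have := hU a
        rwa [ha] at this
      refine ⟨hA0, ?_⟩
      intro w
      by_cases hx : x = 0
      · obtain ⟨a, ha⟩ := h y hy w
        have h1 := hB 1 1 a (1 + a) (by ring)
        rw [sa, s1 x, s1 y, hx, sz, ha] at h1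
        have h2 := B.sub_mem h1 (hA0 y)
        have e : (0 + y - 0, 0 + (y + w) - y) - (y, (0 : M)) = ((0 : M), w) := by
          ext <;> simp
        rwa [e] at h2
      · obtain ⟨a, ha⟩ := h x hx w
        have := hL a
        rwa [ha] at this
  intro z w
  have h1 := B.add_mem (key.1 z) (key.2 w)
  simpa using h1

end core

section dualsurj

variable {K L : Type} [Field K] [Field L] [Finite L] [Algebra K L]

theorem dual_surj (α : Module.Dual K L) (hα : α ≠ 0) (ζ : Module.Dual K L) :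
    ∃ a : L, α.comp (LinearMap.mulLeft K a) = ζ := by
  have : Module.Finite K L := Module.Finite.of_finite
  let T : L →ₗ[K] Module.Dual K L := (LinearMap.mul K L).compr₂ α
  have hT : ∀ a, T a = α.comp (LinearMap.mulLeft K a) := by
    intro a
    ext x
    simp [T]
  have hinj : Function.Injective T := by
    rw [← LinearMap.ker_eq_bot, LinearMap.ker_eq_bot']
    intro a ha
    by_contra hne
    apply hα
    ext x
    have h1 : T a (a⁻¹ * x) = 0 := by rw [ha]; rfl
    rw [hT] at h1
    simpa [mul_inv_cancel_left₀ hne] using h1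
  have hsurj : Function.Surjective T :=
    (LinearMap.injective_iff_surjective_of_finrank_eq_finrank
      (Subspace.dual_finrank_eq (K := K) (V := L)).symm).1 hinj
  obtain ⟨a, ha⟩ := hsurj ζ
  exact ⟨a, by rw [← hT, ha]⟩

end dualsurj

end IRBM

/-- IRB. -/
theorem specIRB : SpecIRB := by
  intro K V L D _ _ _ _ _ _ _ _ _ Ψ β hβ
  have hW : ∀ v : V, v ∈ LinearMap.ker ((LinearMap.snd K (L × L) D).comp Ψ.toLinearMap) ↔
      (Ψ v).2 = 0 := by
    intro v
    simp [LinearMap.mem_ker]
  have hW' : ∀ v : V, v ∈ LinearMap.ker ((LinearMap.fst K (L × L) D).comp Ψ.toLinearMap) ↔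
      (Ψ v).1 = 0 := by
    intro v
    simp [LinearMap.mem_ker]
  refine ⟨?_, ?_, ?_, ?_⟩
  · rintro m ⟨g, rfl⟩ w hw
    rw [hW] at hw ⊢
    rw [hβ]
    exact hw
  · rintro m ⟨g, rfl⟩ w hw
    rw [hW'] at hw
    apply Ψ.injective
    rw [hβ, hw]
    ext
    · simp [hw]
    · simp [hw]
    · rfl
  · intro u hu hu0 B hB w hw
    rw [hW] at hu hw
    let f : (L × L) →+ V := (Ψ.symm.toLinearMap.comp (LinearMap.inl K (L × L) D)).toAddMonoidHom
    have hf : ∀ p, f p = Ψ.symm (p, 0) := fun p => rfl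
    have hfu : f (Ψ u).1 = u := by
      rw [hf]
      apply Ψ.injective
      rw [Ψ.apply_symm_apply]
      ext <;> simp [hu]
    have hfw : f (Ψ w).1 = w := by
      rw [hf]
      apply Ψ.injective
      rw [Ψ.apply_symm_apply]
      ext <;> simp [hw]
    have hne : ¬ ((Ψ u).1.1 = 0 ∧ (Ψ u).1.2 = 0) := by
      rintro ⟨h1, h2⟩
      apply hu0
      rw [← hfu, hf]
      have : (Ψ u).1 = 0 := Prod.ext h1 h2
      rw [this]
      exact map_zero Ψ.symm
    have hc := IRBM.core (L := L) (M := L) (fun a x => a * x) (by simp) (by simp) (by simp)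
      (by intro a x; ring) (by
        intro x hx z
        exact ⟨z / x, div_mul_cancel₀ z hx⟩) (B.comap f) (Ψ u).1.1 (Ψ u).1.2 hne (by
        intro a b c d hd
        let g : SLn 2 L := ⟨!![a, b; c, d], by rw [Matrix.det_fin_two_of]; exact hd⟩
        have h1 := hB (β g) ⟨g, rfl⟩
        rw [AddSubgroup.mem_comap]
        have e : f (a * (Ψ u).1.1 + b * (Ψ u).1.2 - (Ψ u).1.1,
            c * (Ψ u).1.1 + d * (Ψ u).1.2 - (Ψ u).1.2) = β g u - u := by
          rw [hf]
          apply Ψ.injective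
          rw [Ψ.apply_symm_apply, map_sub, hβ]
          ext <;> simp [g, hu]
        rw [e]
        exact h1)
    have := hc (Ψ w).1.1 (Ψ w).1.2
    rw [AddSubgroup.mem_comap] at this
    rw [← hfw]
    exact this
  · intro ψ hψ0 hψ B hB χ hχ
    let J : (Module.Dual K L × Module.Dual K L) →+ Module.Dual K V :=
      AddMonoidHom.mk' (fun p => (LinearMap.coprod p.1 p.2).comp
        ((LinearMap.fst K (L × L) D).comp Ψ.toLinearMap)) (by
          intro p q
          ext v
          simp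
          ring)
    have hJ : ∀ p v, J p v = p.1 (Ψ v).1.1 + p.2 (Ψ v).1.2 := fun p v => rfl
    have hrep : ∀ θ : Module.Dual K V,
        (∀ w ∈ LinearMap.ker ((LinearMap.fst K (L × L) D).comp Ψ.toLinearMap), θ w = 0) →
        ∃ p, θ = J p := by
      intro θ hθ
      refine ⟨(θ.comp (Ψ.symm.toLinearMap.comp ((LinearMap.inl K (L × L) D).comp
        (LinearMap.inl K L L))), θ.comp (Ψ.symm.toLinearMap.comp ((LinearMap.inl K (L × L) D).comp
        (LinearMap.inr K L L)))), ?_⟩
      ext v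
      rw [hJ]
      have e : v = Ψ.symm (((Ψ v).1.1, 0), 0) + Ψ.symm ((0, (Ψ v).1.2), 0)
          + Ψ.symm (0, (Ψ v).2) := by
        apply Ψ.injective
        rw [map_add, map_add, Ψ.apply_symm_apply, Ψ.apply_symm_apply, Ψ.apply_symm_apply]
        ext <;> simp
      have h0 : θ (Ψ.symm (0, (Ψ v).2)) = 0 := by
        apply hθ
        rw [hW', Ψ.apply_symm_apply]
      calc θ v = θ (Ψ.symm (((Ψ v).1.1, 0), 0) + Ψ.symm ((0, (Ψ v).1.2), 0)
          + Ψ.symm (0, (Ψ v).2)) := by rw [← e]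
        _ = θ (Ψ.symm (((Ψ v).1.1, 0), 0)) + θ (Ψ.symm ((0, (Ψ v).1.2), 0)) := by
            rw [map_add, map_add, h0, add_zero]
        _ = _ := rfl
    obtain ⟨⟨ψ1, ψ2⟩, hψJ⟩ := hrep ψ hψ
    obtain ⟨⟨χ1, χ2⟩, hχJ⟩ := hrep χ hχ
    have hne : ¬ (ψ1 = 0 ∧ ψ2 = 0) := by
      rintro ⟨h1, h2⟩
      apply hψ0
      rw [hψJ, h1, h2]
      exact map_zero J
    have hc := IRBM.core (L := L) (M := Module.Dual K L)
      (fun a α => α.comp (LinearMap.mulLeft K a))
      (by intro x; ext y; simp) (by intro x; ext y; simp) (by intro a; ext y; simp)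
      (by intro a x; ext y; simp [add_mul]) (fun α hα ζ => IRBM.dual_surj α hα ζ)
      (B.comap J) ψ1 ψ2 hne (by
        intro a b c d hd
        let g : SLn 2 L := ⟨!![a, c; b, d], by
          rw [Matrix.det_fin_two_of, ← hd]; ring⟩
        have h1 := hB (β g⁻¹) ⟨g⁻¹, rfl⟩
        rw [map_inv, inv_inv] at h1
        rw [AddSubgroup.mem_comap]
        have e : J (ψ1.comp (LinearMap.mulLeft K a) + ψ2.comp (LinearMap.mulLeft K b) - ψ1,
            ψ1.comp (LinearMap.mulLeft K c) + ψ2.comp (LinearMap.mulLeft K d) - ψ2)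
            = ψ.comp (β g).1.toLinearMap - ψ := by
          ext v
          have hg : ψ.comp (β g).1.toLinearMap v = ψ (β g v) := rfl
          rw [LinearMap.sub_apply, hg, hψJ, hJ, hJ, hJ, hβ]
          simp [g]
          ring
        rw [e]
        exact h1)
    rw [hχJ]
    have := hc χ1 χ2
    rwa [AddSubgroup.mem_comap] at this

end Pool.Agent.Lib.MP66ef6b.PL
end

section
set_option autoImplicit false

/-!
# MP_66ef6b_al, PL: module IRE (the transvections act irreducibly)
-/

namespace Pool.Agent.Lib.MP66ef6b.PL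

namespace IREM

variable {K V : Type} [Field K] [AddCommGroup V] [Module K V]

theorem mul_apply (a b : SpecialLinearGroup K V) (x : V) : (a * b) x = a (b x) := rfl

theorem inv_apply_of (g : SpecialLinearGroup K V) (x y : V) (h : g x = y) : g⁻¹ y = x := by
  rw [← h, ← mul_apply, inv_mul_cancel]
  rfl

theorem apply_inv (g : SpecialLinearGroup K V) (x : V) : g (g⁻¹ x) = x := by
  rw [← mul_apply, mul_inv_cancel]
  rfl

theorem inv_tv (g : SpecialLinearGroup K V) (v : V) (φ : Module.Dual K V) (h : φ v = 0)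
    (hg : ∀ x : V, g x = x + φ x • v) (x : V) : g⁻¹ x = x - φ x • v := by
  apply inv_apply_of
  rw [hg, map_sub, map_smul, h, smul_zero, sub_zero, sub_add_cancel]

/-- a submodule of dimension at least two has an element outside of a line. -/
theorem exists_notMem_span [Module.Finite K V] (S : Submodule K V) (h : 2 ≤ Module.finrank K S)
    (u : V) : ∃ z ∈ S, z ∉ Submodule.span K {u} := by
  by_contra hc
  push Not at hc
  have h1 : S ≤ Submodule.span K {u} := hc
  have h2 := Submodule.finrank_mono h1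
  have h3 : Module.finrank K (Submodule.span K {u}) ≤ 1 := by
    have h := finrank_span_le_card (R := K) ({u} : Set V)
    simpa using h
  omega

theorem pres {W W' : Submodule K V} (m : SpecialLinearGroup K V)
    (hm : m ∈ Subgroup.closure (TrS W W')) :
    (∀ w ∈ W, m w ∈ W) ∧ (∀ w ∈ W, m⁻¹ w ∈ W) := by
  induction hm using Subgroup.closure_induction with
  | mem g hg =>
    obtain ⟨v, hv, φ, h0, -, hg⟩ := hg
    refine ⟨fun w hw => ?_, fun w hw => ?_⟩
    · rw [hg]
      exact W.add_mem hw (W.smul_mem _ hv)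
    · rw [inv_tv g v φ h0 hg]
      exact W.sub_mem hw (W.smul_mem _ hv)
  | one =>
    refine ⟨fun w hw => hw, fun w hw => ?_⟩
    rw [inv_one]
    exact hw
  | mul a b _ _ ha hb =>
    refine ⟨fun w hw => ha.1 _ (hb.1 w hw), fun w hw => ?_⟩
    rw [mul_inv_rev]
    exact hb.2 _ (ha.2 w hw)
  | inv a _ ha =>
    refine ⟨ha.2, fun w hw => ?_⟩
    rw [inv_inv]
    exact ha.1 w hw

theorem triv {W W' : Submodule K V} (m : SpecialLinearGroup K V)
    (hm : m ∈ Subgroup.closure (TrS W W')) : ∀ w ∈ W', m w = w := by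
  induction hm using Subgroup.closure_induction with
  | mem g hg =>
    obtain ⟨v, hv, φ, h0, h1, hg⟩ := hg
    intro w hw
    rw [hg, h1 w hw, zero_smul, add_zero]
  | one => exact fun w _ => rfl
  | mul a b _ _ ha hb =>
    intro w hw
    rw [mul_apply, hb w hw, ha w hw]
  | inv a _ ha => exact fun w hw => inv_apply_of a w w (ha w hw)

/-- a transvection in `TrS`. -/
theorem exists_tv [Module.Finite K V] (hTVE : SpecTVE) {W W' : Submodule K V} (v : V) (hv : v ∈ W)
    (φ : Module.Dual K V) (h0 : φ v = 0) (h1 : ∀ w ∈ W', φ w = 0) :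
    ∃ g ∈ Subgroup.closure (TrS W W'), ∀ x : V, g x = x + φ x • v := by
  obtain ⟨g, hg⟩ := hTVE K V v φ h0
  exact ⟨g, Subgroup.subset_closure ⟨v, hv, φ, h0, h1, hg⟩, hg⟩

theorem gen_aux [Module.Finite K V] (hTVE : SpecTVE) {W W' : Submodule K V} (hW : IsCompl W W')
    (u : V) (hu : u ∈ W) (hu0 : u ≠ 0) (B : AddSubgroup V)
    (hB : ∀ m ∈ Subgroup.closure (TrS W W'), m u - u ∈ B) (w : V) (hw : w ∈ W)
    (hwu : w ∉ Submodule.span K {u}) : w ∈ B := by
  have h1 : u ∉ Submodule.span K {w} ⊔ W' := by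
    intro h
    obtain ⟨a, ha, b, hb, hab⟩ := Submodule.mem_sup.mp h
    obtain ⟨c, rfl⟩ := Submodule.mem_span_singleton.mp ha
    have hb' : b ∈ W := by
      have : b = u - c • w := by rw [← hab]; abel
      rw [this]
      exact W.sub_mem hu (W.smul_mem _ hw)
    have hb0 : b = 0 := by
      have : b ∈ W ⊓ W' := ⟨hb', hb⟩
      rw [hW.inf_eq_bot] at this
      exact (Submodule.mem_bot K).mp this
    rw [hb0, add_zero] at hab
    have hc : c ≠ 0 := by
      rintro rfl
      rw [zero_smul] at hab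
      exact hu0 hab.symm
    apply hwu
    rw [Submodule.mem_span_singleton]
    exact ⟨c⁻¹, by rw [← hab, smul_smul, inv_mul_cancel₀ hc, one_smul]⟩
  obtain ⟨f, hf, hk⟩ := Submodule.exists_le_ker_of_notMem h1
  have hφw : ((f u)⁻¹ • f) w = 0 := by
    have : w ∈ LinearMap.ker f :=
      hk (Submodule.mem_sup_left (Submodule.mem_span_singleton_self w))
    rw [LinearMap.smul_apply, LinearMap.mem_ker.mp this, smul_zero]
  have hφW' : ∀ x ∈ W', ((f u)⁻¹ • f) x = 0 := fun x hx => by
    have : x ∈ LinearMap.ker f := hk (Submodule.mem_sup_right hx)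
    rw [LinearMap.smul_apply, LinearMap.mem_ker.mp this, smul_zero]
  obtain ⟨g, hg, hgx⟩ := exists_tv hTVE w hw ((f u)⁻¹ • f) hφw hφW'
  have h2 := hB g hg
  rw [hgx, LinearMap.smul_apply, smul_eq_mul, inv_mul_cancel₀ hf, one_smul,
    add_sub_cancel_left] at h2
  exact h2

theorem dual_aux [Module.Finite K V] (hTVE : SpecTVE) {W W' : Submodule K V} (hW : IsCompl W W')
    (ψ : Module.Dual K V) (hψ0 : ψ ≠ 0) (hψ : ∀ w ∈ W', ψ w = 0)
    (B : AddSubgroup (Module.Dual K V))
    (hB : ∀ m ∈ Subgroup.closure (TrS W W'),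
      ψ.comp (m⁻¹ : SpecialLinearGroup K V).1.toLinearMap - ψ ∈ B)
    (χ : Module.Dual K V) (hχ : ∀ w ∈ W', χ w = 0) (hχψ : χ ∉ Submodule.span K {ψ}) : χ ∈ B := by
  obtain ⟨w, hw, hχw, hψw⟩ : ∃ w ∈ W, χ w = 0 ∧ ψ w ≠ 0 := by
    by_contra hc
    push Not at hc
    have h1 : ∀ x, χ x = 0 → ψ x = 0 := by
      intro x hx
      have hx' : x ∈ W ⊔ W' := by
        rw [hW.sup_eq_top]
        exact Submodule.mem_top
      obtain ⟨a, ha, b, hb, rfl⟩ := Submodule.mem_sup.mp hx'
      rw [map_add, hχ b hb, add_zero] at hx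
      rw [map_add, hψ b hb, add_zero]
      exact hc a ha hx
    have h2 : ψ ∈ Submodule.span K (Set.range fun _ : Unit => χ) := by
      apply mem_span_of_iInf_ker_le_ker
      intro x hx
      rw [Submodule.mem_iInf] at hx
      exact LinearMap.mem_ker.mpr (h1 x (LinearMap.mem_ker.mp (hx ())))
    rw [Set.range_const, Submodule.mem_span_singleton] at h2
    obtain ⟨c, hc'⟩ := h2
    have hc0 : c ≠ 0 := by
      rintro rfl
      rw [zero_smul] at hc'
      exact hψ0 hc'.symm
    apply hχψ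
    rw [Submodule.mem_span_singleton]
    exact ⟨c⁻¹, by rw [← hc', smul_smul, inv_mul_cancel₀ hc0, one_smul]⟩
  have hv : (-(ψ w)⁻¹) • w ∈ W := W.smul_mem _ hw
  have hχv : χ ((-(ψ w)⁻¹) • w) = 0 := by rw [map_smul, hχw, smul_zero]
  have hψv : ψ ((-(ψ w)⁻¹) • w) = -1 := by
    rw [map_smul, smul_eq_mul, neg_mul, inv_mul_cancel₀ hψw]
  obtain ⟨g, hg, hgx⟩ := exists_tv hTVE ((-(ψ w)⁻¹) • w) hv χ hχv hχ
  have h2 := hB g hg
  have h3 : ψ.comp (g⁻¹ : SpecialLinearGroup K V).1.toLinearMap - ψ = χ := by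
    ext x
    have h4 : (g⁻¹ : SpecialLinearGroup K V).1.toLinearMap x = x - χ x • ((-(ψ w)⁻¹) • w) :=
      inv_tv g _ χ hχv hgx x
    rw [LinearMap.sub_apply, LinearMap.comp_apply, h4, map_sub, map_smul ψ (χ x), hψv, smul_eq_mul]
    ring
  rw [h3] at h2
  exact h2

end IREM

theorem specIRE (hTVE : SpecTVE) : SpecIRE := by
  intro K V _ _ _ _ W W' hW h2
  refine ⟨fun m hm => (IREM.pres m hm).1, fun m hm => IREM.triv m hm, ?_, ?_⟩
  · intro u hu hu0 B hB w hw
    by_cases hwu : w ∈ Submodule.span K {u}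
    · obtain ⟨z, hz, hzu⟩ := IREM.exists_notMem_span W h2 u
      have h3 : z + w ∉ Submodule.span K {u} := fun h =>
        hzu (by simpa using Submodule.sub_mem _ h hwu)
      have h4 := IREM.gen_aux hTVE hW u hu hu0 B hB z hz hzu
      have h5 := IREM.gen_aux hTVE hW u hu hu0 B hB (z + w) (W.add_mem hz hw) h3
      have h6 := B.sub_mem h5 h4
      rwa [add_sub_cancel_left] at h6
    · exact IREM.gen_aux hTVE hW u hu hu0 B hB w hw hwu
  · intro ψ hψ0 hψ B hB χ hχ
    by_cases hχψ : χ ∈ Submodule.span K {ψ}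
    · have hfr : 2 ≤ Module.finrank K (Submodule.dualAnnihilator W') := by
        have h3 := Subspace.finrank_add_finrank_dualAnnihilator_eq (K := K) (V := V) W'
        have h4 := Submodule.finrank_add_eq_of_isCompl hW
        omega
      obtain ⟨ζ, hζ, hζψ⟩ := IREM.exists_notMem_span (Submodule.dualAnnihilator W') hfr ψ
      rw [Submodule.mem_dualAnnihilator] at hζ
      have h3 : ζ + χ ∉ Submodule.span K {ψ} := fun h =>
        hζψ (by simpa using Submodule.sub_mem _ h hχψ)
      have h4 := IREM.dual_aux hTVE hW ψ hψ0 hψ B hB ζ hζ hζψ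
      have h5 := IREM.dual_aux hTVE hW ψ hψ0 hψ B hB (ζ + χ)
        (fun w hw => by rw [LinearMap.add_apply, hζ w hw, hχ w hw, add_zero]) h3
      have h6 := B.sub_mem h5 h4
      rwa [add_sub_cancel_left] at h6
    · exact IREM.dual_aux hTVE hW ψ hψ0 hψ B hB χ hχ hχψ

end Pool.Agent.Lib.MP66ef6b.PL
end

section
set_option autoImplicit false

/-!
# MP_66ef6b_al, PL, LFU: lifts
-/

namespace Pool.Agent.Lib.MP66ef6b.PL

namespace LFUM

variable {n : ℕ} {K : Type} [Field K]

theorem exists_common (A A' : Matrix (Fin n) (Fin n) K)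
    (h : (A - 1).rank + (A' - 1).rank < n) : ∃ v : Fin n → K, v ≠ 0 ∧ A.mulVec v = v ∧
      A'.mulVec v = v := by
  have h1 := (A - 1).mulVecLin.finrank_range_add_finrank_ker
  have h2 := (A' - 1).mulVecLin.finrank_range_add_finrank_ker
  have h3 := Submodule.finrank_sup_add_finrank_inf_eq (LinearMap.ker (A - 1).mulVecLin)
    (LinearMap.ker (A' - 1).mulVecLin)
  have h4 := Submodule.finrank_le (LinearMap.ker (A - 1).mulVecLin ⊔
    LinearMap.ker (A' - 1).mulVecLin)
  rw [Module.finrank_fin_fun] at h1 h2 h4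
  unfold Matrix.rank at h
  have h5 : 0 < Module.finrank K (LinearMap.ker (A - 1).mulVecLin ⊓
      LinearMap.ker (A' - 1).mulVecLin : Submodule K (Fin n → K)) := by omega
  obtain ⟨v, hv⟩ := (Submodule.ne_bot_iff _).mp (Submodule.one_le_finrank_iff.mp h5)
  obtain ⟨⟨hv1, hv2⟩, hv0⟩ := hv
  refine ⟨v, hv0, ?_, ?_⟩
  · have h6 : (A - 1).mulVec v = 0 := hv1
    rw [Matrix.sub_mulVec, Matrix.one_mulVec, sub_eq_zero] at h6
    exact h6
  · have h6 : (A' - 1).mulVec v = 0 := hv2
    rw [Matrix.sub_mulVec, Matrix.one_mulVec, sub_eq_zero] at h6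
    exact h6

theorem one (c : PSLn n K) (A A' : Matrix (Fin n) (Fin n) K) (hA : PLift c A) (hA' : PLift c A')
    (h : (A - 1).rank + (A' - 1).rank < n) : A = A' := by
  obtain ⟨μ, B, hμ, hB, rfl⟩ := hA
  obtain ⟨μ', B', hμ', hB', rfl⟩ := hA'
  have h1 : B⁻¹ * B' ∈ Subgroup.center (SLn n K) := QuotientGroup.eq.mp (hB.trans hB'.symm)
  obtain ⟨r, -, hr⟩ := Matrix.SpecialLinearGroup.mem_center_iff.mp h1
  have h2 : B'.1 = r • B.1 := by
    have h3 : B' = B * (B⁻¹ * B') := by group
    have h4 : B'.1 = B.1 * (B⁻¹ * B' : SLn n K).1 := by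
      rw [← Matrix.SpecialLinearGroup.coe_mul, ← h3]
    rw [h4]
    have h5 : (B⁻¹ * B' : SLn n K).1 = Matrix.scalar (Fin n) r := hr.symm
    rw [h5, Matrix.scalar_apply, ← Matrix.smul_one_eq_diagonal, Matrix.mul_smul, mul_one]
  obtain ⟨v, hv, hv1, hv2⟩ := exists_common _ _ h
  have h3 : μ' • B'.1 = (μ' * r * μ⁻¹) • (μ • B.1) := by
    rw [h2, smul_smul, smul_smul, mul_assoc (μ' * r), inv_mul_cancel₀ hμ, mul_one]
  rw [h3, Matrix.smul_mulVec, hv1] at hv2
  have h4 : μ' * r * μ⁻¹ = 1 := by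
    by_contra hne
    refine hv ?_
    have h5 : (μ' * r * μ⁻¹ - 1) • v = 0 := by rw [sub_smul, one_smul, hv2, sub_self]
    exact (smul_eq_zero.mp h5).resolve_left (sub_ne_zero.mpr hne)
  rw [h3, h4, one_smul]

theorem rank_add_le (A B : Matrix (Fin n) (Fin n) K) : (A + B).rank ≤ A.rank + B.rank := by
  unfold Matrix.rank
  have h1 : LinearMap.range (A + B).mulVecLin ≤
      LinearMap.range A.mulVecLin ⊔ LinearMap.range B.mulVecLin := by
    rintro _ ⟨v, rfl⟩
    rw [Matrix.mulVecLin_apply, Matrix.add_mulVec]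
    exact Submodule.add_mem_sup ⟨v, rfl⟩ ⟨v, rfl⟩
  exact (Submodule.finrank_mono h1).trans (Submodule.finrank_add_le_finrank_add_finrank _ _)

theorem two (c d : PSLn n K) (A C : Matrix (Fin n) (Fin n) K) (hA : PLift c A) (hC : PLift d C) :
    PLift (c * d) (A * C) ∧ (A * C - 1).rank ≤ (A - 1).rank + (C - 1).rank := by
  constructor
  · obtain ⟨μ, B, hμ, rfl, rfl⟩ := hA
    obtain ⟨ν, D, hν, rfl, rfl⟩ := hC
    refine ⟨μ * ν, B * D, mul_ne_zero hμ hν, rfl, ?_⟩
    rw [Matrix.SpecialLinearGroup.coe_mul, Matrix.smul_mul, Matrix.mul_smul, smul_smul]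
  · have h1 : A * C - 1 = (A - 1) * C + (C - 1) := by noncomm_ring
    rw [h1]
    exact (rank_add_le _ _).trans (Nat.add_le_add_right (Matrix.rank_mul_le_left _ _) _)

theorem three (c : PSLn n K) (A : Matrix (Fin n) (Fin n) K) (hA : PLift c A) :
    PLift c⁻¹ A⁻¹ ∧ A * A⁻¹ = 1 ∧ (A⁻¹ - 1).rank = (A - 1).rank := by
  obtain ⟨μ, B, hμ, rfl, rfl⟩ := hA
  have h1 : (μ • B.1) * (μ⁻¹ • (B⁻¹ : SLn n K).1) = 1 := by
    rw [Matrix.smul_mul, Matrix.mul_smul, smul_smul, mul_inv_cancel₀ hμ, one_smul,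
      ← Matrix.SpecialLinearGroup.coe_mul, mul_inv_cancel, Matrix.SpecialLinearGroup.coe_one]
  have h2 : (μ • B.1)⁻¹ = μ⁻¹ • (B⁻¹ : SLn n K).1 := Matrix.inv_eq_right_inv h1
  refine ⟨⟨μ⁻¹, B⁻¹, inv_ne_zero hμ, rfl, h2⟩, by rw [h2, h1], ?_⟩
  have h3 : (μ • B.1)⁻¹ * (μ • B.1) = 1 := by
    rw [h2]
    exact mul_eq_one_comm.mp h1
  have h4 : (μ • B.1)⁻¹ - 1 = (-(μ • B.1)⁻¹) * (μ • B.1 - 1) := by
    rw [mul_sub, neg_mul, h3, mul_one]
    abel
  rw [h4]
  refine Matrix.rank_mul_eq_right_of_isUnit_det _ _ ?_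
  refine Matrix.isUnit_det_of_right_inverse (B := -(μ • B.1)) ?_
  rw [neg_mul_neg, h3]

theorem four (c d : PSLn n K) (A : Matrix (Fin n) (Fin n) K) (hA : PLift c A) :
    ∃ A₁ : Matrix (Fin n) (Fin n) K, PLift (d * c * d⁻¹) A₁ ∧ (A₁ - 1).rank = (A - 1).rank := by
  obtain ⟨μ, B, hμ, rfl, rfl⟩ := hA
  obtain ⟨D, rfl⟩ := QuotientGroup.mk_surjective d
  refine ⟨D.1 * (μ • B.1) * (D⁻¹ : SLn n K).1, ⟨μ, D * B * D⁻¹, hμ, rfl, ?_⟩, ?_⟩
  · rw [Matrix.SpecialLinearGroup.coe_mul, Matrix.SpecialLinearGroup.coe_mul, Matrix.mul_smul,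
      Matrix.smul_mul]
  · have h1 : D.1 * (D⁻¹ : SLn n K).1 = 1 := by
      rw [← Matrix.SpecialLinearGroup.coe_mul, mul_inv_cancel, Matrix.SpecialLinearGroup.coe_one]
    have h2 : D.1 * (μ • B.1) * (D⁻¹ : SLn n K).1 - 1 =
        D.1 * (μ • B.1 - 1) * (D⁻¹ : SLn n K).1 := by
      rw [mul_sub, sub_mul, mul_one, h1]
    rw [h2, Matrix.rank_mul_eq_left_of_isUnit_det, Matrix.rank_mul_eq_right_of_isUnit_det]
    · rw [D.2]; exact isUnit_one
    · rw [(D⁻¹ : SLn n K).2]; exact isUnit_one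

theorem five (c : PSLn n K) (A : Matrix (Fin n) (Fin n) K) (hA : PLift c A) (hc : c ≠ 1) :
    A ≠ 1 := by
  obtain ⟨μ, B, hμ, rfl, rfl⟩ := hA
  intro h
  refine hc ((QuotientGroup.eq_one_iff B).mpr ?_)
  have h1 : B.1 = μ⁻¹ • (1 : Matrix (Fin n) (Fin n) K) := by
    rw [← h, smul_smul, inv_mul_cancel₀ hμ, one_smul]
  refine Subgroup.mem_center_iff.mpr fun D => Subtype.ext ?_
  rw [Matrix.SpecialLinearGroup.coe_mul, Matrix.SpecialLinearGroup.coe_mul, h1, Matrix.mul_smul,
    Matrix.smul_mul, mul_one, one_mul]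

end LFUM

theorem specLFU : SpecLFU := fun _ _ _ c d A A' C hA =>
  ⟨fun hA' h => LFUM.one c A A' hA hA' h, fun hC => LFUM.two c d A C hA hC, LFUM.three c A hA,
    LFUM.four c d A hA, fun hc => LFUM.five c A hA hc⟩

end Pool.Agent.Lib.MP66ef6b.PL
end

section
set_option autoImplicit false

/-! # MP_66ef6b_al, THEOREM L: module LIN -/

namespace Pool.Agent.Lib.MP66ef6b.PL

universe u

theorem specLIN (hSMP : SpecSMP.{u}) (hSUP : SpecSUP.{u}) (hCST : SpecCST.{u})
    (hREP : SpecREP.{u}) (hAFF : SpecAFF.{u}) : SpecLIN.{u} := by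
  intro G _ _ _ hG F hF h
  obtain ⟨q₀, R, hS⟩ := hSUP G F hF
  have hP := hSMP G hG F hF h
  obtain ⟨f, hf, hf1, hD⟩ := hCST G hG F hF q₀ R (fun m => by
    obtain ⟨B, hB⟩ := hS m
    exact ⟨B, fun E hE hFE hBE => hB E hE hFE hBE (hP E hE hFE)⟩)
  exact hAFF G hG F hF q₀ R f hD (hREP G hG F hF q₀ R f hf hf1 hD)

end Pool.Agent.Lib.MP66ef6b.PL
end

section
set_option autoImplicit false

/-!
# MP_66ef6b_al, THEOREM L, module MAUT: the Mautner step (author helper39)
-/

namespace Pool.Agent.Lib.MP66ef6b.PL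

namespace MAUTM

variable {Γ Ω U : Type} [Group Γ] [MulAction Γ Ω] [AddCommGroup U]

/-- The stabiliser of a point which is moved into `fx M` by two different `θ u` contains `M` and the
range of `θ`. -/
lemma claim (θ : Multiplicative U →* Γ) (M : Subgroup Γ) (ρ : Γ → U →+ U)
    (h1 : ∀ m ∈ M, ∀ u : U, m * θ (Multiplicative.ofAdd u) * m⁻¹ =
      θ (Multiplicative.ofAdd (ρ m u)))
    (h2 : ∀ u : U, u ≠ 0 → ∀ B : AddSubgroup U, (∀ m ∈ M, ρ m u - u ∈ B) → B = ⊤)
    (u u' : U) (hne : u ≠ u') (ω ω' : Ω) (hω : ω ∈ fx Ω (M : Set Γ)) (hω' : ω' ∈ fx Ω (M : Set Γ))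
    (heq : θ (Multiplicative.ofAdd u) • ω = θ (Multiplicative.ofAdd u') • ω') :
    θ (Multiplicative.ofAdd u) • ω ∈ fx Ω ((M : Set Γ) ∪ Set.range θ) := by
  set z := θ (Multiplicative.ofAdd u) • ω with hz
  let S := MulAction.stabilizer Γ z
  have hS : ∀ g : Γ, g ∈ S ↔ g • z = z := fun g => MulAction.mem_stabilizer_iff
  have a1 : ∀ m ∈ M, θ (Multiplicative.ofAdd u) * m * (θ (Multiplicative.ofAdd u))⁻¹ ∈ S := by
    intro m hm
    rw [hS, hz, mul_smul, inv_smul_smul, mul_smul, hω m hm]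
  have a2 : ∀ m ∈ M, θ (Multiplicative.ofAdd u') * m * (θ (Multiplicative.ofAdd u'))⁻¹ ∈ S := by
    intro m hm
    rw [hS, heq, mul_smul, inv_smul_smul, mul_smul, hω' m hm]
  have key : ∀ (v : U) (m : Γ), m ∈ M →
      θ (Multiplicative.ofAdd v) * m⁻¹ * (θ (Multiplicative.ofAdd v))⁻¹ =
        m⁻¹ * θ (Multiplicative.ofAdd (ρ m v - v)) := by
    intro v m hm
    have h3 := h1 m hm v
    rw [sub_eq_add_neg, ofAdd_add, map_mul, ← h3, ofAdd_neg, map_inv]
    group
  let B : AddSubgroup U :=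
    { carrier := {b | θ (Multiplicative.ofAdd b) ∈ S}
      zero_mem' := by
        show θ (Multiplicative.ofAdd 0) ∈ S
        rw [ofAdd_zero, map_one]
        exact one_mem S
      add_mem' := by
        intro a b ha hb
        show θ (Multiplicative.ofAdd (a + b)) ∈ S
        rw [ofAdd_add, map_mul]
        exact mul_mem ha hb
      neg_mem' := by
        intro a ha
        show θ (Multiplicative.ofAdd (-a)) ∈ S
        rw [ofAdd_neg, map_inv]
        exact inv_mem ha }
  have hB : B = ⊤ := by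
    refine h2 (u - u') (sub_ne_zero.mpr hne) B ?_
    intro m hm
    have b1 := a1 _ (inv_mem hm)
    have b2 := a2 _ (inv_mem hm)
    rw [key u m hm] at b1
    rw [key u' m hm] at b2
    have b3 := mul_mem (inv_mem b2) b1
    have b4 : (m⁻¹ * θ (Multiplicative.ofAdd (ρ m u' - u')))⁻¹ *
        (m⁻¹ * θ (Multiplicative.ofAdd (ρ m u - u))) =
        θ (Multiplicative.ofAdd (ρ m (u - u') - (u - u'))) := by
      have b5 : ρ m (u - u') - (u - u') = -(ρ m u' - u') + (ρ m u - u) := by
        rw [map_sub]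
        abel
      rw [b5, ofAdd_add, map_mul, ofAdd_neg, map_inv]
      group
    rw [b4] at b3
    exact b3
  have hr : ∀ b : U, θ (Multiplicative.ofAdd b) ∈ S := by
    intro b
    have : b ∈ B := by rw [hB]; exact AddSubgroup.mem_top b
    exact this
  intro g hg
  rcases hg with hg | ⟨b, rfl⟩
  · have c1 := mul_mem (mul_mem (inv_mem (hr u)) (a1 g hg)) (hr u)
    have c2 : (θ (Multiplicative.ofAdd u))⁻¹ *
        (θ (Multiplicative.ofAdd u) * g * (θ (Multiplicative.ofAdd u))⁻¹) *
        θ (Multiplicative.ofAdd u) = g := by group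
    rw [c2] at c1
    exact (hS g).mp c1
  · exact (hS _).mp (hr (Multiplicative.toAdd b))

end MAUTM

open MAUTM in
theorem specMAUT : SpecMAUT := by
  intro Γ Ω U _ _ _ _ _ θ M ρ h1 h2
  classical
  have := Fintype.ofFinite U
  have := Fintype.ofFinite Ω
  set A := fx Ω (M : Set Γ) with hA
  set C := fx Ω ((M : Set Γ) ∪ Set.range θ) with hC
  let D : U → Finset Ω := fun u => Finset.univ.filter fun ω =>
    ω ∈ A ∧ θ (Multiplicative.ofAdd u) • ω ∉ C
  have hinj : Function.Injective fun p : (Σ u : U, {ω // ω ∈ D u}) =>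
      θ (Multiplicative.ofAdd p.1) • p.2.1 := by
    rintro ⟨u, ω, hω⟩ ⟨u', ω', hω'⟩ heq
    simp only at heq
    have m1 := (Finset.mem_filter.mp hω).2
    have m2 := (Finset.mem_filter.mp hω').2
    by_cases hu : u = u'
    · subst hu
      have := smul_left_cancel _ heq
      subst this
      rfl
    · exact absurd (claim θ M ρ h1 h2 u u' hu ω ω' m1.1 m2.1 heq) m1.2
  have hcard := Fintype.card_le_of_injective _ hinj
  rw [Fintype.card_sigma] at hcard
  have hD : ∀ u : U, A.ncard ≤ C.ncard + Fintype.card {ω // ω ∈ D u} := by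
    intro u
    rw [Fintype.card_coe]
    have e1 : A ⊆ ((fun ω => (θ (Multiplicative.ofAdd u))⁻¹ • ω) '' C) ∪ (D u : Set Ω) := by
      intro ω hω
      by_cases hc : θ (Multiplicative.ofAdd u) • ω ∈ C
      · exact Or.inl ⟨_, hc, inv_smul_smul _ _⟩
      · exact Or.inr (Finset.mem_coe.mpr (Finset.mem_filter.mpr ⟨Finset.mem_univ _, hω, hc⟩))
    calc A.ncard ≤ (((fun ω => (θ (Multiplicative.ofAdd u))⁻¹ • ω) '' C) ∪
          (D u : Set Ω)).ncard := Set.ncard_le_ncard e1 (Set.toFinite _)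
      _ ≤ ((fun ω => (θ (Multiplicative.ofAdd u))⁻¹ • ω) '' C).ncard + (D u : Set Ω).ncard :=
        Set.ncard_union_le _ _
      _ ≤ C.ncard + (D u).card := by
        rw [Set.ncard_coe_finset]
        exact Nat.add_le_add_right (Set.ncard_image_le (Set.toFinite _)) _
  have hsum : ∑ u : U, A.ncard ≤ ∑ u : U, (C.ncard + Fintype.card {ω // ω ∈ D u}) :=
    Finset.sum_le_sum fun u _ => hD u
  rw [Finset.sum_add_distrib, Finset.sum_const, Finset.sum_const, Finset.card_univ, smul_eq_mul,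
    smul_eq_mul] at hsum
  rw [Nat.card_eq_fintype_card, Nat.card_eq_fintype_card]
  omega

end Pool.Agent.Lib.MP66ef6b.PL
end

section
set_option autoImplicit false

/-!
# MP_66ef6b_al, THEOREM L, module NRM (helper82)
-/

namespace Pool.Agent.Lib.MP66ef6b.PL

universe u

theorem specNRM : SpecNRM.{u} := by
  intro G _ _ I U D f R hf h1 hfR hmul hinv hconj g
  let N : Subgroup G :=
    { carrier := {g | ∃ r : ℕ, ∀ᶠ i in U, D i g r}
      mul_mem' := by
        rintro a b ⟨r, hr⟩ ⟨s, hs⟩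
        refine ⟨r + s, ?_⟩
        filter_upwards [hr, hs, hmul a b r s] with i h1 h2 h3 using h3 h1 h2
      one_mem' := ⟨0, h1⟩
      inv_mem' := by
        rintro a ⟨r, hr⟩
        refine ⟨r, ?_⟩
        filter_upwards [hr, hinv a r] with i h1 h2 using h2 h1 }
  have hN : N.Normal := ⟨by
    rintro a ⟨r, hr⟩ k
    refine ⟨r, ?_⟩
    filter_upwards [hr, hconj a k r] with i h1 h2 using h2 h1⟩
  have hfN : f ∈ N := ⟨R, hfR⟩
  rcases hN.eq_bot_or_eq_top with h | h
  · rw [h, Subgroup.mem_bot] at hfN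
    exact absurd hfN hf
  · have hg : g ∈ N := by rw [h]; exact Subgroup.mem_top g
    exact hg

end Pool.Agent.Lib.MP66ef6b.PL
end

section
set_option autoImplicit false

/-!
# MP_66ef6b_al, THEOREM L: module ORB (Burnside's lemma)
-/

namespace Pool.Agent.Lib.MP66ef6b.PL

namespace ORBM

variable {Γ Ω : Type} [Group Γ] [MulAction Γ Ω]

theorem fx_singleton (g : Γ) : fx Ω {g} = MulAction.fixedBy Ω g := by
  ext ω
  simp [fx, MulAction.mem_fixedBy]

theorem stab_ne_top (h : fx Ω (Set.univ : Set Γ) = ∅) (ω : Ω) :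
    MulAction.stabilizer Γ ω ≠ ⊤ := by
  intro hs
  have hω : ω ∈ fx Ω (Set.univ : Set Γ) := by
    intro a _
    have : a ∈ MulAction.stabilizer Γ ω := by rw [hs]; trivial
    exact this
  rw [h] at hω
  exact hω

end ORBM

theorem specORB : SpecORB := by
  classical
  intro Γ Ω _ _ _ _ m hfx hH
  have := Fintype.ofFinite Ω
  have hB := MulAction.sum_card_fixedBy_eq_card_orbits_mul_card_group Γ Ω
  have h1 : ∑ g : Γ, (fx Ω {g}).ncard =
      Fintype.card (Quotient (MulAction.orbitRel Γ Ω)) * Fintype.card Γ := by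
    rw [← hB]
    refine Finset.sum_congr rfl fun g _ => ?_
    rw [ORBM.fx_singleton, ← Nat.card_coe_set_eq, Nat.card_eq_fintype_card]
  have h2 : Fintype.card (Quotient (MulAction.orbitRel Γ Ω)) * m ≤ Nat.card Ω := by
    have e := MulAction.selfEquivSigmaOrbits Γ Ω
    rw [Nat.card_congr e, Nat.card_sigma]
    have h3 : ∀ q : Quotient (MulAction.orbitRel Γ Ω),
        m ≤ Nat.card (MulAction.orbit Γ (Quotient.out q)) := by
      intro q
      have h4 := hH _ (ORBM.stab_ne_top hfx (Quotient.out q))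
      rw [MulAction.index_stabilizer, ← Nat.card_coe_set_eq] at h4
      exact h4.le
    calc Fintype.card (Quotient (MulAction.orbitRel Γ Ω)) * m
        = ∑ _q : Quotient (MulAction.orbitRel Γ Ω), m := by simp
      _ ≤ _ := Finset.sum_le_sum fun q _ => h3 q
  rw [h1]
  calc m * (Fintype.card (Quotient (MulAction.orbitRel Γ Ω)) * Fintype.card Γ)
      = Fintype.card Γ * (Fintype.card (Quotient (MulAction.orbitRel Γ Ω)) * m) := by ring
    _ ≤ Fintype.card Γ * Nat.card Ω := Nat.mul_le_mul_left _ h2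

end Pool.Agent.Lib.MP66ef6b.PL
end

section
set_option autoImplicit false

/-!
# MP_66ef6b_al, THEOREM L, module OU2: perfect subgroups of `MulAut (PSL_2(K))` are inner
-/

namespace Pool.Agent.Lib.MP66ef6b.PL

namespace OU2M

open scoped Pointwise

variable {K : Type} [Field K]

lemma ut_eq : ((fun g => (QuotientGroup.mk g : PSLn 2 K)) '' UT 2 K) =
    AA (Pi.single (0 : Fin 2) (1 : K)) := by
  ext c
  constructor
  · rintro ⟨g, ⟨hd, hl⟩, rfl⟩
    refine ⟨g, Pi.single 1 (g.1 0 1), ⟨by simp, ?_⟩, rfl⟩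
    have h10 : g.1 1 0 = 0 := hl 1 0 (by decide)
    ext i j
    fin_cases i <;> fin_cases j
    · simpa [Matrix.vecMulVec_apply] using hd 0
    · simp [Matrix.vecMulVec_apply]
    · simpa [Matrix.vecMulVec_apply] using h10
    · simpa [Matrix.vecMulVec_apply] using hd 1
  · rintro ⟨g, φ, ⟨h1, h2⟩, rfl⟩
    have hφ : φ 0 = 0 := by simpa using h1
    refine ⟨g, ⟨?_, ?_⟩, rfl⟩
    · intro i
      rw [h2]
      fin_cases i <;> simp [Matrix.vecMulVec_apply, hφ]
    · intro i j hij
      rw [h2]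
      fin_cases i <;> fin_cases j
      · exact absurd hij (by decide)
      · exact absurd hij (by decide)
      · simp [Matrix.vecMulVec_apply]
      · exact absurd hij (by decide)

/-- the stabiliser of a set. -/
def Stab {Q : Type} [Group Q] (A : Set Q) : Subgroup (MulAut Q) where
  carrier := {r | ∀ c, r c ∈ A ↔ c ∈ A}
  mul_mem' := by
    intro r s hr hs c
    rw [MulAut.mul_apply]
    exact (hr _).trans (hs _)
  one_mem' := fun c => Iff.rfl
  inv_mem' := by
    intro r hr c
    have := hr (r⁻¹ c)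
    rw [MulAut.apply_inv_self] at this
    exact this.symm

lemma mem_Stab {Q : Type} [Group Q] {A : Set Q} {r : MulAut Q} :
    r ∈ Stab A ↔ ∀ c, r c ∈ A ↔ c ∈ A := Iff.rfl

lemma range_normal {Q : Type} [Group Q] : (MulAut.conj : Q →* MulAut Q).range.Normal := by
  constructor
  rintro _ ⟨g, rfl⟩ r
  refine ⟨r g, ?_⟩
  ext c
  simp [MulAut.conj_apply, MulAut.mul_apply]

lemma conj_mem [Finite K] (p : ℕ) [Fact p.Prime] (P : Sylow p (PSLn 2 K)) (A : Set (PSLn 2 K))
    (hA : ((P : Subgroup (PSLn 2 K)) : Set (PSLn 2 K)) = A) (r : MulAut (PSLn 2 K)) :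
    ∃ g : PSLn 2 K, (MulAut.conj g)⁻¹ * r ∈ Stab A := by
  obtain ⟨g, hg⟩ := MulAction.exists_smul_eq (PSLn 2 K) P (r • P)
  refine ⟨g, ?_⟩
  rw [Sylow.smul_def] at hg
  have hs : ((MulAut.conj g)⁻¹ * r) • P = P := by
    rw [mul_smul, ← hg, inv_smul_smul]
  rw [mem_Stab]
  intro c
  have h1 : (((MulAut.conj g)⁻¹ * r) • P : Sylow p (PSLn 2 K)).toSubgroup =
      ((MulAut.conj g)⁻¹ * r) • P.toSubgroup := rfl
  rw [hs] at h1
  rw [← hA]
  have h2 : ((MulAut.conj g)⁻¹ * r) • c ∈ ((MulAut.conj g)⁻¹ * r) • P.toSubgroup ↔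
      c ∈ P.toSubgroup := Subgroup.smul_mem_pointwise_smul_iff
  rw [← h1] at h2
  exact h2

lemma sl2_fix (r : MulAut (PSLn 2 K))
    (h0 : ∀ c ∈ AA (Pi.single (0 : Fin 2) (1 : K)), r c = c)
    (h1 : ∀ c ∈ AA (Pi.single (1 : Fin 2) (1 : K)), r c = c) : r = 1 := by
  have key : ∀ g : SLn 2 K, r (QuotientGroup.mk g : PSLn 2 K) = QuotientGroup.mk g := by
    intro g
    refine Matrix.SL2.transvection_induction
      (fun g : Matrix.SpecialLinearGroup (Fin 2) K =>
        r (QuotientGroup.mk g : PSLn 2 K) = QuotientGroup.mk g) ?_ ?_ g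
    · intro i j hij c
      fin_cases i
      · obtain rfl : j = 1 := by fin_cases j <;> tauto
        apply h0
        refine ⟨_, Pi.single 1 c, ⟨by simp, ?_⟩, rfl⟩
        rw [Matrix.SpecialLinearGroup.transvection_coe]
        congr 1
        ext a b
        fin_cases a <;> fin_cases b <;> simp [Matrix.vecMulVec_apply]
      · obtain rfl : j = 0 := by fin_cases j <;> tauto
        apply h1
        refine ⟨_, Pi.single 0 c, ⟨by simp, ?_⟩, rfl⟩
        rw [Matrix.SpecialLinearGroup.transvection_coe]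
        congr 1
        ext a b
        fin_cases a <;> fin_cases b <;> simp [Matrix.vecMulVec_apply]
    · intro A B hA hB
      have : (QuotientGroup.mk (A * B) : PSLn 2 K) = QuotientGroup.mk A * QuotientGroup.mk B := rfl
      rw [this, map_mul, hA, hB]
  ext c
  induction c using QuotientGroup.induction_on with
  | H g => exact key g

end OU2M

open OU2M in
theorem specOU2 (hSYL : SpecSYL) (hLFT : SpecLFT.{0}) (hS2A : SpecS2A) (hS2B : SpecS2B) :
    SpecOU2 := by
  intro K _ _ R hR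
  obtain ⟨p, hp⟩ := CharP.exists K
  have hpp := hp
  have : Fact p.Prime := ⟨CharP.char_is_prime K p⟩
  obtain ⟨P, hP⟩ := hSYL 2 K p le_rfl
  have hP' : ((P : Subgroup (PSLn 2 K)) : Set (PSLn 2 K)) =
      AA (Pi.single (0 : Fin 2) (1 : K)) := by rw [hP, ut_eq]
  have : Finite (MulAut (PSLn 2 K)) := DFunLike.finite _
  have hle : R ≤ (MulAut.conj : PSLn 2 K →* MulAut (PSLn 2 K)).range ⊔
      Stab (AA (Pi.single (0 : Fin 2) (1 : K))) := by
    intro r _
    obtain ⟨g, hg⟩ := conj_mem p P _ hP' r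
    have : r = MulAut.conj g * ((MulAut.conj g)⁻¹ * r) := by group
    rw [this]
    exact Subgroup.mul_mem_sup ⟨g, rfl⟩ hg
  obtain ⟨R₁, hR₁, hperf, hRR⟩ := hLFT (MulAut (PSLn 2 K)) _ R _ range_normal hR hle
  have h0 : ∀ r ∈ R₁, ∀ c ∈ AA (Pi.single (0 : Fin 2) (1 : K)), r c = c :=
    hS2A K 0 R₁ hperf (fun r hr c hc => (mem_Stab.1 (hR₁ hr) c).2 hc)
  have h1 : ∀ r ∈ R₁, ∀ c ∈ AA (Pi.single (1 : Fin 2) (1 : K)), r c = c :=
    hS2A K 1 R₁ hperf (hS2B K R₁ hperf h0)
  have hbot : R₁ = ⊥ := by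
    rw [eq_bot_iff]
    intro r hr
    exact sl2_fix r (h0 r hr) (h1 r hr)
  rw [hbot, sup_bot_eq] at hRR
  exact hRR

end Pool.Agent.Lib.MP66ef6b.PL
end

section
set_option autoImplicit false

/-! # MP_66ef6b_al, THEOREM L: module OU3 -/

namespace Pool.Agent.Lib.MP66ef6b.PL

open scoped Matrix

namespace OU3M

variable {n : ℕ} {K : Type} [Field K]

theorem isTv_conj {h : SLn n K} {v φ : Fin n → K} (H : IsTv h v φ) (g : SLn n K) :
    IsTv (g * h * g⁻¹) (g.1 *ᵥ v) (φ ᵥ* (g⁻¹).1) := by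
  have hg : (g⁻¹).1 * g.1 = 1 := congrArg Subtype.val (inv_mul_cancel g)
  have hg' : g.1 * (g⁻¹).1 = 1 := congrArg Subtype.val (mul_inv_cancel g)
  refine ⟨?_, ?_⟩
  · rw [← Matrix.dotProduct_mulVec, Matrix.mulVec_mulVec, hg, Matrix.one_mulVec]
    exact H.1
  · have h1 : (g * h * g⁻¹).1 = g.1 * h.1 * (g⁻¹).1 := by
      rfl
    rw [h1, H.2, mul_add, mul_one, add_mul, hg', Matrix.mul_vecMulVec, Matrix.vecMulVec_mul]

theorem isTv_smul {h : SLn n K} {v φ : Fin n → K} {c : K} (H : IsTv h (c • v) φ) :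
    IsTv h v (c • φ) := by
  refine ⟨?_, ?_⟩
  · have h1 := H.1
    rw [dotProduct_smul] at h1
    rw [smul_dotProduct]
    exact h1
  · rw [H.2, Matrix.smul_vecMulVec, Matrix.vecMulVec_smul]

theorem isTv_smul' {h : SLn n K} {v φ : Fin n → K} {c : K} (H : IsTv h v (c • φ)) :
    IsTv h (c • v) φ := by
  refine ⟨?_, ?_⟩
  · have h1 := H.1
    rw [smul_dotProduct] at h1
    rw [dotProduct_smul]
    exact h1
  · rw [H.2, Matrix.smul_vecMulVec, Matrix.vecMulVec_smul]

theorem mem_AA {v : Fin n → K} {g : SLn n K} {c : K} (hg : g.1 *ᵥ v = c • v)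
    {a : PSLn n K} (ha : a ∈ AA v) :
    (QuotientGroup.mk g : PSLn n K) * a * (QuotientGroup.mk g : PSLn n K)⁻¹ ∈ AA v := by
  obtain ⟨h, φ, H, rfl⟩ := ha
  refine ⟨g * h * g⁻¹, c • (φ ᵥ* (g⁻¹).1), ?_, rfl⟩
  have h1 := isTv_conj H g
  rw [hg] at h1
  exact isTv_smul h1

theorem mem_BB {φ : Fin n → K} {g : SLn n K} {c : K}
    (hg : φ ᵥ* (g⁻¹).1 = c • φ) {a : PSLn n K} (ha : a ∈ BB φ) :
    (QuotientGroup.mk g : PSLn n K) * a * (QuotientGroup.mk g : PSLn n K)⁻¹ ∈ BB φ := by
  obtain ⟨h, v, H, rfl⟩ := ha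
  refine ⟨g * h * g⁻¹, c • (g.1 *ᵥ v), ?_, rfl⟩
  have h1 := isTv_conj H g
  rw [hg] at h1
  exact isTv_smul' h1

/-- the subgroup of the automorphisms which preserve a set -/
def stab {Q : Type} [Group Q] (A : Set Q) : Subgroup (MulAut Q) where
  carrier := {y | ∀ c, c ∈ A ↔ y c ∈ A}
  one_mem' := fun c => by simp
  mul_mem' := by
    intro a b ha hb c
    rw [hb c, ha (b c)]
    rfl
  inv_mem' := by
    intro a ha c
    have := ha (a⁻¹ c)
    rw [this, MulAut.apply_inv_self]

/-- the subgroup of the automorphisms which fix a set pointwise -/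
def fix {Q : Type} [Group Q] (A : Set Q) : Subgroup (MulAut Q) where
  carrier := {y | ∀ c ∈ A, y c = c}
  one_mem' := fun c _ => by simp
  mul_mem' := by
    intro a b ha hb c hc
    rw [MulAut.mul_apply, hb c hc, ha c hc]
  inv_mem' := by
    intro a ha c hc
    have h := ha c hc
    calc a⁻¹ c = a⁻¹ (a c) := by rw [h]
      _ = c := MulAut.inv_apply_self _ _ _

theorem conj_normal {Q : Type} [Group Q] :
    (MulAut.conj : Q →* MulAut Q).range.Normal := by
  refine ⟨?_⟩
  rintro _ ⟨q, rfl⟩ r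
  refine ⟨r q, ?_⟩
  ext c
  simp [MulAut.mul_apply, MulAut.conj_apply]

theorem finiteAut {Q : Type} [Group Q] [Finite Q] : Finite (MulAut Q) :=
  inferInstanceAs (Finite (Q ≃* Q))

end OU3M

open OU3M in
theorem specOU3 (hAAF : SpecAAF) (hFRT : SpecFRT) (hSEM : SpecSEM) (hCNT : SpecCNT)
    (hGDD : SpecGDD) (hLFT : SpecLFT.{0}) (hPFX : SpecPFX) : SpecOU3 := by
  intro n K _ _ hn R hR
  have : Finite (SLn n K) := by
    classical
    have := Fintype.ofFinite K
    infer_instance
  have : Finite (PSLn n K) := inferInstance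
  have : Finite (MulAut (PSLn n K)) := finiteAut
  set P := (MulAut.conj : PSLn n K →* MulAut (PSLn n K)).range with hP
  have hPn : P.Normal := conj_normal
  obtain ⟨i, j, hij⟩ : ∃ i j : Fin n, i ≠ j :=
    ⟨⟨0, by omega⟩, ⟨1, by omega⟩, by simp [Fin.ext_iff]⟩
  have hei : (Pi.single i (1 : K) : Fin n → K) ≠ 0 := by
    intro h
    have := congrFun h i
    simp at this
  have hej : (Pi.single j (1 : K) : Fin n → K) ≠ 0 := by
    intro h
    have := congrFun h j
    simp at this
  obtain ⟨⟨A, hA, -, hAc⟩, -, -, -⟩ := hAAF n K (by omega) _ hei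
  obtain ⟨-, ⟨B, hB, -, hBc⟩, -, -⟩ := hAAF n K (by omega) _ hej
  have hmA : ∀ c, c ∈ A ↔ c ∈ AA (Pi.single i (1 : K)) := by
    intro c; rw [← hA]; rfl
  have hmB : ∀ c, c ∈ B ↔ c ∈ BB (Pi.single j (1 : K)) := by
    intro c; rw [← hB]; rfl
  -- step 1
  have h1 : R ≤ P ⊔ stab (AA (Pi.single i (1 : K)) : Set (PSLn n K)) := by
    intro r hr
    obtain ⟨g, hg⟩ := hFRT n K hn R hR _ hei r hr
    have h2 : (MulAut.conj g)⁻¹ * r ∈ stab (AA (Pi.single i (1 : K)) : Set (PSLn n K)) := by
      intro c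
      rw [hg c]
      have : ((MulAut.conj g)⁻¹ * r) c = g⁻¹ * r c * g := by
        rw [MulAut.mul_apply, MulAut.conj_inv_apply]
      rw [this]
    have h3 : r = MulAut.conj g * ((MulAut.conj g)⁻¹ * r) := by group
    rw [h3]
    exact Subgroup.mul_mem_sup ⟨g, rfl⟩ h2
  obtain ⟨R₁, hR₁, hR₁p, hRR₁⟩ := hLFT _ P R _ hPn hR h1
  -- step 2
  have h2 : R₁ ≤ P ⊔ fix (AA (Pi.single i (1 : K)) : Set (PSLn n K)) := by
    intro r hr
    obtain ⟨d, hd⟩ := hSEM n K hn i R₁ hR₁p
      (fun r hr c hc => (hR₁ hr c).1 hc) r hr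
    have h2 : (MulAut.conj d)⁻¹ * r ∈ fix (AA (Pi.single i (1 : K)) : Set (PSLn n K)) := by
      intro c hc
      rw [MulAut.mul_apply, hd c hc, MulAut.conj_inv_apply]
      group
    have h3 : r = MulAut.conj d * ((MulAut.conj d)⁻¹ * r) := by group
    rw [h3]
    exact Subgroup.mul_mem_sup ⟨d, rfl⟩ h2
  have h3 : R ≤ P ⊔ fix (AA (Pi.single i (1 : K)) : Set (PSLn n K)) :=
    hRR₁.trans (sup_le le_sup_left h2)
  obtain ⟨R₂, hR₂, hR₂p, hRR₂⟩ := hLFT _ P R _ hPn hR h3
  -- step 3
  have h4 : ∀ (g : SLn n K) (c : K), (∀ k, g.1 k i = if k = i then c else 0) →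
      ∀ r ∈ R₂, r (QuotientGroup.mk g : PSLn n K) = QuotientGroup.mk g := by
    intro g c hg r hr
    have hgv : g.1 *ᵥ (Pi.single i (1 : K)) = c • (Pi.single i (1 : K) : Fin n → K) := by
      ext k
      rw [Matrix.mulVec_single_one, Matrix.col_apply, hg k]
      simp [Pi.single_apply]
    have hc : c ≠ 0 := by
      intro h0
      rw [h0, zero_smul] at hgv
      have h5 : (g⁻¹).1 *ᵥ (g.1 *ᵥ (Pi.single i (1 : K))) = (Pi.single i (1 : K) : Fin n → K) := by
        rw [Matrix.mulVec_mulVec]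
        have : (g⁻¹).1 * g.1 = 1 := congrArg Subtype.val (inv_mul_cancel g)
        rw [this, Matrix.one_mulVec]
      rw [hgv, Matrix.mulVec_zero] at h5
      exact hei h5.symm
    refine hPFX _ A R₂ hAc ?_ hR₂p ?_ _ ?_ r hr
    · intro c hc
      rw [hmA]
      exact (hCNT n K hn i c).1 fun a ha => hc a ((hmA a).2 ha)
    · intro r hr a ha
      exact hR₂ hr a ((hmA a).1 ha)
    · intro a ha
      rw [hmA] at ha ⊢
      exact mem_AA hgv ha
  -- step 4
  have h5 : ∀ r ∈ R₂, ∀ b ∈ B, r b = b := by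
    intro r hr b hb
    obtain ⟨h, v, H, rfl⟩ := (hmB b).1 hb
    refine h4 h 1 ?_ r hr
    intro k
    rw [H.2]
    simp [Matrix.vecMulVec_apply, Pi.single_apply, hij, Matrix.one_apply]
  -- step 5
  have h6 : ∀ (g : SLn n K) (c : K), (∀ k, g.1 j k = if k = j then c else 0) →
      ∀ r ∈ R₂, r (QuotientGroup.mk g : PSLn n K) = QuotientGroup.mk g := by
    intro g c hg r hr
    have hgv : (Pi.single j (1 : K)) ᵥ* g.1 = c • (Pi.single j (1 : K) : Fin n → K) := by
      ext k
      rw [Matrix.single_one_vecMul, Matrix.row_apply, hg k]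
      simp [Pi.single_apply]
    have hinv : g.1 * (g⁻¹).1 = 1 := congrArg Subtype.val (mul_inv_cancel g)
    have h7 : ((Pi.single j (1 : K)) ᵥ* g.1) ᵥ* (g⁻¹).1 = (Pi.single j (1 : K) : Fin n → K) := by
      rw [Matrix.vecMul_vecMul, hinv, Matrix.vecMul_one]
    have hc : c ≠ 0 := by
      intro h0
      rw [hgv, h0, zero_smul, Matrix.zero_vecMul] at h7
      exact hej h7.symm
    have h8 : (Pi.single j (1 : K)) ᵥ* (g⁻¹).1 = c⁻¹ • (Pi.single j (1 : K) : Fin n → K) := by
      rw [hgv, Matrix.smul_vecMul] at h7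
      rw [← h7, smul_smul, inv_mul_cancel₀ hc, one_smul, h7]
    refine hPFX _ B R₂ hBc ?_ hR₂p h5 _ ?_ r hr
    · intro c hc
      rw [hmB]
      exact (hCNT n K hn j c).2 fun a ha => hc a ((hmB a).2 ha)
    · intro a ha
      rw [hmB] at ha ⊢
      exact mem_BB h8 ha
  -- step 6
  have h9 : R₂ = ⊥ := by
    rw [eq_bot_iff]
    intro r hr
    rw [Subgroup.mem_bot]
    let H : Subgroup (PSLn n K) :=
      { carrier := {d | r d = d}
        one_mem' := map_one r
        mul_mem' := by
          intro a b ha hb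
          have ha' : r a = a := ha
          have hb' : r b = b := hb
          show r (a * b) = a * b
          rw [map_mul, ha', hb']
        inv_mem' := by
          intro a ha
          have ha' : r a = a := ha
          show r a⁻¹ = a⁻¹
          rw [map_inv, ha'] }
    have hH : H = ⊤ := hGDD n K hn i j hij H (fun g c hg => h4 g c hg r hr)
      (fun g c hg => h6 g c hg r hr)
    ext d
    have : d ∈ H := by rw [hH]; trivial
    exact this
  rw [h9, sup_bot_eq] at hRR₂
  exact hRR₂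

end Pool.Agent.Lib.MP66ef6b.PL
end

section
set_option autoImplicit false

/-! # MP_66ef6b_al, THEOREM L: module OUL -/

namespace Pool.Agent.Lib.MP66ef6b.PL

universe u

namespace OULM

theorem sub_SL (n : ℕ) (K : Type) [Field K] (hn : n < 2) (a b : SLn n K) : a = b := by
  interval_cases n
  · exact Subtype.ext (Subsingleton.elim _ _)
  · have ha := a.2
    have hb := b.2
    rw [Matrix.det_fin_one] at ha hb
    apply Subtype.ext
    ext i j
    rw [Subsingleton.elim i 0, Subsingleton.elim j 0, ha, hb]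

theorem sub_PSL (n : ℕ) (K : Type) [Field K] (hn : n < 2) (a b : PSLn n K) : a = b := by
  obtain ⟨a, rfl⟩ := QuotientGroup.mk_surjective a
  obtain ⟨b, rfl⟩ := QuotientGroup.mk_surjective b
  rw [sub_SL n K hn a b]

end OULM

open OULM in
theorem specOUL (hOU3 : SpecOU3) (hOU2 : SpecOU2) : SpecOUL.{u} := by
  intro Y _ _ P hS hP R hR r hr
  obtain ⟨n, K, _, hKf, ⟨e⟩⟩ := hP
  have hPn : P.Normal := hS.normal
  have hn : 2 ≤ n := by
    by_contra hlt
    obtain ⟨a, ha, b, hb, hab⟩ := hS.noncomm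
    have h1 : (⟨a, ha⟩ : P) = ⟨b, hb⟩ := e.injective (sub_PSL n K (by omega) _ _)
    have h2 : a = b := congrArg Subtype.val h1
    exact hab (by rw [h2])
  have key : ∀ R' : Subgroup (MulAut (PSLn n K)), Perf R' →
      R' ≤ (MulAut.conj : PSLn n K →* MulAut (PSLn n K)).range := by
    intro R' hR'
    rcases Nat.lt_or_ge 2 n with h | h
    · exact hOU3 n K h R' hR'
    · obtain rfl : n = 2 := le_antisymm h hn
      exact hOU2 K R' hR'
  let ψ : Y →* MulAut (PSLn n K) := (MulAut.congr e).toMonoidHom.comp MulAut.conjNormal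
  have hperf : Perf (R.map ψ) := by
    show ⁅R.map ψ, R.map ψ⁆ = R.map ψ
    rw [← Subgroup.map_commutator, show ⁅R, R⁆ = R from hR]
  obtain ⟨q, hq⟩ := key _ hperf ⟨r, hr, rfl⟩
  have hq2 : ∀ x : P, (r : Y) * x * r⁻¹ = (e.symm q : Y) * x * (e.symm q : Y)⁻¹ := by
    intro x
    have h1 : ψ r (e x) = q * e x * q⁻¹ := by
      rw [← hq]
      rfl
    have h2 : ψ r (e x) = e (MulAut.conjNormal r x) := by
      show e (MulAut.conjNormal r (e.symm (e x))) = _
      rw [e.symm_apply_apply]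
    have h3 : MulAut.conjNormal r x = e.symm (q * e x * q⁻¹) := by
      rw [← h1, h2, e.symm_apply_apply]
    have h4 := congrArg (Subtype.val : P → Y) h3
    rw [MulAut.conjNormal_apply, map_mul, map_mul, map_inv, e.symm_apply_apply] at h4
    exact h4
  have hc : (e.symm q : Y)⁻¹ * r ∈ Subgroup.centralizer (P : Set Y) := by
    rw [Subgroup.mem_centralizer_iff]
    intro x hx
    have h := hq2 ⟨x, hx⟩
    have h' : (r : Y) * x * r⁻¹ = (e.symm q : Y) * x * (e.symm q : Y)⁻¹ := h
    calc x * ((e.symm q : Y)⁻¹ * r)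
        = (e.symm q : Y)⁻¹ * ((e.symm q : Y) * x * (e.symm q : Y)⁻¹) * r := by group
      _ = (e.symm q : Y)⁻¹ * (r * x * r⁻¹) * r := by rw [h']
      _ = (e.symm q : Y)⁻¹ * r * x := by group
  rw [hS.cent, Subgroup.mem_bot] at hc
  have : r = (e.symm q : Y) := by
    rw [inv_mul_eq_one] at hc
    exact hc.symm
  rw [this]
  exact (e.symm q).2

end Pool.Agent.Lib.MP66ef6b.PL
end
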