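import Pool.Agent.Lib.MP_66ef6b_al.PL.SpecB

/-! # S2A: perfect groups of automorphisms of `PSL_2(K)`, first part (helper83) -/

set_option autoImplicit false

namespace Pool.Agent.Lib.MP66ef6b.PL

universe u

namespace S2AM

open Matrix

variable {K : Type} [Field K]

/-- the other index. -/
def oth (i : Fin 2) : Fin 2 := 1 - i

theorem oth_ne (i : Fin 2) : oth i ≠ i := by
  fin_cases i <;> decide

theorem ne_oth (i : Fin 2) : i ≠ oth i := (oth_ne i).symm

theorem mul_kl (i : Fin 2) (A B : Matrix (Fin 2) (Fin 2) K) (k l : Fin 2) :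
    (A * B) k l = A k i * B i l + A k (oth i) * B (oth i) l := by
  rw [Matrix.mul_apply, Fin.sum_univ_two]
  fin_cases i
  · rfl
  · exact add_comm _ _

theorem ext4 (i : Fin 2) {A B : Matrix (Fin 2) (Fin 2) K} (h1 : A i i = B i i)
    (h2 : A i (oth i) = B i (oth i)) (h3 : A (oth i) i = B (oth i) i)
    (h4 : A (oth i) (oth i) = B (oth i) (oth i)) : A = B := by
  ext k l
  fin_cases i <;> fin_cases k <;> fin_cases l <;> assumption

theorem det4 (i : Fin 2) (A : Matrix (Fin 2) (Fin 2) K) :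
    A.det = A i i * A (oth i) (oth i) - A i (oth i) * A (oth i) i := by
  rw [Matrix.det_fin_two]
  fin_cases i
  · rfl
  · show A 0 0 * A 1 1 - A 0 1 * A 1 0 = A 1 1 * A 0 0 - A 1 0 * A 0 1
    ring

/-- the matrix `1 + a E_ij`. -/
def tmat (i : Fin 2) (a : K) : Matrix (Fin 2) (Fin 2) K :=
  fun k l => if k = l then 1 else if k = i then a else 0

theorem t_ii (i : Fin 2) (a : K) : tmat i a i i = 1 := by simp [tmat]
theorem t_jj (i : Fin 2) (a : K) : tmat i a (oth i) (oth i) = 1 := by simp [tmat]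
theorem t_ij (i : Fin 2) (a : K) : tmat i a i (oth i) = a := by
  simp [tmat, ne_oth i]
theorem t_ji (i : Fin 2) (a : K) : tmat i a (oth i) i = 0 := by
  simp [tmat, oth_ne i]

/-- the transvection. -/
def ts (i : Fin 2) (a : K) : SLn 2 K :=
  ⟨tmat i a, by rw [det4 i, t_ii, t_jj, t_ij, t_ji]; ring⟩

theorem ts_mul (i : Fin 2) (a b : K) : ts i a * ts i b = ts i (a + b) := by
  apply Subtype.ext
  show tmat i a * tmat i b = tmat i (a + b)
  apply ext4 i <;> simp only [mul_kl i, t_ii, t_jj, t_ij, t_ji] <;> ring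

/-- the diagonal element. -/
def dmat (i : Fin 2) (c : K) : Matrix (Fin 2) (Fin 2) K :=
  fun k l => if k = l then (if k = i then c else c⁻¹) else 0

theorem d_ii (i : Fin 2) (a : K) : dmat i a i i = a := by simp [dmat]
theorem d_jj (i : Fin 2) (a : K) : dmat i a (oth i) (oth i) = a⁻¹ := by
  simp [dmat, oth_ne i]
theorem d_ij (i : Fin 2) (a : K) : dmat i a i (oth i) = 0 := by
  simp [dmat, ne_oth i]
theorem d_ji (i : Fin 2) (a : K) : dmat i a (oth i) i = 0 := by
  simp [dmat, oth_ne i]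

def ds (i : Fin 2) (c : K) (hc : c ≠ 0) : SLn 2 K :=
  ⟨dmat i c, by rw [det4 i, d_ii, d_jj, d_ij, d_ji]; simp [hc]⟩

theorem ds_mul (i : Fin 2) (c : K) (hc : c ≠ 0) (a : K) :
    ds i c hc * ts i a = ts i (c ^ 2 * a) * ds i c hc := by
  apply Subtype.ext
  show dmat i c * tmat i a = tmat i (c ^ 2 * a) * dmat i c
  apply ext4 i <;> simp only [mul_kl i, t_ii, t_jj, t_ij, t_ji, d_ii, d_jj, d_ij, d_ji]
  · ring
  · field_simp
    ring
  · ring
  · ring

/-- the image of `1 + a E_ij`. -/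
def T (i : Fin 2) (a : K) : PSLn 2 K := QuotientGroup.mk (ts i a)

theorem T_mul (i : Fin 2) (a b : K) : T i a * T i b = T i (a + b) := by
  show (QuotientGroup.mk (ts i a * ts i b) : PSLn 2 K) = _
  rw [ts_mul]; rfl

theorem T_zero (i : Fin 2) : T i (0 : K) = 1 := by
  have h := T_mul i (0 : K) 0
  rw [add_zero] at h
  exact mul_eq_left.1 h

theorem isTv_ts (i : Fin 2) (a : K) :
    IsTv (ts i a) (Pi.single i (1 : K)) (Pi.single (oth i) a) := by
  constructor
  · simp [ne_oth i]
  · apply ext4 i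
    · show tmat i a i i = _
      rw [t_ii]; simp [Matrix.vecMulVec_apply, ne_oth i]
    · show tmat i a i (oth i) = _
      rw [t_ij]; simp [Matrix.vecMulVec_apply, ne_oth i]
    · show tmat i a (oth i) i = _
      rw [t_ji]; simp [Matrix.vecMulVec_apply, oth_ne i]
    · show tmat i a (oth i) (oth i) = _
      rw [t_jj]; simp [Matrix.vecMulVec_apply, oth_ne i]

theorem mem_AA (i : Fin 2) (c : PSLn 2 K) :
    c ∈ AA (Pi.single i (1 : K)) ↔ ∃ a, c = T i a := by
  constructor
  · rintro ⟨g, φ, ⟨h0, h1⟩, rfl⟩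
    refine ⟨φ (oth i), ?_⟩
    have h2 : φ i = 0 := by simpa using h0
    unfold T
    congr 1
    apply Subtype.ext
    show g.1 = tmat i _
    rw [h1]
    apply ext4 i
    · rw [t_ii]; simp [Matrix.vecMulVec_apply, h2]
    · rw [t_ij]; simp [Matrix.vecMulVec_apply, ne_oth i]
    · rw [t_ji]; simp [Matrix.vecMulVec_apply, oth_ne i]
    · rw [t_jj]; simp [Matrix.vecMulVec_apply, oth_ne i]
  · rintro ⟨a, rfl⟩
    exact ⟨ts i a, _, isTv_ts i a, rfl⟩

theorem T_inj [Finite K] (hAAF : SpecAAF) (i : Fin 2) {a b : K} (h : T i a = T i b) : a = b := by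
  have h1 := (hAAF 2 K le_rfl (Pi.single i 1) (by
    intro h
    have := congrFun h i
    simp at this)).2.2.1 _ _ _ _ (isTv_ts i a) (isTv_ts i b) h
  have := congrFun h1 (oth i)
  simpa using this

/-- the elements which normalise `AA e_i` act by squares. -/
theorem norm_T (i : Fin 2) (h : PSLn 2 K) (a a' : K) (ha : a ≠ 0)
    (hT : h * T i a = T i a' * h) : ∃ c : K, ∀ b, h * T i b = T i (c ^ 2 * b) * h := by
  obtain ⟨g, rfl⟩ := QuotientGroup.mk_surjective h
  have h1 : (QuotientGroup.mk (g * ts i a) : PSLn 2 K) = QuotientGroup.mk (ts i a' * g) := hT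
  rw [QuotientGroup.eq, Matrix.SpecialLinearGroup.mem_center_iff] at h1
  obtain ⟨r, -, hr⟩ := h1
  have h2 : (ts i a' * g).1 = (g * ts i a).1 * scalar (Fin 2) r := by
    have h3 : (g * ts i a) * ((g * ts i a)⁻¹ * (ts i a' * g)) = ts i a' * g := by group
    rw [← h3, Matrix.SpecialLinearGroup.coe_mul, ← hr]
  have h2' : tmat i a' * g.1 = r • (g.1 * tmat i a) := by
    have h4 : (ts i a' * g).1 = tmat i a' * g.1 := rfl
    have h5 : (g * ts i a).1 = g.1 * tmat i a := rfl
    rw [← h4, h2, h5]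
    ext k l
    simp [Matrix.scalar_apply, Matrix.mul_diagonal, mul_comm]
  have e1 := congrFun (congrFun h2' i) i
  have e3 := congrFun (congrFun h2' (oth i)) i
  have e4 := congrFun (congrFun h2' (oth i)) (oth i)
  simp only [mul_kl i, t_ii, t_jj, t_ij, t_ji, Matrix.smul_apply, smul_eq_mul] at e1 e3 e4
  have hdet := g.2
  rw [det4 i] at hdet
  have hji : g.1 (oth i) i = 0 := by
    by_cases hr1 : r = 1
    · subst hr1
      have h6 : g.1 (oth i) i * a = 0 := by linear_combination -e4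
      exact (mul_eq_zero.1 h6).resolve_right ha
    · by_contra hne
      apply hr1
      have h6 : (r - 1) * g.1 (oth i) i = 0 := by linear_combination -e3
      exact sub_eq_zero.1 ((mul_eq_zero.1 h6).resolve_right hne)
  rw [hji] at hdet
  refine ⟨g.1 i i, fun b => ?_⟩
  show (QuotientGroup.mk (g * ts i b) : PSLn 2 K) = QuotientGroup.mk (ts i _ * g)
  congr 1
  apply Subtype.ext
  show g.1 * tmat i b = tmat i (g.1 i i ^ 2 * b) * g.1
  apply ext4 i <;> simp only [mul_kl i, t_ii, t_jj, t_ij, t_ji, hji]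
  · ring
  · linear_combination -(g.1 i i) * b * hdet
  · ring
  · ring

/-- every element of a subring-like set which contains the squares. -/
theorem all_of_sq [Finite K] (P : K → Prop) (h0 : ∀ c, P (c ^ 2))
    (hs : ∀ a b, P a → P b → P (a - b)) (hm : ∀ a b, P a → P b → P (a * b)) (x : K) : P x := by
  classical
  by_cases h2 : ringChar K = 2
  · have := Fintype.ofFinite K
    obtain ⟨y, hy⟩ := FiniteField.isSquare_of_char_two h2 x
    rw [hy]
    have := h0 y
    rwa [pow_two] at this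
  · have h2' : (2 : K) ≠ 0 := Ring.two_ne_zero h2
    have h4 : P ((x + 1) ^ 2 - (x - 1) ^ 2) := hs _ _ (h0 _) (h0 _)
    have h5 : P ((2 : K)⁻¹ ^ 2) := h0 _
    have h6 := hm _ _ h5 h4
    have h7 : (2 : K)⁻¹ ^ 2 * ((x + 1) ^ 2 - (x - 1) ^ 2) = x := by
      field_simp
      ring
    rwa [h7] at h6

end S2AM

open S2AM in
theorem specS2A (hAAF : SpecAAF) (hAUT : SpecAUT) (hPHM : SpecPHM.{0}) : SpecS2A := by
  classical
  intro K _ _ i R hR hpres
  -- the maps `ρ_r`
  have hex : ∀ (r : R) (a : K), ∃ b, r.1 (T i a) = T i b := fun r a =>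
    (mem_AA i _).1 (hpres r.1 r.2 _ ((mem_AA i _).2 ⟨a, rfl⟩))
  choose ρ hρ using hex
  have inj : ∀ {a b : K}, T i a = T i b → a = b := fun h => T_inj hAAF i h
  have hone : ∀ a, ρ 1 a = a := by
    intro a
    apply inj
    rw [← hρ]; rfl
  have hmul : ∀ r s a, ρ (r * s) a = ρ r (ρ s a) := by
    intro r s a
    apply inj
    rw [← hρ, ← hρ, ← hρ]; rfl
  have hadd : ∀ r a b, ρ r (a + b) = ρ r a + ρ r b := by
    intro r a b
    apply inj
    rw [← hρ, ← T_mul, map_mul, hρ, hρ, T_mul]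
  have hzero : ∀ r, ρ r 0 = 0 := by
    intro r
    have := hadd r 0 0
    simpa using this
  have hinv : ∀ r a, ρ r (ρ r⁻¹ a) = a := by
    intro r a
    rw [← hmul, mul_inv_cancel, hone]
  have hinv' : ∀ r a, ρ r⁻¹ (ρ r a) = a := by
    intro r a
    rw [← hmul, inv_mul_cancel, hone]
  have hne : ∀ r a, a ≠ 0 → ρ r a ≠ 0 := by
    intro r a ha h
    apply ha
    rw [← hinv' r a, h, hzero]
  have hsub : ∀ r a b, ρ r (a - b) = ρ r a - ρ r b := by
    intro r a b
    have := hadd r (a - b) b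
    rw [sub_add_cancel] at this
    rw [this]; ring
  -- the scalars
  have hsc : ∀ (r : R) (m : K), ∃ m', ∀ a, ρ r (m * a) = m' * ρ r a := by
    intro r m
    apply all_of_sq (fun m => ∃ m', ∀ a, ρ r (m * a) = m' * ρ r a) ?_ ?_ ?_ m
    · intro c
      by_cases hc : c = 0
      · subst hc
        exact ⟨0, fun a => by simp [hzero]⟩
      · have hd : ∀ a, (QuotientGroup.mk (ds i c hc) : PSLn 2 K) * T i a =
            T i (c ^ 2 * a) * QuotientGroup.mk (ds i c hc) := by
          intro a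
          show (QuotientGroup.mk (ds i c hc * ts i a) : PSLn 2 K) =
            QuotientGroup.mk (ts i (c ^ 2 * a) * ds i c hc)
          rw [ds_mul]
        have hd' : ∀ a, r.1 (QuotientGroup.mk (ds i c hc)) * T i (ρ r a) =
            T i (ρ r (c ^ 2 * a)) * r.1 (QuotientGroup.mk (ds i c hc)) := by
          intro a
          rw [← hρ, ← hρ, ← map_mul, ← map_mul, hd]
        obtain ⟨c', hc'⟩ := norm_T i _ _ _ (hne r 1 one_ne_zero) (hd' 1)
        refine ⟨c' ^ 2, fun a => ?_⟩
        apply inj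
        have h1 := hd' a
        rw [hc'] at h1
        exact (mul_right_cancel h1).symm
    · rintro a b ⟨a', ha'⟩ ⟨b', hb'⟩
      refine ⟨a' - b', fun x => ?_⟩
      rw [sub_mul, hsub, ha', hb']; ring
    · rintro a b ⟨a', ha'⟩ ⟨b', hb'⟩
      refine ⟨a' * b', fun x => ?_⟩
      rw [mul_assoc, ha', hb']; ring
  choose σ hσ using hsc
  have hσu : ∀ r m m', (∀ a, ρ r (m * a) = m' * ρ r a) → σ r m = m' := by
    intro r m m' h
    have h1 := hσ r m 1
    rw [h 1] at h1
    exact (mul_right_cancel₀ (hne r 1 one_ne_zero) h1).symm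
  have hσone : ∀ r, σ r 1 = 1 := fun r => hσu r 1 1 (fun a => by simp)
  have hσzero : ∀ r, σ r 0 = 0 := fun r => hσu r 0 0 (fun a => by simp [hzero])
  have hσmul : ∀ r a b, σ r (a * b) = σ r a * σ r b := fun r a b =>
    hσu r _ _ (fun x => by rw [mul_assoc, hσ, hσ]; ring)
  have hσadd : ∀ r a b, σ r (a + b) = σ r a + σ r b := fun r a b =>
    hσu r _ _ (fun x => by rw [add_mul, hadd, hσ, hσ]; ring)
  have hσcomp : ∀ r s m, σ (r * s) m = σ r (σ s m) := fun r s m =>
    hσu _ _ _ (fun x => by rw [hmul, hσ, hσ, hmul])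
  have hσid : ∀ m, σ 1 m = m := fun m => hσu 1 m m (fun a => by rw [hone, hone])
  let κ : R →* RingAut K :=
    { toFun := fun r =>
        { toFun := σ r
          invFun := σ r⁻¹
          left_inv := fun m => by rw [← hσcomp, inv_mul_cancel, hσid]
          right_inv := fun m => by rw [← hσcomp, mul_inv_cancel, hσid]
          map_mul' := hσmul r
          map_add' := hσadd r }
      map_one' := by
        ext m
        exact hσid m
      map_mul' := fun r s => by
        ext m
        exact hσcomp r s m }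
  have hκ := hPHM _ _ R hR κ (fun x y => by
    ext m
    exact hAUT K (κ x) (κ y) m)
  have hσ1 : ∀ r m, σ r m = m := by
    intro r m
    exact congrArg (fun e : RingAut K => e m) (hκ r)
  have hlin : ∀ r m, ρ r m = m * ρ r 1 := by
    intro r m
    have := hσ r m 1
    rw [mul_one, hσ1] at this
    exact this
  let μ : R →* Kˣ :=
    { toFun := fun r => Units.mk0 (ρ r 1) (hne r 1 one_ne_zero)
      map_one' := by
        ext
        exact hone 1
      map_mul' := fun r s => by
        ext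
        show ρ (r * s) 1 = ρ r 1 * ρ s 1
        rw [hmul, hlin r (ρ s 1)]; ring }
  have hμ := hPHM _ _ R hR μ (fun x y => mul_comm _ _)
  intro r hr c hc
  obtain ⟨a, rfl⟩ := (mem_AA i c).1 hc
  have h1 : ρ ⟨r, hr⟩ 1 = 1 := congrArg (fun e : Kˣ => (e : K)) (hμ ⟨r, hr⟩)
  have h2 := hρ ⟨r, hr⟩ a
  rw [hlin, h1, mul_one] at h2
  exact h2

end Pool.Agent.Lib.MP66ef6b.PL
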