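import Pool.Agent.Lib.MP_66ef6b_al.PL.SpecB

set_option autoImplicit false

/-!
# MP_66ef6b_al, THEOREM L: module S2B (helper30)

A perfect group of automorphisms of `PSL_2(K)` which fixes the images of the upper unitriangular
matrices also preserves the set of the images of the lower unitriangular matrices.
(No Sylow theory is needed: `AA e_1 = W (AA e_0) W⁻¹`, so `r (AA e_1) = (r W) (AA e_0) (r W)⁻¹`.)
-/

namespace Pool.Agent.Lib.MP66ef6b.PL

namespace S2BM

open Matrix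

variable {K : Type} [Field K]

theorem conj_tv {n : ℕ} (h g : SLn n K) (v φ : Fin n → K) (hg : IsTv g v φ) :
    IsTv (h * g * h⁻¹) (h.1.mulVec v) (Matrix.vecMul φ (h⁻¹ : SLn n K).1) := by
  obtain ⟨h0, h1⟩ := hg
  have hh : (h⁻¹ : SLn n K).1 * h.1 = 1 := congrArg Subtype.val (inv_mul_cancel h)
  have hh' : h.1 * (h⁻¹ : SLn n K).1 = 1 := congrArg Subtype.val (mul_inv_cancel h)
  constructor
  · rw [← Matrix.dotProduct_mulVec, Matrix.mulVec_mulVec, hh, Matrix.one_mulVec, h0]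
  · have : (h * g * h⁻¹).1 = h.1 * g.1 * (h⁻¹ : SLn n K).1 := rfl
    rw [this, h1, Matrix.mul_add, Matrix.add_mul, Matrix.mul_one, hh', Matrix.mul_vecMulVec,
      Matrix.vecMulVec_mul]

theorem mem_conj {n : ℕ} (h : SLn n K) (v : Fin n → K) (x : PSLn n K) (hx : x ∈ AA v) :
    (QuotientGroup.mk h : PSLn n K) * x * (QuotientGroup.mk h : PSLn n K)⁻¹ ∈
      AA (h.1.mulVec v) := by
  obtain ⟨g, φ, hg, rfl⟩ := hx
  exact ⟨h * g * h⁻¹, _, conj_tv h g v φ hg, rfl⟩

theorem mem_conj_iff {n : ℕ} (h : SLn n K) (v : Fin n → K) (x : PSLn n K) :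
    x ∈ AA (h.1.mulVec v) ↔
      (QuotientGroup.mk h : PSLn n K)⁻¹ * x * (QuotientGroup.mk h : PSLn n K) ∈ AA v := by
  constructor
  · intro hx
    have h1 := mem_conj h⁻¹ (h.1.mulVec v) x hx
    have hh : (h⁻¹ : SLn n K).1 * h.1 = 1 := congrArg Subtype.val (inv_mul_cancel h)
    rw [Matrix.mulVec_mulVec, hh, Matrix.one_mulVec] at h1
    simpa using h1
  · intro hx
    have h1 := mem_conj h v _ hx
    have e : (QuotientGroup.mk h : PSLn n K) * ((QuotientGroup.mk h : PSLn n K)⁻¹ * x *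
        (QuotientGroup.mk h : PSLn n K)) * (QuotientGroup.mk h : PSLn n K)⁻¹ = x := by group
    rwa [e] at h1

theorem smul_sub {n : ℕ} (a : K) (v : Fin n → K) : AA (a • v) ⊆ AA v := by
  rintro x ⟨g, φ, ⟨h0, h1⟩, rfl⟩
  refine ⟨g, a • φ, ⟨?_, ?_⟩, rfl⟩
  · rw [smul_dotProduct]
    rw [dotProduct_smul] at h0
    exact h0
  · rw [h1]
    congr 1
    rw [Matrix.smul_vecMulVec, Matrix.vecMulVec_smul]

theorem smul_eq {n : ℕ} (a : K) (ha : a ≠ 0) (v : Fin n → K) : AA (a • v) = AA v := by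
  apply Set.Subset.antisymm (smul_sub a v)
  have := smul_sub a⁻¹ (a • v)
  rwa [smul_smul, inv_mul_cancel₀ ha, one_smul] at this

theorem lift_eq {n : ℕ} (g h : SLn n K)
    (e : (QuotientGroup.mk g : PSLn n K) = QuotientGroup.mk h) : ∃ z : K, g.1 = z • h.1 := by
  have h1 : h⁻¹ * g ∈ Subgroup.center (SLn n K) := (QuotientGroup.eq.1 e.symm)
  obtain ⟨z, -, hz⟩ := Matrix.SpecialLinearGroup.mem_center_iff.1 h1
  refine ⟨z, ?_⟩
  have h2 : g.1 = h.1 * (h⁻¹ * g : SLn n K).1 := by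
    have : h * (h⁻¹ * g) = g := by group
    exact (congrArg Subtype.val this).symm
  rw [h2, ← hz]
  ext i j
  simp [Matrix.scalar_apply, Matrix.mul_diagonal, mul_comm]

theorem tv_entries {g : SLn 2 K} {v φ : Fin 2 → K} (h : IsTv g v φ) :
    φ 0 * v 0 + φ 1 * v 1 = 0 ∧ g.1 0 0 = 1 + v 0 * φ 0 ∧ g.1 0 1 = v 0 * φ 1 ∧
      g.1 1 0 = v 1 * φ 0 ∧ g.1 1 1 = 1 + v 1 * φ 1 := by
  obtain ⟨h0, h1⟩ := h
  rw [h1]
  simp only [dotProduct, Fin.sum_univ_two] at h0
  refine ⟨h0, ?_, ?_, ?_, ?_⟩ <;> simp [Matrix.vecMulVec_apply]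

/-- the vector `(a, 1)`. -/
def va (a : K) : Fin 2 → K := ![a, 1]

theorem uniq (a b : K) (h : AA (va a) = AA (va b)) : a = b := by
  let g : SLn 2 K := ⟨!![1 + a, -a ^ 2; 1, 1 - a], by rw [Matrix.det_fin_two_of]; ring⟩
  have hg : IsTv g (va a) ![1, -a] := by
    constructor
    · simp [va, dotProduct, Fin.sum_univ_two]
    · ext i j
      fin_cases i <;> fin_cases j <;> simp [g, va, Matrix.vecMulVec_apply]
      · ring
      · ring
  have hm : (QuotientGroup.mk g : PSLn 2 K) ∈ AA (va b) := by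
    rw [← h]; exact ⟨g, _, hg, rfl⟩
  obtain ⟨k, φ, hk, e⟩ := hm
  obtain ⟨z, hz⟩ := lift_eq g k e.symm
  obtain ⟨h0, h00, h01, h10, h11⟩ := tv_entries hk
  have e00 : g.1 0 0 = z * k.1 0 0 := by rw [hz]; simp
  have e01 : g.1 0 1 = z * k.1 0 1 := by rw [hz]; simp
  have e10 : g.1 1 0 = z * k.1 1 0 := by rw [hz]; simp
  have e11 : g.1 1 1 = z * k.1 1 1 := by rw [hz]; simp
  rw [h00] at e00
  rw [h01] at e01
  rw [h10] at e10
  rw [h11] at e11
  simp only [va, g, Matrix.of_apply, Matrix.cons_val', Matrix.cons_val_zero, Matrix.cons_val_one,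
    Matrix.cons_val_fin_one] at e00 e01 e10 e11 h0
  have hz1 : z = 1 + a - b := by linear_combination (-1 : K) * e00 + b * e10
  have hz2 : z = 1 - a + b := by linear_combination (-1 : K) * e11 - b * e10 - z * h0
  have hsq : a ^ 2 = b ^ 2 := by linear_combination (-1 : K) * e01 - b ^ 2 * e10 - z * b * h0
  by_contra hne
  have hsub : a - b ≠ 0 := sub_ne_zero.2 hne
  have h2 : (2 : K) = 0 := by
    have : (2 : K) * (a - b) = 0 := by linear_combination hz2 - hz1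
    exact (mul_eq_zero.1 this).resolve_right hsub
  have h3 : a + b = 0 := by
    have : (a + b) * (a - b) = 0 := by linear_combination hsq
    exact (mul_eq_zero.1 this).resolve_right hsub
  apply hsub
  linear_combination h3 - b * h2

theorem single0 : (Pi.single (0 : Fin 2) (1 : K) : Fin 2 → K) = ![1, 0] := by
  ext i; fin_cases i <;> simp

theorem single1 : (Pi.single (1 : Fin 2) (1 : K) : Fin 2 → K) = va 0 := by
  ext i; fin_cases i <;> simp [va]

/-- `W`. -/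
def w : SLn 2 K := ⟨!![0, -1; 1, 0], by rw [Matrix.det_fin_two_of]; ring⟩

theorem w_mul : (w (K := K)).1.mulVec ![1, 0] = va 0 := by
  ext i; fin_cases i <;> simp [w, va]

/-- the upper unitriangular matrices. -/
def uu (a : K) : SLn 2 K := ⟨!![1, a; 0, 1], by rw [Matrix.det_fin_two_of]; ring⟩

theorem uu_mul (a b : K) : (uu a).1.mulVec (va b) = va (b + a) := by
  ext i; fin_cases i <;> simp [uu, va]

theorem uu_mem (a : K) : (QuotientGroup.mk (uu a) : PSLn 2 K) ∈ AA (![1, 0] : Fin 2 → K) := by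
  refine ⟨uu a, ![0, a], ⟨?_, ?_⟩, rfl⟩
  · simp [dotProduct, Fin.sum_univ_two]
  · ext i j
    fin_cases i <;> fin_cases j <;> simp [uu, Matrix.vecMulVec_apply]

theorem ne01 : ¬ ∀ x : PSLn 2 K, x ∈ AA (va (0 : K)) ↔ x ∈ AA (![1, 0] : Fin 2 → K) := by
  intro h
  let g : SLn 2 K := ⟨!![1, 0; 1, 1], by rw [Matrix.det_fin_two_of]; ring⟩
  have hg : (QuotientGroup.mk g : PSLn 2 K) ∈ AA (va (0 : K)) := by
    refine ⟨g, ![1, 0], ⟨?_, ?_⟩, rfl⟩
    · simp [va, dotProduct, Fin.sum_univ_two]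
    · ext i j
      fin_cases i <;> fin_cases j <;> simp [g, va, Matrix.vecMulVec_apply]
  obtain ⟨k, φ, hk, e⟩ := (h _).1 hg
  obtain ⟨z, hz⟩ := lift_eq g k e.symm
  obtain ⟨h0, h00, h01, h10, h11⟩ := tv_entries hk
  have e10 : g.1 1 0 = z * k.1 1 0 := by rw [hz]; simp
  rw [h10] at e10
  simp [g] at e10

/-- existence of the translation. -/
theorem exist (r : MulAut (PSLn 2 K)) (hr : ∀ c ∈ AA (![1, 0] : Fin 2 → K), r c = c) :
    ∃ a : K, ∀ x : PSLn 2 K, x ∈ AA (va (0 : K)) ↔ r x ∈ AA (va a) := by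
  have hr' : ∀ y : PSLn 2 K, y ∈ AA (![1, 0] : Fin 2 → K) ↔ r y ∈ AA (![1, 0] : Fin 2 → K) := by
    intro y
    constructor
    · intro hy; rw [hr y hy]; exact hy
    · intro hy
      have : r y = y := r.injective (hr _ hy)
      rwa [this] at hy
  obtain ⟨g, hg⟩ := QuotientGroup.mk_surjective (r (QuotientGroup.mk (w (K := K))))
  have key : ∀ x : PSLn 2 K, x ∈ AA (va (0 : K)) ↔ r x ∈ AA (g.1.mulVec (![1, 0] : Fin 2 → K)) := by
    intro x
    rw [← w_mul, mem_conj_iff, hr', mem_conj_iff, hg]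
    simp only [map_mul, map_inv]
  have hv : g.1.mulVec (![1, 0] : Fin 2 → K) = ![g.1 0 0, g.1 1 0] := by
    ext i; fin_cases i <;> simp [Matrix.mulVec, dotProduct, Fin.sum_univ_two]
  have hdet : g.1 0 0 * g.1 1 1 - g.1 0 1 * g.1 1 0 = 1 := by
    rw [← Matrix.det_fin_two]; exact g.2
  rw [hv] at key
  by_cases hy : g.1 1 0 = 0
  · exfalso
    have h00 : g.1 0 0 ≠ 0 := by
      intro h; rw [h, hy] at hdet; simp at hdet
    apply ne01 (K := K)
    intro x
    rw [key, hr' x]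
    have : (![g.1 0 0, g.1 1 0] : Fin 2 → K) = g.1 0 0 • ![1, 0] := by
      ext i; fin_cases i <;> simp [hy]
    rw [this, smul_eq _ h00]
  · refine ⟨g.1 0 0 / g.1 1 0, fun x => ?_⟩
    rw [key]
    have : (![g.1 0 0, g.1 1 0] : Fin 2 → K) = g.1 1 0 • va (g.1 0 0 / g.1 1 0) := by
      ext i; fin_cases i
      · simp [va]; field_simp
      · simp [va]
    rw [this, smul_eq _ hy]

/-- products. -/
theorem prod (r s : MulAut (PSLn 2 K)) (hr : ∀ c ∈ AA (![1, 0] : Fin 2 → K), r c = c)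
    (a b : K) (ha : ∀ x : PSLn 2 K, x ∈ AA (va (0 : K)) ↔ r x ∈ AA (va a))
    (hb : ∀ x : PSLn 2 K, x ∈ AA (va (0 : K)) ↔ s x ∈ AA (va b)) :
    ∀ x : PSLn 2 K, x ∈ AA (va (0 : K)) ↔ (r * s) x ∈ AA (va (a + b)) := by
  intro x
  rw [hb x, MulAut.mul_apply, ← uu_mul b a, mem_conj_iff]
  have h1 : va b = (uu b).1.mulVec (va (0 : K)) := by rw [uu_mul, zero_add]
  rw [h1, mem_conj_iff, ha]
  simp only [map_mul, map_inv, hr _ (uu_mem b)]

theorem uniq' (r : MulAut (PSLn 2 K)) (a b : K)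
    (ha : ∀ x : PSLn 2 K, x ∈ AA (va (0 : K)) ↔ r x ∈ AA (va a))
    (hb : ∀ x : PSLn 2 K, x ∈ AA (va (0 : K)) ↔ r x ∈ AA (va b)) : a = b := by
  apply uniq
  ext y
  obtain ⟨x, rfl⟩ := r.surjective y
  rw [← ha, ← hb]

end S2BM

open S2BM in
theorem specS2B (_h1 : SpecSYL) (_h2 : SpecAAF) (h3 : SpecPHM.{0}) : SpecS2B := by
  intro K _ _ R hR hfix r hr c hc
  rw [single0] at hfix
  rw [single1] at hc ⊢
  choose f hf using fun r : R => exist (r : MulAut (PSLn 2 K)) (hfix r r.2)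
  let κ : R →* Multiplicative K :=
    { toFun := fun r => Multiplicative.ofAdd (f r)
      map_one' := by
        have : f 1 = 0 := uniq' _ _ _ (hf 1) (fun x => by simp)
        rw [this]; rfl
      map_mul' := by
        intro r s
        have : f (r * s) = f r + f s :=
          uniq' _ _ _ (hf (r * s)) (prod _ _ (hfix r r.2) _ _ (hf r) (hf s))
        rw [this]; rfl }
  have h := h3 (MulAut (PSLn 2 K)) (Multiplicative K) R hR κ (fun x y => mul_comm _ _) ⟨r, hr⟩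
  have h0 : f ⟨r, hr⟩ = 0 := Multiplicative.ofAdd.injective h
  have h4 := (hf ⟨r, hr⟩ c).1 hc
  rw [h0] at h4
  exact h4

end Pool.Agent.Lib.MP66ef6b.PL
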