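import Pool.Agent.Lib.MP_66ef6b_al.PL.SpecB

set_option autoImplicit false

/-!
# MP_66ef6b_al, THEOREM L: module SEM (helper21): a perfect group acts on `AA e_i` as `Q`
-/

namespace Pool.Agent.Lib.MP66ef6b.PL

namespace SEMM

open Matrix

variable {n : ℕ} {K : Type} [Field K]

theorem det_tv (v φ : Fin n → K) : (1 + vecMulVec v φ).det = 1 + φ ⬝ᵥ v := by
  rw [vecMulVec_eq Unit, det_one_add_replicateCol_mul_replicateRow]

/-- functionals vanishing at `e_i`. -/
def W (K : Type) [Field K] (i : Fin n) : Submodule K (Fin n → K) :=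
  LinearMap.ker (LinearMap.proj i : (Fin n → K) →ₗ[K] K)

theorem mem_W (i : Fin n) (φ : Fin n → K) : φ ∈ W K i ↔ φ i = 0 := by
  simp [W]

/-- the transvection `1 + v φ`. -/
def tg (v φ : Fin n → K) (h : φ ⬝ᵥ v = 0) : SLn n K :=
  ⟨1 + vecMulVec v φ, by rw [det_tv, h, add_zero]⟩

theorem tg_val (v φ : Fin n → K) (h : φ ⬝ᵥ v = 0) : (tg v φ h).1 = 1 + vecMulVec v φ := rfl

theorem dot_ei (i : Fin n) (φ : W K i) : φ.1 ⬝ᵥ (Pi.single i (1 : K)) = 0 := by
  rw [dotProduct_single, mul_one]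
  exact (mem_W i φ.1).1 φ.2

/-- the transvection `1 + e_i φ`. -/
def tv (i : Fin n) (φ : W K i) : SLn n K := tg (Pi.single i (1 : K)) φ.1 (dot_ei i φ)

theorem tv_val (i : Fin n) (φ : W K i) :
    (tv i φ).1 = 1 + vecMulVec (Pi.single i (1 : K)) φ.1 := rfl

/-- its image. -/
def tau (i : Fin n) (φ : W K i) : PSLn n K := QuotientGroup.mk (tv i φ)

theorem conj_val (g t : SLn n K) (v φ : Fin n → K) (ht : t.1 = 1 + vecMulVec v φ) :
    (g * t * g⁻¹ : SLn n K).1 = 1 + vecMulVec (g.1 *ᵥ v) (φ ᵥ* (g⁻¹ : SLn n K).1) := by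
  have h1 : g.1 * (g⁻¹ : SLn n K).1 = 1 := congrArg Subtype.val (mul_inv_cancel g)
  change g.1 * t.1 * (g⁻¹ : SLn n K).1 = _
  rw [ht, mul_add, add_mul, mul_one, h1, mul_vecMulVec, vecMulVec_mul]

theorem tv_add (i : Fin n) (φ ψ : W K i) : tv i (φ + ψ) = tv i φ * tv i ψ := by
  apply Subtype.ext
  change _ = (tv i φ).1 * (tv i ψ).1
  rw [tv_val, tv_val, tv_val, add_mul, one_mul, mul_add, mul_one, vecMulVec_mul_vecMulVec,
    dot_ei, zero_smul, vecMulVec_zero, add_zero]
  change 1 + vecMulVec _ (φ.1 + ψ.1) = _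
  rw [vecMulVec_add]
  abel

theorem tau_add (i : Fin n) (φ ψ : W K i) : tau i (φ + ψ) = tau i φ * tau i ψ := by
  unfold tau
  rw [tv_add, QuotientGroup.mk_mul]

theorem mem_AA (i : Fin n) (c : PSLn n K) :
    c ∈ AA (Pi.single i (1 : K)) ↔ ∃ φ : W K i, tau i φ = c := by
  constructor
  · rintro ⟨g, φ, ⟨h1, h2⟩, hc⟩
    rw [dotProduct_single, mul_one] at h1
    refine ⟨⟨φ, (mem_W i φ).2 h1⟩, ?_⟩
    rw [← hc]
    have : tv i ⟨φ, (mem_W i φ).2 h1⟩ = g := Subtype.ext (by rw [tv_val, h2])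
    unfold tau
    rw [this]
  · rintro ⟨φ, rfl⟩
    exact ⟨tv i φ, φ.1, ⟨dot_ei i φ, tv_val i φ⟩, rfl⟩

/-- Conjugation acts linearly. -/
theorem lin (hn : 3 ≤ n) (i : Fin n) (g : SLn n K) (φ ψ : W K i)
    (h : tau i ψ = QuotientGroup.mk g * tau i φ * (QuotientGroup.mk g)⁻¹) :
    ψ.1 = g.1 i i • (φ.1 ᵥ* (g⁻¹ : SLn n K).1) := by
  have h1 : (QuotientGroup.mk (tv i ψ) : PSLn n K) = QuotientGroup.mk (g * tv i φ * g⁻¹) := by
    rw [QuotientGroup.mk_mul, QuotientGroup.mk_mul, QuotientGroup.mk_inv]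
    exact h
  rw [QuotientGroup.eq] at h1
  obtain ⟨s, -, hs⟩ := Matrix.SpecialLinearGroup.mem_center_iff.1 h1
  have h2 : (g * tv i φ * g⁻¹ : SLn n K).1 = (tv i ψ).1 * scalar (Fin n) s := by
    rw [hs]
    have h3 : g * tv i φ * g⁻¹ = tv i ψ * ((tv i ψ)⁻¹ * (g * tv i φ * g⁻¹)) := by group
    conv_lhs => rw [h3]
    rfl
  rw [conj_val g _ _ _ (tv_val i φ), tv_val, scalar_apply] at h2
  -- the scalar is one
  have hs1 : s = 1 := by
    let F : (Fin n → K) →ₗ[K] K × K :=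
      LinearMap.prod (dotProductBilin K K (φ.1 ᵥ* (g⁻¹ : SLn n K).1))
        (dotProductBilin K K ψ.1)
    have hF : LinearMap.ker F ≠ ⊥ := by
      apply LinearMap.ker_ne_bot_of_finrank_lt
      rw [Module.finrank_prod, Module.finrank_self, Module.finrank_fin_fun]
      omega
    obtain ⟨x, hx, hx0⟩ := Submodule.exists_mem_ne_zero_of_ne_bot hF
    have hx1 : (φ.1 ᵥ* (g⁻¹ : SLn n K).1) ⬝ᵥ x = 0 := congrArg Prod.fst hx
    have hx2 : ψ.1 ⬝ᵥ x = 0 := congrArg Prod.snd hx
    have h3 := congrArg (fun A : Matrix (Fin n) (Fin n) K => A *ᵥ x) h2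
    simp only [add_mulVec, one_mulVec, vecMulVec_mulVec, hx1] at h3
    rw [← mulVec_mulVec] at h3
    have h4 : (diagonal fun _ : Fin n => s) *ᵥ x = s • x := by
      ext k
      simp [mulVec_diagonal]
    rw [h4, mulVec_smul, add_mulVec, one_mulVec, vecMulVec_mulVec, hx2] at h3
    simp only [MulOpposite.op_zero, zero_smul, add_zero] at h3
    obtain ⟨k, hk⟩ := Function.ne_iff.1 hx0
    have h5 := congrFun h3 k
    simp only [Pi.smul_apply, smul_eq_mul] at h5
    have h6 : (1 - s) * x k = 0 := by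
      rw [sub_mul, one_mul, ← h5, sub_self]
    rcases mul_eq_zero.1 h6 with h7 | h7
    · exact (sub_eq_zero.1 h7).symm
    · exact absurd h7 hk
  rw [hs1, diagonal_one, mul_one] at h2
  have h3 := add_left_cancel h2
  ext k
  have h4 := congrFun (congrFun h3 i) k
  simp only [vecMulVec_apply, Pi.single_eq_same, one_mul] at h4
  rw [← h4, Pi.smul_apply, smul_eq_mul]
  congr 1
  rw [mulVec_single_one]
  rfl

/-- automorphisms preserving `AA e_i` act on `W`. -/
theorem ex_rho [Finite K] (i : Fin n) (hinj : Function.Injective (tau (K := K) i))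
    (r : MulAut (PSLn n K))
    (hr : ∀ c ∈ AA (Pi.single i (1 : K)), r c ∈ AA (Pi.single i (1 : K))) :
    ∃ f : W K i ≃+ W K i, ∀ φ, tau i (f φ) = r (tau i φ) := by
  have h1 : ∀ φ : W K i, ∃ ψ : W K i, tau i ψ = r (tau i φ) := fun φ =>
    (mem_AA i _).1 (hr _ ((mem_AA i _).2 ⟨φ, rfl⟩))
  choose F hF using h1
  have hadd : ∀ φ ψ, F (φ + ψ) = F φ + F ψ := by
    intro φ ψ
    apply hinj
    rw [hF, tau_add, tau_add, hF, hF, map_mul]
  have hFi : Function.Injective F := by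
    intro φ ψ h
    apply hinj
    apply r.injective
    rw [← hF, ← hF, h]
  let f0 : W K i →+ W K i := AddMonoidHom.mk' F hadd
  exact ⟨AddEquiv.ofBijective f0 (Finite.injective_iff_bijective.1 hFi), fun φ => hF φ⟩

/-- the extension of a map of `W` by the identity on `K e_i`. -/
theorem ex_ext (i : Fin n) (T : W K i ≃ₗ[K] W K i) (hT : LinearMap.det T.toLinearMap = 1) :
    ∃ h : SLn n K, h.1 *ᵥ Pi.single i (1 : K) = Pi.single i (1 : K) ∧
      ∀ φ : W K i, φ.1 ᵥ* h.1 = (T φ).1 := by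
  let E1 : (W K i × K) →ₗ[K] (Fin n → K) :=
    LinearMap.coprod (W K i).subtype (LinearMap.toSpanSingleton K _ (Pi.single i (1 : K)))
  let P0 : (Fin n → K) →ₗ[K] (Fin n → K) :=
    LinearMap.id - (LinearMap.toSpanSingleton K _ (Pi.single i (1 : K))) ∘ₗ LinearMap.proj i
  have hP0 : ∀ x, P0 x ∈ W K i := by
    intro x
    rw [mem_W]
    change x i - (x i • (Pi.single i (1 : K) : Fin n → K)) i = 0
    simp
  let E2 : (Fin n → K) →ₗ[K] (W K i × K) :=
    LinearMap.prod (P0.codRestrict (W K i) hP0) (LinearMap.proj i)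
  have e1 : ∀ z, E2 (E1 z) = z := by
    rintro ⟨φ, a⟩
    have hφ : φ.1 i = 0 := (mem_W i φ.1).1 φ.2
    have h0 : (E1 (φ, a)) i = a := by
      change φ.1 i + (a • (Pi.single i (1 : K) : Fin n → K)) i = a
      rw [hφ]; simp
    refine Prod.ext (Subtype.ext ?_) h0
    change E1 (φ, a) - (E1 (φ, a)) i • (Pi.single i (1 : K) : Fin n → K) = φ.1
    rw [h0]
    change φ.1 + a • (Pi.single i (1 : K) : Fin n → K) - a • (Pi.single i (1 : K) : Fin n → K) = φ.1
    abel
  have e2 : ∀ x, E1 (E2 x) = x := by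
    intro x
    change (x - x i • (Pi.single i (1 : K) : Fin n → K)) +
      x i • (Pi.single i (1 : K) : Fin n → K) = x
    abel
  let Eq : (W K i × K) ≃ₗ[K] (Fin n → K) := LinearEquiv.ofLinear E1 E2
    (LinearMap.ext e2) (LinearMap.ext e1)
  let T1 : (W K i × K) →ₗ[K] (W K i × K) := LinearMap.prodMap T.toLinearMap LinearMap.id
  let T' : (Fin n → K) →ₗ[K] (Fin n → K) := Eq.toLinearMap ∘ₗ T1 ∘ₗ Eq.symm.toLinearMap
  have hdet : LinearMap.det T' = 1 := by
    have h1 := LinearMap.det_conj T1 Eq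
    have h2 : LinearMap.det T1 = 1 := by
      have := LinearMap.det_prodMap (R := K) T.toLinearMap (LinearMap.id : K →ₗ[K] K)
      rw [hT, LinearMap.det_id, one_mul] at this
      exact this
    rw [h2] at h1
    exact h1
  have hTi : ∀ x, (T' x) i = x i := by
    intro x
    change ((T (P0.codRestrict (W K i) hP0 x)).1 + x i • (Pi.single i (1 : K) : Fin n → K)) i = x i
    have : (T (P0.codRestrict (W K i) hP0 x)).1 i = 0 :=
      (mem_W i _).1 (T (P0.codRestrict (W K i) hP0 x)).2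
    rw [Pi.add_apply, this]
    simp
  have hTW : ∀ φ : W K i, T' φ.1 = (T φ).1 := by
    intro φ
    have hφ : φ.1 i = 0 := (mem_W i φ.1).1 φ.2
    have h0 : P0.codRestrict (W K i) hP0 φ.1 = φ := by
      apply Subtype.ext
      change φ.1 - φ.1 i • (Pi.single i (1 : K) : Fin n → K) = φ.1
      rw [hφ]; simp
    change (T (P0.codRestrict (W K i) hP0 φ.1)).1 + φ.1 i • (Pi.single i (1 : K) : Fin n → K) = _
    rw [h0, hφ]; simp
  have hd : ((LinearMap.toMatrix' T')ᵀ).det = 1 := by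
    rw [det_transpose, LinearMap.det_toMatrix', hdet]
  refine ⟨⟨(LinearMap.toMatrix' T')ᵀ, hd⟩, ?_, ?_⟩
  · ext k
    change ((LinearMap.toMatrix' T')ᵀ *ᵥ Pi.single i (1 : K)) k = _
    rw [mulVec_single_one]
    change (LinearMap.toMatrix' T') i k = _
    rw [LinearMap.toMatrix'_apply]
    have h1 := hTi (Pi.single k (1 : K))
    rw [h1]
    by_cases hk : k = i
    · subst hk; simp
    · rw [Pi.single_eq_of_ne hk, Pi.single_eq_of_ne (Ne.symm hk)]
  · intro φ
    change φ.1 ᵥ* (LinearMap.toMatrix' T')ᵀ = _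
    rw [vecMul_transpose, LinearMap.toMatrix'_mulVec, hTW]

end SEMM

open SEMM Matrix

/-- SEM -/
theorem specSEM (hAAF : SpecAAF) (hSML2 : SpecSML2) (hSCM : SpecSCM) : SpecSEM := by
  intro n K _ _ hn i R hperf hR r hr
  classical
  have hei : (Pi.single i (1 : K) : Fin n → K) ≠ 0 := by
    intro h
    have := congrFun h i
    simp at this
  obtain ⟨-, -, hinj0, -⟩ := hAAF n K (by omega) (Pi.single i (1 : K)) hei
  have hinj : Function.Injective (tau (K := K) i) := by
    intro φ ψ h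
    exact Subtype.ext (hinj0 (tv i φ) (tv i ψ) φ.1 ψ.1 ⟨dot_ei i φ, tv_val i φ⟩
      ⟨dot_ei i ψ, tv_val i ψ⟩ h)
  haveI : Nontrivial (W K i) := by
    obtain ⟨j, hj⟩ : ∃ j : Fin n, j ≠ i := by
      by_cases h0 : i = ⟨0, by omega⟩
      · exact ⟨⟨1, by omega⟩, by rw [h0]; intro h; simp [Fin.ext_iff] at h⟩
      · exact ⟨⟨0, by omega⟩, fun h => h0 h.symm⟩
    refine ⟨⟨⟨Pi.single j 1, (mem_W i _).2 (Pi.single_eq_of_ne (Ne.symm hj) _)⟩, 0, ?_⟩⟩
    intro h
    have := congrFun (congrArg Subtype.val h) j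
    simp at this
  let Pr : MulAut (PSLn n K) → Prop := fun r =>
    ∀ c ∈ AA (Pi.single i (1 : K)), r c ∈ AA (Pi.single i (1 : K))
  let ρ : MulAut (PSLn n K) → W K i ≃+ W K i := fun r =>
    if h : Pr r then (ex_rho i hinj r h).choose else AddEquiv.refl _
  have hρ : ∀ r, Pr r → ∀ φ, tau i (ρ r φ) = r (tau i φ) := by
    intro r h φ
    have : ρ r = (ex_rho i hinj r h).choose := dif_pos h
    rw [this]
    exact (ex_rho i hinj r h).choose_spec φ
  have hPR : ∀ r ∈ R, Pr r := fun r hr => hR r hr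
  let D : Set (W K i →+ W K i) :=
    {d | ∃ q : PSLn n K, ∀ φ, tau i (d φ) = q * tau i φ * q⁻¹}
  obtain ⟨T, hT, hTd⟩ := hSML2 K (W K i) D (MulAut (PSLn n K)) R ρ hperf
    (by
      intro r hr s hs w
      apply hinj
      rw [hρ _ (hPR _ (R.mul_mem hr hs)), hρ _ (hPR _ hr), hρ _ (hPR _ hs)]
      rfl)
    (by
      rintro d ⟨q, hq⟩ a w
      obtain ⟨g, rfl⟩ := QuotientGroup.mk_surjective q
      apply Subtype.ext
      rw [lin hn i g (a • w) (d (a • w)) (hq _)]
      change _ = a • (d w).1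
      rw [lin hn i g w (d w) (hq _)]
      change _ • ((a • w.1) ᵥ* _) = _
      rw [smul_vecMul, smul_comm])
    (by
      intro θ hθ
      let θ' : (Fin n → K) → (Fin n → K) := fun φ =>
        if h : φ ∈ W K i then (θ ⟨φ, h⟩).1 else 0
      have hθ' : ∀ φ (h : φ ∈ W K i), θ' φ = (θ ⟨φ, h⟩).1 := fun φ h => dif_pos h
      obtain ⟨a, ha⟩ := hSCM n K hn i θ'
        (by
          intro φ ψ hφ hψ
          have h1 := (mem_W i φ).2 hφ
          have h2 := (mem_W i ψ).2 hψ
          rw [hθ' _ ((W K i).add_mem h1 h2), hθ' _ h1, hθ' _ h2]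
          refine ⟨?_, (mem_W i _).1 (θ ⟨φ, h1⟩).2⟩
          have : (⟨φ + ψ, (W K i).add_mem h1 h2⟩ : W K i) = ⟨φ, h1⟩ + ⟨ψ, h2⟩ := rfl
          rw [this, map_add]
          rfl)
        (by
          intro χ w hχ hχw φ hφ
          have h1 := (mem_W i φ).2 hφ
          have h2 := (mem_W i χ).2 hχ
          -- the map `φ ↦ φ + (φ · w) χ`
          let d : W K i →+ W K i :=
            { toFun := fun ψ => ψ + (ψ.1 ⬝ᵥ w) • ⟨χ, h2⟩
              map_zero' := by simp
              map_add' := by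
                intro ψ ψ'
                change ψ + ψ' + ((ψ.1 + ψ'.1) ⬝ᵥ w) • _ = _
                rw [add_dotProduct, add_smul]
                abel }
          have hd : d ∈ D := by
            refine ⟨QuotientGroup.mk (tg w χ hχw)⁻¹, fun ψ => ?_⟩
            have h3 : tv i (d ψ) = (tg w χ hχw)⁻¹ * tv i ψ * ((tg w χ hχw)⁻¹)⁻¹ := by
              apply Subtype.ext
              rw [conj_val _ _ _ _ (tv_val i ψ), tv_val, inv_inv, tg_val]
              have h4 : (tg w χ hχw).1 *ᵥ Pi.single i (1 : K) = Pi.single i (1 : K) := by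
                rw [tg_val, add_mulVec, one_mulVec, vecMulVec_mulVec, dotProduct_single, hχ,
                  zero_mul]
                simp
              have h5 : ((tg w χ hχw)⁻¹ : SLn n K).1 *ᵥ Pi.single i (1 : K) =
                  Pi.single i (1 : K) := by
                conv_lhs => rw [← h4]
                rw [mulVec_mulVec]
                have h6 : ((tg w χ hχw)⁻¹ : SLn n K).1 * (tg w χ hχw).1 = 1 :=
                  congrArg Subtype.val (inv_mul_cancel (tg w χ hχw))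
                rw [h6, one_mulVec]
              rw [h5, vecMul_add, vecMul_one, vecMul_vecMulVec]
              rfl
            unfold tau
            rw [h3]
            rfl
          have h3 : φ + (φ ⬝ᵥ w) • χ ∈ W K i := (W K i).add_mem h1 ((W K i).smul_mem _ h2)
          rw [hθ' _ h3, hθ' _ h1]
          have h4 : (⟨φ + (φ ⬝ᵥ w) • χ, h3⟩ : W K i) = d ⟨φ, h1⟩ := rfl
          rw [h4, hθ d hd]
          rfl)
      refine ⟨a, fun w => ?_⟩
      apply Subtype.ext
      have := ha w.1 ((mem_W i _).1 w.2)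
      rw [hθ' _ w.2] at this
      exact this)
    (by
      rintro r hr d ⟨q, hq⟩
      refine ⟨(ρ r).toAddMonoidHom.comp (d.comp (ρ r).symm.toAddMonoidHom), ⟨r q, fun φ => ?_⟩,
        fun w => ?_⟩
      · change tau i (ρ r (d ((ρ r).symm φ))) = _
        rw [hρ r (hPR r hr), hq, map_mul, map_mul, map_inv, ← hρ r (hPR r hr),
          AddEquiv.apply_symm_apply]
      · change _ = ρ r (d ((ρ r).symm (ρ r w)))
        rw [AddEquiv.symm_apply_apply])
    r hr
  obtain ⟨h, h1, h2⟩ := ex_ext i T hTd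
  refine ⟨QuotientGroup.mk h⁻¹, fun c hc => ?_⟩
  obtain ⟨φ, rfl⟩ := (mem_AA i c).1 hc
  rw [← hρ r (hPR r hr), ← hT]
  have h3 : tv i (T φ) = h⁻¹ * tv i φ * (h⁻¹)⁻¹ := by
    apply Subtype.ext
    rw [conj_val _ _ _ _ (tv_val i φ), tv_val, inv_inv, h2]
    have h5 : (h⁻¹ : SLn n K).1 *ᵥ Pi.single i (1 : K) = Pi.single i (1 : K) := by
      conv_lhs => rw [← h1]
      rw [mulVec_mulVec]
      have h6 : (h⁻¹ : SLn n K).1 * h.1 = 1 := congrArg Subtype.val (inv_mul_cancel h)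
      rw [h6, one_mulVec]
    rw [h5]
  unfold tau
  rw [h3]
  rfl

end Pool.Agent.Lib.MP66ef6b.PL
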