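import Pool.Agent.Lib.MP_66ef6b_al.PL.SpecB

set_option autoImplicit false

/-!
# MP_66ef6b_al, THEOREM L (helper14), module SYL (helper53)

The unitriangular matrices form a Sylow subgroup of `PSL_n(K)`.
-/

namespace Pool.Agent.Lib.MP66ef6b.PL

namespace SYLAux

variable {n : ℕ} {K : Type} [Field K]

theorem ut_one : (1 : SLn n K) ∈ UT n K := by
  refine ⟨fun i => by simp, fun i j h => ?_⟩
  simp [Matrix.one_apply_ne h.ne']

theorem ut_mul {g h : SLn n K} (hg : g ∈ UT n K) (hh : h ∈ UT n K) : g * h ∈ UT n K := by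
  have key : ∀ i j, j ≤ i → (g * h).1 i j = g.1 i j * h.1 j j := by
    intro i j hij
    have h1 : (g * h).1 i j = ∑ k, g.1 i k * h.1 k j := by
      rw [Matrix.SpecialLinearGroup.coe_mul, Matrix.mul_apply]
    rw [h1]
    rcases hij.lt_or_eq with hlt | heq
    · rw [Finset.sum_eq_zero]
      · rw [hg.2 i j hlt, zero_mul]
      · intro k _
        rcases lt_or_ge k i with hk | hk
        · rw [hg.2 i k hk, zero_mul]
        · rw [hh.2 k j (hlt.trans_le hk), mul_zero]
    · subst heq
      rw [Finset.sum_eq_single j]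
      · intro k _ hk
        rcases lt_or_gt_of_ne hk with hk' | hk'
        · rw [hg.2 j k hk', zero_mul]
        · rw [hh.2 k j hk', mul_zero]
      · intro hj
        exact absurd (Finset.mem_univ j) hj
  refine ⟨fun i => ?_, fun i j hij => ?_⟩
  · rw [key i i le_rfl, hg.1 i, hh.1 i, one_mul]
  · rw [key i j hij.le, hg.2 i j hij, zero_mul]

theorem ut_pow {g : SLn n K} (hg : g ∈ UT n K) (k : ℕ) : g ^ k ∈ UT n K := by
  induction k with
  | zero => rw [pow_zero]; exact ut_one
  | succ k ih => rw [pow_succ]; exact ut_mul ih hg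

theorem ut_inv [Finite K] {g : SLn n K} (hg : g ∈ UT n K) : g⁻¹ ∈ UT n K := by
  have h1 : g ^ (orderOf g - 1) * g = 1 := by
    rw [← pow_succ, Nat.sub_add_cancel (orderOf_pos g), pow_orderOf_eq_one]
  rw [inv_eq_of_mul_eq_one_left h1]
  exact ut_pow hg _

/-- the unitriangular subgroup. -/
def utSub (n : ℕ) (K : Type) [Field K] [Finite K] : Subgroup (SLn n K) where
  carrier := UT n K
  mul_mem' := fun ha hb => ut_mul ha hb
  one_mem' := ut_one
  inv_mem' := fun ha => ut_inv ha

/-- the matrix with given entries above the diagonal. -/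
def mk (f : {x : Fin n × Fin n // x.1 < x.2} → K) : Matrix (Fin n) (Fin n) K :=
  fun i j => if h : i < j then f ⟨(i, j), h⟩ else if i = j then 1 else 0

theorem mk_det (f : {x : Fin n × Fin n // x.1 < x.2} → K) : (mk f).det = 1 := by
  have h : (mk f).IsUpperTriangular := by
    intro i j hij
    have h1 : j < i := hij
    unfold mk
    rw [dif_neg h1.not_gt, if_neg h1.ne']
  rw [Matrix.det_of_isUpperTriangular h]
  apply Finset.prod_eq_one
  intro i _
  unfold mk
  simp

/-- the unitriangular matrices and their entries. -/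
def utEquiv (n : ℕ) (K : Type) [Field K] :
    UT n K ≃ ({x : Fin n × Fin n // x.1 < x.2} → K) where
  toFun g := fun x => g.1.1 x.1.1 x.1.2
  invFun f := ⟨⟨mk f, mk_det f⟩, by
    refine ⟨fun i => ?_, fun i j hij => ?_⟩
    · show mk f i i = 1
      unfold mk
      simp
    · show mk f i j = 0
      unfold mk
      rw [dif_neg hij.not_gt, if_neg hij.ne']⟩
  left_inv := by
    intro g
    apply Subtype.ext
    apply Subtype.ext
    funext i j
    show mk (fun x : {x : Fin n × Fin n // x.1 < x.2} => g.1.1 x.1.1 x.1.2) i j = g.1.1 i j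
    unfold mk
    by_cases h : i < j
    · rw [dif_pos h]
    · rw [dif_neg h]
      by_cases h' : i = j
      · rw [if_pos h', h']
        exact (g.2.1 j).symm
      · rw [if_neg h']
        exact (g.2.2 i j (lt_of_le_of_ne (not_lt.1 h) (Ne.symm h'))).symm
  right_inv := by
    intro f
    funext x
    show mk f x.1.1 x.1.2 = f x
    unfold mk
    rw [dif_pos x.2]

theorem card_pairs (n : ℕ) :
    Nat.card {x : Fin n × Fin n // x.1 < x.2} = ∑ i : Fin n, (i : ℕ) := by
  classical
  have e : {x : Fin n × Fin n // x.1 < x.2} ≃ Σ j : Fin n, {i : Fin n // i < j} :=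
    { toFun := fun x => ⟨x.1.2, ⟨x.1.1, x.2⟩⟩
      invFun := fun y => ⟨(y.2.1, y.1), y.2.2⟩
      left_inv := fun x => rfl
      right_inv := fun y => rfl }
  rw [Nat.card_congr e, Nat.card_eq_fintype_card, Fintype.card_sigma]
  apply Finset.sum_congr rfl
  intro j _
  rw [Fintype.card_subtype]
  have : (Finset.univ.filter fun i : Fin n => i < j) = Finset.Iio j := by
    ext i
    simp
  rw [this, Fin.card_Iio]

theorem card_ut (n : ℕ) (K : Type) [Field K] [Finite K] :
    Nat.card (utSub n K) = Nat.card K ^ (∑ i : Fin n, (i : ℕ)) := by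
  have h1 : Nat.card (utSub n K) = Nat.card (UT n K) := rfl
  rw [h1, Nat.card_congr (utEquiv n K), Nat.card_fun, card_pairs]

theorem card_gl (n : ℕ) (K : Type) [Field K] [Finite K] (hn : 2 ≤ n) :
    Nat.card (GL (Fin n) K) = Nat.card (SLn n K) * (Nat.card K - 1) := by
  have : Nonempty (Fin n) := ⟨⟨0, by omega⟩⟩
  have h1 := Subgroup.card_mul_index (Matrix.GeneralLinearGroup.det : GL (Fin n) K →* Kˣ).ker
  rw [Subgroup.index_ker] at h1
  have h2 : Nat.card (Matrix.GeneralLinearGroup.det : GL (Fin n) K →* Kˣ).range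
      = Nat.card K - 1 := by
    rw [MonoidHom.range_eq_top.2 Matrix.GeneralLinearGroup.det_surjective, Subgroup.card_top]
    exact Nat.card_units K
  have h3 : Nat.card (Matrix.GeneralLinearGroup.det : GL (Fin n) K →* Kˣ).ker
      = Nat.card (SLn n K) := by
    have e : SLn n K ≃ (Matrix.GeneralLinearGroup.det : GL (Fin n) K →* Kˣ).ker := by
      refine Equiv.ofBijective
        (fun g => ⟨Matrix.SpecialLinearGroup.toGL g, ?_⟩) ⟨?_, ?_⟩
      · rw [MonoidHom.mem_ker]
        have : Matrix.SpecialLinearGroup.toGL g ∈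
            (Matrix.GeneralLinearGroup.det : GL (Fin n) K → Kˣ) ⁻¹' {1} := by
          rw [← Matrix.SpecialLinearGroup.range_toGL]
          exact ⟨g, rfl⟩
        exact this
      · intro a b hab
        exact Matrix.SpecialLinearGroup.toGL_injective (congrArg Subtype.val hab)
      · rintro ⟨x, hx⟩
        have : x ∈ Set.range (Matrix.SpecialLinearGroup.toGL : SLn n K → GL (Fin n) K) := by
          rw [Matrix.SpecialLinearGroup.range_toGL]
          exact hx
        obtain ⟨g, hg⟩ := this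
        exact ⟨g, Subtype.ext hg⟩
    exact (Nat.card_congr e).symm
  rw [h2, h3] at h1
  exact h1.symm

theorem not_dvd_index (n : ℕ) (K : Type) [Field K] [Finite K] (p : ℕ) [Fact p.Prime] [CharP K p]
    (hn : 2 ≤ n) : ¬ p ∣ (utSub n K).index := by
  have : Fintype K := Fintype.ofFinite K
  obtain ⟨f, hp, hf⟩ := FiniteField.card K p
  have hq : Nat.card K = p ^ (f : ℕ) := by rw [Nat.card_eq_fintype_card, hf]
  have hq1 : 1 < Nat.card K := Finite.one_lt_card
  have hqpos : 0 < Nat.card K := by omega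
  have h1 : Nat.card (GL (Fin n) K) =
      ∏ i : Fin n, (Nat.card K ^ n - Nat.card K ^ (i : ℕ)) := by
    rw [Matrix.card_GL_field, Nat.card_eq_fintype_card]
  have h2 : ∏ i : Fin n, (Nat.card K ^ n - Nat.card K ^ (i : ℕ)) =
      Nat.card K ^ (∑ i : Fin n, (i : ℕ)) * ∏ i : Fin n, (Nat.card K ^ (n - (i : ℕ)) - 1) := by
    rw [← Finset.prod_pow_eq_pow_sum, ← Finset.prod_mul_distrib]
    apply Finset.prod_congr rfl
    intro i _
    rw [Nat.mul_sub, mul_one, ← pow_add, Nat.add_sub_cancel' i.2.le]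
  have h3 := Subgroup.card_mul_index (utSub n K)
  rw [card_ut] at h3
  have h4 := card_gl n K hn
  rw [h1, h2, ← h3] at h4
  have hne : Nat.card K ^ (∑ i : Fin n, (i : ℕ)) ≠ 0 := pow_ne_zero _ hqpos.ne'
  have h5 : ∏ i : Fin n, (Nat.card K ^ (n - (i : ℕ)) - 1) =
      (utSub n K).index * (Nat.card K - 1) := by
    apply Nat.eq_of_mul_eq_mul_left (Nat.pos_of_ne_zero hne)
    rw [h4]
    ring
  intro hdvd
  have h6 : p ∣ ∏ i : Fin n, (Nat.card K ^ (n - (i : ℕ)) - 1) := by
    rw [h5]
    exact hdvd.mul_right _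
  obtain ⟨i, _, hi⟩ := (Prime.dvd_finsetProd_iff hp.prime _).1 h6
  have hpos : 0 < n - (i : ℕ) := by omega
  have h7 : p ∣ Nat.card K ^ (n - (i : ℕ)) := by
    rw [hq, ← pow_mul]
    exact dvd_pow_self p (Nat.mul_pos f.2 hpos).ne'
  have h8 : 1 ≤ Nat.card K ^ (n - (i : ℕ)) := Nat.one_le_pow _ _ hqpos
  have h9 : p ∣ 1 := by
    have := Nat.dvd_sub h7 hi
    rwa [Nat.sub_sub_self h8] at this
  exact hp.one_lt.ne' (Nat.dvd_one.1 h9)

end SYLAux

open SYLAux in
theorem specSYL : SpecSYL := by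
  intro n K _ _ p _ _ hn
  have : Fintype K := Fintype.ofFinite K
  obtain ⟨f, hp, hf⟩ := FiniteField.card K p
  let π : SLn n K →* PSLn n K := QuotientGroup.mk' _
  have hπ : Function.Surjective π := QuotientGroup.mk'_surjective _
  have hP : IsPGroup p (utSub n K) := by
    apply IsPGroup.of_card (n := (f : ℕ) * ∑ i : Fin n, (i : ℕ))
    rw [card_ut, Nat.card_eq_fintype_card, hf, pow_mul]
  have hP2 : IsPGroup p ((utSub n K).map π) := hP.map π
  have hidx : ¬ p ∣ ((utSub n K).map π).index := by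
    intro h
    exact not_dvd_index n K p hn (h.trans (Subgroup.index_map_dvd _ hπ))
  refine ⟨hP2.toSylow hidx, ?_⟩
  rw [IsPGroup.toSylow_coe]
  ext x
  constructor
  · rintro ⟨g, hg, rfl⟩
    exact ⟨g, hg, rfl⟩
  · rintro ⟨g, hg, rfl⟩
    exact ⟨g, hg, rfl⟩

end Pool.Agent.Lib.MP66ef6b.PL
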