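import Pool.Agent.Lib.MP_66ef6b_al.PL.SpecB
import Pool.Agent.Lib.MP_66ef6b_al.PL.SpecA
import Pool.Agent.Lib.MP_66ef6b_al.PL.SpecC

section
set_option autoImplicit false

/-!
# MP_66ef6b_al, PL, module PFX: from a subgroup to its normaliser
-/

namespace Pool.Agent.Lib.MP66ef6b.PL

namespace PFXM

/-- `r d (r d)⁻¹` conjugates `A` as `d` does, so `d⁻¹ (r d)` is in `A`. -/
theorem kappa_mem {Q : Type} [Group Q] (A : Subgroup Q) (R : Subgroup (MulAut Q))
    (hC : ∀ c : Q, (∀ a ∈ A, c * a = a * c) → c ∈ A)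
    (hfix : ∀ r ∈ R, ∀ a ∈ A, r a = a) (d : Q) (hd : ∀ a ∈ A, d * a * d⁻¹ ∈ A)
    (r : MulAut Q) (hr : r ∈ R) : d⁻¹ * r d ∈ A := by
  apply hC
  intro a ha
  have h1 : r (d * a * d⁻¹) = d * a * d⁻¹ := hfix r hr _ (hd a ha)
  have h2 : r d * a * (r d)⁻¹ = d * a * d⁻¹ := by
    rw [← h1, map_mul, map_mul, map_inv, hfix r hr a ha]
  have h3 : r d * a = d * a * d⁻¹ * r d := by
    rw [← h2]
    group
  calc d⁻¹ * r d * a = d⁻¹ * (r d * a) := by group
    _ = d⁻¹ * (d * a * d⁻¹ * r d) := by rw [h3]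
    _ = a * (d⁻¹ * r d) := by group

end PFXM

theorem specPFX (hPHM : SpecPHM.{0}) : SpecPFX := by
  intro Q _ A R hab hC hP hfix d hd r hr
  let κ : R →* Q :=
    { toFun := fun x => d⁻¹ * (x : MulAut Q) d
      map_one' := by simp
      map_mul' := by
        intro x y
        have hy : d⁻¹ * (y : MulAut Q) d ∈ A := PFXM.kappa_mem A R hC hfix d hd y.1 y.2
        have h1 : (x : MulAut Q) (d⁻¹ * (y : MulAut Q) d) = d⁻¹ * (y : MulAut Q) d :=
          hfix x.1 x.2 _ hy
        have h2 : (x : MulAut Q) ((y : MulAut Q) d) = (x : MulAut Q) d * (d⁻¹ * (y : MulAut Q) d) := by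
          rw [← h1, map_mul, map_inv]
          group
        show d⁻¹ * (x.1 * y.1) d = d⁻¹ * x.1 d * (d⁻¹ * y.1 d)
        rw [MulAut.mul_apply, h2]
        group }
  have hκ : κ ⟨r, hr⟩ = 1 := by
    refine hPHM (MulAut Q) Q R hP κ ?_ ⟨r, hr⟩
    intro x y
    exact hab _ (PFXM.kappa_mem A R hC hfix d hd x.1 x.2) _
      (PFXM.kappa_mem A R hC hfix d hd y.1 y.2)
  have h4 : d⁻¹ * r d = 1 := hκ
  have h5 : d * (d⁻¹ * r d) = d := by rw [h4, mul_one]
  have h6 : d * (d⁻¹ * r d) = r d := by group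
  exact h6.symm.trans h5

end Pool.Agent.Lib.MP66ef6b.PL
end

section
set_option autoImplicit false

/-!
# MP_66ef6b_al, THEOREM L, module PHM: homomorphisms of perfect groups to commutative groups
-/

namespace Pool.Agent.Lib.MP66ef6b.PL

universe u

/-- Module PHM. -/
theorem specPHM : SpecPHM.{u} := by
  intro G A _ _ R hR κ hκ x
  have h1 : ⁅R, R⁆ ≤ κ.ker.map R.subtype := by
    rw [Subgroup.commutator_le]
    intro a ha b hb
    refine ⟨(⟨a, ha⟩ : R) * (⟨b, hb⟩ : R) * (⟨a, ha⟩ : R)⁻¹ * (⟨b, hb⟩ : R)⁻¹, ?_, rfl⟩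
    change κ ((⟨a, ha⟩ : R) * (⟨b, hb⟩ : R) * (⟨a, ha⟩ : R)⁻¹ * (⟨b, hb⟩ : R)⁻¹) = 1
    rw [map_mul, map_mul, map_mul, hκ, map_inv, map_inv, mul_inv_cancel_right, mul_inv_cancel]
  have h2 : (x : G) ∈ κ.ker.map R.subtype := h1 (by
    have h3 : ⁅R, R⁆ = R := hR
    rw [h3]; exact x.2)
  obtain ⟨y, hy, hyx⟩ := h2
  have h4 : y = x := Subtype.ext hyx
  rw [← h4]
  exact hy

end Pool.Agent.Lib.MP66ef6b.PL
end

section
set_option autoImplicit false

/-!
# MP_66ef6b_al, THEOREM L, module PRD (helper82): products of two transvections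
-/

namespace Pool.Agent.Lib.MP66ef6b.PL

namespace PRDM

open Matrix

variable {n : ℕ} {K : Type} [Field K]

theorem exists_ker (hn : 3 ≤ n) (φ ψ : Fin n → K) :
    ∃ x : Fin n → K, x ≠ 0 ∧ φ ⬝ᵥ x = 0 ∧ ψ ⬝ᵥ x = 0 := by
  let f : (Fin n → K) →ₗ[K] (Fin 2 → K) := (Matrix.of ![φ, ψ]).mulVecLin
  have h : LinearMap.ker f ≠ ⊥ := LinearMap.ker_ne_bot_of_finrank_lt (by simp; omega)
  obtain ⟨x, hx, hx0⟩ := (Submodule.ne_bot_iff _).mp h
  refine ⟨x, hx0, ?_, ?_⟩
  · have := congrFun (LinearMap.mem_ker.mp hx) 0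
    simpa [f, Matrix.mulVec] using this
  · have := congrFun (LinearMap.mem_ker.mp hx) 1
    simpa [f, Matrix.mulVec] using this

theorem lift (a b : SLn n K) (h : (QuotientGroup.mk a : PSLn n K) = QuotientGroup.mk b) :
    ∃ c : K, b.1 = c • a.1 := by
  rw [QuotientGroup.eq] at h
  obtain ⟨r, hr, hs⟩ := Matrix.SpecialLinearGroup.mem_center_iff.mp h
  refine ⟨r, ?_⟩
  have hb : b = a * (a⁻¹ * b) := by group
  have hb' : b.1 = a.1 * (a⁻¹ * b).1 := by
    conv_lhs => rw [hb]
    rfl
  rw [hb', ← hs]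
  ext i j
  simp [Matrix.mul_apply, Matrix.scalar_apply, Matrix.diagonal_apply, mul_comm]

theorem mv (u θ x : Fin n → K) :
    (1 + Matrix.vecMulVec u θ) *ᵥ x = x + (θ ⬝ᵥ x) • u := by
  rw [Matrix.add_mulVec, Matrix.one_mulVec]
  congr 1
  ext i
  simp only [Matrix.mulVec, dotProduct, Matrix.vecMulVec_apply, Pi.smul_apply, smul_eq_mul,
    Finset.sum_mul]
  exact Finset.sum_congr rfl fun j _ => by ring

theorem sep (φ ψ : Fin n → K) (hψ : ψ ≠ 0) (h : ∀ a : K, φ ≠ a • ψ) :
    ∃ y : Fin n → K, ψ ⬝ᵥ y = 0 ∧ φ ⬝ᵥ y ≠ 0 := by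
  by_contra hcon
  push Not at hcon
  obtain ⟨j, hj⟩ : ∃ j, ψ j ≠ 0 := by
    by_contra hc
    push Not at hc
    exact hψ (funext hc)
  apply h (φ j / ψ j)
  ext i
  have h1 := hcon (Pi.single i (ψ j) - Pi.single j (ψ i)) (by
    rw [dotProduct_sub, dotProduct_single, dotProduct_single]; ring)
  rw [dotProduct_sub, dotProduct_single, dotProduct_single] at h1
  simp only [Pi.smul_apply, smul_eq_mul]
  field_simp
  linear_combination h1

theorem core (hn : 3 ≤ n) (v w φ ψ v' φ' : Fin n → K) (c : K) (hφ' : φ' ⬝ᵥ v' = 0)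
    (hv : v ≠ 0) (hφ : φ ≠ 0) (hψ : ψ ≠ 0)
    (h : (1 + Matrix.vecMulVec v φ) * (1 + Matrix.vecMulVec w ψ) =
      c • (1 + Matrix.vecMulVec v' φ')) :
    (∃ a : K, w = a • v) ∨ ∃ a : K, ψ = a • φ := by
  have key : ∀ x : Fin n → K, (x + (ψ ⬝ᵥ x) • w) + (φ ⬝ᵥ (x + (ψ ⬝ᵥ x) • w)) • v =
      c • (x + (φ' ⬝ᵥ x) • v') := by
    intro x
    have h1 := congrArg (fun M : Matrix (Fin n) (Fin n) K => M *ᵥ x) h
    simp only [← Matrix.mulVec_mulVec, Matrix.smul_mulVec, mv] at h1
    exact h1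
  have hc : c = 1 := by
    obtain ⟨x, hx0, hx1, hx2⟩ := exists_ker hn φ ψ
    have h1 := key x
    rw [hx2, zero_smul, add_zero, hx1, zero_smul, add_zero] at h1
    have h2 := congrArg (fun y => φ' ⬝ᵥ y) h1
    simp only [dotProduct_smul, dotProduct_add, hφ', smul_eq_mul, mul_zero, add_zero] at h2
    by_cases h3 : φ' ⬝ᵥ x = 0
    · rw [h3, zero_smul, add_zero] at h1
      obtain ⟨i, hi⟩ : ∃ i, x i ≠ 0 := by
        by_contra hc
        push Not at hc
        exact hx0 (funext hc)
      have h4 := congrFun h1 i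
      simp only [Pi.smul_apply, smul_eq_mul] at h4
      exact mul_right_cancel₀ hi (by rw [← h4, one_mul])
    · exact mul_right_cancel₀ h3 (by rw [← h2, one_mul])
  by_contra hcon
  push Not at hcon
  obtain ⟨hw, hp⟩ := hcon
  have hp' : ∀ a : K, φ ≠ a • ψ := by
    intro a ha
    have ha0 : a ≠ 0 := by
      rintro rfl
      exact hφ (by rw [ha, zero_smul])
    exact hp a⁻¹ (by rw [ha, smul_smul, inv_mul_cancel₀ ha0, one_smul])
  obtain ⟨y, hy1, hy2⟩ := sep φ ψ hψ hp'
  have h1 := key y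
  rw [hy1, zero_smul, add_zero, hc, one_smul] at h1
  have h1' : (φ ⬝ᵥ y) • v = (φ' ⬝ᵥ y) • v' := add_left_cancel h1
  have hy3 : φ' ⬝ᵥ y ≠ 0 := by
    intro h0
    rw [h0, zero_smul, smul_eq_zero] at h1'
    rcases h1' with h | h
    · exact hy2 h
    · exact hv h
  have hv' : v' = ((φ' ⬝ᵥ y)⁻¹ * (φ ⬝ᵥ y)) • v := by
    rw [mul_smul, h1', smul_smul, inv_mul_cancel₀ hy3, one_smul]
  obtain ⟨j, hj⟩ : ∃ j, ψ j ≠ 0 := by
    by_contra hc
    push Not at hc
    exact hψ (funext hc)
  have h2 := key (Pi.single j 1)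
  rw [hc, one_smul, add_assoc] at h2
  have h2' := add_left_cancel h2
  have h3 : ψ ⬝ᵥ (Pi.single j 1 : Fin n → K) = ψ j := by
    rw [dotProduct_single, mul_one]
  rw [h3, hv', smul_smul] at h2'
  set A := φ ⬝ᵥ ((Pi.single j 1 : Fin n → K) + ψ j • w) with hA
  set B := (φ' ⬝ᵥ (Pi.single j 1 : Fin n → K)) * ((φ' ⬝ᵥ y)⁻¹ * (φ ⬝ᵥ y)) with hB
  apply hw ((ψ j)⁻¹ * (B - A))
  have h4 : ψ j • w = (B - A) • v := by
    rw [sub_smul, ← h2']
    abel
  rw [mul_smul, ← h4, smul_smul, inv_mul_cancel₀ hj, one_smul]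

end PRDM

open PRDM in
theorem specPRD : SpecPRD := by
  intro n K _ hn g g' v w φ ψ hg hg' hv hw hφ hψ hor
  rcases hor with ⟨h, v', φ', hh, hv', hφ', hmk⟩ | h1
  · obtain ⟨c, hc⟩ := lift h (g * g') hmk
    have hc' : g.1 * g'.1 = c • h.1 := hc
    rw [hg.2, hg'.2, hh.2] at hc'
    exact core hn v w φ ψ v' φ' c hh.1 hv hφ hψ hc'
  · obtain ⟨c, hc⟩ := lift (1 : SLn n K) (g * g') (by rw [h1]; rfl)
    have hc' : g.1 * g'.1 = c • (1 : Matrix (Fin n) (Fin n) K) := hc
    rw [hg.2, hg'.2] at hc'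
    refine core hn v w φ ψ 0 0 c (by simp) hv hφ hψ ?_
    rw [hc']
    simp

end Pool.Agent.Lib.MP66ef6b.PL
end

section
set_option autoImplicit false

namespace Pool.Agent.Lib.MP66ef6b.PL

namespace QUNM

open Module

/-- the matrix `(1 0; 1 1)`. -/
def gg (L : Type) [Field L] : SLn 2 L :=
  ⟨!![1, 0; 1, 1], by rw [Matrix.det_fin_two_of]; ring⟩

/-- the matrix `(1 1; 0 1)`. -/
def hh (L : Type) [Field L] : SLn 2 L :=
  ⟨!![1, 1; 0, 1], by rw [Matrix.det_fin_two_of]; ring⟩

theorem gg_not_center (L : Type) [Field L] : gg L ∉ Subgroup.center (SLn 2 L) := by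
  intro h
  rw [Subgroup.mem_center_iff] at h
  have h1 := congrArg (fun x : SLn 2 L => x.1 0 0) (h (hh L))
  simp only [Matrix.SpecialLinearGroup.coe_mul, gg, hh, Matrix.mul_apply, Fin.sum_univ_two] at h1
  simp at h1

theorem exists_D {K V : Type} [Field K] [AddCommGroup V] [Module K V] [Module.Finite K V]
    (R Q : Submodule K V) (hRQ : R ≤ Q) : ∃ D : Submodule K V, D ≤ Q ∧ (∀ x ∈ D, x ∈ R → x = 0) ∧
      finrank K D + finrank K R = finrank K Q := by
  obtain ⟨D0, hD0⟩ := Submodule.exists_isCompl (Submodule.comap Q.subtype R)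
  refine ⟨D0.map Q.subtype, Submodule.map_subtype_le Q D0, ?_, ?_⟩
  · intro x hx hxR
    rw [Submodule.mem_map] at hx
    obtain ⟨y, hy, rfl⟩ := hx
    have h1 : y ∈ Submodule.comap Q.subtype R := hxR
    have h2 : y = 0 := by
      have := (Submodule.disjoint_def.mp hD0.disjoint) y h1 hy
      exact this
    rw [h2, map_zero]
  · have h1 := Submodule.finrank_add_eq_of_isCompl hD0
    have h2 : finrank K (Submodule.comap Q.subtype R) = finrank K R :=
      (Submodule.comapSubtypeEquivOfLe hRQ).finrank_eq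
    have h3 : finrank K (D0.map Q.subtype) = finrank K D0 :=
      (Submodule.equivSubtypeMap Q D0).finrank_eq.symm
    omega

end QUNM

open QUNM Module in
theorem specQUN : SpecQUN := by
  intro K V L _ _ _ _ _ _ _ u hN2 hfr hlt
  obtain ⟨N, hN⟩ : ∃ N : V →ₗ[K] V, N = u.1.toLinearMap - LinearMap.id := ⟨_, rfl⟩
  rw [← hN] at hN2 hfr
  have huv : ∀ v : V, u v = v + N v := by
    intro v
    rw [hN]
    simp only [LinearMap.sub_apply, LinearMap.id_apply]
    show u v = v + (u v - v)
    abel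
  have hNN : ∀ v : V, N (N v) = 0 := fun v => by
    have := LinearMap.congr_fun hN2 v
    simpa using this
  have hle : LinearMap.range N ≤ LinearMap.ker N := by
    rintro _ ⟨x, rfl⟩
    exact LinearMap.mem_ker.mpr (hNN x)
  obtain ⟨D, hDker, hDdisj, hDfr⟩ := exists_D _ _ hle
  obtain ⟨C, hC⟩ := Submodule.exists_isCompl (LinearMap.ker N)
  have hrk := LinearMap.finrank_range_add_finrank_ker N
  have hCfr := Submodule.finrank_add_eq_of_isCompl hC
  have hCL : finrank K C = finrank K L := by omega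
  let e : C ≃ₗ[K] L := LinearEquiv.ofFinrankEq C L hCL
  let Φ : ((L × L) × D) →ₗ[K] V :=
    (C.subtype.comp e.symm.toLinearMap).comp
        ((LinearMap.fst K L L).comp (LinearMap.fst K (L × L) D)) +
      (N.comp (C.subtype.comp e.symm.toLinearMap)).comp
        ((LinearMap.snd K L L).comp (LinearMap.fst K (L × L) D)) +
      D.subtype.comp (LinearMap.snd K (L × L) D)
  have hΦ : ∀ (a b : L) (d : D), Φ ((a, b), d) = (e.symm a : V) + N (e.symm b : V) + (d : V) := by
    intro a b d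
    rfl
  have hinj : Function.Injective Φ := by
    rw [← LinearMap.ker_eq_bot, LinearMap.ker_eq_bot']
    rintro ⟨⟨a, b⟩, d⟩ h
    rw [hΦ] at h
    have hd : N (d : V) = 0 := hDker d.2
    have hNa : N (e.symm a : V) = 0 := by
      have := congrArg N h
      rw [map_add, map_add, hNN, hd, map_zero, add_zero, add_zero] at this
      exact this
    have ha : (e.symm a : V) = 0 :=
      (Submodule.disjoint_def.mp hC.disjoint) _ (LinearMap.mem_ker.mpr hNa) (e.symm a).2
    rw [ha, zero_add] at h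
    have hd0 : (d : V) = 0 := by
      refine hDdisj _ d.2 ?_
      refine ⟨-(e.symm b : V), ?_⟩
      rw [map_neg]
      exact neg_eq_of_add_eq_zero_right h
    rw [hd0, add_zero] at h
    have hb : (e.symm b : V) = 0 :=
      (Submodule.disjoint_def.mp hC.disjoint) _ (LinearMap.mem_ker.mpr h) (e.symm b).2
    have ha' : a = 0 := by
      have h1 : e.symm a = 0 := Subtype.ext ha
      exact (LinearEquiv.map_eq_zero_iff _).mp h1
    have hb' : b = 0 := by
      have h1 : e.symm b = 0 := Subtype.ext hb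
      exact (LinearEquiv.map_eq_zero_iff _).mp h1
    have hd' : d = 0 := Subtype.ext hd0
    rw [ha', hb', hd']
    rfl
  have hdim : finrank K ((L × L) × D) = finrank K V := by
    rw [Module.finrank_prod, Module.finrank_prod]
    omega
  let Ψ' : ((L × L) × D) ≃ₗ[K] V := LinearMap.linearEquivOfInjective Φ hinj hdim
  have hΨ' : ∀ z, Ψ' z = Φ z := fun z => rfl
  refine ⟨D, Ψ'.symm, gg L, ?_, gg_not_center L, ?_⟩
  · have : 0 < finrank K D := by omega
    exact Module.finrank_pos_iff.mp this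
  · intro β hβ
    have hfun : ∀ v : V, β (gg L) v = u v := by
      intro v
      obtain ⟨⟨⟨a, b⟩, d⟩, rfl⟩ := Ψ'.surjective v
      apply Ψ'.symm.injective
      rw [hβ]
      rw [LinearEquiv.symm_apply_apply]
      symm
      rw [LinearEquiv.symm_apply_eq, huv, hΨ', hΨ', hΦ, hΦ]
      have hd : N (d : V) = 0 := hDker d.2
      simp only [gg, Matrix.of_apply, Matrix.cons_val', Matrix.cons_val_zero, Matrix.cons_val_one,
        Matrix.cons_val_fin_one, one_mul, zero_mul, add_zero]
      rw [map_add, map_add, hNN, hd, map_add, Submodule.coe_add, map_add]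
      abel
    apply Subtype.ext
    apply LinearEquiv.ext
    intro v
    exact hfun v

end Pool.Agent.Lib.MP66ef6b.PL
end

section
set_option autoImplicit false

/-!
# MP_66ef6b_al, THEOREM L: module REP (the representation)
-/

namespace Pool.Agent.Lib.MP66ef6b.PL

universe u

open UltaM

namespace REPM

/-- the space at an index -/
abbrev VV {I : Type u} (n : I → ℕ) (K : I → Type) (i : I) : Type u := ULift.{u} (Fin (n i) → K i)

/-- the action of a matrix -/
def mact {n : ℕ} {K : Type} [Field K] (M : Matrix (Fin n) (Fin n) K) (v : ULift.{u} (Fin n → K)) :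
    ULift.{u} (Fin n → K) := ULift.up (M.mulVec v.down)

theorem mact_one {n : ℕ} {K : Type} [Field K] (v : ULift.{u} (Fin n → K)) :
    mact (1 : Matrix (Fin n) (Fin n) K) v = v := by
  unfold mact
  rw [Matrix.one_mulVec]

theorem mact_mul {n : ℕ} {K : Type} [Field K] (M N : Matrix (Fin n) (Fin n) K)
    (v : ULift.{u} (Fin n → K)) : mact (M * N) v = mact M (mact N v) := by
  unfold mact
  rw [Matrix.mulVec_mulVec]

theorem mact_zero {n : ℕ} {K : Type} [Field K] (M : Matrix (Fin n) (Fin n) K) :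
    mact M (0 : ULift.{u} (Fin n → K)) = 0 := by
  unfold mact
  rw [ULift.zero_down, Matrix.mulVec_zero]
  rfl

theorem mact_add {n : ℕ} {K : Type} [Field K] (M : Matrix (Fin n) (Fin n) K)
    (v w : ULift.{u} (Fin n → K)) : mact M (v + w) = mact M v + mact M w := by
  unfold mact
  rw [ULift.add_down, Matrix.mulVec_add]
  rfl

/-- the displacement of a matrix -/
theorem disp {n : ℕ} {K : Type} [Field K] [Finite K] (M : Matrix (Fin n) (Fin n) K) :
    (Set.range fun v : ULift.{u} (Fin n → K) => mact M v - v).Finite ∧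
    (Set.range fun v : ULift.{u} (Fin n → K) => mact M v - v).ncard ≤ Nat.card K ^ (M - 1).rank := by
  refine ⟨Set.toFinite _, ?_⟩
  have h1 : (Set.range fun v : ULift.{u} (Fin n → K) => mact M v - v) ⊆
      ULift.up '' ((LinearMap.range (M - 1).mulVecLin : Submodule K (Fin n → K)) :
        Set (Fin n → K)) := by
    rintro _ ⟨v, rfl⟩
    refine ⟨(M - 1).mulVec v.down, ⟨v.down, rfl⟩, ?_⟩
    rw [Matrix.sub_mulVec, Matrix.one_mulVec]
    rfl
  calc (Set.range fun v : ULift.{u} (Fin n → K) => mact M v - v).ncard ≤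
        (ULift.up '' ((LinearMap.range (M - 1).mulVecLin : Submodule K (Fin n → K)) :
        Set (Fin n → K))).ncard := Set.ncard_le_ncard h1 (Set.toFinite _)
    _ = ((LinearMap.range (M - 1).mulVecLin : Submodule K (Fin n → K)) :
        Set (Fin n → K)).ncard := Set.ncard_image_of_injective _ ULift.up_injective
    _ = Nat.card (LinearMap.range (M - 1).mulVecLin : Submodule K (Fin n → K)) := rfl
    _ = Nat.card K ^ (M - 1).rank := Module.natCard_eq_pow_finrank (K := K)

theorem plift_one {n : ℕ} {K : Type} [Field K] :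
    PLift (1 : PSLn n K) (1 : Matrix (Fin n) (Fin n) K) := by
  refine ⟨1, 1, one_ne_zero, rfl, ?_⟩
  rw [one_smul]
  rfl

theorem char_zero_smul {n : ℕ} {K : Type} [Field K] (p : ℕ) (hp : ringChar K = p)
    (v : ULift.{u} (Fin n → K)) : p • v = 0 := by
  apply ULift.down_injective
  rw [ULift.smul_down, ULift.zero_down]
  funext i
  rw [Pi.smul_apply, nsmul_eq_mul, ← hp, ringChar.Nat.cast_ringChar, zero_mul]
  rfl

end REPM

open REPM in
theorem specREP (hLFU : SpecLFU) (hNRM : SpecNRM.{u}) (hULF : SpecULF.{u}) : SpecREP.{u} := by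
  classical
  intro G _ _ _ hG F hF q₀ R f hfF hf1 hdata
  obtain ⟨U, hU⟩ := exists_ultra hG F hF
  have hd : ∀ E : Idx F, FData q₀ R (Nat.card E.1) f E.1 := fun E => hdata _ E.1 E.2.1 E.2.2
  choose X n K iK π x A hK hX hEX hsurj hinj hq hn hxf hπ hlift hrank using hd
  have hgX : ∀ g : G, ∀ᶠ E in (U : Filter (Idx F)), g ∈ X E := by
    intro g
    filter_upwards [hU g] with E hE
    exact hEX E hE
  -- the dimension is large
  have hbig : ∀ m : ℕ, ∀ᶠ E in (U : Filter (Idx F)), m < n E := by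
    intro m
    obtain ⟨s, hs⟩ := Infinite.exists_subset_card_eq G (m + 1)
    have h1 : ∀ᶠ E in (U : Filter (Idx F)), ∀ g ∈ s, g ∈ E.1 :=
      (Filter.eventually_all_finset s).2 fun g _ => hU g
    filter_upwards [h1] with E hE
    have h2 : (s : Set G) ⊆ (E.1 : Set G) := fun g hg => hE g hg
    have hfin : (E.1 : Set G).Finite := E.2.1
    have h3 := Set.ncard_le_ncard h2 hfin
    rw [Set.ncard_coe_finset, hs] at h3
    have h4 : (E.1 : Set G).ncard = Nat.card E.1 := rfl
    have h5 := hn E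
    omega
  -- lifts of small rank
  let D : Idx F → G → ℕ → Prop := fun E g r => ∃ h : g ∈ X E,
    ∃ A' : Matrix (Fin (n E)) (Fin (n E)) (K E), PLift (π E ⟨g, h⟩) A' ∧ (A' - 1).rank ≤ r
  have hD1 : ∀ᶠ E in (U : Filter (Idx F)), D E 1 0 := by
    refine Filter.Eventually.of_forall fun E => ⟨(X E).one_mem, 1, ?_, ?_⟩
    · have : π E ⟨1, (X E).one_mem⟩ = 1 := map_one (π E)
      rw [this]
      exact plift_one
    · rw [sub_self, Matrix.rank_zero]
  have hDf : ∀ᶠ E in (U : Filter (Idx F)), D E f R := by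
    refine Filter.Eventually.of_forall fun E => ?_
    have h1 : f ∈ X E := by
      rw [← hxf E]
      exact (x E).2
    have h2 : (⟨f, h1⟩ : X E) = x E := Subtype.ext (hxf E).symm
    refine ⟨h1, A E, ?_, hrank E⟩
    rw [h2]
    exact hlift E
  have hDm : ∀ (g h : G) (r s : ℕ), ∀ᶠ E in (U : Filter (Idx F)), D E g r → D E h s →
      D E (g * h) (r + s) := by
    intro g h r s
    refine Filter.Eventually.of_forall fun E => ?_
    rintro ⟨h1, A₁, h2, h3⟩ ⟨k1, A₂, k2, k3⟩
    refine ⟨(X E).mul_mem h1 k1, A₁ * A₂, ?_, ?_⟩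
    · have : π E ⟨g * h, (X E).mul_mem h1 k1⟩ = π E ⟨g, h1⟩ * π E ⟨h, k1⟩ := by
        rw [← map_mul]
        rfl
      rw [this]
      exact ((hLFU (n E) (K E) _ _ A₁ 1 A₂ h2).2.1 k2).1
    · have := ((hLFU (n E) (K E) _ _ A₁ 1 A₂ h2).2.1 k2).2
      omega
  have hDi : ∀ (g : G) (r : ℕ), ∀ᶠ E in (U : Filter (Idx F)), D E g r → D E g⁻¹ r := by
    intro g r
    refine Filter.Eventually.of_forall fun E => ?_
    rintro ⟨h1, A₁, h2, h3⟩
    obtain ⟨k1, -, k3⟩ := (hLFU (n E) (K E) _ 1 A₁ 1 1 h2).2.2.1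
    refine ⟨(X E).inv_mem h1, A₁⁻¹, ?_, ?_⟩
    · have : π E ⟨g⁻¹, (X E).inv_mem h1⟩ = (π E ⟨g, h1⟩)⁻¹ := by
        rw [← map_inv]
        rfl
      rw [this]
      exact k1
    · rw [k3]
      exact h3
  have hDc : ∀ (g k : G) (r : ℕ), ∀ᶠ E in (U : Filter (Idx F)), D E g r →
      D E (k * g * k⁻¹) r := by
    intro g k r
    filter_upwards [hgX k] with E hk
    rintro ⟨h1, A₁, h2, h3⟩
    obtain ⟨A₂, k1, k2⟩ := (hLFU (n E) (K E) _ (π E ⟨k, hk⟩) A₁ 1 1 h2).2.2.2.1
    refine ⟨(X E).mul_mem ((X E).mul_mem hk h1) ((X E).inv_mem hk), A₂, ?_, ?_⟩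
    · have : π E ⟨k * g * k⁻¹, (X E).mul_mem ((X E).mul_mem hk h1) ((X E).inv_mem hk)⟩ =
          π E ⟨k, hk⟩ * π E ⟨g, h1⟩ * (π E ⟨k, hk⟩)⁻¹ := by
        rw [← map_inv, ← map_mul, ← map_mul]
        rfl
      rw [this]
      exact k1
    · rw [k2]
      exact h3
  have hN := hNRM G (Idx F) U D f R hf1 hD1 hDf hDm hDi hDc
  choose r hr using hN
  -- the chosen lifts
  let Lf : G → ∀ E : Idx F, Matrix (Fin (n E)) (Fin (n E)) (K E) := fun g E =>
    if h : ∃ A' : Matrix (Fin (n E)) (Fin (n E)) (K E),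
      (∃ hg : g ∈ X E, PLift (π E ⟨g, hg⟩) A') ∧ (A' - 1).rank ≤ r g then h.choose else 1
  have hLf : ∀ (g : G) (E : Idx F), D E g (r g) → ∀ hg : g ∈ X E,
      PLift (π E ⟨g, hg⟩) (Lf g E) ∧ (Lf g E - 1).rank ≤ r g := by
    intro g E hDE hg
    obtain ⟨h1, A₁, h2, h3⟩ := hDE
    have h4 : ∃ A' : Matrix (Fin (n E)) (Fin (n E)) (K E),
      (∃ hg : g ∈ X E, PLift (π E ⟨g, hg⟩) A') ∧ (A' - 1).rank ≤ r g := ⟨A₁, ⟨h1, h2⟩, h3⟩
    have h5 : Lf g E = h4.choose := dif_pos h4
    obtain ⟨⟨_, h6⟩, h7⟩ := h4.choose_spec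
    rw [h5]
    exact ⟨h6, h7⟩
  let φ : G → ∀ E : Idx F, VV n K E → VV n K E := fun g E v => mact (Lf g E) v
  have hφ1 : ∀ᶠ E in (U : Filter (Idx F)), Lf 1 E = 1 := by
    filter_upwards [hr 1, hbig (r 1)] with E h1 h2
    obtain ⟨h3, h4⟩ := hLf 1 E h1 (X E).one_mem
    refine (hLFU (n E) (K E) _ 1 (Lf 1 E) 1 1 h3).1 ?_ ?_
    · have : π E ⟨1, (X E).one_mem⟩ = 1 := map_one (π E)
      rw [this]
      exact plift_one
    · rw [sub_self, Matrix.rank_zero]
      omega
  have hφm : ∀ g h : G, ∀ᶠ E in (U : Filter (Idx F)), Lf (g * h) E = Lf g E * Lf h E := by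
    intro g h
    filter_upwards [hr g, hr h, hr (g * h), hbig (r (g * h) + (r g + r h)), hgX g, hgX h] with E
      h1 h2 h3 h4 h5 h6
    obtain ⟨a1, a2⟩ := hLf g E h1 h5
    obtain ⟨b1, b2⟩ := hLf h E h2 h6
    obtain ⟨c1, c2⟩ := hLf (g * h) E h3 ((X E).mul_mem h5 h6)
    obtain ⟨d1, d2⟩ := (hLFU (n E) (K E) _ _ (Lf g E) 1 (Lf h E) a1).2.1 b1
    refine (hLFU (n E) (K E) _ 1 (Lf (g * h) E) (Lf g E * Lf h E) 1 c1).1 ?_ ?_
    · have : π E ⟨g * h, (X E).mul_mem h5 h6⟩ = π E ⟨g, h5⟩ * π E ⟨h, h6⟩ := by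
        rw [← map_mul]
        rfl
      rw [this]
      exact d1
    · omega
  have hφf : ∀ᶠ E in (U : Filter (Idx F)), Lf f E = A E := by
    filter_upwards [hr f, hbig (r f + R), hgX f] with E h1 h2 h3
    obtain ⟨a1, a2⟩ := hLf f E h1 h3
    have h4 : (⟨f, h3⟩ : X E) = x E := Subtype.ext (hxf E).symm
    refine (hLFU (n E) (K E) _ 1 (Lf f E) (A E) 1 a1).1 ?_ ?_
    · rw [h4]
      exact hlift E
    · have := hrank E
      omega
  let act : DistribMulAction G (UV U (VV n K)) :=
    { smul := fun g v => lift (φ g) v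
      one_smul := by
        intro v
        induction v using QuotientAddGroup.induction_on with
        | H v =>
          change lift (φ 1) (v : UV U (VV n K)) = v
          rw [lift_mk, mk_eq]
          filter_upwards [hφ1] with E hE
          show mact (Lf 1 E) (v E) = v E
          rw [hE, mact_one]
      mul_smul := by
        intro g h v
        induction v using QuotientAddGroup.induction_on with
        | H v =>
          change lift (φ (g * h)) (v : UV U (VV n K)) = lift (φ g) (lift (φ h) (v : UV U (VV n K)))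
          rw [lift_mk, lift_mk, lift_mk, mk_eq]
          filter_upwards [hφm g h] with E hE
          show mact (Lf (g * h) E) (v E) = mact (Lf g E) (mact (Lf h E) (v E))
          rw [hE, mact_mul]
      smul_zero := by
        intro g
        change lift (φ g) ((0 : ∀ E, VV n K E) : UV U (VV n K)) =
          ((0 : ∀ E, VV n K E) : UV U (VV n K))
        rw [lift_mk, mk_eq]
        exact Filter.Eventually.of_forall fun E => mact_zero (Lf g E)
      smul_add := by
        intro g v w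
        induction v using QuotientAddGroup.induction_on with
        | H v =>
          induction w using QuotientAddGroup.induction_on with
          | H w =>
            change lift (φ g) ((v + w : ∀ E, VV n K E) : UV U (VV n K)) =
              ((fun E => φ g E (v E) + φ g E (w E) : ∀ E, VV n K E) : UV U (VV n K))
            rw [lift_mk, mk_eq]
            exact Filter.Eventually.of_forall fun E => mact_add (Lf g E) (v E) (w E) }
  -- the characteristic
  obtain ⟨p, -, hp⟩ := exists_const U (fun E => ringChar (K E)) (Set.Iic q₀) (Set.finite_Iic _)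
    (Filter.Eventually.of_forall fun E => by
      have := hK E
      have := Fintype.ofFinite (K E)
      have h1 : ringChar (K E) ∣ Nat.card (K E) := by
        rw [Nat.card_eq_fintype_card]
        exact (ringChar.spec (K E) _).1 (Nat.cast_card_eq_zero (K E))
      exact (Nat.le_of_dvd Nat.card_pos h1).trans (hq E).le)
  have hprime : p.Prime := by
    obtain ⟨E, hE⟩ := hp.exists
    have := hK E
    have h1 : (ringChar (K E)).Prime :=
      (CharP.char_is_prime_or_zero (K E) (ringChar (K E))).resolve_right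
        (CharP.ringChar_ne_zero_of_finite (K E))
    rw [← hE]
    exact h1
  have hdisp : ∀ (g : G) (s : ℕ), (∀ᶠ E in (U : Filter (Idx F)), (Lf g E - 1).rank ≤ s) →
      (Set.range fun v : UV U (VV n K) => lift (φ g) v - v).Finite ∧
      (Set.range fun v : UV U (VV n K) => lift (φ g) v - v).ncard ≤ q₀ ^ s := by
    intro g s hs
    refine hULF (Idx F) U (VV n K) (φ g) (q₀ ^ s) ?_
    filter_upwards [hs] with E hE
    have := hK E
    obtain ⟨h1, h2⟩ := disp.{u} (Lf g E)
    refine ⟨h1, h2.trans ?_⟩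
    have h3 : 0 < Nat.card (K E) := Nat.card_pos
    calc Nat.card (K E) ^ (Lf g E - 1).rank ≤ Nat.card (K E) ^ s := Nat.pow_le_pow_right h3 hE
      _ ≤ q₀ ^ s := Nat.pow_le_pow_left (hq E).le s
  refine ⟨p, UV U (VV n K), inferInstance, act, hprime, ?_, ?_, ?_, ?_⟩
  · intro v
    induction v using QuotientAddGroup.induction_on with
    | H v =>
      have h0 : (0 : UV U (VV n K)) = ((0 : ∀ E, VV n K E) : UV U (VV n K)) := rfl
      rw [← QuotientAddGroup.mk_nsmul, h0, mk_eq]
      filter_upwards [hp] with E hE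
      rw [Pi.smul_apply, Pi.zero_apply]
      exact char_zero_smul p hE (v E)
  · intro g
    refine (hdisp g (r g) ?_).1
    filter_upwards [hr g, hgX g] with E h1 h2
    exact (hLf g E h1 h2).2
  · refine (hdisp f R ?_).2
    filter_upwards [hφf] with E hE
    rw [hE]
    exact hrank E
  · have h1 : ∀ E : Idx F, ∃ v : VV n K E, mact (A E) v ≠ v := by
      intro E
      by_contra hcon
      push Not at hcon
      have h2 : A E ≠ 1 := (hLFU (n E) (K E) _ 1 (A E) 1 1 (hlift E)).2.2.2.2 (hπ E)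
      apply h2
      apply Matrix.toLin'.injective
      apply LinearMap.ext
      intro w
      have h3 := congrArg ULift.down (hcon (ULift.up w))
      rw [Matrix.toLin'_apply, Matrix.toLin'_apply, Matrix.one_mulVec]
      exact h3
    choose v hv using h1
    refine ⟨((fun E => v E : ∀ E, VV n K E) : UV U (VV n K)), ?_⟩
    intro h
    have h2 : ((fun E => φ f E (v E) : ∀ E, VV n K E) : UV U (VV n K)) =
        ((fun E => v E : ∀ E, VV n K E) : UV U (VV n K)) := h
    rw [mk_eq] at h2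
    obtain ⟨E, h3, h4⟩ := (h2.and hφf).exists
    apply hv E
    have h5 : mact (Lf f E) (v E) = v E := h3
    rwa [h4] at h5

end Pool.Agent.Lib.MP66ef6b.PL
end

section
set_option autoImplicit false

/-!
# MP_66ef6b_al, THEOREM L, module SCM: maps commuting with the transvections are scalars
-/

namespace Pool.Agent.Lib.MP66ef6b.PL

namespace SCMM

lemma key {n : ℕ} {K : Type} [Field K] {i : Fin n} {θ : (Fin n → K) → (Fin n → K)}
    (hadd : ∀ φ ψ : Fin n → K, φ i = 0 → ψ i = 0 → θ (φ + ψ) = θ φ + θ ψ ∧ θ φ i = 0)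
    (htv : ∀ χ w : Fin n → K, χ i = 0 → χ ⬝ᵥ w = 0 → ∀ φ : Fin n → K, φ i = 0 →
      θ (φ + (φ ⬝ᵥ w) • χ) = θ φ + (θ φ ⬝ᵥ w) • χ)
    (l : Fin n) (hl : l ≠ i) (χ : Fin n → K) (h1 : χ i = 0) (h2 : χ l = 0) :
    θ χ = (θ (Pi.single l 1)) l • χ := by
  have hs : (Pi.single l (1 : K) : Fin n → K) i = 0 := Pi.single_eq_of_ne hl.symm 1
  have h3 := htv χ (Pi.single l 1) h1 (by rw [dotProduct_single, h2, zero_mul])
    (Pi.single l 1) hs
  rw [dotProduct_single, dotProduct_single, Pi.single_eq_same, mul_one, one_smul, mul_one,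
    (hadd _ _ hs h1).1] at h3
  exact add_left_cancel h3

end SCMM

theorem specSCM : SpecSCM := by
  intro n K _ hn i θ hadd htv
  have hc : 1 < (Finset.univ.erase i).card := by
    rw [Finset.card_erase_of_mem (Finset.mem_univ i), Finset.card_univ, Fintype.card_fin]
    omega
  obtain ⟨j, hj, k, hk, hjk⟩ := Finset.one_lt_card.1 hc
  have hji : j ≠ i := Finset.ne_of_mem_erase hj
  have hki : k ≠ i := Finset.ne_of_mem_erase hk
  have key := SCMM.key hadd htv
  have hjk' : θ (Pi.single j 1) j = θ (Pi.single k 1) k := by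
    have h := congrFun (key k hki (Pi.single j 1) (Pi.single_eq_of_ne hji.symm 1)
      (Pi.single_eq_of_ne hjk.symm 1)) j
    rw [Pi.smul_apply, Pi.single_eq_same, smul_eq_mul, mul_one] at h
    exact h
  refine ⟨θ (Pi.single k 1) k, fun φ hφ => ?_⟩
  have h0 : (Pi.single j (φ j) : Fin n → K) i = 0 := Pi.single_eq_of_ne hji.symm _
  have h0' : (φ - (Pi.single j (φ j) : Fin n → K)) i = 0 := by
    rw [Pi.sub_apply, hφ, h0, sub_zero]
  have h1 := key k hki (Pi.single j (φ j)) h0 (Pi.single_eq_of_ne hjk.symm _)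
  have h2 := key j hji (φ - (Pi.single j (φ j) : Fin n → K)) h0' (by
    rw [Pi.sub_apply, Pi.single_eq_same, sub_self])
  have h3 : φ = (Pi.single j (φ j) : Fin n → K) + (φ - (Pi.single j (φ j) : Fin n → K)) := by abel
  have h4 := (hadd _ _ h0 h0').1
  rw [← h3, h1, h2, hjk', ← smul_add, ← h3] at h4
  exact h4

end Pool.Agent.Lib.MP66ef6b.PL
end

section
set_option autoImplicit false

/-!
# MP_66ef6b_al, THEOREM L, module SL2F: elements of `SL_2(L)` with many fixed points
-/

namespace Pool.Agent.Lib.MP66ef6b.PL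

namespace SL2FM

variable {Γ : Type} (Ω : Type) [Group Γ] [MulAction Γ Ω]

/-- The points which are not fixed by the whole group. -/
def mv : SubMulAction Γ Ω where
  carrier := (fx Ω (Set.univ : Set Γ))ᶜ
  smul_mem' := by
    intro c x hx h
    refine hx fun a _ => ?_
    have h1 : c⁻¹ • (c • x) = c • x := h c⁻¹ (Set.mem_univ _)
    rw [inv_smul_smul] at h1
    rw [h1]
    exact h a (Set.mem_univ _)

theorem mv_fx : fx (mv (Γ := Γ) Ω) (Set.univ : Set Γ) = ∅ := by
  rw [Set.eq_empty_iff_forall_notMem]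
  intro ω hω
  exact ω.2 fun a ha => congrArg Subtype.val (hω a ha)

theorem sub (g : Γ) :
    fx Ω {g} ⊆ fx Ω (Set.univ : Set Γ) ∪ Subtype.val '' (fx (mv (Γ := Γ) Ω) {g}) := by
  intro ω hω
  by_cases h : ω ∈ fx Ω (Set.univ : Set Γ)
  · exact Or.inl h
  · exact Or.inr ⟨⟨ω, h⟩, fun a ha => Subtype.ext (hω a ha), rfl⟩

theorem card_le [Finite Ω] (g : Γ) :
    (fx Ω {g}).ncard ≤ (fx Ω (Set.univ : Set Γ)).ncard + (fx (mv (Γ := Γ) Ω) {g}).ncard := by
  refine (Set.ncard_le_ncard (sub Ω g) (Set.toFinite _)).trans ((Set.ncard_union_le _ _).trans ?_)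
  exact Nat.add_le_add_left (Set.ncard_image_le (Set.toFinite _)) _

end SL2FM

open SL2FM in
/-- Module SL2F. -/
theorem specSL2F (hSL2M : SpecSL2M) : SpecSL2F := by
  intro ε hε hε1
  obtain ⟨q, hq⟩ := hSL2M ε hε hε1
  refine ⟨q, fun L _ _ hL Ω _ _ g hg => ?_⟩
  have h1 : ((fx Ω {g}).ncard : ℝ) ≤ (fx Ω (Set.univ : Set (SLn 2 L))).ncard +
      (fx (mv (Γ := SLn 2 L) Ω) {g}).ncard := by exact_mod_cast card_le Ω g
  have h2 : ((fx (mv (Γ := SLn 2 L) Ω) {g}).ncard : ℝ) ≤ ε * Nat.card Ω := by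
    rcases isEmpty_or_nonempty (mv (Γ := SLn 2 L) Ω) with hE | hN
    · rw [Set.eq_empty_of_isEmpty (fx (mv (Γ := SLn 2 L) Ω) {g}), Set.ncard_empty]
      have : (0 : ℝ) ≤ ε * Nat.card Ω := by positivity
      exact_mod_cast this
    · refine (hq L hL (mv (Γ := SLn 2 L) Ω) (mv_fx Ω) g hg).le.trans ?_
      have h3 : Nat.card (mv (Γ := SLn 2 L) Ω) ≤ Nat.card Ω :=
        Nat.card_le_card_of_injective Subtype.val Subtype.val_injective
      have h4 : (Nat.card (mv (Γ := SLn 2 L) Ω) : ℝ) ≤ Nat.card Ω := by exact_mod_cast h3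
      exact mul_le_mul_of_nonneg_left h4 hε.le
  linarith

end Pool.Agent.Lib.MP66ef6b.PL
end

section
set_option autoImplicit false

/-!
# MP_66ef6b_al, THEOREM L: module SL2M (helper33)

Fixed points of elements of `SL_2(L)`.
-/

namespace Pool.Agent.Lib.MP66ef6b.PL

namespace SL2MM

/-- conjugate elements have the same number of fixed points -/
lemma ncard_conj {Γ Ω : Type} [Group Γ] [MulAction Γ Ω] (x y : Γ) :
    (fx Ω {y * x * y⁻¹}).ncard = (fx Ω {x}).ncard := by
  have h : fx Ω {y * x * y⁻¹} = (fun ω : Ω => y • ω) '' fx Ω {x} := by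
    ext ω
    simp only [fx, Set.mem_singleton_iff, forall_eq, Set.mem_setOf_eq, Set.mem_image]
    constructor
    · intro hω
      refine ⟨y⁻¹ • ω, ?_, by simp⟩
      have h1 : y⁻¹ • ((y * x * y⁻¹) • ω) = y⁻¹ • ω := by rw [hω]
      rw [← mul_smul] at h1
      rw [← mul_smul]
      have : y⁻¹ * (y * x * y⁻¹) = x * y⁻¹ := by group
      rw [this] at h1
      exact h1
    · rintro ⟨ω', hω', rfl⟩
      rw [← mul_smul]
      have : y * x * y⁻¹ * y = y * x := by group
      rw [this, mul_smul, hω']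
  rw [h]
  exact Set.ncard_image_of_injective _ (MulAction.injective y)

/-- the final computation -/
lemma final {ε m G L Om S : ℝ} (hε : 0 < ε) (hG : 0 < G) (hL : 0 < L) (hOm : 0 < Om)
    (hm0 : 0 ≤ m) {lam E : ℝ} (h1 : ε ^ 2 / 4 * L ≤ lam) (h2 : lam * G ≤ 4 * L * E)
    (h3 : E * (ε ^ 2 / 2 * Om) ≤ S) (h4 : m * S ≤ G * Om) : m ≤ 32 / ε ^ 4 := by
  have h5 : ε ^ 2 / 4 * L * G ≤ 4 * L * E := le_trans (mul_le_mul_of_nonneg_right h1 hG.le) h2
  have h6 : ε ^ 2 / 16 * G ≤ E := by
    have : L * (ε ^ 2 / 16 * G) ≤ L * E := by nlinarith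
    exact le_of_mul_le_mul_left this hL
  have h7 : ε ^ 2 / 16 * G * (ε ^ 2 / 2 * Om) ≤ S :=
    le_trans (mul_le_mul_of_nonneg_right h6 (by positivity)) h3
  have h8 : m * (ε ^ 2 / 16 * G * (ε ^ 2 / 2 * Om)) ≤ G * Om :=
    le_trans (mul_le_mul_of_nonneg_left h7 hm0) h4
  have h9 : G * Om * (m * ε ^ 4) ≤ G * Om * 32 := by nlinarith
  have h10 : m * ε ^ 4 ≤ 32 := le_of_mul_le_mul_left h9 (by positivity)
  rw [le_div_iff₀ (by positivity)]
  exact h10

end SL2MM

open SL2MM in
theorem specSL2M (hPICK : SpecPICK) (hIDX : SpecIDX) (hORB : SpecORB) (hTRC : SpecTRC)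
    (hCLS : SpecCLS) : SpecSL2M := by
  classical
  intro ε hε hε1
  obtain ⟨m, hm⟩ := exists_nat_gt (32 / ε ^ 4)
  obtain ⟨q1, hq1⟩ := hIDX m
  obtain ⟨q2, hq2⟩ := exists_nat_ge (4 / ε ^ 2)
  refine ⟨max q1 q2, ?_⟩
  intro L _ _ hqL Ω _ _ _ hfx g hg
  by_contra hcon
  push Not at hcon
  haveI : Fintype L := Fintype.ofFinite L
  haveI : Fintype (SLn 2 L) := Fintype.ofFinite _
  obtain ⟨t, htinj, ht⟩ := hTRC L g hg
  set h : L → SLn 2 L := fun a => g * t (Multiplicative.ofAdd a) * g⁻¹ * (t (Multiplicative.ofAdd a))⁻¹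
    with hh
  obtain ⟨-, hP⟩ := hPICK (SLn 2 L) Ω t.range g ε hε hε1 hcon
  set Λ₀ : Set L := {a | ε ^ 2 / 2 * Nat.card Ω ≤ (fx Ω {h a}).ncard} with hΛ₀
  have himg : {s | s ∈ t.range ∧ ε ^ 2 / 2 * (Nat.card Ω : ℝ) ≤ ((fx Ω {g * s * g⁻¹ * s⁻¹}).ncard : ℝ)} =
      (fun a : L => t (Multiplicative.ofAdd a)) '' Λ₀ := by
    ext s
    constructor
    · rintro ⟨⟨a, rfl⟩, hs⟩
      exact ⟨Multiplicative.toAdd a, hs, rfl⟩
    · rintro ⟨a, ha, rfl⟩
      exact ⟨⟨_, rfl⟩, ha⟩
  have hinj : Function.Injective (fun a : L => t (Multiplicative.ofAdd a)) := by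
    intro a b hab
    exact Multiplicative.ofAdd.injective (htinj hab)
  rw [himg, Set.ncard_image_of_injective _ hinj] at hP
  have hT : Nat.card t.range = Nat.card L := by
    have e : Multiplicative L ≃ t.range := (MonoidHom.ofInjective htinj).toEquiv
    rw [← Nat.card_congr e]
    exact Nat.card_congr Multiplicative.toAdd
  rw [hT] at hP
  set Λ : Set L := Λ₀ \ {0} with hΛ
  have hLpos : (0 : ℝ) < Nat.card L := by
    have : 0 < Nat.card L := Nat.card_pos
    exact_mod_cast this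
  have hL4 : 4 / ε ^ 2 ≤ (Nat.card L : ℝ) := by
    refine hq2.trans ?_
    exact_mod_cast (le_max_right q1 q2).trans hqL
  have hΛc : ε ^ 2 / 4 * (Nat.card L : ℝ) ≤ (Λ.ncard : ℝ) := by
    have h1 : Λ₀.ncard ≤ Λ.ncard + 1 := by
      have := Set.ncard_le_ncard_diff_add_ncard Λ₀ {(0 : L)}
      simpa using this
    have h2 : (Λ₀.ncard : ℝ) ≤ Λ.ncard + 1 := by exact_mod_cast h1
    have h3 : 1 ≤ ε ^ 2 / 4 * (Nat.card L : ℝ) := by
      rw [div_le_iff₀ (by positivity)] at hL4
      linarith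
    linarith
  have hC := hCLS L Λ h (by
    intro a ha
    have ha0 : a ≠ 0 := by
      intro h0
      exact ha.2 (by simp [h0])
    exact ⟨(ht a).2 ha0, (ht a).1⟩)
  set E : Set (SLn 2 L) := {x | ∃ a ∈ Λ, ∃ y : SLn 2 L, x = y * h a * y⁻¹} with hE
  have hO := hORB (SLn 2 L) Ω m hfx (hq1 L ((le_max_left q1 q2).trans hqL))
  have hEx : ∀ x ∈ E, ε ^ 2 / 2 * (Nat.card Ω : ℝ) ≤ ((fx Ω {x}).ncard : ℝ) := by
    rintro x ⟨a, ha, y, rfl⟩
    rw [ncard_conj]
    exact ha.1
  have hS : (E.ncard : ℝ) * (ε ^ 2 / 2 * (Nat.card Ω : ℝ)) ≤ ∑ x : SLn 2 L, ((fx Ω {x}).ncard : ℝ) := by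
    have h1 : E.ncard = (Finset.univ.filter (fun x => x ∈ E)).card := by
      rw [Set.ncard_eq_toFinset_card']
      congr 1
      ext x
      simp
    rw [h1]
    calc ((Finset.univ.filter (fun x => x ∈ E)).card : ℝ) * (ε ^ 2 / 2 * (Nat.card Ω : ℝ))
        = ∑ x ∈ Finset.univ.filter (fun x => x ∈ E), (ε ^ 2 / 2 * (Nat.card Ω : ℝ)) := by
          rw [Finset.sum_const, nsmul_eq_mul]
      _ ≤ ∑ x ∈ Finset.univ.filter (fun x => x ∈ E), ((fx Ω {x}).ncard : ℝ) := by
          apply Finset.sum_le_sum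
          intro x hx
          exact hEx x (Finset.mem_filter.mp hx).2
      _ ≤ ∑ x : SLn 2 L, ((fx Ω {x}).ncard : ℝ) := by
          apply Finset.sum_le_sum_of_subset_of_nonneg (Finset.filter_subset _ _)
          intros
          positivity
  have hOm : (0 : ℝ) < Nat.card Ω := by
    have : 0 < Nat.card Ω := Nat.card_pos
    exact_mod_cast this
  have hG : (0 : ℝ) < Nat.card (SLn 2 L) := by
    have : 0 < Nat.card (SLn 2 L) := Nat.card_pos
    exact_mod_cast this
  have hO' : (m : ℝ) * ∑ x : SLn 2 L, ((fx Ω {x}).ncard : ℝ) ≤ (Nat.card (SLn 2 L) : ℝ) * Nat.card Ω := by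
    rw [Nat.card_eq_fintype_card (α := SLn 2 L)]
    exact_mod_cast hO
  have hC' : (Λ.ncard : ℝ) * (Nat.card (SLn 2 L) : ℝ) ≤ 4 * (Nat.card L : ℝ) * (E.ncard : ℝ) := by
    exact_mod_cast hC
  have := final hε hG hLpos hOm (Nat.cast_nonneg m) hΛc hC' hS hO'
  linarith

end Pool.Agent.Lib.MP66ef6b.PL
end

section
set_option autoImplicit false

namespace Pool.Agent.Lib.MP66ef6b.PL

namespace SML2M

theorem endo_comm (K : Type) [Field K] [Finite K] (σ τ : K →+* K) (x : K) :
    σ (τ x) = τ (σ x) := by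
  by_cases hx : x = 0
  · rw [hx]; simp
  · obtain ⟨m, hm⟩ := MonoidHom.map_cyclic (Units.map (σ : K →* K))
    obtain ⟨n, hn⟩ := MonoidHom.map_cyclic (Units.map (τ : K →* K))
    have h1 : ∀ y : Kˣ, σ (y : K) = ((y ^ m : Kˣ) : K) := fun y => by
      rw [← hm y]; rfl
    have h2 : ∀ y : Kˣ, τ (y : K) = ((y ^ n : Kˣ) : K) := fun y => by
      rw [← hn y]; rfl
    obtain ⟨u, rfl⟩ : ∃ u : Kˣ, (u : K) = x := ⟨Units.mk0 x hx, rfl⟩
    rw [h1, h2, h1, h2, ← zpow_mul, ← zpow_mul, mul_comm]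

variable {G : Type} [Group G] {W : Type} [AddCommGroup W] {R : Subgroup G} {ρ : G → W ≃+ W}

theorem rho_one (hm : ∀ r ∈ R, ∀ s ∈ R, ∀ w : W, ρ (r * s) w = ρ r (ρ s w)) (w : W) :
    ρ 1 w = w := by
  apply (ρ 1).injective
  rw [← hm 1 R.one_mem 1 R.one_mem, mul_one]

theorem rho_inv (hm : ∀ r ∈ R, ∀ s ∈ R, ∀ w : W, ρ (r * s) w = ρ r (ρ s w)) {r : G}
    (hr : r ∈ R) (w : W) : ρ r⁻¹ w = (ρ r).symm w := by
  apply (ρ r).injective
  rw [← hm r hr r⁻¹ (R.inv_mem hr), mul_inv_cancel, rho_one hm, AddEquiv.apply_symm_apply]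

end SML2M

open SML2M in
open scoped commutatorElement in
theorem specSML2 : SpecSML2 := by
  intro K W _ _ _ _ _ _ D G _ R ρ hperf hm hDs hcent hnorm
  -- the scalars are permuted
  have hex : ∀ r ∈ R, ∀ a : K, ∃ b : K, ∀ w : W, ρ r (a • w) = b • ρ r w := by
    intro r hr a
    let θ : W →+ W :=
      { toFun := fun w => ρ r (a • (ρ r).symm w)
        map_zero' := by simp
        map_add' := fun x y => by simp }
    have hθ : ∀ w, θ w = ρ r (a • (ρ r).symm w) := fun _ => rfl
    obtain ⟨b, hb⟩ := hcent θ (by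
      intro d hd w
      obtain ⟨d', hd', e⟩ := hnorm r⁻¹ (R.inv_mem hr) d hd
      have e' : ∀ w : W, (ρ r).symm (d w) = d' ((ρ r).symm w) := by
        intro w
        rw [← rho_inv hm hr, ← rho_inv hm hr, e]
      have e'' : ∀ z : W, ρ r (d' z) = d (ρ r z) := by
        intro z
        have := e' (ρ r z)
        rw [AddEquiv.symm_apply_apply] at this
        rw [← this, AddEquiv.apply_symm_apply]
      rw [hθ, hθ, e', ← hDs d' hd', e''])
    refine ⟨b, fun w => ?_⟩
    have := hb (ρ r w)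
    rw [hθ, AddEquiv.symm_apply_apply] at this
    exact this
  obtain ⟨w₀, hw₀⟩ := exists_ne (0 : W)
  have huniq : ∀ b c : K, (∀ w : W, b • w = c • w) → b = c := by
    intro b c h
    have h1 : (b - c) • w₀ = 0 := by rw [sub_smul, h w₀, sub_self]
    exact sub_eq_zero.mp ((smul_eq_zero.mp h1).resolve_right hw₀)
  choose! σ hσ using hex
  have huniq' : ∀ r : G, ∀ b c : K, (∀ w : W, b • ρ r w = c • ρ r w) → b = c := by
    intro r b c h
    apply huniq
    intro w
    obtain ⟨v, rfl⟩ := (ρ r).surjective w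
    exact h v
  have hhom : ∀ r ∈ R, ∃ s : K →+* K, ∀ a : K, ∀ w : W, ρ r (a • w) = s a • ρ r w := by
    intro r hr
    refine ⟨{ toFun := σ r, map_one' := ?_, map_mul' := ?_, map_zero' := ?_, map_add' := ?_ },
      fun a w => hσ r hr a w⟩
    · apply huniq' r
      intro w
      rw [← hσ r hr, one_smul, one_smul]
    · intro a b
      apply huniq' r
      intro w
      rw [← hσ r hr, mul_smul, hσ r hr, hσ r hr, mul_smul]
    · apply huniq' r
      intro w
      rw [← hσ r hr, zero_smul, zero_smul, map_zero]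
    · intro a b
      apply huniq' r
      intro w
      rw [← hσ r hr, add_smul, map_add, hσ r hr, hσ r hr, add_smul]
  -- all elements of R are linear
  let S : Subgroup G :=
    { carrier := {r | r ∈ R ∧ ∀ (a : K) (w : W), ρ r (a • w) = a • ρ r w}
      one_mem' := ⟨R.one_mem, fun a w => by rw [rho_one hm, rho_one hm]⟩
      mul_mem' := by
        rintro r s ⟨hr, hr'⟩ ⟨hs, hs'⟩
        refine ⟨R.mul_mem hr hs, fun a w => ?_⟩
        rw [hm r hr s hs, hm r hr s hs, hs', hr']
      inv_mem' := by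
        rintro r ⟨hr, hr'⟩
        refine ⟨R.inv_mem hr, fun a w => ?_⟩
        rw [rho_inv hm hr, rho_inv hm hr]
        apply (ρ r).injective
        rw [hr', AddEquiv.apply_symm_apply, AddEquiv.apply_symm_apply] }
  have hS : R ≤ S := by
    have h1 : ⁅R, R⁆ ≤ S := by
      rw [Subgroup.commutator_le]
      intro r hr s hs
      have hrs : ⁅r, s⁆ ∈ R := by
        rw [commutatorElement_def]
        exact R.mul_mem (R.mul_mem (R.mul_mem hr hs) (R.inv_mem hr)) (R.inv_mem hs)
      refine ⟨hrs, fun a w => ?_⟩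
      obtain ⟨sr, hsr⟩ := hhom r hr
      obtain ⟨ss, hss⟩ := hhom s hs
      -- [r, s] (s r) = r s
      have hkey : ∀ v : W, ρ ⁅r, s⁆ (ρ s (ρ r v)) = ρ r (ρ s v) := by
        intro v
        rw [← hm s hs r hr, ← hm ⁅r, s⁆ hrs (s * r) (R.mul_mem hs hr), ← hm r hr s hs]
        congr 2
        rw [commutatorElement_def]
        group
      obtain ⟨v, hv⟩ : ∃ v : W, ρ s (ρ r v) = w := by
        refine ⟨(ρ r).symm ((ρ s).symm w), ?_⟩
        rw [AddEquiv.apply_symm_apply, AddEquiv.apply_symm_apply]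
      -- choose a preimage of a
      have hbij : Function.Surjective (fun x : K => ss (sr x)) := by
        apply Finite.surjective_of_injective
        exact (ss.injective).comp sr.injective
      obtain ⟨b, hb⟩ := hbij a
      simp only at hb
      have h2 : a • w = ρ s (ρ r (b • v)) := by
        rw [hsr, hss, hb, hv]
      have h3 : ρ r (ρ s (b • v)) = a • ρ r (ρ s v) := by
        rw [hss, hsr, endo_comm K sr ss, hb]
      rw [h2, hkey, h3, ← hkey, hv]
    rwa [show ⁅R, R⁆ = R from hperf] at h1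
  -- the determinant
  let T : Subgroup G :=
    { carrier := {r | r ∈ R ∧ ∃ T : W ≃ₗ[K] W, (∀ w : W, T w = ρ r w) ∧ LinearEquiv.det T = 1}
      one_mem' := ⟨R.one_mem, 1, fun w => by rw [rho_one hm]; rfl, map_one _⟩
      mul_mem' := by
        rintro r s ⟨hr, A, hA, hA'⟩ ⟨hs, B, hB, hB'⟩
        refine ⟨R.mul_mem hr hs, A * B, fun w => ?_, ?_⟩
        · rw [hm r hr s hs, ← hB, ← hA]
          rfl
        · rw [map_mul, hA', hB', mul_one]
      inv_mem' := by
        rintro r ⟨hr, A, hA, hA'⟩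
        refine ⟨R.inv_mem hr, A⁻¹, fun w => ?_, ?_⟩
        · rw [rho_inv hm hr]
          apply (ρ r).injective
          rw [AddEquiv.apply_symm_apply, ← hA]
          exact A.apply_symm_apply w
        · rw [map_inv, hA', inv_one] }
  have hT : R ≤ T := by
    have h1 : ⁅R, R⁆ ≤ T := by
      rw [Subgroup.commutator_le]
      intro r hr s hs
      have hrs : ⁅r, s⁆ ∈ R := by
        rw [commutatorElement_def]
        exact R.mul_mem (R.mul_mem (R.mul_mem hr hs) (R.inv_mem hr)) (R.inv_mem hs)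
      let A : W ≃ₗ[K] W := (ρ r).toLinearEquiv (hS hr).2
      let B : W ≃ₗ[K] W := (ρ s).toLinearEquiv (hS hs).2
      have hA : ∀ w, A w = ρ r w := fun _ => rfl
      have hB : ∀ w, B w = ρ s w := fun _ => rfl
      refine ⟨hrs, A * B * A⁻¹ * B⁻¹, fun w => ?_, ?_⟩
      · rw [commutatorElement_def, hm _ (R.mul_mem (R.mul_mem hr hs) (R.inv_mem hr)) _
          (R.inv_mem hs), hm _ (R.mul_mem hr hs) _ (R.inv_mem hr), hm r hr s hs,
          rho_inv hm hr, rho_inv hm hs, ← hB, ← hA]
        rfl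
      · rw [map_mul, map_mul, map_mul, map_inv, map_inv]
        rw [mul_comm (LinearEquiv.det A) (LinearEquiv.det B), mul_inv_cancel_right, mul_inv_cancel]
    rwa [show ⁅R, R⁆ = R from hperf] at h1
  intro r hr
  obtain ⟨-, A, hA, hA'⟩ := hT hr
  refine ⟨A, hA, ?_⟩
  have := congrArg Units.val hA'
  rw [LinearEquiv.coe_det, Units.val_one] at this
  exact this

end Pool.Agent.Lib.MP66ef6b.PL
end

section
/-! # SMP: from almost simple to simple quotients (helper83) -/
set_option autoImplicit false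

namespace Pool.Agent.Lib.MP66ef6b.PL

universe u

namespace SMPM

/-- images of perfect subgroups are perfect. -/
theorem perf_map {G Y : Type u} [Group G] [Group Y] (N : Subgroup G) (hN : Perf N)
    (X : Subgroup G) (hNX : N ≤ X) (ρ : X →* Y) : Perf ((N.subgroupOf X).map ρ) := by
  unfold Perf at hN ⊢
  have h1 : ⁅N.subgroupOf X, N.subgroupOf X⁆ = N.subgroupOf X := by
    apply Subgroup.map_injective X.subtype_injective
    rw [Subgroup.map_commutator, Subgroup.map_subgroupOf_eq_of_le hNX, hN]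
  rw [← Subgroup.map_commutator, h1]

end SMPM

open SMPM OutM in
theorem specSMP (hPRF : SpecPRF.{u}) (hOUL : SpecOUL.{u}) : SpecSMP.{u} := by
  intro G _ _ _ hG F hF hvis E hE hFE
  obtain ⟨N, hN, hNb, hNP⟩ := hPRF G hG
  have hf1 : Finite ↥(E ⊔ N) := sup_finite hG E N hE hN
  obtain ⟨E', hE', hle, htow⟩ := specTOWER G hG (E ⊔ N) hf1
  have hEE' : E ≤ E' := le_sup_left.trans hle
  have hNE' : N ≤ E' := le_sup_right.trans hle
  obtain ⟨Y, _, Q, ⟨X, ρ, S, hX, hEX, hρ, hinj, hQ, hS, hFy⟩, hPSL⟩ :=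
    hvis E' hE' (hFE.trans hEE')
  have hn := hQ.normal
  have hY : Finite Y := Finite.of_surjective ρ hρ
  have hNX : N ≤ X := hNE'.trans hEX
  have hNQ : (N.subgroupOf X).map ρ ≤ Q := hOUL Y Q hQ hPSL _ (perf_map N hNP X hNX ρ)
  obtain ⟨⟨x, hxN⟩, hx1'⟩ := Subgroup.ne_bot_iff_exists_ne_one.1 hNb
  have hx1 : x ≠ 1 := fun h => hx1' (Subtype.ext h)
  have h1 := htow x ((le_sup_right : N ≤ E ⊔ N) hxN) hx1
  have hxQ : ρ ⟨x, hNX hxN⟩ ∈ Q := hNQ ⟨⟨x, hNX hxN⟩, hxN, rfl⟩
  have h2 : Subgroup.closure {y | ∃ g ∈ E', y = g * x * g⁻¹} ≤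
      (Q.comap ρ).map X.subtype := by
    rw [Subgroup.closure_le]
    rintro _ ⟨g, hg, rfl⟩
    refine ⟨⟨g, hEX hg⟩ * ⟨x, hNX hxN⟩ * ⟨g, hEX hg⟩⁻¹, ?_, rfl⟩
    show ρ (⟨g, hEX hg⟩ * ⟨x, hNX hxN⟩ * ⟨g, hEX hg⟩⁻¹) ∈ Q
    rw [map_mul, map_mul, map_inv]
    exact hn.conj_mem _ hxQ _
  have hV : Visible F E Q ⊤ := by
    refine restrict X ρ S hX hρ hinj hQ hS hFy hFE hEE' (hEE'.trans hEX) ?_
    intro y hy
    obtain ⟨z, hz, hzy⟩ := h2 (h1 ((le_sup_left : E ≤ E ⊔ N) hy))
    have : z = y := Subtype.ext hzy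
    rw [← this]
    exact hz
  obtain ⟨X₁, ρ₁, S₁, hX₁, hEX₁, hρ₁, hinj₁, -, hS₁, hF₁⟩ := hV
  obtain ⟨n, K, iK, hK, ⟨e⟩⟩ := hPSL
  refine ⟨X₁, n, K, iK, e.toMonoidHom.comp ρ₁, S₁.map e.toMonoidHom, hK, hX₁, hEX₁, ?_, ?_,
    ?_, ?_⟩
  · intro p
    obtain ⟨x, hx⟩ := hρ₁ (e.symm p)
    exact ⟨x, by simp [hx]⟩
  · intro x hx h
    apply hinj₁ x hx
    apply e.injective
    rw [map_one]
    exact h
  · intro h
    apply hS₁
    intro q _
    have h3 : e q ∈ S₁.map e.toMonoidHom := by rw [h]; trivial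
    obtain ⟨s, hs, hsq⟩ := h3
    have : s = q := e.injective hsq
    rw [← this]
    exact hs
  · intro p
    obtain ⟨x, hx, hx1, hxS⟩ := hF₁ (e.symm p)
    refine ⟨x, hx, hx1, ⟨_, hxS, ?_⟩⟩
    show e (e.symm p * ρ₁ x * (e.symm p)⁻¹) = _
    simp

end Pool.Agent.Lib.MP66ef6b.PL
end

section
set_option autoImplicit false

/-!
# MP_66ef6b_al, PL, SPR: no regular orbits
-/

namespace Pool.Agent.Lib.MP66ef6b.PL

universe u

namespace SPRM

variable {G V : Type u} [Group G] [AddCommGroup V] [DistribMulAction G V]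

/-- The difference `v ↦ g v - v`. -/
def dif (g : G) : V →+ V := DistribMulAction.toAddMonoidHom V g - AddMonoidHom.id V

theorem dif_apply (g : G) (v : V) : dif g v = g • v - v := rfl

theorem coe_range (g : G) : ((dif g : V →+ V).range : Set V) = Set.range fun v : V => g • v - v := by
  ext w
  simp [dif_apply]

/-- The sums of elements of the ranges. -/
def sumHom {m : ℕ} (g : Fin m → G) : ((i : Fin m) → (dif (V := V) (g i)).range) →+ V where
  toFun b := ∑ i, (b i : V)
  map_zero' := by simp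
  map_add' a b := by simp [Finset.sum_add_distrib]

theorem range_le {m : ℕ} (g : Fin m → G) (i : Fin m) :
    (dif (V := V) (g i)).range ≤ (sumHom (V := V) g).range := by
  classical
  intro w hw
  refine ⟨Pi.single i ⟨w, hw⟩, ?_⟩
  change ∑ j, ((Pi.single i (⟨w, hw⟩ : (dif (V := V) (g i)).range) :
    (j : Fin m) → (dif (V := V) (g j)).range) j : V) = w
  rw [Finset.sum_eq_single i]
  · simp
  · intro j _ hj
    rw [Pi.single_eq_of_ne hj]
    rfl
  · intro h
    exact absurd (Finset.mem_univ i) h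

theorem closure_sub_mem {m : ℕ} (g : Fin m → G) (h : G)
    (hh : h ∈ Subgroup.closure (Set.range g)) :
    ∀ v : V, h • v - v ∈ (sumHom (V := V) g).range := by
  induction hh using Subgroup.closure_induction with
  | mem x hx =>
    obtain ⟨i, rfl⟩ := hx
    intro v
    exact range_le g i ⟨v, dif_apply _ _⟩
  | one => intro v; simp
  | mul x y _ _ hx hy =>
    intro v
    have h1 := add_mem (hx (y • v)) (hy v)
    rwa [← mul_smul, sub_add_sub_cancel] at h1
  | inv x _ hx =>
    intro v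
    have h1 := neg_mem (hx (x⁻¹ • v))
    rwa [smul_inv_smul, neg_sub] at h1

end SPRM

open SPRM in
theorem specSPR : SpecSPR.{u} := by
  intro G V _ _ _ m c g hfin hg hlt v
  classical
  haveI : ∀ i, Finite (dif (V := V) (g i)).range := fun i => by
    have h1 := (hg i).1
    rw [← coe_range] at h1
    exact h1.to_subtype
  have hcard : Nat.card (sumHom (V := V) g).range ≤ c ^ m := by
    calc Nat.card (sumHom (V := V) g).range
        ≤ Nat.card ((i : Fin m) → (dif (V := V) (g i)).range) :=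
          Nat.card_le_card_of_surjective (sumHom (V := V) g).rangeRestrict
            (sumHom (V := V) g).rangeRestrict_surjective
      _ = ∏ i, Nat.card (dif (V := V) (g i)).range := Nat.card_pi
      _ ≤ ∏ _i : Fin m, c := Finset.prod_le_prod' fun i _ => by
          have h1 := (hg i).2
          rw [← coe_range, ← Nat.card_coe_set_eq] at h1
          exact h1
      _ = c ^ m := by simp
  haveI : Finite (sumHom (V := V) g).range :=
    Finite.of_surjective (sumHom (V := V) g).rangeRestrict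
      (sumHom (V := V) g).rangeRestrict_surjective
  by_contra hcon
  push Not at hcon
  have hinj : Function.Injective (fun h : Subgroup.closure (Set.range g) =>
      (⟨(h : G) • v - v, closure_sub_mem g h h.2 v⟩ : (sumHom (V := V) g).range)) := by
    intro a b hab
    have h1 : (a : G) • v - v = (b : G) • v - v := congrArg Subtype.val hab
    have h2 : (a : G) • v = (b : G) • v := sub_left_injective h1
    by_contra hne
    refine hcon ((b : G)⁻¹ * a) (mul_mem (inv_mem b.2) a.2) (fun h3 => hne ?_) ?_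
    · exact Subtype.ext (inv_mul_eq_one.mp h3).symm
    · rw [mul_smul, h2, inv_smul_smul]
  have := Nat.card_le_card_of_injective _ hinj
  omega

end Pool.Agent.Lib.MP66ef6b.PL
end

section
set_option autoImplicit false

/-!
# MP_66ef6b_al, THEOREM L, module STEP (helper81): one step of the Mautner climb
-/

namespace Pool.Agent.Lib.MP66ef6b.PL

namespace STEPM

theorem step1 (hM : SpecMAUT) {Γ Ω U : Type} [Group Γ] [MulAction Γ Ω] [Finite Ω]
    [AddCommGroup U] [Finite U] (F : U → Γ) (hF : ∀ a b, F (a + b) = F a * F b) (hF0 : F 0 = 1)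
    (M : Subgroup Γ) (ρ : Γ → U → U) (hρ : ∀ m ∈ M, ∀ a b, ρ m (a + b) = ρ m a + ρ m b)
    (hc : ∀ m ∈ M, ∀ u, m * F u * m⁻¹ = F (ρ m u))
    (hg : ∀ u : U, u ≠ 0 → ∀ B : AddSubgroup U, (∀ m ∈ M, ρ m u - u ∈ B) → B = ⊤) :
    Nat.card U * (fx Ω (M : Set Γ)).ncard ≤
      Nat.card U * (fx Ω ((M : Set Γ) ∪ Set.range F)).ncard + Nat.card Ω := by
  classical
  let θ : Multiplicative U →* Γ :=
    { toFun := fun u => F (Multiplicative.toAdd u)
      map_one' := hF0
      map_mul' := fun a b => hF _ _ }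
  let ρ' : Γ → U →+ U := fun m => if h : m ∈ M then AddMonoidHom.mk' (ρ m) (hρ m h) else 0
  have hρ' : ∀ m ∈ M, ∀ u, ρ' m u = ρ m u := by
    intro m hm u
    simp only [ρ', dif_pos hm]
    rfl
  have h := hM Γ Ω U θ M ρ' (by
    intro m hm u
    rw [hρ' m hm]
    exact hc m hm u) (by
    intro u hu B hB
    exact hg u hu B (fun m hm => by rw [← hρ' m hm]; exact hB m hm))
  have e : Set.range θ = Set.range F := by
    ext g
    constructor
    · rintro ⟨u, rfl⟩
      exact ⟨Multiplicative.toAdd u, rfl⟩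
    · rintro ⟨u, rfl⟩
      exact ⟨Multiplicative.ofAdd u, rfl⟩
  rw [e] at h
  exact h

variable {K V : Type} [Field K] [AddCommGroup V] [Module K V]

theorem mul_app (g h : SpecialLinearGroup K V) (z : V) : (g * h) z = g (h z) := rfl

theorem one_app (z : V) : (1 : SpecialLinearGroup K V) z = z := rfl

theorem inv_app (g : SpecialLinearGroup K V) (z : V) : g (g⁻¹ z) = z := by
  rw [← mul_app, mul_inv_cancel, one_app]

theorem app_inv (g : SpecialLinearGroup K V) (z : V) : g⁻¹ (g z) = z := by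
  rw [← mul_app, inv_mul_cancel, one_app]

theorem add_app (g : SpecialLinearGroup K V) (y z : V) : g (y + z) = g y + g z :=
  g.1.map_add y z

theorem smul_app (g : SpecialLinearGroup K V) (c : K) (z : V) : g (c • z) = c • g z :=
  g.1.map_smul c z

/-- the functional. -/
theorem exists_xs [Module.Finite K V] (W W'' : Submodule K V) (x : V) (hx : x ≠ 0)
    (hd : Disjoint (Submodule.span K {x}) W'')
    (hc : IsCompl W (Submodule.span K {x} ⊔ W'')) :
    ∃ xs : Module.Dual K V, (∀ w ∈ W, xs w = 0) ∧ (∀ w ∈ W'', xs w = 0) ∧ xs x = 1 := by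
  have hxn : x ∉ W ⊔ W'' := by
    intro h
    obtain ⟨w, hw, w'', hw'', e⟩ := Submodule.mem_sup.1 h
    have h1 : w ∈ Submodule.span K {x} ⊔ W'' := by
      have : w = x - w'' := by rw [← e]; abel
      rw [this]
      exact Submodule.sub_mem _ (Submodule.mem_sup_left (Submodule.mem_span_singleton_self x))
        (Submodule.mem_sup_right hw'')
    have h2 : w = 0 := Submodule.disjoint_def.1 hc.disjoint w hw h1
    rw [h2, zero_add] at e
    have h3 : x = 0 := Submodule.disjoint_def.1 hd x (Submodule.mem_span_singleton_self x)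
      (e ▸ hw'')
    exact hx h3
  obtain ⟨f, hf, hf0⟩ := Submodule.exists_dual_map_eq_bot_of_notMem hxn inferInstance
  have hz : ∀ w ∈ W ⊔ W'', f w = 0 := by
    intro w hw
    have : f w ∈ (W ⊔ W'').map f := Submodule.mem_map_of_mem hw
    rw [hf0] at this
    exact (Submodule.mem_bot K).1 this
  refine ⟨(f x)⁻¹ • f, ?_, ?_, ?_⟩
  · intro w hw
    rw [LinearMap.smul_apply, hz w (Submodule.mem_sup_left hw), smul_zero]
  · intro w hw
    rw [LinearMap.smul_apply, hz w (Submodule.mem_sup_right hw), smul_zero]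
  · rw [LinearMap.smul_apply, smul_eq_mul, inv_mul_cancel₀ hf]

theorem ncard_inter_ge {Ω : Type} [Finite Ω] (A A1 A2 T : Set Ω) (N c : ℕ)
    (h1 : A1 ⊆ A) (h2 : A2 ⊆ A) (hT : A1 ∩ A2 ⊆ T) (e1 : N * A.ncard ≤ N * A1.ncard + c)
    (e2 : N * A.ncard ≤ N * A2.ncard + c) : N * A.ncard ≤ N * T.ncard + 2 * c := by
  have hu := Set.ncard_union_add_ncard_inter A1 A2 (Set.toFinite _) (Set.toFinite _)
  have hu2 : (A1 ∪ A2).ncard ≤ A.ncard := Set.ncard_le_ncard (Set.union_subset h1 h2) (Set.toFinite _)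
  have hi : (A1 ∩ A2).ncard ≤ T.ncard := Set.ncard_le_ncard hT (Set.toFinite _)
  have h3 : A1.ncard + A2.ncard ≤ A.ncard + T.ncard := by omega
  have h4 : N * A1.ncard + N * A2.ncard ≤ N * A.ncard + N * T.ncard := by
    rw [← mul_add, ← mul_add]
    exact Nat.mul_le_mul_left N h3
  omega

end STEPM

open STEPM in
theorem specSTEP (hMAUT : SpecMAUT) (hGEN : SpecGEN) (hTVE : SpecTVE) : SpecSTEP := by
  classical
  intro K V Ω _ _ _ _ _ _ _ M W W'' x hx hd hc hI
  haveI : Finite V := Module.finite_of_finite K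
  obtain ⟨xs, hxW, hxW'', hxx⟩ := exists_xs W W'' x hx hd hc
  set W' : Submodule K V := Submodule.span K {x} ⊔ W'' with hW'
  have hxW' : x ∈ W' := Submodule.mem_sup_left (Submodule.mem_span_singleton_self x)
  have hW''W' : ∀ w ∈ W'', w ∈ W' := fun w hw => Submodule.mem_sup_right hw
  -- `xs` is invariant
  have hinv : ∀ m ∈ M, ∀ z : V, xs (m z) = xs z := by
    intro m hm z
    have hz : z ∈ W ⊔ W' := by rw [hc.sup_eq_top]; trivial
    obtain ⟨w, hw, w', hw', rfl⟩ := Submodule.mem_sup.1 hz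
    rw [add_app, map_add, map_add, hI.triv m hm w' hw', hxW _ (hI.pres m hm w hw), hxW w hw]
  -- the first family
  have hT1 : ∀ w : W, ∃ g : SpecialLinearGroup K V, ∀ z : V, g z = z + xs z • (w : V) :=
    fun w => hTVE K V w xs (hxW w w.2)
  choose F hF using hT1
  have hFadd : ∀ a b, F (a + b) = F a * F b := by
    intro a b
    apply SpecialLinearGroup.ext
    intro z
    rw [mul_app, hF, hF, hF]
    rw [map_add, map_smul, hxW _ b.2, smul_zero, add_zero, Submodule.coe_add, smul_add]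
    abel
  have hF0 : F 0 = 1 := by
    apply SpecialLinearGroup.ext
    intro z
    rw [hF, one_app, Submodule.coe_zero, smul_zero, add_zero]
  -- the second family
  have hann : ∀ φ : W'.dualAnnihilator, ∀ w ∈ W', (φ : Module.Dual K V) w = 0 := by
    intro φ w hw
    exact (Submodule.mem_dualAnnihilator _).1 φ.2 w hw
  have hT2 : ∀ φ : W'.dualAnnihilator, ∃ g : SpecialLinearGroup K V,
      ∀ z : V, g z = z + (φ : Module.Dual K V) z • x :=
    fun φ => hTVE K V x φ (hann φ x hxW')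
  choose G hG using hT2
  have hGadd : ∀ a b, G (a + b) = G a * G b := by
    intro a b
    apply SpecialLinearGroup.ext
    intro z
    rw [mul_app, hG, hG, hG]
    rw [map_add, map_smul, hann a x hxW', smul_zero, add_zero, Submodule.coe_add,
      LinearMap.add_apply, add_smul]
    abel
  have hG0 : G 0 = 1 := by
    apply SpecialLinearGroup.ext
    intro z
    rw [hG, one_app, Submodule.coe_zero, LinearMap.zero_apply, zero_smul, add_zero]
  haveI : Finite W := inferInstance
  haveI : Finite (Module.Dual K V) := Module.finite_of_finite K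
  haveI : Finite W'.dualAnnihilator := inferInstance
  -- the first step
  let ρ : SpecialLinearGroup K V → W → W := fun m w => if h : m w.1 ∈ W then ⟨m w.1, h⟩ else w
  have hρ : ∀ m ∈ M, ∀ w : W, ((ρ m w : W) : V) = m w.1 := by
    intro m hm w
    simp only [ρ, dif_pos (hI.pres m hm w.1 w.2)]
  have e1 := step1 hMAUT (Ω := Ω) F hFadd hF0 M ρ
    (by
      intro m hm a b
      apply Subtype.ext
      rw [Submodule.coe_add, hρ m hm, hρ m hm, hρ m hm, Submodule.coe_add, add_app])
    (by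
      intro m hm u
      apply SpecialLinearGroup.ext
      intro z
      rw [mul_app, mul_app, hF, hF, add_app, smul_app, inv_app, hinv m⁻¹ (M.inv_mem hm),
        hρ m hm])
    (by
      intro u hu B hB
      rw [eq_top_iff]
      intro w _
      have hu' : (u : V) ≠ 0 := fun h => hu (Subtype.ext h)
      have := hI.gen u.1 u.2 hu' (B.map (W.subtype.toAddMonoidHom)) (by
        intro m hm
        refine ⟨ρ m u - u, hB m hm, ?_⟩
        change ((ρ m u - u : W) : V) = _
        rw [Submodule.coe_sub, hρ m hm]) w.1 w.2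
      obtain ⟨b, hb, e⟩ := this
      have : b = w := Subtype.ext e
      rw [← this]
      exact hb)
  -- the second step
  let τ : SpecialLinearGroup K V → W'.dualAnnihilator → W'.dualAnnihilator := fun m φ =>
    if h : (φ : Module.Dual K V).comp (m⁻¹ : SpecialLinearGroup K V).1.toLinearMap ∈
      W'.dualAnnihilator then ⟨_, h⟩ else φ
  have hτ : ∀ m ∈ M, ∀ φ : W'.dualAnnihilator, ((τ m φ : W'.dualAnnihilator) : Module.Dual K V) =
      (φ : Module.Dual K V).comp (m⁻¹ : SpecialLinearGroup K V).1.toLinearMap := by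
    intro m hm φ
    have h : (φ : Module.Dual K V).comp (m⁻¹ : SpecialLinearGroup K V).1.toLinearMap ∈
      W'.dualAnnihilator := by
      rw [Submodule.mem_dualAnnihilator]
      intro w hw
      change (φ : Module.Dual K V) ((m⁻¹ : SpecialLinearGroup K V) w) = 0
      rw [hI.triv m⁻¹ (M.inv_mem hm) w hw]
      exact hann φ w hw
    simp only [τ, dif_pos h]
  have hτa : ∀ m ∈ M, ∀ (φ : W'.dualAnnihilator) (z : V),
      ((τ m φ : W'.dualAnnihilator) : Module.Dual K V) z =
        (φ : Module.Dual K V) ((m⁻¹ : SpecialLinearGroup K V) z) := by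
    intro m hm φ z
    rw [hτ m hm]
    rfl
  have e2 := step1 hMAUT (Ω := Ω) G hGadd hG0 M τ
    (by
      intro m hm a b
      apply Subtype.ext
      apply LinearMap.ext
      intro z
      rw [Submodule.coe_add, LinearMap.add_apply, hτa m hm, hτa m hm, hτa m hm, Submodule.coe_add,
        LinearMap.add_apply])
    (by
      intro m hm u
      apply SpecialLinearGroup.ext
      intro z
      rw [mul_app, mul_app, hG, hG, add_app, smul_app, inv_app, hτa m hm,
        hI.triv m hm x hxW'])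
    (by
      intro u hu B hB
      rw [eq_top_iff]
      intro w _
      have hu' : (u : Module.Dual K V) ≠ 0 := fun h => hu (Subtype.ext h)
      have := hI.dual u.1 hu' (hann u) (B.map (W'.dualAnnihilator.subtype.toAddMonoidHom)) (by
        intro m hm
        refine ⟨τ m u - u, hB m hm, ?_⟩
        change ((τ m u - u : W'.dualAnnihilator) : Module.Dual K V) = _
        rw [Submodule.coe_sub, hτ m hm]) w.1 (hann w)
      obtain ⟨b, hb, e⟩ := this
      have : b = w := Subtype.ext e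
      rw [← this]
      exact hb)
  have hcard : Nat.card W'.dualAnnihilator = Nat.card W := by
    have h1 := Subspace.finrank_add_finrank_dualAnnihilator_eq (K := K) W'
    have h2 := Submodule.finrank_add_eq_of_isCompl hc
    rw [Module.natCard_eq_pow_finrank (K := K) (V := W'.dualAnnihilator),
      Module.natCard_eq_pow_finrank (K := K) (V := W)]
    congr 1
    omega
  rw [hcard] at e2
  refine ncard_inter_ge _ _ _ _ _ _ ?_ ?_ ?_ e1 e2
  · intro ω hω a ha
    exact hω a (Or.inl ha)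
  · intro ω hω a ha
    exact hω a (Or.inl ha)
  · rintro ω ⟨h1, h2⟩
    have hsub := hGEN K V W W'' x xs hxW hxW'' hxx (MulAction.stabilizer _ ω)
      (by
        rintro g ⟨w, hw, hg⟩
        have : g = F ⟨w, hw⟩ := by
          apply SpecialLinearGroup.ext
          intro z
          rw [hg, hF]
        rw [this]
        exact h1 _ (Or.inr ⟨_, rfl⟩))
      (by
        rintro g ⟨φ, hφx, hφ, hg⟩
        have hφm : φ ∈ W'.dualAnnihilator := by
          rw [Submodule.mem_dualAnnihilator]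
          intro z hz
          obtain ⟨a, ha, b, hb, rfl⟩ := Submodule.mem_sup.1 hz
          obtain ⟨c, rfl⟩ := Submodule.mem_span_singleton.1 ha
          rw [map_add, map_smul, hφx, hφ b hb, smul_zero, add_zero]
        have : g = G ⟨φ, hφm⟩ := by
          apply SpecialLinearGroup.ext
          intro z
          rw [hg, hG]
        rw [this]
        exact h2 _ (Or.inr ⟨_, rfl⟩))
    intro g hg
    exact hsub hg

end Pool.Agent.Lib.MP66ef6b.PL
end

section
/-!
# MP_66ef6b_al, THEOREM L: TCJ, conjugacy of transvections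
-/
set_option autoImplicit false

namespace Pool.Agent.Lib.MP66ef6b.PL

namespace TCJM

open Matrix

variable {ι K : Type} [Fintype ι] [DecidableEq ι] [Field K]

lemma detv (u ψ : ι → K) : (1 + vecMulVec u ψ).det = 1 + ψ ⬝ᵥ u := by
  rw [Matrix.vecMulVec_eq Unit, det_one_add_replicateCol_mul_replicateRow]

/-- move `v` to `e_i` -/
lemma step1 (v : ι → K) (hv : v ≠ 0) (i : ι) :
    ∃ H : Matrix ι ι K, H.det ≠ 0 ∧ H *ᵥ v = Pi.single i 1 := by
  obtain ⟨ψ, hψ1, hψi⟩ : ∃ ψ : ι → K, ψ ⬝ᵥ v = 1 ∧ ψ i ≠ 0 := by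
    by_cases hvi : v i = 0
    · obtain ⟨k, hk⟩ : ∃ k, v k ≠ 0 := by
        by_contra h
        push Not at h
        exact hv (funext h)
      have hki : k ≠ i := fun h => hk (h ▸ hvi)
      refine ⟨Pi.single i 1 + Pi.single k (v k)⁻¹, ?_, ?_⟩
      · rw [add_dotProduct, single_dotProduct, single_dotProduct, hvi, mul_zero, zero_add,
          inv_mul_cancel₀ hk]
      · simp [hki.symm]
    · refine ⟨Pi.single i (v i)⁻¹, ?_, ?_⟩
      · rw [single_dotProduct, inv_mul_cancel₀ hvi]
      · simpa using hvi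
  refine ⟨1 + vecMulVec (Pi.single i 1 - v) ψ, ?_, ?_⟩
  · rw [detv, dotProduct_sub, hψ1, dotProduct_single]
    simpa using hψi
  · rw [add_mulVec, one_mulVec, vecMulVec_mulVec, hψ1]
    simp

/-- move `φ` to `e_j`, fixing `e_i` -/
lemma step2 (φ : ι → K) (hφ : φ ≠ 0) (i j : ι) (hij : i ≠ j) (hi : φ i = 0) :
    ∃ H : Matrix ι ι K, H.det ≠ 0 ∧ H *ᵥ Pi.single i 1 = Pi.single i 1 ∧
      Pi.single j 1 ᵥ* H = φ := by
  obtain ⟨u, huj, hu⟩ : ∃ u : ι → K, u j = 1 ∧ φ ⬝ᵥ u ≠ 0 := by
    by_cases hj : φ j = 0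
    · obtain ⟨k, hk⟩ : ∃ k, φ k ≠ 0 := by
        by_contra h
        push Not at h
        exact hφ (funext h)
      have hkj : k ≠ j := fun h => hk (h ▸ hj)
      refine ⟨Pi.single j 1 + Pi.single k 1, by simp [hkj.symm], ?_⟩
      rw [dotProduct_add, dotProduct_single, dotProduct_single, hj]
      simpa using hk
    · exact ⟨Pi.single j 1, by simp, by simpa using hj⟩
  refine ⟨1 + vecMulVec u (φ - Pi.single j 1), ?_, ?_, ?_⟩
  · rw [detv, sub_dotProduct, single_dotProduct, huj]
    simpa using hu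
  · rw [add_mulVec, one_mulVec, vecMulVec_mulVec]
    simp [hi, hij]
  · rw [vecMul_add, vecMul_one, vecMul_vecMulVec, single_dotProduct, huj]
    simp

/-- the transvection `1 + v φ` is conjugate to `1 + E_ij` in the general linear group -/
lemma conj0 (v φ : ι → K) (h0 : φ ⬝ᵥ v = 0) (hv : v ≠ 0) (hφ : φ ≠ 0) (i j : ι) (hij : i ≠ j) :
    ∃ H : Matrix ι ι K, H.det ≠ 0 ∧ H * (1 + vecMulVec v φ) = (1 + single i j 1) * H := by
  obtain ⟨H1, hd1, h1⟩ := step1 v hv i
  have hu1 : IsUnit H1.det := isUnit_iff_ne_zero.2 hd1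
  have hφ1 : (φ ᵥ* H1⁻¹) ᵥ* H1 = φ := by
    rw [vecMul_vecMul, nonsing_inv_mul _ hu1, vecMul_one]
  have hne : φ ᵥ* H1⁻¹ ≠ 0 := by
    intro h
    rw [h, zero_vecMul] at hφ1
    exact hφ hφ1.symm
  have hi : (φ ᵥ* H1⁻¹) i = 0 := by
    have h2 : (φ ᵥ* H1⁻¹) ⬝ᵥ (H1 *ᵥ v) = φ ⬝ᵥ v := by
      rw [dotProduct_mulVec, hφ1]
    rw [h1, h0, dotProduct_single, mul_one] at h2
    exact h2
  obtain ⟨H2, hd2, h2, h3⟩ := step2 _ hne i j hij hi
  refine ⟨H2 * H1, ?_, ?_⟩
  · rw [det_mul]
    exact mul_ne_zero hd2 hd1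
  · rw [mul_add, add_mul, mul_one, one_mul, mul_vecMulVec, ← mulVec_mulVec, h1, h2,
      single_eq_single_vecMulVec_single, vecMulVec_mul, ← vecMul_vecMul, h3, hφ1]

/-- scaling -/
lemma conj1 (n : ℕ) (g : SLn n K) (v φ : Fin n → K) (hg : IsTv g v φ) (hv : v ≠ 0) (hφ : φ ≠ 0)
    (i j : Fin n) (hij : i ≠ j) : ∃ δ : K, δ ≠ 0 ∧ ∀ d : Fin n → K, d j = 1 →
      (∏ k, d k) * δ = 1 → ∃ h : SLn n K,
        h * g * h⁻¹ = Matrix.SpecialLinearGroup.transvection hij (d i) := by
  obtain ⟨H, hd, hH⟩ := conj0 v φ hg.1 hv hφ i j hij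
  refine ⟨H.det, hd, fun d hdj hdet => ⟨⟨diagonal d * H, ?_⟩, ?_⟩⟩
  · rw [det_mul, det_diagonal, hdet]
  · rw [mul_inv_eq_iff_eq_mul]
    apply Subtype.ext
    show diagonal d * H * g.1 = Matrix.transvection i j (d i) * (diagonal d * H)
    rw [hg.2, mul_assoc, hH, ← mul_assoc, ← mul_assoc, Matrix.transvection]
    congr 1
    rw [mul_add, add_mul, mul_one, one_mul]
    congr 1
    ext a b
    simp only [diagonal_mul, mul_diagonal, single_apply]
    by_cases h : i = a ∧ j = b
    · obtain ⟨rfl, rfl⟩ := h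
      simp [hdj]
    · simp [h]

end TCJM

open TCJM in
theorem specTCJ : SpecTCJ := by
  intro n K _ g v φ hg hv hφ i j hij
  obtain ⟨δ, hδ, H⟩ := conj1 n g v φ hg hv hφ i j hij
  refine ⟨?_, fun hn a ha => ?_⟩
  · obtain ⟨h, hh⟩ := H (fun k => if k = i then δ⁻¹ else 1) (by simp [hij.symm])
      (by rw [Finset.prod_ite_eq' Finset.univ i (fun _ => δ⁻¹)]; simp [hδ])
    refine ⟨h, δ⁻¹, inv_ne_zero hδ, ?_⟩
    simpa using hh
  · obtain ⟨l, hl⟩ : ∃ l : Fin n, l ∉ ({i, j} : Finset (Fin n)) := by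
      by_contra h
      push Not at h
      have h1 : (Finset.univ : Finset (Fin n)) ⊆ {i, j} := fun x _ => h x
      have h2 := Finset.card_le_card h1
      rw [Finset.card_univ, Fintype.card_fin] at h2
      have h3 := Finset.card_le_two (a := i) (b := j)
      omega
    simp only [Finset.mem_insert, Finset.mem_singleton, not_or] at hl
    obtain ⟨h, hh⟩ := H (fun k => (if k = i then a else 1) * (if k = l then (a * δ)⁻¹ else 1))
      (by simp [hij.symm, Ne.symm hl.2])
      (by
        rw [Finset.prod_mul_distrib, Finset.prod_ite_eq' Finset.univ i (fun _ => a),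
          Finset.prod_ite_eq' Finset.univ l (fun _ => (a * δ)⁻¹)]
        simp only [Finset.mem_univ, if_true]
        field_simp)
    refine ⟨h, ?_⟩
    simpa [Ne.symm hl.1] using hh

end Pool.Agent.Lib.MP66ef6b.PL
end

section
set_option autoImplicit false

/-!
# MP_66ef6b_al, THEOREM L: module THA (theorem A)
-/

namespace Pool.Agent.Lib.MP66ef6b.PL

namespace THAM

/-- counting the conjugates in `S` by the fixed points on the cosets of `S`. -/
theorem cnt {G : Type} [Group G] [Finite G] (S : Subgroup G) (f : G) :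
    (fx (G ⧸ S) ({f} : Set G)).ncard * Nat.card S = {y : G | y * f * y⁻¹ ∈ S}.ncard := by
  have h1 : (QuotientGroup.mk ⁻¹' (fx (G ⧸ S) ({f} : Set G)) : Set G) =
      {y : G | y⁻¹ * f * y ∈ S} := by
    ext y
    simp only [fx, Set.mem_preimage, Set.mem_setOf_eq, Set.mem_singleton_iff, forall_eq]
    constructor
    · intro h
      have h2 : (QuotientGroup.mk (f * y) : G ⧸ S) = QuotientGroup.mk y := h
      rw [QuotientGroup.eq] at h2
      have h3 := S.inv_mem h2
      have e : ((f * y)⁻¹ * y)⁻¹ = y⁻¹ * f * y := by group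
      rwa [e] at h3
    · intro h
      have h2 : (QuotientGroup.mk (f * y) : G ⧸ S) = QuotientGroup.mk y := by
        rw [QuotientGroup.eq]
        have h3 := S.inv_mem h
        have e : (y⁻¹ * f * y)⁻¹ = (f * y)⁻¹ * y := by group
        rwa [e] at h3
      exact h2
  have h2 : {y : G | y * f * y⁻¹ ∈ S} = (fun y : G => y⁻¹) '' {y : G | y⁻¹ * f * y ∈ S} := by
    ext y
    simp only [Set.mem_setOf_eq, Set.mem_image]
    constructor
    · intro h
      refine ⟨y⁻¹, ?_, inv_inv y⟩
      rw [inv_inv]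
      exact h
    · rintro ⟨x, hx, rfl⟩
      rw [inv_inv]
      exact hx
  rw [h2, Set.ncard_image_of_injective _ inv_injective, ← h1]
  have h3 := Nat.card_congr (QuotientGroup.preimageMkEquivSubgroupProdSet S
    (fx (G ⧸ S) ({f} : Set G)))
  rw [Nat.card_prod] at h3
  rw [← Nat.card_coe_set_eq, ← Nat.card_coe_set_eq, h3, mul_comm]

/-- the proportion. -/
theorem prop {G : Type} [Group G] [Finite G] (S : Subgroup G) (f : G) (δ : ℝ)
    (h : δ * Nat.card G ≤ {y : G | y * f * y⁻¹ ∈ S}.ncard) :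
    δ * Nat.card (G ⧸ S) ≤ (fx (G ⧸ S) ({f} : Set G)).ncard := by
  rw [← cnt] at h
  have h1 : Nat.card G = Nat.card (G ⧸ S) * Nat.card S := Subgroup.card_eq_card_quotient_mul_card_subgroup S
  rw [h1] at h
  push_cast at h
  have hS : (0 : ℝ) < (Nat.card S : ℝ) := by
    have : 0 < Nat.card S := Nat.card_pos
    exact_mod_cast this
  rw [← mul_assoc] at h
  exact le_of_mul_le_mul_right h hS

/-- no point is fixed by everything. -/
theorem nofix {G : Type} [Group G] (S : Subgroup G) (hS : S ≠ ⊤) :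
    fx (G ⧸ S) (Set.univ : Set G) = ∅ := by
  by_contra hne
  obtain ⟨ω, hω⟩ := Set.nonempty_iff_ne_empty.mpr hne
  obtain ⟨g, rfl⟩ := QuotientGroup.mk_surjective ω
  apply hS
  rw [Subgroup.eq_top_iff']
  intro x
  have h := hω (g * x * g⁻¹) (Set.mem_univ _)
  have h2 : (QuotientGroup.mk ((g * x * g⁻¹) * g) : G ⧸ S) = QuotientGroup.mk g := h
  rw [QuotientGroup.eq] at h2
  have h3 := S.inv_mem h2
  have e : ((g * x * g⁻¹ * g)⁻¹ * g)⁻¹ = g⁻¹ * (g * x) := by group
  rw [e, inv_mul_cancel_left] at h3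
  exact h3

end THAM

theorem specTHA (hA1 : SpecA1) (hA2 : SpecA2) : SpecTHA := by
  intro δ hδ hδ1
  obtain ⟨q, hq⟩ := hA1 δ hδ hδ1
  obtain ⟨R, hR⟩ := hA2 δ hδ hδ1
  refine ⟨q, R, ?_⟩
  intro n K _ _ S hS f hf hcard
  let e : SLn n K ≃* SpecialLinearGroup K (Fin n → K) := Matrix.SpecialLinearGroup.toLin'_equiv
  haveI : Finite (SLn n K) := by
    haveI : Finite (Matrix (Fin n) (Fin n) K) := inferInstanceAs (Finite (Fin n → Fin n → K))
    exact Subtype.finite
  haveI : Finite (SpecialLinearGroup K (Fin n → K)) := Finite.of_equiv _ e.toEquiv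
  let S' : Subgroup (SpecialLinearGroup K (Fin n → K)) := S.map e.toMonoidHom
  have hmem : ∀ x : SLn n K, e x ∈ S' ↔ x ∈ S := by
    intro x
    constructor
    · rintro ⟨y, hy, hyx⟩
      have : y = x := e.injective hyx
      rwa [← this]
    · intro hx
      exact ⟨x, hx, rfl⟩
  have hS' : S' ≠ ⊤ := by
    intro h
    apply hS
    rw [Subgroup.eq_top_iff']
    intro x
    rw [← hmem, h]
    exact Subgroup.mem_top _
  have hcardG : Nat.card (SLn n K) = Nat.card (SpecialLinearGroup K (Fin n → K)) :=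
    Nat.card_congr e.toEquiv
  have hset : {y : SpecialLinearGroup K (Fin n → K) | y * e f * y⁻¹ ∈ S'} =
      e '' {y : SLn n K | y * f * y⁻¹ ∈ S} := by
    ext y
    simp only [Set.mem_setOf_eq, Set.mem_image]
    constructor
    · intro h
      refine ⟨e.symm y, ?_, e.apply_symm_apply y⟩
      rw [← hmem, map_mul, map_mul, map_inv, e.apply_symm_apply]
      exact h
    · rintro ⟨x, hx, rfl⟩
      rw [← hmem, map_mul, map_mul, map_inv] at hx
      exact hx
  have hbig : δ * Nat.card (SpecialLinearGroup K (Fin n → K) ⧸ S') ≤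
      (fx (SpecialLinearGroup K (Fin n → K) ⧸ S') ({e f} : Set _)).ncard := by
    apply THAM.prop
    rw [hset, Set.ncard_image_of_injective _ e.injective, ← hcardG]
    exact hcard
  have hno := THAM.nofix S' hS'
  have hap : ∀ v : Fin n → K, (e f) v = Matrix.mulVec f.1 v := fun v => rfl
  constructor
  · by_contra hlt
    have hlt' : q ≤ Nat.card K := not_lt.mp hlt
    have hns : ¬ ∃ a : K, ∀ v : Fin n → K, (e f) v = a • v := by
      rintro ⟨a, ha⟩
      apply hf
      have hfa : f.1 = a • (1 : Matrix (Fin n) (Fin n) K) := by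
        apply Matrix.ext_of_mulVec_single
        intro i
        have := ha (Pi.single i 1)
        rw [hap] at this
        rw [this, Matrix.smul_mulVec, Matrix.one_mulVec]
      rw [Subgroup.mem_center_iff]
      intro g
      apply Subtype.ext
      change g.1 * f.1 = f.1 * g.1
      rw [hfa, mul_smul_comm, mul_one, smul_mul_assoc, one_mul]
    have := hq K (Fin n → K) (SpecialLinearGroup K (Fin n → K) ⧸ S') hlt' hno (e f) hns
    exact absurd this (not_lt.mpr hbig)
  · by_contra hcon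
    push Not at hcon
    have := hR K (Fin n → K) (SpecialLinearGroup K (Fin n → K) ⧸ S') hno (e f) (by
      intro a
      have h := hcon a
      have e1 : (e f).1.toLinearMap - a • LinearMap.id =
          (f.1 - a • (1 : Matrix (Fin n) (Fin n) K)).mulVecLin := by
        apply LinearMap.ext
        intro v
        rw [LinearMap.sub_apply, LinearMap.smul_apply, LinearMap.id_apply,
          Matrix.mulVecLin_apply, Matrix.sub_mulVec, Matrix.smul_mulVec, Matrix.one_mulVec]
        rfl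
      rw [e1]
      exact h)
    exact absurd this (not_lt.mpr hbig)

end Pool.Agent.Lib.MP66ef6b.PL
end

section
set_option autoImplicit false

/-!
# MP_66ef6b_al, THEOREM L (helper14), module TIN (helper53)

Automorphisms of `PSL_n(K)` permute the transvections.
-/

namespace Pool.Agent.Lib.MP66ef6b.PL

open scoped Pointwise

namespace TINAux

variable {n : ℕ} {K : Type} [Field K]

theorem inv_mul_val (h : SLn n K) : (h⁻¹).1 * h.1 = 1 := by
  have := congrArg Subtype.val (inv_mul_cancel h)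
  rwa [Matrix.SpecialLinearGroup.coe_mul, Matrix.SpecialLinearGroup.coe_one] at this

theorem mul_inv_val (h : SLn n K) : h.1 * (h⁻¹).1 = 1 := by
  have := congrArg Subtype.val (mul_inv_cancel h)
  rwa [Matrix.SpecialLinearGroup.coe_mul, Matrix.SpecialLinearGroup.coe_one] at this

theorem tt_conj (q c : PSLn n K) (hc : c ∈ TT n K) : q * c * q⁻¹ ∈ TT n K := by
  obtain ⟨h, rfl⟩ := QuotientGroup.mk_surjective q
  obtain ⟨g, v, φ, ⟨h1, h2⟩, hv, hφ, rfl⟩ := hc
  refine ⟨h * g * h⁻¹, h.1.mulVec v, Matrix.vecMul φ (h⁻¹).1, ⟨?_, ?_⟩, ?_, ?_, ?_⟩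
  · rw [← Matrix.dotProduct_mulVec, Matrix.mulVec_mulVec, inv_mul_val, Matrix.one_mulVec, h1]
  · rw [Matrix.SpecialLinearGroup.coe_mul, Matrix.SpecialLinearGroup.coe_mul, h2,
      Matrix.mul_add, Matrix.add_mul, Matrix.mul_one, mul_inv_val, Matrix.mul_vecMulVec,
      Matrix.vecMulVec_mul]
  · intro h0
    apply hv
    have h3 : (h⁻¹).1.mulVec (h.1.mulVec v) = (h⁻¹).1.mulVec 0 := by rw [h0]
    rwa [Matrix.mulVec_mulVec, inv_mul_val, Matrix.one_mulVec, Matrix.mulVec_zero] at h3
  · intro h0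
    apply hφ
    have h3 : Matrix.vecMul (Matrix.vecMul φ (h⁻¹).1) h.1 = Matrix.vecMul 0 h.1 := by rw [h0]
    rwa [Matrix.vecMul_vecMul, inv_mul_val, Matrix.vecMul_one, Matrix.zero_vecMul] at h3
  · rfl

/-- a transvection is not central. -/
theorem transvection_ne {i j : Fin n} (hij : i ≠ j) (a : K) (ha : a ≠ 0) :
    (QuotientGroup.mk (Matrix.SpecialLinearGroup.transvection hij a) : PSLn n K) ≠ 1 := by
  intro h
  have h1 := (QuotientGroup.eq_one_iff _).1 h
  obtain ⟨r, _, hr⟩ := Matrix.SpecialLinearGroup.mem_center_iff.1 h1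
  have h2 := congrFun (congrFun hr i) j
  rw [Matrix.SpecialLinearGroup.transvection_coe] at h2
  apply ha
  simpa [Matrix.scalar_apply, Matrix.diagonal_apply_ne _ hij, Matrix.add_apply,
    Matrix.one_apply_ne hij, Matrix.single_apply_same] using h2.symm

end TINAux

open TINAux in
theorem specTIN (hSYL : SpecSYL) (hZCU : SpecZCU) (hTCJ : SpecTCJ) : SpecTIN := by
  intro n K _ _ hn r c hc
  obtain ⟨m, rfl⟩ : ∃ m, n = m + 1 := ⟨n - 1, by omega⟩
  obtain ⟨p, hchar⟩ := CharP.exists K
  have : Fintype K := Fintype.ofFinite K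
  have hp : Fact p.Prime := ⟨CharP.char_is_prime K p⟩
  obtain ⟨P, hP⟩ := hSYL (m + 1) K p hn
  have h0l : (0 : Fin (m + 1)) ≠ Fin.last m := by
    intro h
    have := congrArg Fin.val h
    simp at this
    omega
  -- the Sylow subgroup is mapped to a conjugate
  obtain ⟨g, hg⟩ := MulAction.exists_smul_eq (PSLn (m + 1) K) (r • P) P
  have hmem : ∀ x : PSLn (m + 1) K, x ∈ (P : Subgroup (PSLn (m + 1) K)) ↔
      ∃ w ∈ UT (m + 1) K, (QuotientGroup.mk w : PSLn (m + 1) K) = x := by
    intro x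
    have : x ∈ (P : Subgroup (PSLn (m + 1) K)) ↔
        x ∈ ((P : Subgroup (PSLn (m + 1) K)) : Set (PSLn (m + 1) K)) := Iff.rfl
    rw [this, hP]
    rfl
  have hfwd : ∀ x : PSLn (m + 1) K, x ∈ (P : Subgroup (PSLn (m + 1) K)) ↔
      ∃ y ∈ (P : Subgroup (PSLn (m + 1) K)), g * r y * g⁻¹ = x := by
    intro x
    have h1 : (P : Subgroup (PSLn (m + 1) K)) =
        MulAut.conj g • (r • (P : Subgroup (PSLn (m + 1) K))) := by
      have h2 : ((g • (r • P) : Sylow p (PSLn (m + 1) K)) : Subgroup (PSLn (m + 1) K)) =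
          (P : Subgroup (PSLn (m + 1) K)) := by rw [hg]
      rw [Sylow.smul_def, Sylow.pointwise_smul_def, Sylow.pointwise_smul_def] at h2
      exact h2.symm
    constructor
    · intro hx
      rw [h1] at hx
      obtain ⟨z, hz, hzx⟩ := (Subgroup.mem_smul_pointwise_iff_exists _ _ _).1 hx
      obtain ⟨y, hy, hyz⟩ := (Subgroup.mem_smul_pointwise_iff_exists _ _ _).1 hz
      refine ⟨y, hy, ?_⟩
      rw [← hzx, ← hyz]
      rfl
    · rintro ⟨y, hy, rfl⟩
      rw [h1]
      refine (Subgroup.mem_smul_pointwise_iff_exists _ _ _).2 ⟨r y, ?_, rfl⟩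
      exact (Subgroup.mem_smul_pointwise_iff_exists _ _ _).2 ⟨y, hy, rfl⟩
  obtain ⟨g0, v, φ, hTv, hv, hφ, rfl⟩ := hc
  obtain ⟨⟨h, a, ha, hconj⟩, _⟩ := hTCJ (m + 1) K g0 v φ hTv hv hφ 0 (Fin.last m) h0l
  set t : SLn (m + 1) K := Matrix.SpecialLinearGroup.transvection h0l a with ht
  have htUT : t ∈ UT (m + 1) K := by
    constructor
    · intro i
      rw [ht, Matrix.SpecialLinearGroup.transvection_coe, Matrix.add_apply, Matrix.one_apply_eq]
      rw [Matrix.single_apply_of_ne, add_zero]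
      rintro ⟨h1, h2⟩
      exact h0l (h1.trans h2.symm)
    · intro i j hij
      rw [ht, Matrix.SpecialLinearGroup.transvection_coe, Matrix.add_apply,
        Matrix.one_apply_ne hij.ne', zero_add]
      rw [Matrix.single_apply_of_ne]
      rintro ⟨h1, h2⟩
      rw [← h1] at hij
      exact absurd hij (Fin.not_lt_zero j)
  have hcomm : ∀ w ∈ UT (m + 1) K, t * w = w * t := by
    intro w hw
    apply Subtype.ext
    rw [Matrix.SpecialLinearGroup.coe_mul, Matrix.SpecialLinearGroup.coe_mul, ht,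
      Matrix.SpecialLinearGroup.transvection_coe, Matrix.add_mul, Matrix.mul_add, Matrix.one_mul,
      Matrix.mul_one]
    congr 1
    ext i j
    have h1 : (Matrix.single (0 : Fin (m + 1)) (Fin.last m) a * w.1) i j =
        if i = 0 ∧ j = Fin.last m then a else 0 := by
      by_cases hi : i = 0
      · subst hi
        rw [Matrix.single_mul_apply_same]
        by_cases hj : j = Fin.last m
        · subst hj
          rw [hw.1, mul_one, if_pos ⟨rfl, rfl⟩]
        · rw [hw.2 _ _ (lt_of_le_of_ne (Fin.le_last j) hj), mul_zero, if_neg (fun h => hj h.2)]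
      · rw [Matrix.single_mul_apply_of_ne _ _ _ _ _ hi, if_neg (fun h => hi h.1)]
    have h2 : (w.1 * Matrix.single (0 : Fin (m + 1)) (Fin.last m) a) i j =
        if i = 0 ∧ j = Fin.last m then a else 0 := by
      by_cases hj : j = Fin.last m
      · subst hj
        rw [Matrix.mul_single_apply_same]
        by_cases hi : i = 0
        · subst hi
          rw [hw.1, one_mul, if_pos ⟨rfl, rfl⟩]
        · rw [hw.2 _ _ (Fin.pos_of_ne_zero hi), zero_mul, if_neg (fun h => hi h.1)]
      · rw [Matrix.mul_single_apply_of_ne _ _ _ _ _ hj, if_neg (fun h => hj h.2)]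
    rw [h1, h2]
  set z : PSLn (m + 1) K := QuotientGroup.mk t with hz
  have hzP : z ∈ (P : Subgroup (PSLn (m + 1) K)) := (hmem z).2 ⟨t, htUT, rfl⟩
  have hzc : ∀ x ∈ (P : Subgroup (PSLn (m + 1) K)), z * x = x * z := by
    intro x hx
    obtain ⟨w, hw, rfl⟩ := (hmem x).1 hx
    have := congrArg (fun s : SLn (m + 1) K => (QuotientGroup.mk s : PSLn (m + 1) K)) (hcomm w hw)
    exact this
  obtain ⟨u, hu, huy⟩ := (hmem (g * r z * g⁻¹)).1 ((hfwd _).2 ⟨z, hzP, rfl⟩)
  have hucent : ∀ w ∈ UT (m + 1) K,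
      (QuotientGroup.mk (u * w) : PSLn (m + 1) K) = QuotientGroup.mk (w * u) := by
    intro w hw
    obtain ⟨y, hy, hyw⟩ := (hfwd (QuotientGroup.mk w)).1 ((hmem _).2 ⟨w, hw, rfl⟩)
    have h1 : (QuotientGroup.mk (u * w) : PSLn (m + 1) K) =
        (QuotientGroup.mk u : PSLn (m + 1) K) * QuotientGroup.mk w := rfl
    have h2 : (QuotientGroup.mk (w * u) : PSLn (m + 1) K) =
        (QuotientGroup.mk w : PSLn (m + 1) K) * QuotientGroup.mk u := rfl
    rw [h1, h2, huy, ← hyw]
    have h3 := congrArg r (hzc y hy)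
    rw [map_mul, map_mul] at h3
    calc g * r z * g⁻¹ * (g * r y * g⁻¹) = g * (r z * r y) * g⁻¹ := by group
      _ = g * (r y * r z) * g⁻¹ := by rw [h3]
      _ = g * r y * g⁻¹ * (g * r z * g⁻¹) := by group
  have hent := hZCU m K u hu hucent
  set b : K := u.1 0 (Fin.last m) with hb
  have humat : u.1 = 1 + Matrix.vecMulVec (Pi.single 0 b) (Pi.single (Fin.last m) (1 : K)) := by
    ext i j
    rw [Matrix.add_apply, Matrix.vecMulVec_apply]
    by_cases hij : i = j
    · subst hij
      rw [hu.1, Matrix.one_apply_eq]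
      by_cases hi : i = 0
      · subst hi
        rw [Pi.single_eq_of_ne h0l, mul_zero, add_zero]
      · rw [Pi.single_eq_of_ne hi, zero_mul, add_zero]
    · rw [Matrix.one_apply_ne hij, zero_add]
      by_cases h1 : i = 0 ∧ j = Fin.last m
      · rw [h1.1, h1.2, Pi.single_eq_same, Pi.single_eq_same, mul_one]
      · rw [hent i j hij h1]
        by_cases hi : i = 0
        · rw [Pi.single_eq_of_ne (fun hj => h1 ⟨hi, hj⟩), mul_zero]
        · rw [Pi.single_eq_of_ne hi, zero_mul]
  have hbne : b ≠ 0 := by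
    intro hb0
    have hu1 : u = 1 := by
      apply Subtype.ext
      rw [humat, hb0, Pi.single_zero, Matrix.zero_vecMulVec, add_zero]
      rfl
    rw [hu1] at huy
    have h1 : g * r z * g⁻¹ = 1 := huy.symm
    have h2 : r z = 1 := by
      have : r z = g⁻¹ * (g * r z * g⁻¹) * g := by group
      rw [this, h1]
      group
    have h3 : z = 1 := by
      apply r.injective
      rw [h2, map_one]
    exact transvection_ne h0l a ha h3
  have hyTT : g * r z * g⁻¹ ∈ TT (m + 1) K := by
    refine ⟨u, Pi.single 0 b, Pi.single (Fin.last m) 1, ⟨?_, humat⟩, ?_, ?_, huy⟩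
    · rw [dotProduct_single, Pi.single_eq_of_ne h0l, zero_mul]
    · intro h1
      have := congrFun h1 0
      rw [Pi.single_eq_same] at this
      exact hbne this
    · intro h1
      have := congrFun h1 (Fin.last m)
      rw [Pi.single_eq_same] at this
      exact one_ne_zero this
  have hconj' : (QuotientGroup.mk g0 : PSLn (m + 1) K) =
      (QuotientGroup.mk h : PSLn (m + 1) K)⁻¹ * z * QuotientGroup.mk h := by
    have h1 : (QuotientGroup.mk h : PSLn (m + 1) K) * QuotientGroup.mk g0 *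
        (QuotientGroup.mk h)⁻¹ = z := by
      rw [hz, ← hconj]
      rfl
    rw [← h1]
    group
  have hfin : r (QuotientGroup.mk g0 : PSLn (m + 1) K) =
      ((r (QuotientGroup.mk h))⁻¹ * g⁻¹) * (g * r z * g⁻¹) *
        ((r (QuotientGroup.mk h))⁻¹ * g⁻¹)⁻¹ := by
    rw [hconj', map_mul, map_mul, map_inv]
    group
  rw [hfin]
  exact tt_conj _ _ hyTT

end Pool.Agent.Lib.MP66ef6b.PL
end

section
set_option autoImplicit false

/-!
# MP_66ef6b_al, THEOREM L, module TMX (helper24): subgroups consisting of transvections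
-/

namespace Pool.Agent.Lib.MP66ef6b.PL

namespace TMXM

open Matrix

variable {n : ℕ} {K : Type} [Field K]

theorem one_mem_AA (v : Fin n → K) : (1 : PSLn n K) ∈ AA v :=
  ⟨1, 0, ⟨by simp, by simp⟩, rfl⟩

theorem one_mem_BB (φ : Fin n → K) : (1 : PSLn n K) ∈ BB φ :=
  ⟨1, 0, ⟨by simp, by simp⟩, rfl⟩

theorem toA {g : SLn n K} {v z χ : Fin n → K} {a : K} (h : IsTv g z χ) (hz : z = a • v) :
    IsTv g v (a • χ) := by
  refine ⟨?_, ?_⟩
  · have := h.1
    rw [hz, dotProduct_smul] at this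
    rw [smul_dotProduct]
    exact this
  · rw [h.2, hz, Matrix.smul_vecMulVec, Matrix.vecMulVec_smul]

theorem toB {g : SLn n K} {φ z χ : Fin n → K} {a : K} (h : IsTv g z χ) (hz : χ = a • φ) :
    IsTv g (a • z) φ := by
  refine ⟨?_, ?_⟩
  · have := h.1
    rw [hz, smul_dotProduct] at this
    rw [dotProduct_smul]
    exact this
  · rw [h.2, hz, Matrix.smul_vecMulVec, Matrix.vecMulVec_smul]

end TMXM

open TMXM in
theorem specTMX (hPRD : SpecPRD) : SpecTMX := by
  intro n K _ hn A hA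
  by_cases h1 : ∀ a ∈ A, a = 1
  · left
    refine ⟨Pi.single ⟨0, by omega⟩ 1, by simp, ?_⟩
    intro a ha
    rw [h1 a ha]
    exact one_mem_AA _
  push Not at h1
  obtain ⟨a₀, ha₀, ha₁⟩ := h1
  obtain ⟨g, v, φ, hg, hv, hφ, hga⟩ := hA a₀ ha₀ ha₁
  have hmul : ∀ (x y : SLn n K), (QuotientGroup.mk x : PSLn n K) ∈ A →
      (QuotientGroup.mk y : PSLn n K) ∈ A →
      (QuotientGroup.mk (x * y) : PSLn n K) ∈ TT n K ∨
        (QuotientGroup.mk (x * y) : PSLn n K) = 1 := by
    intro x y hx hy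
    by_cases h : (QuotientGroup.mk (x * y) : PSLn n K) = 1
    · exact Or.inr h
    · exact Or.inl (hA _ (A.mul_mem hx hy) h)
  by_cases hall : ∀ c ∈ A, ∀ (h : SLn n K) (z χ : Fin n → K), IsTv h z χ → z ≠ 0 → χ ≠ 0 →
      (QuotientGroup.mk h : PSLn n K) = c → ∃ a : K, z = a • v
  · left
    refine ⟨v, hv, ?_⟩
    intro c hc
    by_cases hc1 : c = 1
    · rw [hc1]
      exact one_mem_AA _
    · obtain ⟨h, z, χ, hh, hz, hχ, hm⟩ := hA c hc hc1
      obtain ⟨a, ha⟩ := hall c hc h z χ hh hz hχ hm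
      exact ⟨h, a • χ, toA hh ha, hm⟩
  right
  push Not at hall
  obtain ⟨b, hb, h, w, ψ, hh, hw, hψ, hm, hnot⟩ := hall
  have hgA : (QuotientGroup.mk g : PSLn n K) ∈ A := by rw [hga]; exact ha₀
  have hhA : (QuotientGroup.mk h : PSLn n K) ∈ A := by rw [hm]; exact hb
  obtain ⟨e, he⟩ : ∃ e : K, ψ = e • φ := by
    rcases hPRD n K hn g h v w φ ψ hg hh hv hw hφ hψ (hmul g h hgA hhA) with ⟨a, ha⟩ | h2
    · exact absurd ha (hnot a)
    · exact h2
  refine ⟨φ, hφ, ?_⟩
  intro c hc
  by_cases hc1 : c = 1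
  · rw [hc1]
    exact one_mem_BB _
  obtain ⟨k, z, χ, hk, hz, hχ, hkm⟩ := hA c hc hc1
  have hkA : (QuotientGroup.mk k : PSLn n K) ∈ A := by rw [hkm]; exact hc
  have hfin : ∃ a : K, χ = a • φ := by
    rcases hPRD n K hn g k v z φ χ hg hk hv hz hφ hχ (hmul g k hgA hkA) with ⟨a, ha⟩ | h2
    · rcases hPRD n K hn h k w z ψ χ hh hk hw hz hψ hχ (hmul h k hhA hkA) with ⟨b', hb'⟩ | ⟨d, hd⟩
      · exfalso
        have hb0 : b' ≠ 0 := by
          rintro rfl
          exact hz (by rw [hb', zero_smul])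
        apply hnot (b'⁻¹ * a)
        rw [mul_smul, ← ha, hb', smul_smul, inv_mul_cancel₀ hb0, one_smul]
      · exact ⟨d * e, by rw [hd, he, smul_smul]⟩
    · exact h2
  obtain ⟨a, ha⟩ := hfin
  exact ⟨k, a • z, toB hk ha, hkm⟩

end Pool.Agent.Lib.MP66ef6b.PL
end

section
set_option autoImplicit false

/-!
# MP_66ef6b_al, THEOREM L: module TRC (helper20), commutators with a root group
-/

namespace Pool.Agent.Lib.MP66ef6b.PL

namespace TRCM

variable {L : Type} [Field L]

/-- a vector which is not an eigenvector -/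
theorem exists_vec (g : SLn 2 L) (hg : g ∉ Subgroup.center (SLn 2 L)) :
    ∃ x y : L, g.1 1 0 * x ^ 2 + (g.1 1 1 - g.1 0 0) * x * y - g.1 0 1 * y ^ 2 ≠ 0 := by
  by_contra hcon
  push Not at hcon
  apply hg
  rw [Matrix.SpecialLinearGroup.mem_center_iff]
  have h1 : g.1 1 0 = 0 := by simpa using hcon 1 0
  have h2 : g.1 0 1 = 0 := by simpa using hcon 0 1
  have h3 : g.1 1 1 = g.1 0 0 := by
    have := hcon 1 1
    rw [h1, h2] at this
    linear_combination this
  have hd : g.1 0 0 * g.1 1 1 - g.1 0 1 * g.1 1 0 = 1 := by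
    have := g.2
    rwa [Matrix.det_fin_two] at this
  refine ⟨g.1 0 0, ?_, ?_⟩
  · rw [Fintype.card_fin]
    rw [h3, h2] at hd
    linear_combination hd
  · ext i j
    fin_cases i <;> fin_cases j
    · simp
    · simpa using h2.symm
    · simpa using h1.symm
    · simpa using h3.symm

/-- the root group -/
noncomputable def tm (x y u a : L) : SLn 2 L :=
  ⟨!![1 - a * u * x * y, a * u * x ^ 2; -(a * u * y ^ 2), 1 + a * u * x * y], by
    rw [Matrix.det_fin_two_of]; ring⟩

theorem tm_zero (x y u : L) : tm x y u 0 = 1 := by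
  ext i j
  fin_cases i <;> fin_cases j <;> simp [tm]

theorem tm_add (x y u a b : L) : tm x y u (a + b) = tm x y u a * tm x y u b := by
  ext i j
  rw [Matrix.SpecialLinearGroup.coe_mul]
  fin_cases i <;> fin_cases j <;> simp [tm, Matrix.mul_apply, Fin.sum_univ_two] <;> ring

/-- the root group as a homomorphism -/
noncomputable def th (x y u : L) : Multiplicative L →* SLn 2 L where
  toFun a := tm x y u a.toAdd
  map_one' := tm_zero x y u
  map_mul' a b := tm_add x y u a.toAdd b.toAdd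

theorem th_apply (x y u a : L) : th x y u (Multiplicative.ofAdd a) = tm x y u a := rfl

/-- the entries of the commutator -/
theorem comm_eq (g : SLn 2 L) (x y u a : L) :
    (g * tm x y u a * g⁻¹ * (tm x y u a)⁻¹ : SLn 2 L).1 =
      g.1 * !![1 - a * u * x * y, a * u * x ^ 2; -(a * u * y ^ 2), 1 + a * u * x * y] *
        !![g.1 1 1, -g.1 0 1; -g.1 1 0, g.1 0 0] *
        !![1 + a * u * x * y, -(a * u * x ^ 2); (a * u * y ^ 2), 1 - a * u * x * y] := by
  rw [Matrix.SpecialLinearGroup.coe_mul, Matrix.SpecialLinearGroup.coe_mul,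
    Matrix.SpecialLinearGroup.coe_mul, Matrix.SpecialLinearGroup.coe_inv,
    Matrix.SpecialLinearGroup.coe_inv, Matrix.adjugate_fin_two, Matrix.adjugate_fin_two]
  simp [tm]

end TRCM

open TRCM in
theorem specTRC : SpecTRC := by
  intro L _ g hg
  obtain ⟨x, y, hD⟩ := exists_vec g hg
  have hd : g.1 0 0 * g.1 1 1 - g.1 0 1 * g.1 1 0 = 1 := by
    have := g.2
    rwa [Matrix.det_fin_two] at this
  set D := g.1 1 0 * x ^ 2 + (g.1 1 1 - g.1 0 0) * x * y - g.1 0 1 * y ^ 2 with hDdef
  set u := D⁻¹ with hu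
  have hDu : D * u = 1 := mul_inv_cancel₀ hD
  refine ⟨th x y u, ?_, fun a => ⟨?_, ?_⟩⟩
  · rw [injective_iff_map_eq_one]
    intro a ha
    have h1 : tm x y u a.toAdd = 1 := ha
    have h2 := congrArg (fun z : SLn 2 L => z.1 0 1) h1
    have h3 := congrArg (fun z : SLn 2 L => z.1 1 0) h1
    have h4 : (a.toAdd : L) * u * x ^ 2 = 0 := by simpa [tm] using h2
    have h5 : (a.toAdd : L) * u * y ^ 2 = 0 := by simpa [tm] using h3
    have hu0 : u ≠ 0 := inv_ne_zero hD
    have h6 : (a.toAdd : L) = 0 := by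
      by_contra h7
      have hx : x = 0 := by
        rcases mul_eq_zero.1 h4 with h8 | h8
        · exact absurd h8 (mul_ne_zero h7 hu0)
        · exact pow_eq_zero_iff (two_ne_zero) |>.1 h8
      have hy : y = 0 := by
        rcases mul_eq_zero.1 h5 with h8 | h8
        · exact absurd h8 (mul_ne_zero h7 hu0)
        · exact pow_eq_zero_iff (two_ne_zero) |>.1 h8
      apply hD
      rw [hDdef, hx, hy]
      ring
    exact h6
  · rw [th_apply, comm_eq, Matrix.trace_fin_two]
    simp only [Matrix.mul_apply, Fin.sum_univ_two, Matrix.cons_val_zero, Matrix.cons_val_one,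
      Matrix.of_apply, Matrix.cons_val', Matrix.cons_val_fin_one]
    linear_combination 2 * hd + a ^ 2 * (D * u + 1) * hDu
  · intro ha hc
    rw [Matrix.SpecialLinearGroup.mem_center_iff] at hc
    obtain ⟨c, _, hc⟩ := hc
    rw [th_apply, comm_eq] at hc
    have k00 := congrFun (congrFun hc 0) 0
    have k01 := congrFun (congrFun hc 0) 1
    have k10 := congrFun (congrFun hc 1) 0
    have k11 := congrFun (congrFun hc 1) 1
    simp only [Matrix.mul_apply, Fin.sum_univ_two, Matrix.cons_val_zero, Matrix.cons_val_one,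
      Matrix.of_apply, Matrix.cons_val', Matrix.cons_val_fin_one, Matrix.scalar_apply,
      Matrix.diagonal_apply_eq, ne_eq, zero_ne_one, not_false_eq_true, one_ne_zero,
      Matrix.diagonal_apply_ne] at k00 k01 k10 k11
    have key : a * u * D ^ 2 = 0 := by
      rw [hDdef]
      linear_combination (x ^ 2) * k10 + x * y * (k11 - k00) - y ^ 2 * k01
    have h1 : a * D = 0 := by
      linear_combination key - a * D * hDu
    rcases mul_eq_zero.1 h1 with h2 | h2
    · exact ha h2
    · exact hD h2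

end Pool.Agent.Lib.MP66ef6b.PL
end

section
set_option autoImplicit false

/-!
# MP_66ef6b_al, THEOREM L, module TVE: transvections exist in the special linear group
-/

namespace Pool.Agent.Lib.MP66ef6b.PL

theorem specTVE : SpecTVE := by
  intro K V _ _ _ _ v φ h
  exact ⟨⟨LinearEquiv.transvection h, LinearEquiv.transvection.det_eq_one h⟩, fun x =>
    LinearEquiv.transvection.apply h x⟩

end Pool.Agent.Lib.MP66ef6b.PL
end

section
set_option autoImplicit false

/-!
# MP_66ef6b_al, THEOREM L, module ULF (helper50): small displacement in an ultraproduct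
-/

namespace Pool.Agent.Lib.MP66ef6b.PL

universe u

namespace ULFM

lemma label {α : Type u} (c : ℕ) (hc : 0 < c) (R : Set α) :
    ∃ j : α → Fin c, R.Finite ∧ R.ncard ≤ c → ∀ a ∈ R, ∀ b ∈ R, j a = j b → a = b := by
  classical
  by_cases h : R.Finite ∧ R.ncard ≤ c
  · have : Fintype R := h.1.fintype
    have hcard : Fintype.card R ≤ Fintype.card (Fin c) := by
      rw [Fintype.card_fin, ← Nat.card_eq_fintype_card]
      exact h.2
    obtain ⟨e⟩ := Function.Embedding.nonempty_of_card_le hcard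
    refine ⟨fun a => if ha : a ∈ R then e ⟨a, ha⟩ else ⟨0, hc⟩, fun _ a ha b hb hab => ?_⟩
    simp only [ha, hb, dif_pos] at hab
    exact congrArg Subtype.val (e.injective hab)
  · exact ⟨fun _ => ⟨0, hc⟩, fun h' => absurd h' h⟩

end ULFM

open ULFM in
theorem specULF : SpecULF.{u} := by
  classical
  intro I U V _ φ c h
  have hc : 0 < c := by
    obtain ⟨i, hi⟩ := h.exists
    have h1 : 0 < (Set.range fun v : V i => φ i v - v).ncard :=
      (Set.ncard_pos hi.1).2 ⟨φ i 0 - 0, 0, rfl⟩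
    exact lt_of_lt_of_le h1 hi.2
  have hlab := fun i => label c hc (Set.range fun v : V i => φ i v - v)
  choose j hj using hlab
  set R : Set (UltaM.UV U V) := Set.range fun v : UltaM.UV U V => UltaM.lift φ v - v with hR
  have hrep : ∀ x : R, ∃ v : ∀ i, V i, (x : UltaM.UV U V) = ((fun i => φ i (v i) - v i : ∀ i, V i) :
      UltaM.UV U V) := by
    rintro ⟨_, v, rfl⟩
    induction v using QuotientAddGroup.induction_on with
    | H v => exact ⟨v, rfl⟩
  choose v hv using hrep
  have hlim : ∀ x : R, ∃ a : Fin c, ∀ᶠ i in (U : Filter I), j i (φ i (v x i) - v x i) = a := by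
    intro x
    obtain ⟨a, -, ha⟩ := UltaM.exists_const U (fun i => j i (φ i (v x i) - v x i)) Set.univ
      Set.finite_univ (Filter.Eventually.of_forall fun _ => Set.mem_univ _)
    exact ⟨a, ha⟩
  choose l hl using hlim
  have hinj : Function.Injective l := by
    intro x y hxy
    apply Subtype.ext
    rw [hv x, hv y, UltaM.mk_eq]
    filter_upwards [hl x, hl y, h] with i hx hy hi
    exact hj i hi _ ⟨v x i, rfl⟩ _ ⟨v y i, rfl⟩ (hx.trans (hxy.trans hy.symm))
  have hfin : Finite R := Finite.of_injective l hinj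
  refine ⟨hfin, ?_⟩
  have h1 := Nat.card_le_card_of_injective l hinj
  rw [Nat.card_eq_fintype_card (α := Fin c), Fintype.card_fin] at h1
  exact h1

end Pool.Agent.Lib.MP66ef6b.PL
end

section
set_option autoImplicit false

/-!
# MP_66ef6b_al, THEOREM L, module VFP (helper35): vectors and functionals
-/

namespace Pool.Agent.Lib.MP66ef6b.PL

namespace VFPM

variable {K V : Type} [Field K] [AddCommGroup V] [Module K V] [Module.Finite K V]

theorem rank_symm (f : V ≃ₗ[K] V) (m : ℕ)
    (h : ∀ a : K, m < Module.finrank K (LinearMap.range (f.toLinearMap - a • LinearMap.id)))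
    (a : K) :
    m < Module.finrank K (LinearMap.range (f.symm.toLinearMap - a • LinearMap.id)) := by
  by_cases ha : a = 0
  · subst ha
    have h0 := h 0
    rw [zero_smul, sub_zero] at h0 ⊢
    rw [LinearEquiv.range] at h0 ⊢
    exact h0
  · refine lt_of_lt_of_le (h a⁻¹) ?_
    have hcomp : f.toLinearMap - a⁻¹ • LinearMap.id =
        (-a⁻¹ • f.toLinearMap) ∘ₗ (f.symm.toLinearMap - a • LinearMap.id) := by
      ext x
      have hx : f (f.symm x) = x := f.apply_symm_apply x
      simp only [LinearMap.sub_apply, LinearMap.smul_apply, LinearMap.id_apply,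
        LinearMap.comp_apply, LinearEquiv.coe_coe, map_sub, map_smul, LinearMap.neg_apply,
        neg_smul, hx, smul_neg, smul_smul]
      rw [mul_inv_cancel₀ ha]
      simp only [one_smul]
      abel
    rw [hcomp, LinearMap.range_comp]
    exact Submodule.finrank_map_le _ _

theorem span3 (k : ℕ) (u : Fin k → V) (v : Fin k → V) (w : Fin k → V) :
    Module.finrank K (Submodule.span K (Set.range u ∪ Set.range v ∪ Set.range w)) ≤ 3 * k := by
  rw [Submodule.span_union, Submodule.span_union]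
  have h1 := Submodule.finrank_add_le_finrank_add_finrank
    (Submodule.span K (Set.range u) ⊔ Submodule.span K (Set.range v))
    (Submodule.span K (Set.range w))
  have h2 := Submodule.finrank_add_le_finrank_add_finrank
    (Submodule.span K (Set.range u)) (Submodule.span K (Set.range v))
  have hu := finrank_range_le_card (R := K) u
  have hv := finrank_range_le_card (R := K) v
  have hw := finrank_range_le_card (R := K) w
  unfold Set.finrank at hu hv hw
  rw [Fintype.card_fin] at hu hv hw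
  omega

end VFPM

theorem specVFP (hGRV : SpecGRV) : SpecVFP := by
  intro K V _ _ _ _ f k hf
  obtain ⟨v, -, hv⟩ := hGRV K V f.toLinearMap ⊤ k (by
    intro a
    have := hf a
    rw [finrank_top]
    omega)
  set C : Submodule K V := Submodule.span K (Set.range v ∪ Set.range (fun i => f (v i)) ∪
    Set.range (fun i => f.symm (v i))) with hC
  have hCle : Module.finrank K C ≤ 3 * k := VFPM.span3 k _ _ _
  have hadd : Module.finrank K C + Module.finrank K C.dualAnnihilator = Module.finrank K V :=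
    Subspace.finrank_add_finrank_dualAnnihilator_eq C
  obtain ⟨φ, hφ, hφi⟩ := hGRV K (Module.Dual K V) f.symm.toLinearMap.dualMap C.dualAnnihilator k
    (by
      intro a
      have h1 := VFPM.rank_symm f (5 * k) hf a
      have h2 : (f.symm.toLinearMap.dualMap - a • LinearMap.id) =
          (f.symm.toLinearMap - a • LinearMap.id).dualMap := by
        ext ψ x
        simp
      rw [h2, LinearMap.finrank_range_dualMap_eq_finrank_range, Subspace.dual_finrank_eq]
      omega)
  refine ⟨v, φ, hv, hφi, ?_⟩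
  intro i j
  have hmem := (Submodule.mem_dualAnnihilator (φ i)).1 (hφ i)
  refine ⟨hmem _ (Submodule.subset_span ?_), hmem _ (Submodule.subset_span ?_),
    hmem _ (Submodule.subset_span ?_)⟩
  · exact Or.inl (Or.inl ⟨j, rfl⟩)
  · exact Or.inl (Or.inr ⟨j, rfl⟩)
  · exact Or.inr ⟨j, rfl⟩

end Pool.Agent.Lib.MP66ef6b.PL
end

section
set_option autoImplicit false

/-!
# MP_66ef6b_al, THEOREM L: module VPH (a vector and a functional)
-/

namespace Pool.Agent.Lib.MP66ef6b.PL

namespace VPHM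

/-- a functional which is nonzero at two nonzero vectors. -/
theorem two {K W : Type} [Field K] [AddCommGroup W] [Module K W] (x y : W) (hx : x ≠ 0)
    (hy : y ≠ 0) : ∃ φ : Module.Dual K W, φ x ≠ 0 ∧ φ y ≠ 0 := by
  have ex : ∀ z : W, z ≠ 0 → ∃ φ : Module.Dual K W, φ z ≠ 0 := by
    intro z hz
    by_contra hcon
    push Not at hcon
    exact hz ((Module.forall_dual_apply_eq_zero_iff K z).mp hcon)
  obtain ⟨a, ha⟩ := ex x hx
  obtain ⟨b, hb⟩ := ex y hy
  by_cases h1 : a y = 0
  · by_cases h2 : b x = 0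
    · refine ⟨a + b, ?_, ?_⟩
      · rw [LinearMap.add_apply, h2, add_zero]
        exact ha
      · rw [LinearMap.add_apply, h1, zero_add]
        exact hb
    · exact ⟨b, h2, hb⟩
  · exact ⟨a, ha, h1⟩

end VPHM

theorem specVPH : SpecVPH := by
  intro K V _ _ _ f hf
  have hv : ∃ v : V, f v ∉ Submodule.span K {v} := by
    by_contra hcon
    push Not at hcon
    apply hf
    have key := LinearMap.exists_eq_smul_id_of_forall_notLinearIndependent (R := K) (V := V)
      (f := f.toLinearMap) (by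
        intro v hli
        obtain ⟨a, ha⟩ := Submodule.mem_span_singleton.mp (hcon v)
        rw [LinearIndependent.pair_iff] at hli
        have h := hli a (-1) (by
          rw [neg_one_smul, LinearEquiv.coe_coe, ha]
          exact add_neg_cancel _)
        exact one_ne_zero (neg_eq_zero.mp h.2))
    obtain ⟨a, ha⟩ := key
    refine ⟨a, fun v => ?_⟩
    have := LinearMap.congr_fun ha v
    exact this
  obtain ⟨v, hv⟩ := hv
  have hv2 : f.symm v ∉ Submodule.span K {v} := by
    intro h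
    obtain ⟨a, ha⟩ := Submodule.mem_span_singleton.mp h
    have h1 : v = a • f v := by
      have := congrArg f ha
      rw [LinearEquiv.apply_symm_apply, map_smul] at this
      exact this.symm
    have ha0 : a ≠ 0 := by
      rintro rfl
      rw [zero_smul] at h1
      apply hv
      rw [h1, map_zero]
      exact Submodule.zero_mem _
    apply hv
    rw [Submodule.mem_span_singleton]
    refine ⟨a⁻¹, ?_⟩
    nth_rewrite 1 [h1]
    rw [smul_smul, inv_mul_cancel₀ ha0, one_smul]
  have e1 : (Submodule.span K {v}).mkQ (f v) ≠ 0 := by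
    rw [Submodule.mkQ_apply, Ne, Submodule.Quotient.mk_eq_zero]
    exact hv
  have e2 : (Submodule.span K {v}).mkQ (f.symm v) ≠ 0 := by
    rw [Submodule.mkQ_apply, Ne, Submodule.Quotient.mk_eq_zero]
    exact hv2
  obtain ⟨ψ, h1, h2⟩ := VPHM.two (K := K) _ _ e1 e2
  refine ⟨v, ψ.comp (Submodule.span K {v}).mkQ, ?_, h1, h2⟩
  have e3 : (Submodule.span K {v}).mkQ v = 0 := by
    rw [Submodule.mkQ_apply, Submodule.Quotient.mk_eq_zero]
    exact Submodule.mem_span_singleton_self v
  rw [LinearMap.comp_apply, e3, map_zero]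

end Pool.Agent.Lib.MP66ef6b.PL
end

section
set_option autoImplicit false

/-!
# MP_66ef6b_al, THEOREM L, ZCU: the centre of the unitriangular group
-/

namespace Pool.Agent.Lib.MP66ef6b.PL

namespace ZCUM

open Matrix

variable {n : ℕ} {K : Type} [Field K]

lemma ut_mul_diag {u w : SLn n K} (hu : u ∈ UT n K) (hw : w ∈ UT n K) (i : Fin n) :
    (u.1 * w.1) i i = 1 := by
  rw [Matrix.mul_apply, Finset.sum_eq_single i]
  · rw [hu.1 i, hw.1 i, one_mul]
  · intro k _ hk
    rcases lt_or_gt_of_ne hk with h | h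
    · rw [hu.2 i k h, zero_mul]
    · rw [hw.2 k i h, mul_zero]
  · intro h
    exact absurd (Finset.mem_univ i) h

lemma comm_of {m : ℕ} {u w : SLn (m + 1) K} (hu : u ∈ UT (m + 1) K) (hw : w ∈ UT (m + 1) K)
    (h : (QuotientGroup.mk (u * w) : PSLn (m + 1) K) = QuotientGroup.mk (w * u)) :
    u.1 * w.1 = w.1 * u.1 := by
  have h1 : (u * w)⁻¹ * (w * u) ∈ Subgroup.center (SLn (m + 1) K) := QuotientGroup.eq.mp h
  rw [Matrix.SpecialLinearGroup.mem_center_iff] at h1
  obtain ⟨r, -, hr⟩ := h1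
  have h2 : w.1 * u.1 = u.1 * w.1 * Matrix.scalar (Fin (m + 1)) r := by
    have h3 : w * u = u * w * ((u * w)⁻¹ * (w * u)) := by group
    have h4 := congrArg (fun z : SLn (m + 1) K => z.1) h3
    have h5 : (u * w * ((u * w)⁻¹ * (w * u))).1 = (u.1 * w.1) * ((u * w)⁻¹ * (w * u)).1 := rfl
    rw [hr]
    exact h4.trans h5
  have h6 := congrFun (congrFun h2 0) 0
  rw [ut_mul_diag hw hu, Matrix.scalar_apply, Matrix.mul_diagonal, ut_mul_diag hu hw, one_mul] at h6
  rw [h2, ← h6, map_one, mul_one]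

lemma tv_mem {i j : Fin n} (hij : i < j) (a : K) :
    Matrix.SpecialLinearGroup.transvection hij.ne a ∈ UT n K := by
  constructor
  · intro k
    rw [Matrix.SpecialLinearGroup.transvection_coe, Matrix.add_apply,
      Matrix.one_apply_eq, Matrix.single_apply_of_ne, add_zero]
    rintro ⟨rfl, h⟩
    exact absurd h hij.ne'
  · intro k l hkl
    rw [Matrix.SpecialLinearGroup.transvection_coe, Matrix.add_apply,
      Matrix.one_apply_ne hkl.ne', Matrix.single_apply_of_ne, add_zero]
    rintro ⟨rfl, rfl⟩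
    exact absurd hij (not_lt.mpr hkl.le)

lemma key {m : ℕ} {u : SLn (m + 1) K} (hu : u ∈ UT (m + 1) K)
    (h : ∀ w ∈ UT (m + 1) K,
      (QuotientGroup.mk (u * w) : PSLn (m + 1) K) = QuotientGroup.mk (w * u))
    {i j : Fin (m + 1)} (hij : i < j) :
    u.1 * Matrix.single i j 1 = Matrix.single i j 1 * u.1 := by
  have h1 := comm_of hu (tv_mem hij 1) (h _ (tv_mem hij 1))
  rw [Matrix.SpecialLinearGroup.transvection_coe, mul_add, add_mul, mul_one,
    one_mul] at h1
  exact add_left_cancel h1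

end ZCUM

open ZCUM in
theorem specZCU : SpecZCU := by
  intro n K _ u hu h i j hij hne
  by_cases hj : j = Fin.last n
  · have hi : 0 < i := Fin.pos_iff_ne_zero.mpr fun h0 => hne ⟨h0, hj⟩
    have h1 := congrFun (congrFun (key hu h hi) 0) j
    rw [Matrix.mul_single_apply_of_ne _ _ _ _ _ hij.symm, Matrix.single_mul_apply_same,
      one_mul] at h1
    exact h1.symm
  · have hj' : j < Fin.last n := lt_of_le_of_ne (Fin.le_last j) hj
    have h1 := congrFun (congrFun (key hu h hj') i) (Fin.last n)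
    rw [Matrix.mul_single_apply_same, mul_one, Matrix.single_mul_apply_of_ne _ _ _ _ _ hij] at h1
    exact h1

end Pool.Agent.Lib.MP66ef6b.PL
end
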