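import Pool.Agent.Lib.MP_66ef6b_al.PL.CBK
import Pool.Agent.Lib.MP_66ef6b_al.PL.OUL
import Pool.Agent.Lib.MP_66ef6b_al.PL.LFT
import Pool.Agent.Lib.MP_66ef6b_al.PL.ZCU
import Pool.Agent.Lib.MP_66ef6b_al.PL.S2A
import Pool.Agent.Lib.MP_66ef6b_al.PL.S2B
import Pool.Agent.Lib.MP_66ef6b_al.PL.SEM
import Pool.Agent.Lib.MP_66ef6b_al.PL.SYL

set_option autoImplicit false

/-! # MP_66ef6b_al, THEOREM L: assembly -/

namespace Pool.Agent.Lib.MP66ef6b.PL

universe u

theorem thA : SpecTHA := by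
  have hPICK : SpecPICK := specPICK specAVG
  have hSL2M : SpecSL2M := specSL2M hPICK specIDX specORB specTRC (specCLS specCEN)
  have hSL2F : SpecSL2F := specSL2F hSL2M
  have hSTEP : SpecSTEP := specSTEP specMAUT (specGEN specTVE) specTVE
  have hCLM : SpecCLM := specCLM hSTEP (specIRE specTVE)
  have hCBK : SpecCBK := specCBK hSL2F hCLM specFUL
  have hCBL : SpecCBL := specCBL hSL2F hSTEP specIRB hCLM specFUL
  have hA1 : SpecA1 := specA1 hPICK specVPH specTVE specA1B specBLK hCBK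
  have hCOM : SpecCOM := specCOM (specVFP (specGRV specGRS)) specEXT
  have hA2 : SpecA2 := specA2 hPICK hCOM specEXT specQUN specBLK hCBL
  exact specTHA hA1 hA2

theorem oul : SpecOUL.{u} := by
  have hTIN : SpecTIN := specTIN specSYL specZCU specTCJ
  have hFRT : SpecFRT := specFRT hTIN (specTMX specPRD) specAAF
  have hSEM : SpecSEM := specSEM specAAF specSML2 specSCM
  have hOU3 : SpecOU3 := specOU3 specAAF hFRT hSEM specCNT specGDD specLFT.{0}
    (specPFX specPHM.{0})
  have hS2A : SpecS2A := specS2A specAAF specAUT specPHM.{0}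
  have hS2B : SpecS2B := specS2B specSYL specAAF specPHM.{0}
  exact specOUL hOU3 (specOU2 specSYL specLFT.{0} hS2A hS2B)

/-- THEOREM L. -/
theorem main : SpecMNL.{u} := by
  have hSMP : SpecSMP.{u} := specSMP specPRF.{u} oul.{u}
  have hREP : SpecREP.{u} := specREP specLFU specNRM.{u} specULF.{u}
  have hBGF : SpecBGF.{u} := specBGF specTRV specTCJ specGNU
  have hAFF : SpecAFF.{u} := specAFF hBGF specSPR.{u}
  exact specMNL (specLIN hSMP (specSUP thA) specCST.{u} hREP hAFF)

end Pool.Agent.Lib.MP66ef6b.PL
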